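import Pool.Agent.Helper93K9.PE.DvBase

/-!
# Leaf AVG
-/

set_option autoImplicit false
open MeasureTheory Filter Topology Complex
open scoped ContDiff

namespace Pool.Agent.Helper93K9.PE

open Pool.Agent.W745.RW Pool.Agent.TH294.RS Pool.Agent.Y265.HY
open Pool.Agent.TH294.RG (dm mu dm_int int_dm)

noncomputable section

namespace AvgL

/-- rotation invariance of the uniform measure on the disc -/
theorem rot (c : Circle) (f : ℂ → ℂ) : ∫ v, f (c * v) ∂dm = ∫ v, f v ∂dm := by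
  rw [int_dm, int_dm]
  congr 1
  have h1 : MeasurePreserving (rotation c) (volume : Measure ℂ) volume :=
    (rotation c).measurePreserving
  have h2 := h1.setIntegral_preimage_emb (rotation c).toHomeomorph.measurableEmbedding f
    (Metric.ball (0 : ℂ) 1)
  have h3 : (rotation c) ⁻¹' (Metric.ball (0 : ℂ) 1) = Metric.ball (0 : ℂ) 1 := by
    ext v
    rw [Set.mem_preimage, mem_ball_zero_iff, mem_ball_zero_iff, LinearIsometryEquiv.norm_map]
  rw [h3] at h2
  rw [← h2]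
  rfl

/-- moments with different exponents vanish -/
theorem mom_zero (a b : ℕ) (hab : a ≠ b) : ∫ v, v ^ a * (starRingEnd ℂ) v ^ b ∂dm = 0 := by
  -- a rotation
  obtain ⟨c, hc⟩ : ∃ c : Circle, (c : ℂ) ^ a * (starRingEnd ℂ) (c : ℂ) ^ b = -1 := by
    have hd : ((a : ℝ) - b) ≠ 0 := by
      intro h
      apply hab
      have : (a : ℝ) = b := by linarith
      exact_mod_cast this
    refine ⟨Circle.exp (Real.pi / ((a : ℝ) - b)), ?_⟩
    rw [Circle.coe_exp, ← Complex.exp_conj, ← Complex.exp_nat_mul, ← Complex.exp_nat_mul,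
      ← Complex.exp_add, ← Complex.exp_pi_mul_I]
    congr 1
    rw [map_mul, Complex.conj_ofReal, Complex.conj_I]
    have hd' : ((a : ℂ) - b) ≠ 0 := by
      intro h
      apply hd
      have : (((a : ℝ) - b : ℝ) : ℂ) = 0 := by
        push_cast
        exact h
      exact_mod_cast this
    push_cast
    field_simp
    ring
  have h1 := rot c (fun v => v ^ a * (starRingEnd ℂ) v ^ b)
  have h2 : ∀ v : ℂ, ((c : ℂ) * v) ^ a * (starRingEnd ℂ) ((c : ℂ) * v) ^ b =
      (-1) * (v ^ a * (starRingEnd ℂ) v ^ b) := by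
    intro v
    rw [map_mul, mul_pow, mul_pow, ← hc]
    ring
  simp only [h2] at h1
  rw [integral_const_mul] at h1
  have h3 : (2 : ℂ) * ∫ v, v ^ a * (starRingEnd ℂ) v ^ b ∂dm = 0 := by linear_combination -h1
  rcases mul_eq_zero.1 h3 with h | h
  · norm_num at h
  · exact h

/-- the sum of the moments over an antidiagonal -/
theorem sum_mom (j : ℕ) (c : ℕ → ℕ → ℂ) :
    ∫ v, ∑ p ∈ Finset.HasAntidiagonal.antidiagonal j,
      ((j.choose p.1 : ℂ) * ((2⁻¹ : ℂ) ^ j * (v ^ p.1 * (starRingEnd ℂ) v ^ p.2))) *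
        c p.1 p.2 ∂dm =
    ∑ p ∈ Finset.HasAntidiagonal.antidiagonal j,
      ((j.choose p.1 : ℂ) * (2⁻¹ : ℂ) ^ j * c p.1 p.2) *
        ∫ v, v ^ p.1 * (starRingEnd ℂ) v ^ p.2 ∂dm := by
  rw [integral_finsetSum _ fun p _ => dm_int (by fun_prop)]
  refine Finset.sum_congr rfl fun p _ => ?_
  rw [← integral_const_mul]
  congr 1
  funext v
  ring

theorem even (i : ℕ) (c : ℕ → ℕ → ℂ) :
    ∫ v, ∑ p ∈ Finset.HasAntidiagonal.antidiagonal (2 * i),
      (((2 * i).choose p.1 : ℂ) * ((2⁻¹ : ℂ) ^ (2 * i) * (v ^ p.1 * (starRingEnd ℂ) v ^ p.2))) *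
        c p.1 p.2 ∂dm =
    (((2 * i).choose i : ℂ) * (2⁻¹ : ℂ) ^ (2 * i) *
      ∫ v, v ^ i * (starRingEnd ℂ) v ^ i ∂dm) * c i i := by
  rw [sum_mom (2 * i) c, Finset.sum_eq_single (i, i)]
  · ring
  · intro p hp hne
    have h3 : p.1 + p.2 = 2 * i := Finset.HasAntidiagonal.mem_antidiagonal.1 hp
    rw [mom_zero p.1 p.2 (fun h => hne (Prod.ext (by simp only; omega) (by simp only; omega))),
      mul_zero]
  · intro h
    exact absurd (Finset.HasAntidiagonal.mem_antidiagonal.2 (by simp only; ring)) h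

theorem mu_eq (i : ℕ) : (mu i : ℂ) = ((2 * i).choose i : ℂ) * (2⁻¹ : ℂ) ^ (2 * i) *
    ∫ v, v ^ i * (starRingEnd ℂ) v ^ i ∂dm := by
  have h1 := even i (fun _ _ => 1)
  rw [mul_one] at h1
  rw [← h1]
  unfold mu
  rw [← integral_complex_ofReal]
  congr 1
  funext v
  have h2 : ((v.re : ℝ) : ℂ) = 2⁻¹ * (v + (starRingEnd ℂ) v) := by
    rw [Complex.add_conj]
    push_cast
    ring
  push_cast
  rw [h2, mul_pow]
  have h3 := (Commute.all v ((starRingEnd ℂ) v)).add_pow' (2 * i)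
  rw [h3, Finset.mul_sum]
  refine Finset.sum_congr rfl fun p _ => ?_
  rw [nsmul_eq_mul]
  ring

theorem G_diag {B : Set ℂ} (hB : IsOpen B) {g : ℂ → ℂ} (hg : ContDiffOn ℝ ∞ g B) (i : ℕ) :
    ∀ z ∈ B, DvL.G g i i z = (lp^[i] g) z := by
  induction i with
  | zero =>
    intro z _
    rfl
  | succ i ih =>
    intro z hz
    have hlp : lp = fun F => lap F := rfl
    rw [← DvL.dd_G g i (i + 1), dd_cg hB (fun z hz => (DvL.db_G hB hg i i z hz).symm) hz,
      dd_db hB (DvL.G_sm hB hg i i) hz, Function.iterate_succ_apply']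
    unfold lp lap dx dy
    have h1 : ∀ v : ℂ, ∀ w ∈ B, fderiv ℝ (DvL.G g i i) w v = fderiv ℝ (lp^[i] g) w v :=
      fun v w hw => fd_cg hB ih hw v
    have h2 : ∀ v w : ℂ, fderiv ℝ (fun z => fderiv ℝ (DvL.G g i i) z v) z w =
        fderiv ℝ (fun z => fderiv ℝ (lp^[i] g) z v) z w :=
      fun v w => fd_cg hB (h1 v) hz w
    exact congrArg₂ (· + ·) (h2 1 1) (h2 I I)

end AvgL

/-- **AVG** -/
theorem avg : S_AVG := by
  intro B hB g hg z hz i
  constructor
  · have h1 : (fun v => ((dv v)^[2 * i] g) z) = fun v =>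
        ∑ p ∈ Finset.HasAntidiagonal.antidiagonal (2 * i),
      (((2 * i).choose p.1 : ℂ) * ((2⁻¹ : ℂ) ^ (2 * i) * (v ^ p.1 * (starRingEnd ℂ) v ^ p.2))) *
        DvL.G g p.1 p.2 z := by
      funext v
      exact DvL.expand hB hg v (2 * i) z hz
    rw [h1, AvgL.even i (fun k l => DvL.G g k l z), ← AvgL.mu_eq, AvgL.G_diag hB hg i z hz]
  · have h1 : (fun v => ((dv v)^[2 * i + 1] g) z) = fun v =>
        ∑ p ∈ Finset.HasAntidiagonal.antidiagonal (2 * i + 1),
      (((2 * i + 1).choose p.1 : ℂ) * ((2⁻¹ : ℂ) ^ (2 * i + 1) *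
        (v ^ p.1 * (starRingEnd ℂ) v ^ p.2))) * DvL.G g p.1 p.2 z := by
      funext v
      exact DvL.expand hB hg v (2 * i + 1) z hz
    rw [h1, AvgL.sum_mom (2 * i + 1) (fun k l => DvL.G g k l z)]
    refine Finset.sum_eq_zero fun p hp => ?_
    have h3 : p.1 + p.2 = 2 * i + 1 := Finset.HasAntidiagonal.mem_antidiagonal.1 hp
    rw [AvgL.mom_zero p.1 p.2 (by omega), mul_zero]

end

end Pool.Agent.Helper93K9.PE
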