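import Pool.Agent.Helper93K9.PE.Star

/-!
# [ID] the identity at a fixed scale (helper55)
-/

set_option autoImplicit false
open MeasureTheory Filter Topology Complex
open scoped ContDiff

namespace Pool.Agent.Helper93K9.PE

open Pool.Agent.W745.RW Pool.Agent.TH294.RS Pool.Agent.Y265.HY
open Pool.Agent.TH294.RG (dm mu FP)

noncomputable section

namespace IdL

open LocL StarL

lemma m_int {μ : Measure ℂ} [IsProbabilityMeasure μ] (hμ : ∀ᵐ x ∂μ, ‖x‖ ≤ 1) {G : ℂ → ℝ}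
    (hG : ContinuousOn G (Metric.closedBall (0 : ℂ) 1)) : Integrable G μ := by
  obtain ⟨h1, M, hM⟩ := bdd hG
  have h2 : Integrable (fun x => G (rb x)) μ :=
    Integrable.of_bound h1.aestronglyMeasurable M (ae_of_all _ hM)
  exact h2.congr (hμ.mono fun x hx => by simp only [rb_eq hx])

lemma jens {μ : Measure ℂ} [IsProbabilityMeasure μ] (hμ : ∀ᵐ x ∂μ, ‖x‖ ≤ 1) {G : ℂ → ℝ}
    (hG : ContinuousOn G (Metric.closedBall (0 : ℂ) 1)) :
    (∫ x, G x ∂μ) ^ 2 ≤ ∫ x, G x ^ 2 ∂μ := by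
  set m := ∫ x, G x ∂μ with hm
  have h1 := m_int hμ hG
  have h2 : Integrable (fun x => G x ^ 2) μ := m_int hμ (hG.pow 2)
  have h3 : 0 ≤ ∫ x, (G x - m) ^ 2 ∂μ := integral_nonneg fun x => sq_nonneg _
  have h4 : ∫ x, (G x - m) ^ 2 ∂μ = (∫ x, G x ^ 2 ∂μ) - m ^ 2 := by
    have e : ∀ x, (G x - m) ^ 2 = G x ^ 2 - (2 * m * G x - m ^ 2) := fun x => by ring
    simp only [e]
    have e2 : ∫ x, (G x ^ 2 - (2 * m * G x - m ^ 2)) ∂μ =
        (∫ x, G x ^ 2 ∂μ) - ∫ x, (2 * m * G x - m ^ 2) ∂μ :=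
      integral_sub h2 ((h1.const_mul (2 * m)).sub (integrable_const (m ^ 2)))
    have e3 : ∫ x, (2 * m * G x - m ^ 2) ∂μ = (∫ x, 2 * m * G x ∂μ) - ∫ _, m ^ 2 ∂μ :=
      integral_sub (h1.const_mul (2 * m)) (integrable_const (m ^ 2))
    rw [e2, e3, integral_const_mul, ← hm]
    simp
    ring
  linarith

/-- Fubini and the shift estimate, for the uniform measure of the disc -/
lemma shift' {B : Set ℂ} (hB : IsOpen B) {φ φ' : ℂ → ℝ} (hφ : TF B φ) {s0 : ℝ}
    (hball : ∀ z ∈ tsupport φ, ∀ v : ℂ, ‖v‖ ≤ s0 → z + (z.im : ℂ) * v ∈ B)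
    (hsh : ∀ v : ℂ, ‖v‖ ≤ s0 → ∀ Q : ℂ → ℝ, (∀ z, 0 ≤ Q z) → ContinuousOn Q B →
      ∫ z, |φ z| * Q (z + (z.im : ℂ) * v) ≤ 2 * ∫ z, φ' z * Q z)
    {r : ℝ} (hr0 : 0 ≤ r) (hr : r ≤ s0) {Q : ℂ → ℝ} (hQ0 : ∀ z, 0 ≤ Q z)
    (hQ : ContinuousOn Q B) :
    Integrable (fun z => |φ z| * ∫ x, Q (z + ((r * z.im : ℝ) : ℂ) * x) ∂dm) ∧
    ∫ z, |φ z| * ∫ x, Q (z + ((r * z.im : ℝ) : ℂ) * x) ∂dm ≤ 2 * ∫ z, φ' z * Q z := by
  have hT : Continuous (fun p : ℂ × ℂ => p.1 + ((r * p.1.im : ℝ) : ℂ) * rb p.2) := by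
    have := rb_cont
    fun_prop
  have hTB : ∀ z ∈ tsupport φ, ∀ x : ℂ,
      (fun p : ℂ × ℂ => p.1 + ((r * p.1.im : ℝ) : ℂ) * rb p.2) (z, x) ∈ B := by
    intro z hz x
    have h1 : ‖(r : ℂ) * rb x‖ ≤ s0 := by
      rw [norm_mul, Complex.norm_real, Real.norm_of_nonneg hr0]
      have := rb_le x
      nlinarith
    have h2 := hball z hz _ h1
    have e : z + ((r * z.im : ℝ) : ℂ) * rb x = z + (z.im : ℂ) * ((r : ℂ) * rb x) := by
      push_cast; ring
    change z + ((r * z.im : ℝ) : ℂ) * rb x ∈ B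
    rw [e]
    exact h2
  have hc0 := cg hB hφ.1.continuous hQ hT hTB
  have hc : Continuous (fun p : ℂ × ℂ => |φ p.1| * Q (p.1 + ((r * p.1.im : ℝ) : ℂ) * rb p.2)) := by
    have h1 := hc0.abs
    refine h1.congr fun p => ?_
    rw [abs_mul, abs_of_nonneg (hQ0 _)]
  set g : ℂ × ℂ → ℝ := fun p => |φ p.1| * Q (p.1 + ((r * p.1.im : ℝ) : ℂ) * rb p.2) with hg
  obtain ⟨M, hM⟩ := ((hφ.2.1.isCompact).prod (isCompact_closedBall (0 : ℂ) 1)
    ).exists_bound_of_continuousOn hc.continuousOn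
  have hrr : ∀ x : ℂ, rb (rb x) = rb x := fun x => rb_eq (rb_le x)
  have hgb : ∀ p : ℂ × ℂ, ‖g p‖ ≤ (tsupport φ).indicator (fun _ => M) p.1 := by
    rintro ⟨z, x⟩
    by_cases hz : z ∈ tsupport φ
    · rw [Set.indicator_of_mem hz]
      have h1 := hM (z, rb x) ⟨hz, by simpa using rb_le x⟩
      have h2 : g (z, rb x) = g (z, x) := by simp only [hg, hrr]
      rw [h2] at h1
      exact h1
    · rw [Set.indicator_of_notMem hz]
      have h1 : φ z = 0 := image_eq_zero_of_notMem_tsupport hz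
      simp only [hg, h1, abs_zero, zero_mul, norm_zero, le_refl]
  have hbi : Integrable (fun z : ℂ => (tsupport φ).indicator (fun _ => M) z) := by
    refine (integrable_indicator_iff (isClosed_tsupport φ).measurableSet).2 ?_
    exact integrableOn_const hφ.2.1.isCompact.measure_lt_top.ne
  have hgi : Integrable g (volume.prod dm) :=
    (hbi.comp_fst dm).mono' hc.aestronglyMeasurable (ae_of_all _ hgb)
  have hae : ∀ᵐ x ∂dm, ‖x‖ ≤ 1 := Pool.Agent.TH294.RG.dm_ae.mono fun x hx => hx.le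
  have hin : ∀ z, ∫ x, g (z, x) ∂dm = |φ z| * ∫ x, Q (z + ((r * z.im : ℝ) : ℂ) * x) ∂dm := by
    intro z
    rw [← integral_const_mul]
    refine integral_congr_ae (hae.mono fun x hx => ?_)
    simp only [hg, rb_eq hx]
  constructor
  · have h1 := hgi.integral_prod_left
    simp only [hin] at h1
    exact h1
  · have e1 : ∫ z, |φ z| * ∫ x, Q (z + ((r * z.im : ℝ) : ℂ) * x) ∂dm =
        ∫ x, (∫ z, g (z, x)) ∂dm := by
      simp only [← hin]
      exact integral_integral_swap hgi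
    rw [e1]
    have h2 : ∀ᵐ x ∂dm, (∫ z, g (z, x)) ≤ 2 * ∫ z, φ' z * Q z := by
      refine hae.mono fun x hx => ?_
      have h3 : ‖(r : ℂ) * x‖ ≤ s0 := by
        rw [norm_mul, Complex.norm_real, Real.norm_of_nonneg hr0]
        nlinarith [norm_nonneg x]
      refine le_trans (le_of_eq ?_) (hsh _ h3 Q hQ0 hQ)
      refine integral_congr_ae (ae_of_all _ fun z => ?_)
      simp only [hg, rb_eq hx]
      congr 2
      push_cast; ring
    set c : ℝ := 2 * ∫ z, φ' z * Q z with hc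
    calc ∫ x, (∫ z, g (z, x)) ∂dm ≤ ∫ _, c ∂dm :=
          integral_mono_ae hgi.integral_prod_right (integrable_const c) h2
      _ = c := by simp

lemma cg1a {B : Set ℂ} (hB : IsOpen B) {φ : ℂ → ℝ} (hφ : TF B φ) {Q : ℂ → ℝ}
    (hQ0 : ∀ z, 0 ≤ Q z) (hQ : ContinuousOn Q B) : Integrable (fun z => |φ z| * Q z) := by
  have h4 := (cg1 hB hφ hQ).abs
  refine h4.congr (ae_of_all _ fun z => ?_)
  simp only [abs_mul, abs_of_nonneg (hQ0 z)]

/-- complex version of `cg` -/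
lemma cgC {X : Type*} [TopologicalSpace X] {B : Set ℂ} (hB : IsOpen B) {φ : ℂ → ℝ}
    (hφ : Continuous φ) {Q : ℂ → ℂ} (hQ : ContinuousOn Q B) {T : ℂ × X → ℂ} (hT : Continuous T)
    (hTB : ∀ z ∈ tsupport φ, ∀ x, T (z, x) ∈ B) :
    Continuous (fun p : ℂ × X => ((φ p.1 : ℝ) : ℂ) * Q (T p)) := by
  rw [continuous_iff_continuousAt]
  rintro ⟨z, x⟩
  by_cases hz : z ∈ tsupport φ
  · have h1 : ContinuousAt Q (T (z, x)) := hQ.continuousAt (hB.mem_nhds (hTB z hz x))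
    exact ((continuous_ofReal.comp (hφ.comp continuous_fst)).continuousAt).mul
      (ContinuousAt.comp (f := T) (g := Q) h1 hT.continuousAt)
  · have h1 : φ =ᶠ[𝓝 z] 0 := notMem_tsupport_iff_eventuallyEq.1 hz
    have h2 : ∀ᶠ p : ℂ × X in 𝓝 (z, x), ((φ p.1 : ℝ) : ℂ) * Q (T p) = 0 := by
      have h3 := (continuous_fst (X := ℂ) (Y := X)).continuousAt (x := (z, x)) |>.eventually h1
      refine h3.mono fun p hp => ?_
      have : φ p.1 = 0 := hp
      rw [this]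
      simp
    exact (continuousAt_const (y := (0 : ℂ))).congr (h2.mono fun p hp => hp.symm)

lemma cg1C {B : Set ℂ} (hB : IsOpen B) {φ : ℂ → ℝ} (hφ : TF B φ) {Q : ℂ → ℂ}
    (hQ : ContinuousOn Q B) : Integrable (fun z => ((φ z : ℝ) : ℂ) * Q z) := by
  have h1 : Continuous (fun p : ℂ × Unit => ((φ p.1 : ℝ) : ℂ) * Q p.1) :=
    cgC hB hφ.1.continuous hQ continuous_fst fun z hz _ => hφ.2.2 hz
  have h2 : Continuous (fun z : ℂ => ((φ z : ℝ) : ℂ) * Q z) :=
    h1.comp (continuous_id.prodMk continuous_const : Continuous fun z : ℂ => (z, ()))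
  have h3 : HasCompactSupport (fun z : ℂ => ((φ z : ℝ) : ℂ)) :=
    hφ.2.1.comp_left (g := fun x : ℝ => (x : ℂ)) (by simp)
  exact h2.integrable_of_hasCompactSupport h3.mul_right

/-- the mean is continuous -/
lemma AC {B : Set ℂ} (hB : IsOpen B) {χ : ℂ → ℝ} (hχ : TF B χ) {s0 : ℝ}
    (hball : ∀ z ∈ tsupport χ, ∀ v : ℂ, ‖v‖ ≤ s0 → z + (z.im : ℂ) * v ∈ B)
    {h : ℕ → ℝ} {u : ℕ → ℂ → ℂ} {n : ℕ} (hu : ContinuousOn (u n) B) {R : ℝ}
    (hr0 : 0 ≤ R * h n) (hr : R * h n ≤ s0) :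
    ∃ At : ℂ → ℂ, Continuous At ∧ ∀ z, χ z = 1 → At z = AV h u R n z := by
  have hT : Continuous (fun p : ℂ × ℂ => p.1 + ((R * h n * p.1.im : ℝ) : ℂ) * rb p.2) := by
    have := rb_cont
    fun_prop
  have hTB : ∀ z ∈ tsupport χ, ∀ x : ℂ,
      (fun p : ℂ × ℂ => p.1 + ((R * h n * p.1.im : ℝ) : ℂ) * rb p.2) (z, x) ∈ B := by
    intro z hz x
    have h1 : ‖((R * h n : ℝ) : ℂ) * rb x‖ ≤ s0 := by
      rw [norm_mul, Complex.norm_real, Real.norm_of_nonneg hr0]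
      have := rb_le x
      nlinarith
    have h2 := hball z hz _ h1
    have e : z + ((R * h n * z.im : ℝ) : ℂ) * rb x =
        z + (z.im : ℂ) * (((R * h n : ℝ) : ℂ) * rb x) := by
      push_cast; ring
    change z + ((R * h n * z.im : ℝ) : ℂ) * rb x ∈ B
    rw [e]
    exact h2
  have hc := cgC hB hχ.1.continuous (Q := fun z => u n z * u n z) (hu.mul hu) hT hTB
  set g : ℂ × ℂ → ℂ := fun p => ((χ p.1 : ℝ) : ℂ) *
    (fun z => u n z * u n z) (p.1 + ((R * h n * p.1.im : ℝ) : ℂ) * rb p.2) with hg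
  obtain ⟨M, hM⟩ := ((hχ.2.1.isCompact).prod (isCompact_closedBall (0 : ℂ) 1)
    ).exists_bound_of_continuousOn hc.continuousOn
  have hrr : ∀ x : ℂ, rb (rb x) = rb x := fun x => rb_eq (rb_le x)
  have hgb : ∀ p : ℂ × ℂ, ‖g p‖ ≤ |M| := by
    rintro ⟨z, x⟩
    by_cases hz : z ∈ tsupport χ
    · have h1 := hM (z, rb x) ⟨hz, by simpa using rb_le x⟩
      have h2 : g (z, rb x) = g (z, x) := by simp only [hg, hrr]
      rw [h2] at h1
      exact h1.trans (le_abs_self _)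
    · have h1 : χ z = 0 := image_eq_zero_of_notMem_tsupport hz
      simp only [hg, h1, ofReal_zero, zero_mul, norm_zero]
      exact abs_nonneg _
  refine ⟨fun z => ∫ v, g (z, v) ∂dm, ?_, fun z hz => ?_⟩
  · refine continuous_of_dominated (bound := fun _ => |M|) (fun z => ?_) (fun z => ?_)
      (integrable_const _) (ae_of_all _ fun v => ?_)
    · exact (hc.comp (continuous_const.prodMk continuous_id)).aestronglyMeasurable
    · exact ae_of_all _ fun v => hgb _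
    · exact hc.comp (continuous_id.prodMk continuous_const)
  · unfold AV
    refine dm_congr fun v hv => ?_
    simp only [hg, hz, ofReal_one, one_mul, rb_eq hv]

lemma PN_co {B : Set ℂ} (hB : IsOpen B) {h : ℕ → ℝ} {w : ℤ → ℕ → ℂ → ℂ} {n : ℕ}
    (hu : ContDiffOn ℝ ∞ (w 0 n) B) (R : ℝ) (N : ℕ) : ContinuousOn (PN h w R N n) B := by
  have hl : ∀ i : ℕ, ContDiffOn ℝ ∞ (lp^[i] (fun z => w 0 n z * w 0 n z)) B := by
    intro i
    induction i with
    | zero => exact hu.mul hu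
    | succ i ih => rw [Function.iterate_succ_apply']; exact clap hB ih
  unfold PN
  refine continuousOn_finsetSum _ fun i _ => continuousOn_const.mul ?_
  unfold XX
  refine ContinuousOn.mul ?_ (hl i).continuousOn
  fun_prop

lemma four {B : Set ℂ} (hB : IsOpen B) {w : ℤ → ℕ → ℂ → ℂ}
    (hws : ∀ n, ContDiffOn ℝ ∞ (w 0 n) B) (hBd : Bd4 B (w 0)) {φ' : ℂ → ℝ} (hφ' : TF B φ') :
    ∃ C : ℝ, 0 ≤ C ∧ ∀ᶠ n in atTop, ∫ z, φ' z * ‖w 0 n z‖ ^ 4 ≤ C := by
  obtain ⟨C0, hC0⟩ := hBd (tsupport φ') hφ'.2.1.isCompact hφ'.2.2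
  obtain ⟨M, hM⟩ := hφ'.2.1.isCompact.exists_bound_of_continuousOn
    (hφ'.1.continuous.continuousOn (s := tsupport φ'))
  refine ⟨|M| * |C0|, by positivity, ?_⟩
  filter_upwards [hC0] with n hn
  have h1 : ContinuousOn (fun z => ‖w 0 n z‖ ^ 4) B := ((hws n).continuousOn.norm).pow 4
  have e1 : ∫ z, φ' z * ‖w 0 n z‖ ^ 4 = ∫ z in tsupport φ', φ' z * ‖w 0 n z‖ ^ 4 := by
    refine (setIntegral_eq_integral_of_forall_compl_eq_zero fun z hz => ?_).symm
    rw [image_eq_zero_of_notMem_tsupport hz, zero_mul]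
  rw [e1]
  have h2 : IntegrableOn (fun z => ‖w 0 n z‖ ^ 4) (tsupport φ') :=
    (h1.mono hφ'.2.2).integrableOn_compact hφ'.2.1.isCompact
  calc ∫ z in tsupport φ', φ' z * ‖w 0 n z‖ ^ 4 ≤ ∫ z in tsupport φ', |M| * ‖w 0 n z‖ ^ 4 := by
        refine setIntegral_mono_on ((cg1 hB hφ' h1).integrableOn) (h2.const_mul _)
          (isClosed_tsupport φ').measurableSet fun z hz => ?_
        refine mul_le_mul_of_nonneg_right ?_ (by positivity)
        exact (le_abs_self _).trans ((hM z hz).trans (le_abs_self _))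
    _ = |M| * ∫ z in tsupport φ', ‖w 0 n z‖ ^ 4 := integral_const_mul _ _
    _ ≤ |M| * |C0| := mul_le_mul_of_nonneg_left (hn.trans (le_abs_self _)) (abs_nonneg _)

lemma sq_diff (a p : ℂ) {δ : ℝ} (hδ : 0 < δ) :
    ‖a * a - p * p‖ ≤ (1 + 1 / δ) * ‖a - p‖ ^ 2 + δ * ‖a‖ ^ 2 := by
  have e : a * a - p * p = 2 * a * (a - p) - (a - p) ^ 2 := by ring
  rw [e]
  refine (norm_sub_le _ _).trans ?_
  rw [norm_mul, norm_mul, norm_pow, Complex.norm_ofNat]
  have h1 : 2 * (‖a‖ * ‖a - p‖) ≤ δ * ‖a‖ ^ 2 + 1 / δ * ‖a - p‖ ^ 2 := by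
    have h2 := two_mul_le_add_sq (δ * ‖a‖) ‖a - p‖
    have h3 : 0 < 1 / δ := by positivity
    have h4 := mul_le_mul_of_nonneg_left h2 h3.le
    have e1 : 1 / δ * (2 * (δ * ‖a‖) * ‖a - p‖) = 2 * (‖a‖ * ‖a - p‖) := by
      field_simp
    have e2 : 1 / δ * ((δ * ‖a‖) ^ 2 + ‖a - p‖ ^ 2) = δ * ‖a‖ ^ 2 + 1 / δ * ‖a - p‖ ^ 2 := by
      field_simp
    rw [e1, e2] at h4
    exact h4
  linarith

end IdL

open LocL StarL IdL in
theorem ident (hSTAR : S_STAR) (hPOW : S_POW) (hFPL : S_FPL) (hSH : S_SH) : S_ID := by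
  intro B h w H hBU h0 hBd φ hφ R hR
  have hB := H.op
  have hws : ∀ n, ContDiffOn ℝ ∞ (w 0 n) B := fun n => (H.bd 0).sm n
  obtain ⟨χ1, hχ1, hχ1K, hχ1n, -⟩ := exists_cut hB hφ.2.1.isCompact hφ.2.2
  obtain ⟨χ2, hχ2, hχ2K, -, -⟩ := exists_cut hB hχ1.2.1.isCompact hχ1.2.2
  obtain ⟨M, hM⟩ := hφ.2.1.isCompact.exists_bound_of_continuousOn
    (hφ.1.continuous.continuousOn (s := tsupport φ))
  obtain ⟨φ', hφ', hφ'0, s1, hs1, -, hball1, hsh1⟩ := hSH B hB hBU φ hφ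
  obtain ⟨-, -, -, s2, hs2, -, hball2, -⟩ := hSH B hB hBU χ2 hχ2
  obtain ⟨C4, hC40, hC4⟩ := four hB hws hBd hφ'
  have hsub1 : ∀ z ∈ tsupport φ, χ1 z = 1 := hχ1K
  have hsub2 : ∀ z ∈ tsupport χ1, χ2 z = 1 := hχ2K
  have hin1 : ∀ z ∈ tsupport φ, z ∈ tsupport χ1 := fun z hz =>
    subset_tsupport _ (by rw [Function.mem_support, hsub1 z hz]; exact one_ne_zero)
  set I : ℝ := ∫ z, φ z with hI
  set X : ℕ → ℂ := fun n => (∫ z, (φ z : ℂ) * F4 w 0 0 0 0 n z) - 3 * ((I : ℝ) : ℂ) with hX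
  set a : ℕ → ℂ := fun n => ∫ z, (φ z : ℂ) * (AV h (w 0) R n z * AV h (w 0) R n z) with ha
  set M' : ℝ := |M| + 1 with hM'
  have hM'0 : 0 < M' := by positivity
  -- the fourth power integrals
  have hQ4 : ∀ n, ContinuousOn (fun z => ‖w 0 n z‖ ^ 4) B := fun n =>
    ((hws n).continuousOn.norm).pow 4
  have hXb : ∀ᶠ n in atTop, ‖X n‖ ≤ 2 * C4 + 3 * |I| := by
    filter_upwards [hC4] with n hn
    have h1 : ‖∫ z, (φ z : ℂ) * F4 w 0 0 0 0 n z‖ ≤ 2 * C4 := by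
      have h2 := hsh1 0 (by simpa using hs1.le) (fun z => ‖w 0 n z‖ ^ 4)
        (fun z => by positivity) (hQ4 n)
      have h3 : ‖∫ z, (φ z : ℂ) * F4 w 0 0 0 0 n z‖ ≤ ∫ z, |φ z| * ‖w 0 n z‖ ^ 4 := by
        refine norm_integral_le_of_norm_le ?_ (ae_of_all _ fun z => le_of_eq ?_)
        · exact cg1a hB hφ (Q := fun z => ‖w 0 n z‖ ^ 4) (fun z => by positivity) (hQ4 n)
        · simp only [F4, norm_mul, Complex.norm_real, Real.norm_eq_abs]
          ring
      refine h3.trans ?_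
      simp only [mul_zero, add_zero] at h2
      linarith
    have h2 : ‖(3 : ℂ) * ((I : ℝ) : ℂ)‖ = 3 * |I| := by
      rw [norm_mul, Complex.norm_real, Real.norm_eq_abs, Complex.norm_ofNat]
    calc ‖X n‖ ≤ ‖∫ z, (φ z : ℂ) * F4 w 0 0 0 0 n z‖ + ‖(3 : ℂ) * ((I : ℝ) : ℂ)‖ :=
          norm_sub_le _ _
      _ ≤ 2 * C4 + 3 * |I| := by rw [h2]; linarith
  have hRh : Tendsto (fun n => R * h n) atTop (𝓝 0) := by
    have := H.hlim.const_mul R
    simpa using this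
  have hR1 : ∀ᶠ n in atTop, R * h n < s1 := hRh.eventually (gt_mem_nhds hs1)
  have hR2 : ∀ᶠ n in atTop, R * h n < s2 := hRh.eventually (gt_mem_nhds hs2)
  -- the comparison of the second moments
  have hcomp : ∀ δ : ℝ, 0 < δ → ∀ N : ℕ, ∀ ε' : ℝ,
      (∀ᶠ n in atTop, ∫ z, χ1 z * ‖AV h (w 0) R n z - PN h w R N n z‖ ^ 2 ≤ ε') →
      ∀ᶠ n in atTop, ‖a n - ∫ z, (φ z : ℂ) * (PN h w R N n z * PN h w R N n z)‖ ≤
        (1 + 1 / δ) * (M' * ε') + δ * (2 * C4) := by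
    intro δ hδ N ε' hε'
    filter_upwards [hε', hR1, hR2, hC4] with n hεn hRn1 hRn2 hCn
    have hr0 : 0 ≤ R * h n := mul_nonneg hR.le (H.hpos n).le
    obtain ⟨At, hAtc, hAt⟩ := AC hB hχ2 hball2 (h := h) (u := w 0) (n := n)
      (hws n).continuousOn hr0 hRn2.le
    have hPc := PN_co hB (h := h) (hws n) R N
    have hAt1 : ∀ z ∈ tsupport χ1, At z = AV h (w 0) R n z := fun z hz => hAt z (hsub2 z hz)
    have hAt0 : ∀ z ∈ tsupport φ, At z = AV h (w 0) R n z := fun z hz => hAt1 z (hin1 z hz)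
    have ea : a n = ∫ z, (φ z : ℂ) * (At z * At z) := by
      refine integral_congr_ae (ae_of_all _ fun z => ?_)
      change (φ z : ℂ) * (AV h (w 0) R n z * AV h (w 0) R n z) = (φ z : ℂ) * (At z * At z)
      by_cases hz : z ∈ tsupport φ
      · rw [hAt0 z hz]
      · rw [image_eq_zero_of_notMem_tsupport hz]
        simp
    have j1 : Integrable (fun z => (φ z : ℂ) * (At z * At z)) :=
      cg1C hB hφ (Q := fun z => At z * At z) (hAtc.mul hAtc).continuousOn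
    have j2 : Integrable (fun z => (φ z : ℂ) * (PN h w R N n z * PN h w R N n z)) :=
      cg1C hB hφ (Q := fun z => PN h w R N n z * PN h w R N n z) (hPc.mul hPc)
    rw [ea, ← integral_sub j1 j2]
    -- the two integrable majorants
    have i1 : Integrable (fun z => |φ z| * ‖At z - PN h w R N n z‖ ^ 2) :=
      cg1a hB hφ (Q := fun z => ‖At z - PN h w R N n z‖ ^ 2) (fun z => sq_nonneg _)
        (((hAtc.continuousOn.sub hPc).norm).pow 2)
    have i2 : Integrable (fun z => |φ z| * ‖At z‖ ^ 2) :=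
      cg1a hB hφ (Q := fun z => ‖At z‖ ^ 2) (fun z => sq_nonneg _)
        ((hAtc.norm.pow 2).continuousOn)
    have b1 : ‖∫ z, ((φ z : ℂ) * (At z * At z) -
        (φ z : ℂ) * (PN h w R N n z * PN h w R N n z))‖ ≤
        ∫ z, ((1 + 1 / δ) * (|φ z| * ‖At z - PN h w R N n z‖ ^ 2) +
          δ * (|φ z| * ‖At z‖ ^ 2)) := by
      refine norm_integral_le_of_norm_le ((i1.const_mul _).add (i2.const_mul _))
        (ae_of_all _ fun z => ?_)
      rw [← mul_sub, norm_mul, Complex.norm_real, Real.norm_eq_abs]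
      have h1 := mul_le_mul_of_nonneg_left (sq_diff (At z) (PN h w R N n z) hδ)
        (abs_nonneg (φ z))
      refine h1.trans (le_of_eq ?_)
      ring
    refine b1.trans ?_
    rw [integral_add (i1.const_mul _) (i2.const_mul _), integral_const_mul, integral_const_mul]
    have b2 : ∫ z, |φ z| * ‖At z - PN h w R N n z‖ ^ 2 ≤ M' * ε' := by
      have i3 : Integrable (fun z => χ1 z * ‖AV h (w 0) R n z - PN h w R N n z‖ ^ 2) := by
        refine (cg1 hB hχ1 (Q := fun z => ‖At z - PN h w R N n z‖ ^ 2)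
          (((hAtc.continuousOn.sub hPc).norm).pow 2)).congr (ae_of_all _ fun z => ?_)
        change χ1 z * ‖At z - PN h w R N n z‖ ^ 2 =
          χ1 z * ‖AV h (w 0) R n z - PN h w R N n z‖ ^ 2
        by_cases hz : z ∈ tsupport χ1
        · rw [hAt1 z hz]
        · rw [image_eq_zero_of_notMem_tsupport hz, zero_mul, zero_mul]
      calc ∫ z, |φ z| * ‖At z - PN h w R N n z‖ ^ 2 ≤
            ∫ z, M' * (χ1 z * ‖AV h (w 0) R n z - PN h w R N n z‖ ^ 2) := by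
            refine integral_mono i1 (i3.const_mul _) fun z => ?_
            change |φ z| * ‖At z - PN h w R N n z‖ ^ 2 ≤
              M' * (χ1 z * ‖AV h (w 0) R n z - PN h w R N n z‖ ^ 2)
            by_cases hz : z ∈ tsupport φ
            · rw [hAt0 z hz, hsub1 z hz, one_mul]
              refine mul_le_mul_of_nonneg_right ?_ (sq_nonneg _)
              have h1 := hM z hz
              rw [Real.norm_eq_abs] at h1
              have h2 := le_abs_self M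
              rw [hM']
              linarith
            · rw [image_eq_zero_of_notMem_tsupport hz, abs_zero, zero_mul]
              have := hχ1n z
              positivity
        _ = M' * ∫ z, χ1 z * ‖AV h (w 0) R n z - PN h w R N n z‖ ^ 2 := integral_const_mul _ _
        _ ≤ M' * ε' := mul_le_mul_of_nonneg_left hεn hM'0.le
    have b3 : ∫ z, |φ z| * ‖At z‖ ^ 2 ≤ 2 * C4 := by
      obtain ⟨i4, b4⟩ := shift' hB hφ hball1 hsh1 hr0 hRn1.le
        (Q := fun z => ‖w 0 n z‖ ^ 4) (fun z => by positivity) (hQ4 n)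
      refine le_trans ?_ (b4.trans (mul_le_mul_of_nonneg_left hCn (by norm_num)))
      refine integral_mono i2 i4 fun z => ?_
      change |φ z| * ‖At z‖ ^ 2 ≤ |φ z| *
        ∫ x, ‖w 0 n (z + ((R * h n * z.im : ℝ) : ℂ) * x)‖ ^ 4 ∂dm
      by_cases hz : z ∈ tsupport φ
      · refine mul_le_mul_of_nonneg_left ?_ (abs_nonneg _)
        rw [hAt0 z hz]
        have hdisc : ∀ v : ℂ, ‖v‖ ≤ 1 → z + ((R * h n * z.im : ℝ) : ℂ) * v ∈ B := by
          intro v hv
          have h1 : ‖((R * h n : ℝ) : ℂ) * v‖ ≤ s1 := by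
            rw [norm_mul, Complex.norm_real, Real.norm_of_nonneg hr0]
            nlinarith [norm_nonneg v]
          have h2 := hball1 z hz _ h1
          have e : z + ((R * h n * z.im : ℝ) : ℂ) * v =
              z + (z.im : ℂ) * (((R * h n : ℝ) : ℂ) * v) := by
            push_cast; ring
          rw [e]
          exact h2
        have hGc : ContinuousOn (fun x : ℂ => ‖w 0 n (z + ((R * h n * z.im : ℝ) : ℂ) * x)‖ ^ 2)
            (Metric.closedBall (0 : ℂ) 1) := by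
          refine ContinuousOn.pow (ContinuousOn.norm ?_) 2
          refine (hws n).continuousOn.comp (by fun_prop) fun x hx => hdisc x ?_
          simpa using hx
        have hae : ∀ᵐ x ∂dm, ‖x‖ ≤ 1 := Pool.Agent.TH294.RG.dm_ae.mono fun x hx => hx.le
        have h1 := jens hae hGc
        have h2 : ‖AV h (w 0) R n z‖ ≤
            ∫ x, ‖w 0 n (z + ((R * h n * z.im : ℝ) : ℂ) * x)‖ ^ 2 ∂dm := by
          unfold AV
          refine (norm_integral_le_integral_norm _).trans (le_of_eq ?_)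
          refine integral_congr_ae (ae_of_all _ fun v => ?_)
          simp only [norm_mul]
          ring
        have h3 := pow_le_pow_left₀ (norm_nonneg _) h2 2
        refine h3.trans (h1.trans (le_of_eq ?_))
        refine integral_congr_ae (ae_of_all _ fun v => ?_)
        simp only [← pow_mul]
      · rw [image_eq_zero_of_notMem_tsupport hz, abs_zero, zero_mul, zero_mul]
    have hd : 0 ≤ 1 + 1 / δ := by positivity
    exact add_le_add (mul_le_mul_of_nonneg_left b2 hd) (mul_le_mul_of_nonneg_left b3 hδ.le)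
  -- conclusion
  rw [Metric.tendsto_nhds]
  intro ε hε
  set CX : ℝ := 2 * C4 + 3 * |I| with hCX
  have hCX0 : 0 ≤ CX := by positivity
  set δ : ℝ := ε / (6 * (2 * C4 + 1)) with hδd
  have hδ : 0 < δ := by positivity
  set ε' : ℝ := ε / (6 * ((1 + 1 / δ) * M')) with hε'd
  have hε' : 0 < ε' := by positivity
  obtain ⟨N0, hN0⟩ := hSTAR B h w H hBU h0 hBd χ1 hχ1 hχ1n R hR ε' hε'
  obtain ⟨hc1, hc2⟩ := hFPL R hR
  have hl1 : ∀ᶠ N in atTop, ‖((((2 * (FP R N).eval 0 ^ 2 + (FP R N).eval 4 ^ 2) / 3 : ℝ) : ℂ) -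
      (eR R : ℂ))‖ * CX < ε / 6 := by
    have h1 : Tendsto (fun N => |(2 * (FP R N).eval 0 ^ 2 + (FP R N).eval 4 ^ 2) / 3 - eR R| * CX)
        atTop (𝓝 0) := by
      have h2 := ((hc1.sub_const (eR R)).abs).mul_const CX
      simpa using h2
    refine (h1.eventually (gt_mem_nhds (by positivity : 0 < ε / 6))).mono fun N hN => ?_
    rw [← ofReal_sub, Complex.norm_real, Real.norm_eq_abs]
    exact hN
  have hl2 : ∀ᶠ N in atTop, ‖(((((FP R N).eval 0 ^ 2 + 1 / Real.pi *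
      ∫ θ in (0 : ℝ)..(2 * Real.pi), (FP R N).eval (2 - 2 * Real.cos θ) ^ 2 : ℝ) : ℂ) -
      (gR R : ℂ)) * ((I : ℝ) : ℂ))‖ < ε / 6 := by
    have h1 : Tendsto (fun N => |((FP R N).eval 0 ^ 2 + 1 / Real.pi *
        ∫ θ in (0 : ℝ)..(2 * Real.pi), (FP R N).eval (2 - 2 * Real.cos θ) ^ 2) - gR R| * |I|)
        atTop (𝓝 0) := by
      have h2 := ((hc2.sub_const (gR R)).abs).mul_const |I|
      simpa using h2
    refine (h1.eventually (gt_mem_nhds (by positivity : 0 < ε / 6))).mono fun N hN => ?_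
    rw [← ofReal_sub, ← ofReal_mul, Complex.norm_real, Real.norm_eq_abs, abs_mul]
    exact hN
  obtain ⟨N, hNl1, hNl2, hNN⟩ := (hl1.and (hl2.and (eventually_ge_atTop N0))).exists
  have hst := hN0 N hNN
  have hc := hcomp δ hδ N ε' hst
  have hp := hPOW B h w H hBU h0 φ hφ R N
  rw [Metric.tendsto_nhds] at hp
  have hp' := hp (ε / 6) (by positivity)
  filter_upwards [hc, hp', hXb] with n hcn hpn hXn
  rw [dist_eq_norm] at hpn ⊢
  set p : ℂ := ∫ z, (φ z : ℂ) * (PN h w R N n z * PN h w R N n z) with hpd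
  set cN : ℂ := (((2 * (FP R N).eval 0 ^ 2 + (FP R N).eval 4 ^ 2) / 3 : ℝ) : ℂ) with hcN
  set dN : ℂ := ((((FP R N).eval 0 ^ 2 + 1 / Real.pi *
      ∫ θ in (0 : ℝ)..(2 * Real.pi), (FP R N).eval (2 - 2 * Real.cos θ) ^ 2 : ℝ)) : ℂ) with hdN
  have hd1 : (1 + 1 / δ) * (M' * ε') ≤ ε / 6 := by
    have h1 : 0 < (1 + 1 / δ) * M' := by positivity
    rw [hε'd, ← mul_assoc]
    have : (1 + 1 / δ) * M' * (ε / (6 * ((1 + 1 / δ) * M'))) = ε / 6 := by
      field_simp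
    exact this.le
  have hd2 : δ * (2 * C4) ≤ ε / 6 := by
    rw [hδd, div_mul_eq_mul_div, div_le_div_iff₀ (by positivity) (by norm_num)]
    nlinarith
  have hd3 : ‖cN - (eR R : ℂ)‖ * ‖X n‖ < ε / 6 :=
    lt_of_le_of_lt (mul_le_mul_of_nonneg_left hXn (norm_nonneg _)) hNl1
  have e : a n - (eR R : ℂ) * X n - (gR R : ℂ) * ((I : ℝ) : ℂ) =
      (a n - p) + (cN - (eR R : ℂ)) * X n + (p - cN * X n - dN * ((I : ℝ) : ℂ)) +
        (dN - (gR R : ℂ)) * ((I : ℝ) : ℂ) := by ring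
  have hgoal : ‖a n - (eR R : ℂ) * X n - (gR R : ℂ) * ((I : ℝ) : ℂ)‖ < ε := by
    rw [e]
    have n1 := norm_add_le ((a n - p) + (cN - (eR R : ℂ)) * X n +
      (p - cN * X n - dN * ((I : ℝ) : ℂ))) ((dN - (gR R : ℂ)) * ((I : ℝ) : ℂ))
    have n2 := norm_add_le ((a n - p) + (cN - (eR R : ℂ)) * X n)
      (p - cN * X n - dN * ((I : ℝ) : ℂ))
    have n3 := norm_add_le (a n - p) ((cN - (eR R : ℂ)) * X n)
    rw [norm_mul (cN - (eR R : ℂ))] at n3
    linarith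
  exact hgoal

end

end Pool.Agent.Helper93K9.PE
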