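import Pool.Agent.Helper93K9.PE.Stm2
import Pool.Agent.Helper93K9.PE.Id

/-!
# [DER] disc means of derivatives gain `1 / R` (helper27)
-/

set_option autoImplicit false
open MeasureTheory Filter Topology Complex
open scoped ContDiff ENNReal

namespace Pool.Agent.Helper93K9.PE

open Pool.Agent.W745.RW Pool.Agent.TH294.RS Pool.Agent.Y265.HY
open Pool.Agent.TH294.RG (dm)

noncomputable section

namespace DerL

open LocL StarL

/-- coordinates adapted to a direction -/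
structure Co (Φ : ℝ → ℝ → ℂ) (e : ℂ) : Prop where
  nm : ∀ a s, ‖Φ a s‖ ^ 2 = a ^ 2 + s ^ 2
  ct : Continuous (fun p : ℝ × ℝ => Φ p.1 p.2)
  de : ∀ a s, HasDerivAt (fun a : ℝ => Φ a s) e a
  it : ∀ f : ℂ → ℂ, Integrable f → ∫ v, f v = ∫ s, ∫ a, f (Φ a s)

lemma nmk (a s : ℝ) : ‖(a : ℂ) + s * I‖ ^ 2 = a ^ 2 + s ^ 2 := by
  rw [← Complex.normSq_eq_norm_sq, Complex.normSq_add_mul_I]

lemma vol_int (f : ℂ → ℂ) : ∫ v, f v = ∫ p : ℝ × ℝ, f (p.1 + p.2 * I) := by
  have h := Complex.volume_preserving_equiv_real_prod.integral_comp' (fun p : ℝ × ℝ => f (p.1 + p.2 * I))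
  rw [← h]
  refine integral_congr_ae (ae_of_all _ fun v => ?_)
  show f v = f ((v.re : ℂ) + (v.im : ℂ) * I)
  rw [re_add_im]

lemma vol_in {f : ℂ → ℂ} (hf : Integrable f) : Integrable (fun p : ℝ × ℝ => f (p.1 + p.2 * I)) := by
  have h := Complex.volume_preserving_equiv_real_prod.symm.integrable_comp_emb
    (MeasurableEquiv.measurableEmbedding _) (g := f)
  have h2 := h.2 hf
  refine h2.congr (ae_of_all _ fun p => ?_)
  show f (Complex.measurableEquivRealProd.symm p) = _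
  congr 1
  apply Complex.ext
  · simp [Complex.measurableEquivRealProd]
  · simp [Complex.measurableEquivRealProd]

lemma co1 : Co (fun a s => (a : ℂ) + s * I) 1 where
  nm := nmk
  ct := by fun_prop
  de := fun a s => by
    have := (hasDerivAt_id a).ofReal_comp.add_const ((s : ℂ) * I)
    simpa using this
  it := fun f hf => by
    rw [vol_int]
    exact integral_prod_symm _ (vol_in hf)

lemma coI : Co (fun a s => (s : ℂ) + a * I) I where
  nm := fun a s => by rw [nmk]; ring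
  ct := by fun_prop
  de := fun a s => by
    have := ((hasDerivAt_id a).ofReal_comp.mul_const I).const_add (s : ℂ)
    simpa using this
  it := fun f hf => by
    rw [vol_int]
    exact integral_prod _ (vol_in hf)

/-- the law of `q s`, `s` uniform on `(-1, 1]` -/
def mq (q : ℝ → ℂ) : Measure ℂ :=
  Measure.map q ((1 / 2 : ℝ≥0∞) • volume.restrict (Set.Ioc (-1 : ℝ) 1))

instance pr : IsProbabilityMeasure ((1 / 2 : ℝ≥0∞) • volume.restrict (Set.Ioc (-1 : ℝ) 1)) := by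
  refine ⟨?_⟩
  rw [Measure.smul_apply, Measure.restrict_apply_univ, Real.volume_Ioc, smul_eq_mul]
  norm_num
  exact ENNReal.inv_mul_cancel (by norm_num) (by norm_num)

lemma mq_pr {q : ℝ → ℂ} (hq : Continuous q) : IsProbabilityMeasure (mq q) :=
  Measure.isProbabilityMeasure_map hq.measurable.aemeasurable

lemma mq_ae {q : ℝ → ℂ} (hq : Continuous q) (hq1 : ∀ s ∈ Set.Ioc (-1 : ℝ) 1, ‖q s‖ ≤ 1) :
    ∀ᵐ x ∂mq q, ‖x‖ ≤ 1 := by
  unfold mq
  rw [ae_map_iff hq.measurable.aemeasurable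
    (measurableSet_le continuous_norm.measurable measurable_const)]
  apply Measure.ae_smul_measure
  exact (ae_restrict_iff' measurableSet_Ioc).2 (ae_of_all _ hq1)

lemma mq_eq {q : ℝ → ℂ} (hq : Continuous q) (hq1 : ∀ s ∈ Set.Ioc (-1 : ℝ) 1, ‖q s‖ ≤ 1)
    {k : ℂ → ℝ} (hk : ContinuousOn k (Metric.closedBall (0 : ℂ) 1)) :
    ∫ s in Set.Ioc (-1 : ℝ) 1, k (q s) = 2 * ∫ x, k x ∂mq q := by
  have hc : Continuous (fun x => k (rb x)) :=
    hk.comp_continuous rb_cont fun x => by simpa using rb_le x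
  have e1 : ∫ x, k x ∂mq q = ∫ x, k (rb x) ∂mq q :=
    integral_congr_ae ((mq_ae hq hq1).mono fun x hx => by simp only [rb_eq hx])
  rw [e1]
  unfold mq
  rw [integral_map hq.measurable.aemeasurable hc.aestronglyMeasurable, integral_smul_measure]
  have e2 : ∫ s in Set.Ioc (-1 : ℝ) 1, k (rb (q s)) = ∫ s in Set.Ioc (-1 : ℝ) 1, k (q s) :=
    setIntegral_congr_fun measurableSet_Ioc fun s hs => by simp only [rb_eq (hq1 s hs)]
  rw [e2]
  simp

/-- the boundary points -/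
def qq (Φ : ℝ → ℝ → ℂ) (σ : ℝ) (s : ℝ) : ℂ := Φ (σ * √(1 - s ^ 2)) s

lemma qq_ct {Φ : ℝ → ℝ → ℂ} {e : ℂ} (H : Co Φ e) (σ : ℝ) : Continuous (qq Φ σ) := by
  unfold qq
  have h1 : Continuous (fun s : ℝ => (σ * √(1 - s ^ 2), s)) := by fun_prop
  exact H.ct.comp h1

lemma qq_le {Φ : ℝ → ℝ → ℂ} {e : ℂ} (H : Co Φ e) (σ : ℝ) (hσ : σ ^ 2 = 1) (s : ℝ)
    (hs : s ∈ Set.Ioc (-1 : ℝ) 1) : ‖qq Φ σ s‖ ≤ 1 := by
  have h1 : s ^ 2 ≤ 1 := by
    have := hs.1; have := hs.2
    nlinarith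
  have h2 := H.nm (σ * √(1 - s ^ 2)) s
  rw [mul_pow, hσ, Real.sq_sqrt (by linarith)] at h2
  unfold qq
  have h3 : ‖Φ (σ * √(1 - s ^ 2)) s‖ ^ 2 ≤ 1 := by rw [h2]; linarith
  nlinarith [norm_nonneg (Φ (σ * √(1 - s ^ 2)) s)]

/-- the integral of a derivative over the disc -/
lemma main {Φ : ℝ → ℝ → ℂ} {e : ℂ} (H : Co Φ e) {B : Set ℂ} (hB : IsOpen B) {G : ℂ → ℂ}
    (hG : ContDiffOn ℝ ∞ G B) {z : ℂ} {ρ : ℝ} (hρ : 0 < ρ)
    (hz : ∀ v : ℂ, ‖v‖ ≤ 1 → z + (ρ : ℂ) * v ∈ B) :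
    ‖∫ v in Metric.ball (0 : ℂ) 1, fderiv ℝ G (z + (ρ : ℂ) * v) e‖ ≤
      2 / ρ * ((∫ x, ‖G (z + (ρ : ℂ) * x)‖ ∂mq (qq Φ 1)) +
        ∫ x, ‖G (z + (ρ : ℂ) * x)‖ ∂mq (qq Φ (-1))) := by
  have hD : ContinuousOn (fun w => fderiv ℝ G w e) B :=
    ((hG.continuousOn_fderiv_of_isOpen hB (by simp)).clm_apply continuousOn_const)
  have hmap : ∀ v ∈ Metric.closedBall (0 : ℂ) 1, z + (ρ : ℂ) * v ∈ B := fun v hv =>
    hz v (mem_closedBall_zero_iff.1 hv)
  have hfc : ContinuousOn (fun v : ℂ => fderiv ℝ G (z + (ρ : ℂ) * v) e)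
      (Metric.closedBall (0 : ℂ) 1) :=
    hD.comp (f := fun v : ℂ => z + (ρ : ℂ) * v) (by fun_prop) hmap
  have hGc : ContinuousOn (fun v : ℂ => ‖G (z + (ρ : ℂ) * v)‖) (Metric.closedBall (0 : ℂ) 1) :=
    (hG.continuousOn.comp (f := fun v : ℂ => z + (ρ : ℂ) * v) (by fun_prop) hmap).norm
  set f : ℂ → ℂ := (Metric.ball (0 : ℂ) 1).indicator fun v => fderiv ℝ G (z + (ρ : ℂ) * v) e
    with hf
  have hfi : Integrable f := by
    rw [hf, integrable_indicator_iff measurableSet_ball]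
    exact (hfc.integrableOn_compact (isCompact_closedBall _ _)).mono_set
      Metric.ball_subset_closedBall
  have e0 : ∫ v in Metric.ball (0 : ℂ) 1, fderiv ℝ G (z + (ρ : ℂ) * v) e = ∫ v, f v :=
    (integral_indicator measurableSet_ball).symm
  rw [e0, H.it f hfi]
  -- the inner integral
  have hin : ∀ s : ℝ, ‖∫ a, f (Φ a s)‖ ≤ (Set.Ioc (-1 : ℝ) 1).indicator
      (fun s => 1 / ρ * (‖G (z + (ρ : ℂ) * qq Φ 1 s)‖ + ‖G (z + (ρ : ℂ) * qq Φ (-1) s)‖)) s := by
    intro s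
    have hmem : ∀ a, Φ a s ∈ Metric.ball (0 : ℂ) 1 ↔ a ^ 2 + s ^ 2 < 1 := by
      intro a
      rw [mem_ball_zero_iff, ← H.nm a s]
      constructor
      · intro h; nlinarith [norm_nonneg (Φ a s)]
      · intro h; nlinarith [norm_nonneg (Φ a s)]
    by_cases hs : s ^ 2 < 1
    · have hs' : s ∈ Set.Ioc (-1 : ℝ) 1 := by
        have := abs_lt_of_sq_lt_sq (by simpa using hs : s ^ 2 < 1 ^ 2) zero_le_one
        rw [abs_lt] at this
        exact ⟨this.1, this.2.le⟩
      rw [Set.indicator_of_mem hs']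
      set c : ℝ := √(1 - s ^ 2) with hc
      have hc2 : c ^ 2 = 1 - s ^ 2 := Real.sq_sqrt (by linarith)
      have hc0 : 0 ≤ c := Real.sqrt_nonneg _
      have e1 : ∫ a, f (Φ a s) = ∫ a in (-c)..c, fderiv ℝ G (z + (ρ : ℂ) * Φ a s) e := by
        rw [intervalIntegral.integral_of_le (by linarith), integral_Ioc_eq_integral_Ioo,
          ← integral_indicator measurableSet_Ioo]
        congr 1
        funext a
        by_cases ha : a ^ 2 + s ^ 2 < 1
        · rw [hf, Set.indicator_of_mem ((hmem a).2 ha), Set.indicator_of_mem]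
          have h1 : a ^ 2 < c ^ 2 := by rw [hc2]; linarith
          have h2 := abs_lt_of_sq_lt_sq h1 hc0
          exact abs_lt.1 h2
        · rw [hf, Set.indicator_of_notMem (fun h => ha ((hmem a).1 h)), Set.indicator_of_notMem]
          intro h
          apply ha
          have h2 : |a| < |c| := by rw [abs_of_nonneg hc0]; exact abs_lt.2 h
          have h1 := sq_lt_sq.2 h2
          rw [hc2] at h1
          linarith
      have hball : ∀ a ∈ Set.uIcc (-c) c, ‖Φ a s‖ ≤ 1 := by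
        intro a ha
        rw [Set.uIcc_of_le (by linarith)] at ha
        have h1 : a ^ 2 ≤ c ^ 2 := by
          have := ha.1; have := ha.2
          nlinarith
        have h2 := H.nm a s
        have h3 : ‖Φ a s‖ ^ 2 ≤ 1 := by rw [h2]; rw [hc2] at h1; linarith
        nlinarith [norm_nonneg (Φ a s)]
      have hder : ∀ a ∈ Set.uIcc (-c) c, HasDerivAt (fun a : ℝ => (1 / (ρ : ℂ)) * G (z + (ρ : ℂ) * Φ a s))
          (fderiv ℝ G (z + (ρ : ℂ) * Φ a s) e) a := by
        intro a ha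
        have hw := hz (Φ a s) (hball a ha)
        have h1 : HasFDerivAt G (fderiv ℝ G (z + (ρ : ℂ) * Φ a s)) (z + (ρ : ℂ) * Φ a s) :=
          ((hG.contDiffAt (hB.mem_nhds hw)).differentiableAt (by simp)).hasFDerivAt
        have h2 : HasDerivAt (fun a : ℝ => z + (ρ : ℂ) * Φ a s) ((ρ : ℂ) * e) a :=
          ((H.de a s).const_mul (ρ : ℂ)).const_add z
        have h3 := (h1.comp_hasDerivAt a h2).const_mul (1 / (ρ : ℂ))
        refine h3.congr_deriv ?_
        have h4 : (ρ : ℂ) * e = ρ • e := by rw [real_smul]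
        rw [h4, map_smul, real_smul, ← mul_assoc, one_div, inv_mul_cancel₀ (by exact_mod_cast hρ.ne'),
          one_mul]
      have hcont : ContinuousOn (fun a : ℝ => fderiv ℝ G (z + (ρ : ℂ) * Φ a s) e)
          (Set.uIcc (-c) c) := by
        refine hfc.comp (f := fun a : ℝ => Φ a s) ?_ fun a ha =>
          mem_closedBall_zero_iff.2 (hball a ha)
        have h1 : Continuous (fun a : ℝ => (a, s)) := by fun_prop
        exact (H.ct.comp h1).continuousOn
      have e2 := intervalIntegral.integral_eq_sub_of_hasDerivAt hder hcont.intervalIntegrable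
      rw [e1, e2, ← mul_sub, norm_mul, norm_div, norm_one, norm_real, Real.norm_of_nonneg hρ.le]
      apply mul_le_mul_of_nonneg_left _ (by positivity)
      refine (norm_sub_le _ _).trans (le_of_eq ?_)
      unfold qq
      rw [one_mul, neg_one_mul]
    · have e1 : ∫ a, f (Φ a s) = 0 := by
        have : (fun a => f (Φ a s)) = fun _ => 0 := by
          funext a
          rw [hf]
          apply Set.indicator_of_notMem
          intro h
          have := (hmem a).1 h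
          nlinarith [sq_nonneg a]
        rw [this]
        simp
      rw [e1, norm_zero]
      apply Set.indicator_nonneg
      intro s _
      positivity
  have hk : ∀ σ : ℝ, σ ^ 2 = 1 → IntegrableOn (fun s => ‖G (z + (ρ : ℂ) * qq Φ σ s)‖)
      (Set.Ioc (-1 : ℝ) 1) := by
    intro σ hσ
    have h1 : ContinuousOn (fun s => ‖G (z + (ρ : ℂ) * qq Φ σ s)‖) (Set.Icc (-1 : ℝ) 1) := by
      refine hGc.comp (f := qq Φ σ) (qq_ct H σ).continuousOn fun s hs => ?_
      rw [mem_closedBall_zero_iff]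
      have h1 : s ^ 2 ≤ 1 := by
        have := hs.1; have := hs.2
        nlinarith
      have h2 := H.nm (σ * √(1 - s ^ 2)) s
      rw [mul_pow, hσ, Real.sq_sqrt (by linarith)] at h2
      unfold qq
      have h3 : ‖Φ (σ * √(1 - s ^ 2)) s‖ ^ 2 ≤ 1 := by rw [h2]; linarith
      nlinarith [norm_nonneg (Φ (σ * √(1 - s ^ 2)) s)]
    exact (h1.integrableOn_compact isCompact_Icc).mono_set Set.Ioc_subset_Icc_self
  have h1 := hk 1 (by norm_num)
  have h2 := hk (-1) (by norm_num)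
  calc ‖∫ s, ∫ a, f (Φ a s)‖
      ≤ ∫ s, (Set.Ioc (-1 : ℝ) 1).indicator
          (fun s => 1 / ρ * (‖G (z + (ρ : ℂ) * qq Φ 1 s)‖ + ‖G (z + (ρ : ℂ) * qq Φ (-1) s)‖)) s := by
        apply norm_integral_le_of_norm_le
        · rw [integrable_indicator_iff measurableSet_Ioc]
          exact (h1.add h2).const_mul _
        · exact ae_of_all _ hin
    _ = 1 / ρ * ((∫ s in Set.Ioc (-1 : ℝ) 1, ‖G (z + (ρ : ℂ) * qq Φ 1 s)‖) +
          ∫ s in Set.Ioc (-1 : ℝ) 1, ‖G (z + (ρ : ℂ) * qq Φ (-1) s)‖) := by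
        rw [integral_indicator measurableSet_Ioc, integral_const_mul, integral_add h1 h2]
    _ = _ := by
        rw [mq_eq (qq_ct H 1) (qq_le H 1 (by norm_num)) (k := fun x => ‖G (z + (ρ : ℂ) * x)‖) hGc,
          mq_eq (qq_ct H (-1)) (qq_le H (-1) (by norm_num)) (k := fun x => ‖G (z + (ρ : ℂ) * x)‖) hGc]
        ring


/-- Fubini and the shift estimate for a probability measure on the closed disc -/
lemma shift {μ : Measure ℂ} [IsProbabilityMeasure μ] (hae : ∀ᵐ x ∂μ, ‖x‖ ≤ 1)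
    {B : Set ℂ} (hB : IsOpen B) {φ φ' : ℂ → ℝ} (hφ : TF B φ) {s0 : ℝ}
    (hball : ∀ z ∈ tsupport φ, ∀ v : ℂ, ‖v‖ ≤ s0 → z + (z.im : ℂ) * v ∈ B)
    (hsh : ∀ v : ℂ, ‖v‖ ≤ s0 → ∀ Q : ℂ → ℝ, (∀ z, 0 ≤ Q z) → ContinuousOn Q B →
      ∫ z, |φ z| * Q (z + (z.im : ℂ) * v) ≤ 2 * ∫ z, φ' z * Q z)
    {r : ℝ} (hr0 : 0 ≤ r) (hr : r ≤ s0) {Q : ℂ → ℝ} (hQ0 : ∀ z, 0 ≤ Q z)
    (hQ : ContinuousOn Q B) :
    Integrable (fun z => |φ z| * ∫ x, Q (z + ((r * z.im : ℝ) : ℂ) * x) ∂μ) ∧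
    ∫ z, |φ z| * ∫ x, Q (z + ((r * z.im : ℝ) : ℂ) * x) ∂μ ≤ 2 * ∫ z, φ' z * Q z := by
  have hT : Continuous (fun p : ℂ × ℂ => p.1 + ((r * p.1.im : ℝ) : ℂ) * rb p.2) := by
    have := rb_cont
    fun_prop
  have hTB : ∀ z ∈ tsupport φ, ∀ x : ℂ,
      (fun p : ℂ × ℂ => p.1 + ((r * p.1.im : ℝ) : ℂ) * rb p.2) (z, x) ∈ B := by
    intro z hz x
    have h1 : ‖(r : ℂ) * rb x‖ ≤ s0 := by
      rw [norm_mul, Complex.norm_real, Real.norm_of_nonneg hr0]
      have := rb_le x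
      nlinarith
    have h2 := hball z hz _ h1
    have e : z + ((r * z.im : ℝ) : ℂ) * rb x = z + (z.im : ℂ) * ((r : ℂ) * rb x) := by
      push_cast; ring
    change z + ((r * z.im : ℝ) : ℂ) * rb x ∈ B
    rw [e]
    exact h2
  have hc0 := cg hB hφ.1.continuous hQ hT hTB
  have hc : Continuous (fun p : ℂ × ℂ => |φ p.1| * Q (p.1 + ((r * p.1.im : ℝ) : ℂ) * rb p.2)) := by
    have h1 := hc0.abs
    refine h1.congr fun p => ?_
    rw [abs_mul, abs_of_nonneg (hQ0 _)]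
  set g : ℂ × ℂ → ℝ := fun p => |φ p.1| * Q (p.1 + ((r * p.1.im : ℝ) : ℂ) * rb p.2) with hg
  obtain ⟨M, hM⟩ := ((hφ.2.1.isCompact).prod (isCompact_closedBall (0 : ℂ) 1)
    ).exists_bound_of_continuousOn hc.continuousOn
  have hrr : ∀ x : ℂ, rb (rb x) = rb x := fun x => rb_eq (rb_le x)
  have hgb : ∀ p : ℂ × ℂ, ‖g p‖ ≤ (tsupport φ).indicator (fun _ => M) p.1 := by
    rintro ⟨z, x⟩
    by_cases hz : z ∈ tsupport φ
    · rw [Set.indicator_of_mem hz]
      have h1 := hM (z, rb x) ⟨hz, by simpa using rb_le x⟩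
      have h2 : g (z, rb x) = g (z, x) := by simp only [hg, hrr]
      rw [h2] at h1
      exact h1
    · rw [Set.indicator_of_notMem hz]
      have h1 : φ z = 0 := image_eq_zero_of_notMem_tsupport hz
      simp only [hg, h1, abs_zero, zero_mul, norm_zero, le_refl]
  have hbi : Integrable (fun z : ℂ => (tsupport φ).indicator (fun _ => M) z) := by
    refine (integrable_indicator_iff (isClosed_tsupport φ).measurableSet).2 ?_
    exact integrableOn_const hφ.2.1.isCompact.measure_lt_top.ne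
  have hgi : Integrable g (volume.prod μ) :=
    (hbi.comp_fst μ).mono' hc.aestronglyMeasurable (ae_of_all _ hgb)
  have hin : ∀ z, ∫ x, g (z, x) ∂μ = |φ z| * ∫ x, Q (z + ((r * z.im : ℝ) : ℂ) * x) ∂μ := by
    intro z
    rw [← integral_const_mul]
    refine integral_congr_ae (hae.mono fun x hx => ?_)
    simp only [hg, rb_eq hx]
  constructor
  · have h1 := hgi.integral_prod_left
    simp only [hin] at h1
    exact h1
  · have e1 : ∫ z, |φ z| * ∫ x, Q (z + ((r * z.im : ℝ) : ℂ) * x) ∂μ =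
        ∫ x, (∫ z, g (z, x)) ∂μ := by
      simp only [← hin]
      exact integral_integral_swap hgi
    rw [e1]
    have h2 : ∀ᵐ x ∂μ, (∫ z, g (z, x)) ≤ 2 * ∫ z, φ' z * Q z := by
      refine hae.mono fun x hx => ?_
      have h3 : ‖(r : ℂ) * x‖ ≤ s0 := by
        rw [norm_mul, Complex.norm_real, Real.norm_of_nonneg hr0]
        nlinarith [norm_nonneg x]
      refine le_trans (le_of_eq ?_) (hsh _ h3 Q hQ0 hQ)
      refine integral_congr_ae (ae_of_all _ fun z => ?_)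
      simp only [hg, rb_eq hx]
      congr 2
      push_cast; ring
    set c : ℝ := 2 * ∫ z, φ' z * Q z with hc
    calc ∫ x, (∫ z, g (z, x)) ∂μ ≤ ∫ _, c ∂μ :=
          integral_mono_ae hgi.integral_prod_right (integrable_const c) h2
      _ = c := by simp

/-- the mean of `F` on the disc, for a probability measure -/
def JAv (μ : Measure ℂ) (F : ℂ → ℂ) (r : ℝ) (z : ℂ) : ℝ :=
  ∫ x, ‖F (z + ((r * z.im : ℝ) : ℂ) * x)‖ ∂μ

lemma JAv_nn (μ : Measure ℂ) (F : ℂ → ℂ) (r : ℝ) (z : ℂ) : 0 ≤ JAv μ F r z :=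
  integral_nonneg fun _ => norm_nonneg _

/-- the mean square bound -/
lemma JAv_sq {μ : Measure ℂ} [IsProbabilityMeasure μ] (hae : ∀ᵐ x ∂μ, ‖x‖ ≤ 1)
    {B : Set ℂ} (hB : IsOpen B) {φ φ' : ℂ → ℝ} (hφ : TF B φ) (hφ0 : ∀ z, 0 ≤ φ z) {s0 : ℝ}
    (hball : ∀ z ∈ tsupport φ, ∀ v : ℂ, ‖v‖ ≤ s0 → z + (z.im : ℂ) * v ∈ B)
    (hsh : ∀ v : ℂ, ‖v‖ ≤ s0 → ∀ Q : ℂ → ℝ, (∀ z, 0 ≤ Q z) → ContinuousOn Q B →
      ∫ z, |φ z| * Q (z + (z.im : ℂ) * v) ≤ 2 * ∫ z, φ' z * Q z)
    {r : ℝ} (hr0 : 0 ≤ r) (hr : r ≤ s0) {F : ℂ → ℂ} (hF : ContinuousOn F B) :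
    ∃ Q : ℂ → ℝ, Integrable (fun z => φ z * Q z) ∧ (∫ z, φ z * Q z ≤ 2 * ∫ z, φ' z * ‖F z‖ ^ 2) ∧
      ∀ z ∈ tsupport φ, JAv μ F r z ^ 2 ≤ Q z := by
  obtain ⟨h1, h2⟩ := shift hae hB hφ hball hsh hr0 hr (Q := fun z => ‖F z‖ ^ 2)
    (fun z => sq_nonneg _) (hF.norm.pow 2)
  refine ⟨fun z => ∫ x, ‖F (z + ((r * z.im : ℝ) : ℂ) * x)‖ ^ 2 ∂μ, ?_, ?_, ?_⟩
  · simpa only [abs_of_nonneg (hφ0 _)] using h1
  · simpa only [abs_of_nonneg (hφ0 _)] using h2
  · intro z hz
    apply IdL.jens hae (G := fun x => ‖F (z + ((r * z.im : ℝ) : ℂ) * x)‖)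
    apply ContinuousOn.norm
    refine hF.comp (f := fun x : ℂ => z + ((r * z.im : ℝ) : ℂ) * x) (by fun_prop) fun x hx => ?_
    rw [mem_closedBall_zero_iff] at hx
    have h1 : ‖(r : ℂ) * x‖ ≤ s0 := by
      rw [norm_mul, Complex.norm_real, Real.norm_of_nonneg hr0]
      nlinarith
    have h2 := hball z hz _ h1
    have e : z + ((r * z.im : ℝ) : ℂ) * x = z + (z.im : ℂ) * ((r : ℂ) * x) := by
      push_cast; ring
    show z + ((r * z.im : ℝ) : ℂ) * x ∈ B
    rw [e]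
    exact h2

lemma dm_ae1 : ∀ᵐ x ∂dm, ‖x‖ ≤ 1 := Pool.Agent.TH294.RG.dm_ae.mono fun x hx => hx.le

/-- `sP F` as a derivative of `y F` -/
lemma sP_eq {B : Set ℂ} (hB : IsOpen B) {F : ℂ → ℂ} (hF : ContDiffOn ℝ ∞ F B) (h : ℝ) {w : ℂ}
    (hw : w ∈ B) : DP Complex.im h F w =
      (h : ℂ) * (fderiv ℝ (fun z => (z.im : ℂ) * F z) w 1 -
        I * fderiv ℝ (fun z => (z.im : ℂ) * F z) w I + I * F w) := by
  have h1 : HasFDerivAt F (fderiv ℝ F w) w :=
    ((hF.contDiffAt (hB.mem_nhds hw)).differentiableAt (by simp)).hasFDerivAt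
  have h2 : HasFDerivAt (fun z : ℂ => (z.im : ℂ)) (ofRealCLM.comp imCLM) w :=
    (ofRealCLM.comp imCLM).hasFDerivAt
  have h3 := (h2.mul h1).fderiv
  have e1 : ∀ v : ℂ, fderiv ℝ (fun z => (z.im : ℂ) * F z) w v =
      (w.im : ℂ) * fderiv ℝ F w v + F w * (v.im : ℂ) := by
    intro v
    have h4 : fderiv ℝ (fun z => (z.im : ℂ) * F z) w = _ := h3
    rw [h4]
    simp [smul_eq_mul]
  rw [e1, e1]
  simp only [DP, dd, dx, dy, one_im, I_im, ofReal_zero, ofReal_one]
  linear_combination (-(h : ℂ) * F w) * I_sq - (-(h : ℂ) * F w) * I_sq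

end DerL

open LocL StarL DerL in
theorem der (hSH : S_SH) : S_DER := by
  intro B hB hBU φ hφ hφ0
  obtain ⟨φ', hφ', hφ'0, s0, hs0, hs01, hball, hsh⟩ := hSH B hB hBU φ hφ
  refine ⟨φ', hφ', hφ'0, s0, 160, hs0, hs01, by norm_num, hball, ?_⟩
  intro h n hn F hF R hR hRs
  set r : ℝ := R * h n with hr
  have hr0 : 0 < r := by positivity
  set E : ℝ := ∫ z, φ' z * ‖F n z‖ ^ 2 with hE
  have hE0 : 0 ≤ E := integral_nonneg fun z => mul_nonneg (hφ'0 z) (sq_nonneg _)
  have hFc : ContinuousOn (F n) B := hF.continuousOn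
  have hzB : ∀ z ∈ tsupport φ, ∀ v : ℂ, ‖v‖ ≤ 1 → z + ((r * z.im : ℝ) : ℂ) * v ∈ B := by
    intro z hz v hv
    have h1 : ‖(r : ℂ) * v‖ ≤ s0 := by
      rw [norm_mul, Complex.norm_real, Real.norm_of_nonneg hr0.le]
      nlinarith
    have h2 := hball z hz _ h1
    have e : z + ((r * z.im : ℝ) : ℂ) * v = z + (z.im : ℂ) * ((r : ℂ) * v) := by
      push_cast; ring
    rw [e]
    exact h2
  obtain ⟨Q0, hQ0i, hQ0e, hQ0⟩ := JAv_sq dm_ae1 hB hφ hφ0 hball hsh hr0.le hRs hFc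
  constructor
  · -- first bound
    have hpt : ∀ z, φ z * ‖AA h F R n z‖ ^ 2 ≤ φ z * Q0 z := by
      intro z
      by_cases hz : z ∈ tsupport φ
      · apply mul_le_mul_of_nonneg_left _ (hφ0 z)
        refine le_trans ?_ (hQ0 z hz)
        apply pow_le_pow_left₀ (norm_nonneg _)
        exact norm_integral_le_integral_norm _
      · rw [image_eq_zero_of_notMem_tsupport hz, zero_mul, zero_mul]
    calc ∫ z, φ z * ‖AA h F R n z‖ ^ 2 ≤ ∫ z, φ z * Q0 z :=
          integral_mono_of_nonneg (ae_of_all _ fun z => mul_nonneg (hφ0 z) (sq_nonneg _)) hQ0i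
            (ae_of_all _ hpt)
      _ ≤ 2 * E := hQ0e
      _ ≤ 160 * E := by linarith
  · -- second bound
    set m1 := mq (qq (fun a s => (a : ℂ) + s * I) 1) with hm1
    set m2 := mq (qq (fun a s => (a : ℂ) + s * I) (-1)) with hm2
    set m3 := mq (qq (fun a s => (s : ℂ) + a * I) 1) with hm3
    set m4 := mq (qq (fun a s => (s : ℂ) + a * I) (-1)) with hm4
    have p1 : IsProbabilityMeasure m1 := mq_pr (qq_ct co1 1)
    have p2 : IsProbabilityMeasure m2 := mq_pr (qq_ct co1 (-1))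
    have p3 : IsProbabilityMeasure m3 := mq_pr (qq_ct coI 1)
    have p4 : IsProbabilityMeasure m4 := mq_pr (qq_ct coI (-1))
    have a1 : ∀ᵐ x ∂m1, ‖x‖ ≤ 1 := mq_ae (qq_ct co1 1) (qq_le co1 1 (by norm_num))
    have a2 : ∀ᵐ x ∂m2, ‖x‖ ≤ 1 := mq_ae (qq_ct co1 (-1)) (qq_le co1 (-1) (by norm_num))
    have a3 : ∀ᵐ x ∂m3, ‖x‖ ≤ 1 := mq_ae (qq_ct coI 1) (qq_le coI 1 (by norm_num))
    have a4 : ∀ᵐ x ∂m4, ‖x‖ ≤ 1 := mq_ae (qq_ct coI (-1)) (qq_le coI (-1) (by norm_num))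
    obtain ⟨Q1, hQ1i, hQ1e, hQ1⟩ := JAv_sq a1 hB hφ hφ0 hball hsh hr0.le hRs hFc
    obtain ⟨Q2, hQ2i, hQ2e, hQ2⟩ := JAv_sq a2 hB hφ hφ0 hball hsh hr0.le hRs hFc
    obtain ⟨Q3, hQ3i, hQ3e, hQ3⟩ := JAv_sq a3 hB hφ hφ0 hball hsh hr0.le hRs hFc
    obtain ⟨Q4, hQ4i, hQ4e, hQ4⟩ := JAv_sq a4 hB hφ hφ0 hball hsh hr0.le hRs hFc
    have hkey : ∀ z ∈ tsupport φ, ‖AA h (sP Complex.im h F) R n z‖ ≤ h n * JAv dm (F n) r z +
        2 / R * (JAv m1 (F n) r z + JAv m2 (F n) r z + JAv m3 (F n) r z + JAv m4 (F n) r z) := by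
      intro z hz
      have hy : 0 < z.im := hBU (hφ.2.2 hz)
      set ρ : ℝ := r * z.im with hρ
      have hρ0 : 0 < ρ := by positivity
      have hzB' := hzB z hz
      have hGs : ContDiffOn ℝ ∞ (fun z => (z.im : ℂ) * F n z) B :=
        ((ofRealCLM.comp imCLM).contDiff.contDiffOn).mul hF
      have hmap : ∀ v ∈ Metric.closedBall (0 : ℂ) 1, z + (ρ : ℂ) * v ∈ B := fun v hv =>
        hzB' v (mem_closedBall_zero_iff.1 hv)
      have hDc : ∀ e : ℂ, ContinuousOn (fun v : ℂ => fderiv ℝ (fun z => (z.im : ℂ) * F n z)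
          (z + (ρ : ℂ) * v) e) (Metric.closedBall (0 : ℂ) 1) := by
        intro e
        have hD : ContinuousOn (fun w => fderiv ℝ (fun z => (z.im : ℂ) * F n z) w e) B :=
          ((hGs.continuousOn_fderiv_of_isOpen hB (by simp)).clm_apply continuousOn_const)
        exact hD.comp (f := fun v : ℂ => z + (ρ : ℂ) * v) (by fun_prop) hmap
      have hFc' : ContinuousOn (fun v : ℂ => F n (z + (ρ : ℂ) * v)) (Metric.closedBall (0 : ℂ) 1) :=
        hFc.comp (f := fun v : ℂ => z + (ρ : ℂ) * v) (by fun_prop) hmap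
      have e1 : AA h (sP Complex.im h F) R n z = (h n : ℂ) *
          ((∫ v, fderiv ℝ (fun z => (z.im : ℂ) * F n z) (z + (ρ : ℂ) * v) 1 ∂dm) -
          I * (∫ v, fderiv ℝ (fun z => (z.im : ℂ) * F n z) (z + (ρ : ℂ) * v) I ∂dm) +
          I * ∫ v, F n (z + (ρ : ℂ) * v) ∂dm) := by
        unfold AA
        have e2 : ∫ v, sP Complex.im h F n (z + ((R * h n * z.im : ℝ) : ℂ) * v) ∂dm =
            ∫ v, (h n : ℂ) * (fderiv ℝ (fun z => (z.im : ℂ) * F n z) (z + (ρ : ℂ) * v) 1 -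
              I * fderiv ℝ (fun z => (z.im : ℂ) * F n z) (z + (ρ : ℂ) * v) I +
              I * F n (z + (ρ : ℂ) * v)) ∂dm := by
          refine dm_congr fun v hv => ?_
          exact sP_eq hB hF (h n) (hzB' v hv)
        rw [e2, integral_const_mul, integral_add, integral_sub, integral_const_mul,
          integral_const_mul]
        · exact dm_int (hDc 1)
        · exact (dm_int (hDc I)).const_mul I
        · exact (dm_int (hDc 1)).sub ((dm_int (hDc I)).const_mul I)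
        · exact (dm_int hFc').const_mul I
      -- the derivatives
      have hGle : ∀ v : ℂ, ‖v‖ ≤ 1 → ‖((z + (ρ : ℂ) * v).im : ℂ) * F n (z + (ρ : ℂ) * v)‖ ≤
          2 * z.im * ‖F n (z + (ρ : ℂ) * v)‖ := by
        intro v hv
        rw [norm_mul, norm_real]
        apply mul_le_mul_of_nonneg_right _ (norm_nonneg _)
        have h1 : 0 < (z + (ρ : ℂ) * v).im := hBU (hzB' v hv)
        rw [Real.norm_of_nonneg h1.le]
        simp only [add_im, mul_im, ofReal_re, ofReal_im, zero_mul, add_zero]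
        have h2 := (le_abs_self _).trans ((Complex.abs_im_le_norm v).trans hv)
        have h3 : ρ ≤ z.im := by
          rw [hρ]
          nlinarith
        nlinarith
      have hJ : ∀ (μ : Measure ℂ) [IsProbabilityMeasure μ], (∀ᵐ x ∂μ, ‖x‖ ≤ 1) →
          ∫ x, ‖((z + (ρ : ℂ) * x).im : ℂ) * F n (z + (ρ : ℂ) * x)‖ ∂μ ≤
            2 * z.im * JAv μ (F n) r z := by
        intro μ _ hμ
        unfold JAv
        rw [← integral_const_mul]
        apply integral_mono_of_nonneg (ae_of_all _ fun x => norm_nonneg _)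
        · exact (IdL.m_int hμ (G := fun x => ‖F n (z + (ρ : ℂ) * x)‖) hFc'.norm).const_mul _
        · exact hμ.mono fun x hx => hGle x hx
      have hpi := Real.pi_gt_three
      have hdm : ∀ g : ℂ → ℂ, ‖∫ v, g v ∂dm‖ ≤ 1 / 3 * ‖∫ v in Metric.ball (0 : ℂ) 1, g v‖ := by
        intro g
        rw [Pool.Agent.TH294.RG.int_dm, norm_smul, Real.norm_of_nonneg (by positivity)]
        apply mul_le_mul_of_nonneg_right _ (norm_nonneg _)
        exact one_div_le_one_div_of_le (by norm_num) hpi.le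
      have d1 := main co1 hB hGs hρ0 hzB'
      have dI := main coI hB hGs hρ0 hzB'
      have j1 := hJ m1 a1
      have j2 := hJ m2 a2
      have j3 := hJ m3 a3
      have j4 := hJ m4 a4
      have hρh : h n * (2 / ρ * (2 * z.im)) = 4 / R := by
        rw [hρ, hr]
        field_simp
        ring
      set K1 := ‖∫ v, fderiv ℝ (fun z => (z.im : ℂ) * F n z) (z + (ρ : ℂ) * v) 1 ∂dm‖ with hK1
      set K2 := ‖∫ v, fderiv ℝ (fun z => (z.im : ℂ) * F n z) (z + (ρ : ℂ) * v) I ∂dm‖ with hK2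
      have k1 : h n * K1 ≤ 2 / R * (JAv m1 (F n) r z + JAv m2 (F n) r z) := by
        have h1 := (hdm (fun v => fderiv ℝ (fun z => (z.im : ℂ) * F n z) (z + (ρ : ℂ) * v) 1)).trans
          (mul_le_mul_of_nonneg_left d1 (by norm_num))
        have h2 : K1 ≤ 1 / 3 * (2 / ρ * (2 * z.im * JAv m1 (F n) r z + 2 * z.im * JAv m2 (F n) r z)) := by
          refine h1.trans ?_
          apply mul_le_mul_of_nonneg_left _ (by norm_num)
          apply mul_le_mul_of_nonneg_left _ (by positivity)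
          exact add_le_add j1 j2
        calc h n * K1 ≤ h n * (1 / 3 * (2 / ρ * (2 * z.im * JAv m1 (F n) r z +
              2 * z.im * JAv m2 (F n) r z))) := mul_le_mul_of_nonneg_left h2 hn.le
          _ = 1 / 3 * (h n * (2 / ρ * (2 * z.im))) * (JAv m1 (F n) r z + JAv m2 (F n) r z) := by ring
          _ = 1 / 3 * (4 / R) * (JAv m1 (F n) r z + JAv m2 (F n) r z) := by rw [hρh]
          _ ≤ 2 / R * (JAv m1 (F n) r z + JAv m2 (F n) r z) := by
            apply mul_le_mul_of_nonneg_right _ (add_nonneg (JAv_nn _ _ _ _) (JAv_nn _ _ _ _))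
            rw [show 1 / 3 * (4 / R) = (4 / 3) / R by ring]
            exact div_le_div_of_nonneg_right (by norm_num) hR.le
      have k2 : h n * K2 ≤ 2 / R * (JAv m3 (F n) r z + JAv m4 (F n) r z) := by
        have h1 := (hdm (fun v => fderiv ℝ (fun z => (z.im : ℂ) * F n z) (z + (ρ : ℂ) * v) I)).trans
          (mul_le_mul_of_nonneg_left dI (by norm_num))
        have h2 : K2 ≤ 1 / 3 * (2 / ρ * (2 * z.im * JAv m3 (F n) r z + 2 * z.im * JAv m4 (F n) r z)) := by
          refine h1.trans ?_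
          apply mul_le_mul_of_nonneg_left _ (by norm_num)
          apply mul_le_mul_of_nonneg_left _ (by positivity)
          exact add_le_add j3 j4
        calc h n * K2 ≤ h n * (1 / 3 * (2 / ρ * (2 * z.im * JAv m3 (F n) r z +
              2 * z.im * JAv m4 (F n) r z))) := mul_le_mul_of_nonneg_left h2 hn.le
          _ = 1 / 3 * (h n * (2 / ρ * (2 * z.im))) * (JAv m3 (F n) r z + JAv m4 (F n) r z) := by ring
          _ = 1 / 3 * (4 / R) * (JAv m3 (F n) r z + JAv m4 (F n) r z) := by rw [hρh]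
          _ ≤ 2 / R * (JAv m3 (F n) r z + JAv m4 (F n) r z) := by
            apply mul_le_mul_of_nonneg_right _ (add_nonneg (JAv_nn _ _ _ _) (JAv_nn _ _ _ _))
            rw [show 1 / 3 * (4 / R) = (4 / 3) / R by ring]
            exact div_le_div_of_nonneg_right (by norm_num) hR.le
      have k3 : ‖∫ v, F n (z + (ρ : ℂ) * v) ∂dm‖ ≤ JAv dm (F n) r z :=
        norm_integral_le_integral_norm _
      rw [e1, norm_mul, norm_real, Real.norm_of_nonneg hn.le]
      calc h n * ‖(∫ v, fderiv ℝ (fun z => (z.im : ℂ) * F n z) (z + (ρ : ℂ) * v) 1 ∂dm) -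
          I * (∫ v, fderiv ℝ (fun z => (z.im : ℂ) * F n z) (z + (ρ : ℂ) * v) I ∂dm) +
          I * ∫ v, F n (z + (ρ : ℂ) * v) ∂dm‖
          ≤ h n * (K1 + K2 + ‖∫ v, F n (z + (ρ : ℂ) * v) ∂dm‖) := by
            apply mul_le_mul_of_nonneg_left _ hn.le
            refine (norm_add_le _ _).trans ?_
            apply add_le_add
            · refine (norm_sub_le _ _).trans ?_
              rw [norm_mul, norm_I, one_mul]
            · rw [norm_mul, norm_I, one_mul]
        _ = h n * K1 + h n * K2 + h n * ‖∫ v, F n (z + (ρ : ℂ) * v) ∂dm‖ := by ring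
        _ ≤ _ := by
            have h1 := mul_le_mul_of_nonneg_left k3 hn.le
            have h2 : 2 / R * (JAv m1 (F n) r z + JAv m2 (F n) r z + JAv m3 (F n) r z +
              JAv m4 (F n) r z) = 2 / R * (JAv m1 (F n) r z + JAv m2 (F n) r z) +
              2 / R * (JAv m3 (F n) r z + JAv m4 (F n) r z) := by ring
            linarith
    have hpt : ∀ z, φ z * ‖AA h (sP Complex.im h F) R n z‖ ^ 2 ≤
        5 * h n ^ 2 * (φ z * Q0 z) + 20 / R ^ 2 * (φ z * Q1 z + φ z * Q2 z + φ z * Q3 z +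
          φ z * Q4 z) := by
      intro z
      by_cases hz : z ∈ tsupport φ
      · have h0 := hQ0 z hz
        have h1 := hQ1 z hz
        have h2 := hQ2 z hz
        have h3 := hQ3 z hz
        have h4 := hQ4 z hz
        have hk := hkey z hz
        have hφz := hφ0 z
        set J0 := JAv dm (F n) r z
        set J1 := JAv m1 (F n) r z
        set J2 := JAv m2 (F n) r z
        set J3 := JAv m3 (F n) r z
        set J4 := JAv m4 (F n) r z
        have hsq : ‖AA h (sP Complex.im h F) R n z‖ ^ 2 ≤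
            5 * h n ^ 2 * Q0 z + 20 / R ^ 2 * (Q1 z + Q2 z + Q3 z + Q4 z) := by
          have e1 : ‖AA h (sP Complex.im h F) R n z‖ ^ 2 ≤
              (h n * J0 + 2 / R * (J1 + J2 + J3 + J4)) ^ 2 :=
            pow_le_pow_left₀ (norm_nonneg _) hk 2
          have e2 : ∀ x a b c d : ℝ, (x + (a + b + c + d)) ^ 2 ≤
              5 * (x ^ 2 + a ^ 2 + b ^ 2 + c ^ 2 + d ^ 2) := by
            intro x a b c d
            nlinarith [sq_nonneg (x - a), sq_nonneg (x - b), sq_nonneg (x - c), sq_nonneg (x - d),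
              sq_nonneg (a - b), sq_nonneg (a - c), sq_nonneg (a - d), sq_nonneg (b - c),
              sq_nonneg (b - d), sq_nonneg (c - d)]
          have e3 := e2 (h n * J0) (2 / R * J1) (2 / R * J2) (2 / R * J3) (2 / R * J4)
          have e4 : h n * J0 + 2 / R * (J1 + J2 + J3 + J4) =
              h n * J0 + (2 / R * J1 + 2 / R * J2 + 2 / R * J3 + 2 / R * J4) := by ring
          rw [e4] at e1
          refine e1.trans (e3.trans ?_)
          have e5 : 5 * ((h n * J0) ^ 2 + (2 / R * J1) ^ 2 + (2 / R * J2) ^ 2 + (2 / R * J3) ^ 2 +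
              (2 / R * J4) ^ 2) = 5 * h n ^ 2 * J0 ^ 2 +
              20 / R ^ 2 * (J1 ^ 2 + J2 ^ 2 + J3 ^ 2 + J4 ^ 2) := by
            field_simp
            ring
          rw [e5]
          apply add_le_add
          · exact mul_le_mul_of_nonneg_left h0 (by positivity)
          · apply mul_le_mul_of_nonneg_left _ (by positivity)
            linarith
        calc φ z * ‖AA h (sP Complex.im h F) R n z‖ ^ 2 ≤
            φ z * (5 * h n ^ 2 * Q0 z + 20 / R ^ 2 * (Q1 z + Q2 z + Q3 z + Q4 z)) :=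
              mul_le_mul_of_nonneg_left hsq hφz
          _ = _ := by ring
      · rw [image_eq_zero_of_notMem_tsupport hz]
        simp
    have hi4 : Integrable (fun z => φ z * Q1 z + φ z * Q2 z + φ z * Q3 z + φ z * Q4 z) :=
      ((hQ1i.add hQ2i).add hQ3i).add hQ4i
    calc ∫ z, φ z * ‖AA h (sP Complex.im h F) R n z‖ ^ 2
        ≤ ∫ z, (5 * h n ^ 2 * (φ z * Q0 z) + 20 / R ^ 2 * (φ z * Q1 z + φ z * Q2 z + φ z * Q3 z +
          φ z * Q4 z)) :=
          integral_mono_of_nonneg (ae_of_all _ fun z => mul_nonneg (hφ0 z) (sq_nonneg _))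
            ((hQ0i.const_mul _).add (hi4.const_mul _)) (ae_of_all _ hpt)
      _ = 5 * h n ^ 2 * (∫ z, φ z * Q0 z) + 20 / R ^ 2 * ((∫ z, φ z * Q1 z) +
          (∫ z, φ z * Q2 z) + (∫ z, φ z * Q3 z) + ∫ z, φ z * Q4 z) := by
          rw [integral_add (hQ0i.const_mul _) (hi4.const_mul _), integral_const_mul,
            integral_const_mul]
          congr 2
          have i1 : ∫ z, (φ z * Q1 z + φ z * Q2 z + φ z * Q3 z + φ z * Q4 z) =
              (∫ z, (φ z * Q1 z + φ z * Q2 z + φ z * Q3 z)) + ∫ z, φ z * Q4 z :=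
            integral_add ((hQ1i.add hQ2i).add hQ3i) hQ4i
          have i2 : ∫ z, (φ z * Q1 z + φ z * Q2 z + φ z * Q3 z) =
              (∫ z, (φ z * Q1 z + φ z * Q2 z)) + ∫ z, φ z * Q3 z :=
            integral_add (hQ1i.add hQ2i) hQ3i
          have i3 : ∫ z, (φ z * Q1 z + φ z * Q2 z) =
              (∫ z, φ z * Q1 z) + ∫ z, φ z * Q2 z := integral_add hQ1i hQ2i
          rw [i1, i2, i3]
      _ ≤ 5 * h n ^ 2 * (2 * E) + 20 / R ^ 2 * (2 * E + 2 * E + 2 * E + 2 * E) := by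
          apply add_le_add
          · exact mul_le_mul_of_nonneg_left hQ0e (by positivity)
          · apply mul_le_mul_of_nonneg_left _ (by positivity)
            linarith
      _ ≤ 160 * (1 / R ^ 2 + h n ^ 2) * E := by
          have h1 : 0 ≤ h n ^ 2 * E := by positivity
          have e : 20 / R ^ 2 * (2 * E + 2 * E + 2 * E + 2 * E) = 160 * (1 / R ^ 2) * E := by ring
          rw [e]
          nlinarith

end

end Pool.Agent.Helper93K9.PE
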