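import Pool.Agent.Helper93K9.PE.Sh
import Pool.Agent.TH294.RS.Ell

/-! Project PE (helper93), leaf ELL (helper27): local `L⁴` bounds by the local mass. -/

set_option autoImplicit false
open MeasureTheory Filter Topology Complex
open scoped ContDiff

namespace Pool.Agent.Helper93K9.PE

open Pool.Agent.W745.RW Pool.Agent.TH294.RS Pool.Agent.Y265.HY
open Pool.Agent.TH294.RG (dm mu FP)

namespace EllL

open Pool.Agent.W249.RW in
/-- the local estimate on discs -/
theorem locA : ∃ C : ℝ, 0 ≤ C ∧ ∀ (r : ℝ) (f : ℂ → ℝ) (c : ℂ) (κ : ℝ), 0 < r → 0 ≤ κ →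
    ContDiffOn ℝ ∞ f (Metric.ball c (4 * r)) →
    (∀ z ∈ Metric.ball c (4 * r), (r ^ 2 * lap f z) ^ 2 ≤ κ * f z ^ 2) →
    r ^ 2 * ∫ z in Metric.ball c r, f z ^ 4 ≤
      C * (1 + κ) * (∫ z in Metric.ball c (2 * r), f z ^ 2) ^ 2 := by
  obtain ⟨C0, hC0⟩ := Pool.Agent.W404.RW.L.main
  obtain ⟨M1, hM1, hM1'⟩ := cut_M b1
  refine ⟨|C0| * (M1 + 1), by positivity, ?_⟩
  intro r f c κ hr hκ hf hlap
  set B := Metric.ball c (4 * r) with hBdef
  have hB : IsOpen B := Metric.isOpen_ball
  have hsub2 : Metric.closedBall c (2 * r) ⊆ B := Metric.closedBall_subset_ball (by linarith)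
  have hb2 : Metric.ball c (2 * r) ⊆ B := Metric.ball_subset_closedBall.trans hsub2
  have hsub1 : Metric.closedBall c (b1.rOut * r) ⊆ Metric.ball c (2 * r) := by
    apply Metric.closedBall_subset_ball
    have : b1.rOut = 3 / 2 := rfl
    rw [this]
    linarith
  have tf1 : TF B (cut b1 c r) := cut_tf b1 c hr (hsub1.trans hb2)
  have hint : ∀ f : ℂ → ℝ, ContinuousOn f B → IntegrableOn f (Metric.ball c (2 * r)) := by
    intro f hf
    exact ((hf.mono hsub2).integrableOn_compact (isCompact_closedBall c (2 * r))).mono_set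
      Metric.ball_subset_closedBall
  have hcf : ContinuousOn f B := hf.continuousOn
  have hcg : ContinuousOn (fun z => r ^ 2 * lap f z) B :=
    continuousOn_const.mul (sm_lap hB hf).continuousOn
  set U := ∫ z in Metric.ball c (2 * r), f z ^ 2 with hU
  have hU0 : 0 ≤ U := integral_nonneg (fun z => by positivity)
  have s0 : ∫ z in Metric.ball c (2 * r), (r ^ 2 * lap f z) ^ 2 ≤ κ * U := by
    rw [hU, ← integral_const_mul]
    apply setIntegral_mono_on (hint _ (hcg.pow 2)) ((hint _ (hcf.pow 2)).const_mul κ)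
      measurableSet_ball
    intro z hz
    exact hlap z (hb2 hz)
  have s1 : r ^ 2 * ∫ z, (dx (fun w => cut b1 c r w * f w) z ^ 2 +
      dy (fun w => cut b1 c r w * f w) z ^ 2) ≤
      M1 * U + ∫ z in Metric.ball c (2 * r), (r ^ 2 * lap f z) ^ 2 :=
    en1 hB hf tf1 ((cut_supp b1 c hr).trans hsub1) (fun z => hM1' r hr c z)
      (cut_sq b1 c r) (hint _ (hcf.pow 2)) (hint _ (hcg.pow 2))
  have t3 : ∫ z, (cut b1 c r z * f z) ^ 2 ≤ ∫ z in Metric.ball c (2 * r), f z ^ 2 :=
    l2_up (cut_sq b1 c r) ((cut_supp b1 c hr).trans hsub1) (hint _ (hcf.pow 2))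
  have hcd : ContDiff ℝ ∞ (fun w => cut b1 c r w * f w) := prod_cd hB tf1 hf
  have t4 := hC0 (fun w => cut b1 c r w * f w) (hcd.of_le (by
    exact (WithTop.coe_le_coe.mpr (le_top : (1 : ℕ∞) ≤ ⊤) :
      ((1 : ℕ∞) : WithTop ℕ∞) ≤ ((⊤ : ℕ∞) : WithTop ℕ∞)))) tf1.2.1.mul_right
  have t5 : ∫ z in Metric.ball c r, f z ^ 4 ≤ ∫ z, (cut b1 c r z * f z) ^ 4 := by
    apply l4_low hcd.continuous tf1.2.1 measurableSet_ball
    intro z hz
    apply cut_one b1 c hr
    have : b1.rIn = 1 := rfl
    rw [this, one_mul]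
    exact hz
  set G := ∫ z, (dx (fun w => cut b1 c r w * f w) z ^ 2 +
      dy (fun w => cut b1 c r w * f w) z ^ 2) with hG
  set N := ∫ z, (cut b1 c r z * f z) ^ 2 with hN
  have hG0 : 0 ≤ G := integral_nonneg (fun z => by positivity)
  have hN0 : 0 ≤ N := integral_nonneg (fun z => by positivity)
  have t6 : ∫ z in Metric.ball c r, f z ^ 4 ≤ |C0| * N * G := by
    refine t5.trans (t4.trans ?_)
    apply mul_le_mul_of_nonneg_right _ hG0
    exact mul_le_mul_of_nonneg_right (le_abs_self _) hN0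
  have t7 : r ^ 2 * G ≤ (M1 + 1) * (1 + κ) * U := by
    calc r ^ 2 * G ≤ M1 * U + κ * U := s1.trans (by linarith)
      _ ≤ (M1 + 1) * (1 + κ) * U := by
        have : 0 ≤ M1 * κ * U := by positivity
        nlinarith
  calc r ^ 2 * ∫ z in Metric.ball c r, f z ^ 4 ≤ r ^ 2 * (|C0| * N * G) :=
        mul_le_mul_of_nonneg_left t6 (by positivity)
    _ = |C0| * (N * (r ^ 2 * G)) := by ring
    _ ≤ |C0| * (U * ((M1 + 1) * (1 + κ) * U)) := by
        apply mul_le_mul_of_nonneg_left _ (abs_nonneg _)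
        exact mul_le_mul t3 t7 (by positivity) hU0
    _ = _ := by ring

/-- the mean over the disc as an integral -/
lemma mean_eq (g : ℂ → ℝ) (z : ℂ) {ρ : ℝ} (hρ : 0 < ρ) :
    ∫ v, g (z + (ρ : ℂ) * v) ∂dm = 1 / (Real.pi * ρ ^ 2) * ∫ w in Metric.ball z ρ, g w := by
  rw [Pool.Agent.TH294.RG.int_dm, smul_eq_mul]
  have h1 : ∫ w in Metric.ball (0 : ℂ) 1, g (z + (ρ : ℂ) * w) =
      ∫ w, (fun u => (Metric.ball z ρ).indicator g (z + u)) (ρ • w) := by
    rw [← integral_indicator measurableSet_ball]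
    congr 1
    funext w
    have e : z + ρ • w = z + (ρ : ℂ) * w := by rw [real_smul]
    by_cases hw : w ∈ Metric.ball (0:ℂ) 1
    · rw [Set.indicator_of_mem hw]
      show _ = (Metric.ball z ρ).indicator g (z + ρ • w)
      rw [e, Set.indicator_of_mem]
      rw [mem_ball_zero_iff] at hw
      rw [Metric.mem_ball, dist_eq_norm, add_sub_cancel_left, norm_mul, norm_real,
        Real.norm_of_nonneg hρ.le]
      nlinarith
    · rw [Set.indicator_of_notMem hw]
      show _ = (Metric.ball z ρ).indicator g (z + ρ • w)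
      rw [e, Set.indicator_of_notMem]
      rw [mem_ball_zero_iff, not_lt] at hw
      rw [Metric.mem_ball, dist_eq_norm, add_sub_cancel_left, norm_mul, norm_real,
        Real.norm_of_nonneg hρ.le, not_lt]
      nlinarith
  rw [h1, Measure.integral_comp_smul volume
    (fun u => (Metric.ball z ρ).indicator g (z + u)) ρ, Complex.finrank_real_complex,
    integral_add_left_eq_self (fun u => (Metric.ball z ρ).indicator g u) z,
    integral_indicator measurableSet_ball, smul_eq_mul, abs_of_nonneg (by positivity)]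
  have := Real.pi_pos
  field_simp

/-- continuity of the local mass -/
lemma AR_cont {R lam : ℝ} (hs : 0 ≤ R / √lam) (hs1 : R / √lam < 1) {f : ℂ → ℝ}
    (hf : ContinuousOn f UH) : ContinuousOn (AR R lam f) UH := by
  set s := R / √lam with hsd
  have hUo : IsOpen UH := isOpen_lt continuous_const Complex.continuous_im
  have hin : ∀ z ∈ UH, ∀ v : ℂ, ‖v‖ ≤ 1 → z + ((s * z.im : ℝ) : ℂ) * v ∈ UH := by
    intro z hz v hv
    have hz' : 0 < z.im := hz
    show 0 < (z + ((s * z.im : ℝ) : ℂ) * v).im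
    simp only [add_im, mul_im, ofReal_re, ofReal_im, zero_mul, add_zero]
    have h1 := (abs_le.1 ((Complex.abs_im_le_norm v).trans hv)).1
    have h2 : 0 ≤ s * z.im := by positivity
    nlinarith
  intro z0 hz0
  apply ContinuousAt.continuousWithinAt
  obtain ⟨η, hη, hηU⟩ := Metric.isOpen_iff.1 hUo z0 hz0
  have hη2 : Metric.closedBall z0 (η / 2) ⊆ UH :=
    (Metric.closedBall_subset_ball (by linarith)).trans hηU
  have hKc : IsCompact ((fun p : ℂ × ℂ => p.1 + ((s * p.1.im : ℝ) : ℂ) * p.2) ''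
      (Metric.closedBall z0 (η / 2) ×ˢ Metric.closedBall (0:ℂ) 1)) := by
    apply ((isCompact_closedBall _ _).prod (isCompact_closedBall _ _)).image
    fun_prop
  have hKU : ((fun p : ℂ × ℂ => p.1 + ((s * p.1.im : ℝ) : ℂ) * p.2) ''
      (Metric.closedBall z0 (η / 2) ×ˢ Metric.closedBall (0:ℂ) 1)) ⊆ UH := by
    rintro _ ⟨p, hp, rfl⟩
    exact hin _ (hη2 hp.1) _ (mem_closedBall_zero_iff.1 hp.2)
  obtain ⟨M, hM⟩ := hKc.exists_bound_of_continuousOn ((hf.mono hKU).pow 2)
  unfold AR
  apply continuousAt_of_dominated (bound := fun _ => M)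
  · filter_upwards [Metric.ball_mem_nhds z0 (show 0 < η / 2 by linarith)] with z hz
    have hzU : z ∈ UH := hη2 (Metric.ball_subset_closedBall hz)
    unfold dm
    apply AEStronglyMeasurable.smul_measure
    apply ContinuousOn.aestronglyMeasurable _ measurableSet_ball
    apply ContinuousOn.pow
    apply hf.comp (by fun_prop)
    intro v hv
    exact hin z hzU v (mem_ball_zero_iff.1 hv).le
  · filter_upwards [Metric.ball_mem_nhds z0 (show 0 < η / 2 by linarith)] with z hz
    filter_upwards [Pool.Agent.TH294.RG.dm_ae] with v hv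
    apply hM
    exact ⟨(z, v), ⟨Metric.ball_subset_closedBall hz, mem_closedBall_zero_iff.2 hv.le⟩, rfl⟩
  · exact integrable_const _
  · filter_upwards [Pool.Agent.TH294.RG.dm_ae] with v hv
    apply ContinuousAt.pow
    have h1 : ContinuousAt f (z0 + ((s * z0.im : ℝ) : ℂ) * v) :=
      hf.continuousAt (hUo.mem_nhds (hin z0 hz0 v hv.le))
    have h2 : ContinuousAt (fun z : ℂ => z + ((s * z.im : ℝ) : ℂ) * v) z0 := by fun_prop
    exact ContinuousAt.comp (f := fun z : ℂ => z + ((s * z.im : ℝ) : ℂ) * v) h1 h2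

end EllL

theorem ell : S_ELL := by
  intro K hK hKU
  have hUo : IsOpen UH := isOpen_lt continuous_const Complex.continuous_im
  obtain ⟨δ, hδ, hδU⟩ := hK.exists_cthickening_subset_open hUo hKU
  set K' := Metric.cthickening δ K with hK'
  have hK'c : IsCompact K' := hK.cthickening
  obtain ⟨ψ, hψ, hψ1, hψ0, -⟩ := exists_cut hUo hK'c hδU
  refine ⟨ψ, hψ, hψ0, ?_⟩
  intro lam hlam hlim f hf hfe R hR
  obtain ⟨a, ha0, ha⟩ := hK'c.exists_forall_le' Complex.continuous_im.continuousOn
    (a := (0:ℝ)) (fun z hz => hδU hz)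
  obtain ⟨b0, hb0⟩ := hK'c.exists_bound_of_continuousOn (f := fun z : ℂ => z.im)
    Complex.continuous_im.continuousOn
  set b : ℝ := max b0 a + 1 with hb
  have hb1 : 0 < b := by
    have := le_max_right b0 a
    linarith
  have hbK : ∀ z ∈ K', z.im < b := fun z hz => by
    have h1 := (le_abs_self _).trans (hb0 z hz)
    have h2 := le_max_left b0 a
    linarith
  set a' : ℝ := a / 2 with ha'
  have ha'0 : 0 < a' := by positivity
  set U : Set ℂ := {z | a' < z.im ∧ z.im < b} with hU
  have hUU : U ⊆ UH := fun z hz => ha'0.trans hz.1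
  have hK'U : K' ⊆ U := fun z hz => ⟨by have := ha z hz; linarith, hbK z hz⟩
  obtain ⟨C, hC0, hC⟩ := EllL.locA
  set κ : ℝ := (R / 5) ^ 4 with hκ
  have hκ0 : 0 ≤ κ := by positivity
  set D : ℝ := C * (1 + κ) * (625 * Real.pi * b ^ 4 / (9 * a' ^ 4)) with hD
  have hpi := Real.pi_pos
  have hD0 : 0 ≤ D := by positivity
  refine ⟨9 * D, ?_⟩
  -- the scale
  have hh : Tendsto (fun n => 1 / √(lam n)) atTop (𝓝 0) := by
    have h1 : Tendsto (fun n => √(lam n)) atTop atTop := Real.tendsto_sqrt_atTop.comp hlim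
    refine h1.inv_tendsto_atTop.congr fun n => ?_
    rw [Pi.inv_apply, one_div]
  have hev1 : ∀ᶠ n in atTop, R * (1 / √(lam n)) < 1 := by
    have h1 := hh.const_mul R
    rw [mul_zero] at h1
    exact h1.eventually_lt_const (by norm_num)
  have hev2 : ∀ᶠ n in atTop, R * a' * (1 / √(lam n)) < δ := by
    have h1 := hh.const_mul (R * a')
    rw [mul_zero] at h1
    exact h1.eventually_lt_const hδ
  filter_upwards [hev1, hev2] with n hn1 hn2
  set h : ℝ := 1 / √(lam n) with hhd
  have hsq0 : 0 < √(lam n) := Real.sqrt_pos.2 (hlam n)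
  have hh0 : 0 < h := by positivity
  have hhl : h ^ 2 * lam n = 1 := by
    rw [hhd, div_pow, one_pow, Real.sq_sqrt (hlam n).le]
    exact one_div_mul_cancel (hlam n).ne'
  have hRs : R / √(lam n) = R * h := by rw [hhd]; ring
  set r : ℝ := R * a' / 5 * h with hr
  have hr0 : 0 < r := by positivity
  have hr5 : 5 * r = R * a' * h := by rw [hr]; ring
  have hfc : ContinuousOn (f n) UH := (hf n).continuousOn
  have hARc : ContinuousOn (AR R (lam n) (f n)) UH :=
    EllL.AR_cont (by rw [hRs]; positivity) (by rw [hRs]; exact hn1) hfc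
  have hAR0 : ∀ z, 0 ≤ AR R (lam n) (f n) z := fun z => integral_nonneg fun v => sq_nonneg _
  have hth : Metric.cthickening (5 * r) K ⊆ K' := by
    apply Metric.cthickening_mono
    rw [hr5]; exact hn2.le
  have key : ∀ c, Metric.ball c (4 * r) ⊆ U →
      ∫ z in Metric.ball c r, f n z ^ 4 ≤
        D * ∫ z in Metric.ball c (3 * r), AR R (lam n) (f n) z ^ 2 := by
    intro c hc
    have hloc := hC r (f n) c κ hr0 hκ0 ((hf n).mono (hc.trans hUU)) (by
      intro z hz
      have hzU := hc hz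
      have hz0 : 0 < z.im := ha'0.trans hzU.1
      have he := hfe n z (hUU hzU)
      have h1 : lap (f n) z = - (lam n * f n z) / z.im ^ 2 := by
        rw [eq_div_iff (by positivity)]
        linarith
      have h2 : r ^ 2 * lap (f n) z = - ((R / 5) ^ 2 * (a' / z.im) ^ 2 * f n z) := by
        rw [h1, hr]
        have : (R * a' / 5 * h) ^ 2 * (-(lam n * f n z) / z.im ^ 2) =
          - ((R / 5) ^ 2 * (a' / z.im) ^ 2 * f n z) * (h ^ 2 * lam n) := by ring
        rw [this, hhl, mul_one]
      rw [h2, neg_sq, mul_pow, mul_pow, ← pow_mul, ← pow_mul]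
      apply mul_le_mul_of_nonneg_right _ (sq_nonneg _)
      have h3 : a' / z.im ≤ 1 := by rw [div_le_one hz0]; exact hzU.1.le
      have h4 : (a' / z.im) ^ (2 * 2) ≤ 1 := pow_le_one₀ (by positivity) h3
      calc (R / 5) ^ (2 * 2) * (a' / z.im) ^ (2 * 2) ≤ (R / 5) ^ (2 * 2) * 1 :=
            mul_le_mul_of_nonneg_left h4 (by positivity)
        _ = κ := by rw [mul_one, hκ])
    set S := ∫ z in Metric.ball c (2 * r), f n z ^ 2 with hS
    have hS0 : 0 ≤ S := integral_nonneg fun z => sq_nonneg _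
    -- comparison with the local mass
    have hcmp : ∀ z ∈ Metric.ball c (3 * r), S ^ 2 ≤
        (Real.pi * (R * h * b) ^ 2) ^ 2 * AR R (lam n) (f n) z ^ 2 := by
      intro z hz
      have hzU : z ∈ U := hc (Metric.ball_subset_ball (by linarith) hz)
      have hz0 : 0 < z.im := ha'0.trans hzU.1
      have hρ : 0 < R * h * z.im := by positivity
      have e1 : AR R (lam n) (f n) z =
          1 / (Real.pi * (R * h * z.im) ^ 2) * ∫ w in Metric.ball z (R * h * z.im), f n w ^ 2 := by
        unfold AR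
        rw [hRs]
        exact EllL.mean_eq (fun w => f n w ^ 2) z hρ
      have hcl : Metric.closedBall z (R * h * z.im) ⊆ UH := by
        intro w hw
        rw [Metric.mem_closedBall, dist_eq_norm] at hw
        have h1 := (abs_le.1 ((Complex.abs_im_le_norm (w - z)).trans hw)).1
        rw [sub_im] at h1
        show 0 < w.im
        nlinarith
      have hint : IntegrableOn (fun w => f n w ^ 2) (Metric.ball z (R * h * z.im)) :=
        ((hfc.mono hcl).pow 2).integrableOn_compact (isCompact_closedBall _ _) |>.mono_set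
          Metric.ball_subset_closedBall
      have hsub : Metric.ball c (2 * r) ⊆ Metric.ball z (R * h * z.im) := by
        apply Metric.ball_subset_ball'
        rw [Metric.mem_ball, dist_comm] at hz
        have : 5 * r ≤ R * h * z.im := by
          rw [hr5]
          have := hzU.1
          have h2 : 0 < R * h := by positivity
          nlinarith
        linarith
      have h1 : S ≤ ∫ w in Metric.ball z (R * h * z.im), f n w ^ 2 :=
        setIntegral_mono_set hint (ae_of_all _ fun w => sq_nonneg _) hsub.eventuallyLE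
      have h2 : ∫ w in Metric.ball z (R * h * z.im), f n w ^ 2 =
          Real.pi * (R * h * z.im) ^ 2 * AR R (lam n) (f n) z := by
        rw [e1]
        field_simp
      have h3 : S ≤ Real.pi * (R * h * b) ^ 2 * AR R (lam n) (f n) z := by
        rw [h2] at h1
        refine h1.trans ?_
        apply mul_le_mul_of_nonneg_right _ (hAR0 z)
        apply mul_le_mul_of_nonneg_left _ hpi.le
        apply pow_le_pow_left₀ hρ.le
        exact mul_le_mul_of_nonneg_left hzU.2.le (by positivity)
      calc S ^ 2 ≤ (Real.pi * (R * h * b) ^ 2 * AR R (lam n) (f n) z) ^ 2 :=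
            pow_le_pow_left₀ hS0 h3 2
        _ = _ := by ring
    have hc3 : Metric.closedBall c (3 * r) ⊆ UH :=
      (Metric.closedBall_subset_ball (by linarith)).trans (hc.trans hUU)
    have hintA : IntegrableOn (fun z => AR R (lam n) (f n) z ^ 2) (Metric.ball c (3 * r)) :=
      ((hARc.mono hc3).pow 2).integrableOn_compact (isCompact_closedBall _ _) |>.mono_set
        Metric.ball_subset_closedBall
    have havg : (Real.pi * (3 * r) ^ 2) * S ^ 2 ≤ (Real.pi * (R * h * b) ^ 2) ^ 2 *
        ∫ z in Metric.ball c (3 * r), AR R (lam n) (f n) z ^ 2 := by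
      have h1 : ∫ z in Metric.ball c (3 * r), S ^ 2 ≤
          ∫ z in Metric.ball c (3 * r), (Real.pi * (R * h * b) ^ 2) ^ 2 *
            AR R (lam n) (f n) z ^ 2 := by
        apply setIntegral_mono_on _ (hintA.const_mul _) measurableSet_ball hcmp
        exact integrableOn_const measure_ball_lt_top.ne
      rw [integral_const_mul, setIntegral_const, smul_eq_mul] at h1
      have h2 : (volume : Measure ℂ).real (Metric.ball c (3 * r)) = Real.pi * (3 * r) ^ 2 := by
        rw [Measure.real, Complex.volume_ball]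
        rw [ENNReal.toReal_mul, ENNReal.toReal_pow, ENNReal.toReal_ofReal (by positivity)]
        simp
        ring
      rw [h2] at h1
      exact h1
    set Q := ∫ z in Metric.ball c (3 * r), AR R (lam n) (f n) z ^ 2 with hQ
    have hQ0 : 0 ≤ Q := integral_nonneg fun z => sq_nonneg _
    set P := ∫ z in Metric.ball c r, f n z ^ 4 with hP
    have hCκ : 0 ≤ C * (1 + κ) := by positivity
    -- combine
    have e1 : (Real.pi * (3 * r) ^ 2) * (r ^ 2 * P) ≤
        C * (1 + κ) * ((Real.pi * (R * h * b) ^ 2) ^ 2 * Q) := by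
      calc (Real.pi * (3 * r) ^ 2) * (r ^ 2 * P)
          ≤ (Real.pi * (3 * r) ^ 2) * (C * (1 + κ) * S ^ 2) :=
            mul_le_mul_of_nonneg_left hloc (by positivity)
        _ = C * (1 + κ) * ((Real.pi * (3 * r) ^ 2) * S ^ 2) := by ring
        _ ≤ _ := mul_le_mul_of_nonneg_left havg hCκ
    have e2 : D * Q = (Real.pi * (3 * r) ^ 2 * r ^ 2)⁻¹ *
        (C * (1 + κ) * ((Real.pi * (R * h * b) ^ 2) ^ 2 * Q)) := by
      rw [hD, hr]
      field_simp
      ring
    have hpos : 0 < Real.pi * (3 * r) ^ 2 * r ^ 2 := by positivity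
    rw [e2, inv_mul_eq_div, le_div_iff₀ hpos]
    calc P * (Real.pi * (3 * r) ^ 2 * r ^ 2) = (Real.pi * (3 * r) ^ 2) * (r ^ 2 * P) := by ring
      _ ≤ _ := e1
  have hcov := cover (G := fun z => f n z ^ 4) (H := fun z => AR R (lam n) (f n) z ^ 2)
    hK hK'c hK'U hr0 hth hD0 ((hfc.mono hUU).pow 4) ((hARc.mono hUU).pow 2)
    (fun z => by positivity) (fun z => sq_nonneg _) key
  refine hcov.trans ?_
  apply mul_le_mul_of_nonneg_left _ (by positivity)
  have hψc : Continuous (fun z => ψ z * AR R (lam n) (f n) z ^ 2) :=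
    ShL.cont_mul hUo hψ.1.continuous hψ.2.2 (hARc.pow 2)
  have hψi : Integrable (fun z => ψ z * AR R (lam n) (f n) z ^ 2) :=
    hψc.integrable_of_hasCompactSupport hψ.2.1.mul_right
  calc ∫ z in K', AR R (lam n) (f n) z ^ 2
      = ∫ z in K', ψ z * AR R (lam n) (f n) z ^ 2 := by
        refine setIntegral_congr_fun hK'c.measurableSet fun z hz => ?_
        show _ = ψ z * AR R (lam n) (f n) z ^ 2
        rw [hψ1 z hz, one_mul]
    _ ≤ _ := setIntegral_le_integral hψi (ae_of_all _ fun z => mul_nonneg (hψ0 z) (sq_nonneg _))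

end Pool.Agent.Helper93K9.PE
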