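import Pool.Agent.Helper93K9.PE.Sh

/-!
Project PE: leaf FM, the first moment of the local mass.
-/

set_option autoImplicit false

open MeasureTheory Filter Topology Complex
open scoped ContDiff

namespace Pool.Agent.Helper93K9.PE

open Pool.Agent.W745.RW Pool.Agent.TH294.RS Pool.Agent.Y265.HY
open Pool.Agent.TH294.RG (dm dm_prob dm_ae)

namespace FmL

/-- perturbation of the integral of a test function against a function with support in `K2` -/
lemma pert {φ : ℂ → ℝ} (hc : ContDiff ℝ ∞ φ) (hs : HasCompactSupport φ) (K2 : Set ℂ)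
    (hK2 : IsCompact K2) : ∃ C : ℝ, 0 ≤ C ∧ ∀ Q : ℂ → ℝ, Continuous Q → (∀ z, z ∉ K2 → Q z = 0) →
    (∀ z, 0 ≤ Q z) → ∀ s : ℝ, 0 ≤ s → s ≤ 1 / 2 → ∀ v : ℂ, ‖v‖ ≤ 1 →
    |(∫ z, φ z * Q (z + (z.im : ℂ) * ((s : ℂ) * v))) - ∫ z, φ z * Q z| ≤ C * s * ∫ z, Q z := by
  obtain ⟨L, hL⟩ := hc.lipschitzWith_of_hasCompactSupport hs (by simp)
  obtain ⟨M, hM⟩ := hs.exists_bound_of_continuous hc.continuous
  obtain ⟨Y, hY⟩ := hK2.exists_bound_of_continuousOn (f := fun z : ℂ => z.im)
    Complex.continuous_im.continuousOn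
  obtain ⟨Y1, hY1, hY1p⟩ : ∃ Y1 : ℝ, Y ≤ Y1 ∧ 0 ≤ Y1 := ⟨max Y 0, le_max_left _ _, le_max_right _ _⟩
  have hM0 : 0 ≤ M := (norm_nonneg _).trans (hM 0)
  refine ⟨2 * M + 2 * (L : ℝ) * Y1, by positivity, ?_⟩
  intro Q hQc hQs hQ0 s hs0 hs1 v hv
  obtain ⟨u, hu⟩ : ∃ u : ℂ, u = (s : ℂ) * v := ⟨_, rfl⟩
  have hun : ‖u‖ ≤ s := by
    rw [hu, norm_mul, norm_real, Real.norm_eq_abs, abs_of_nonneg hs0]
    nlinarith
  have hui : |u.im| ≤ s := (Complex.abs_im_le_norm u).trans hun
  have hd : 1 / 2 ≤ 1 + u.im := by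
    have := (abs_le.1 hui).1
    linarith
  have hd0 : 1 + u.im ≠ 0 := by linarith
  have hdp : 0 < 1 + u.im := by linarith
  rw [← hu]
  obtain ⟨g, hg⟩ : ∃ g : ℂ → ℂ, g = fun w => w - ((w.im / (1 + u.im) : ℝ) : ℂ) * u := ⟨_, rfl⟩
  have hgc : Continuous g := by rw [hg]; fun_prop
  have hgT : ∀ z : ℂ, g (z + (z.im : ℂ) * u) = z := by
    intro z
    rw [hg]
    simp only
    have h1 : (z + (z.im : ℂ) * u).im = z.im * (1 + u.im) := by
      simp only [add_im, mul_im, ofReal_re, ofReal_im, zero_mul, add_zero]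
      ring
    rw [h1, mul_div_assoc, div_self hd0, mul_one, add_sub_cancel_right]
  have hQcs : HasCompactSupport Q := HasCompactSupport.intro hK2 hQs
  have e1 : ∫ z, φ z * Q (z + (z.im : ℂ) * u) =
      (1 + u.im)⁻¹ * ∫ w, φ (g w) * Q w := by
    have h1 := ShL.TL_int u hd0 (fun w => φ (g w) * Q w)
    rw [abs_of_pos (inv_pos.2 hdp)] at h1
    rw [← h1]
    apply integral_congr_ae
    refine ae_of_all _ fun z => ?_
    show φ z * Q (z + (z.im : ℂ) * u) = φ (g (z + (z.im : ℂ) * u)) * Q (z + (z.im : ℂ) * u)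
    rw [hgT]
  have i1 : Integrable (fun w => φ (g w) * Q w) :=
    ((hc.continuous.comp hgc).mul hQc).integrable_of_hasCompactSupport hQcs.mul_left
  have i2 : Integrable (fun w => φ w * Q w) :=
    (hc.continuous.mul hQc).integrable_of_hasCompactSupport hQcs.mul_left
  have i3 : Integrable Q := hQc.integrable_of_hasCompactSupport hQcs
  rw [e1, ← integral_const_mul, ← integral_sub (i1.const_mul _) i2]
  have h2 : ∀ w, ‖(1 + u.im)⁻¹ * (φ (g w) * Q w) - φ w * Q w‖ ≤
      (2 * M + 2 * (L : ℝ) * Y1) * s * Q w := by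
    intro w
    by_cases hw : w ∈ K2
    · have a1 : |w.im| ≤ Y1 := (hY w hw).trans hY1
      have a2 : ‖g w - w‖ ≤ 2 * Y1 * s := by
        rw [hg]
        simp only
        rw [sub_sub_cancel_left, norm_neg, norm_mul, norm_real, Real.norm_eq_abs, abs_div,
          abs_of_pos hdp]
        have a3 : |w.im| / (1 + u.im) ≤ 2 * Y1 := by
          rw [div_le_iff₀ hdp]
          nlinarith [abs_nonneg w.im]
        exact mul_le_mul a3 hun (norm_nonneg _) (by positivity)
      have a4 : |φ (g w) - φ w| ≤ L * (2 * Y1 * s) := by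
        have := hL.dist_le_mul (g w) w
        rw [Real.dist_eq, dist_eq_norm] at this
        exact this.trans (mul_le_mul_of_nonneg_left a2 L.coe_nonneg)
      have a5 : |(1 + u.im)⁻¹ - 1| ≤ 2 * s := by
        have a6 : (1 + u.im)⁻¹ - 1 = -u.im / (1 + u.im) := by
          field_simp
          ring
        rw [a6, abs_div, abs_neg, abs_of_pos hdp, div_le_iff₀ hdp]
        nlinarith
      have a7 : (1 + u.im)⁻¹ * (φ (g w) * Q w) - φ w * Q w =
          (((1 + u.im)⁻¹ - 1) * φ (g w) + (φ (g w) - φ w)) * Q w := by ring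
      rw [a7, norm_mul, Real.norm_eq_abs, Real.norm_eq_abs, abs_of_nonneg (hQ0 w)]
      apply mul_le_mul_of_nonneg_right _ (hQ0 w)
      refine (abs_add_le _ _).trans ?_
      rw [abs_mul]
      have a8 : |φ (g w)| ≤ M := hM (g w)
      have a9 : |(1 + u.im)⁻¹ - 1| * |φ (g w)| ≤ 2 * s * M :=
        mul_le_mul a5 a8 (abs_nonneg _) (by positivity)
      nlinarith
    · rw [hQs w hw, mul_zero, mul_zero, mul_zero, sub_zero, mul_zero, norm_zero]
  have h3 := norm_integral_le_of_norm_le (i3.const_mul ((2 * M + 2 * (L : ℝ) * Y1) * s))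
    (ae_of_all _ h2)
  rw [integral_const_mul, Real.norm_eq_abs] at h3
  exact h3

/-- Fubini -/
lemma fub {φ Q : ℂ → ℝ} (hc : Continuous φ) (hs : HasCompactSupport φ) (hQ : Continuous Q)
    (hQs : HasCompactSupport Q) (s : ℝ) :
    Integrable (Function.uncurry fun (z v : ℂ) => φ z * Q (z + (z.im : ℂ) * ((s : ℂ) * v)))
      (volume.prod dm) := by
  obtain ⟨M, hM⟩ := hQs.exists_bound_of_continuous hQ
  have h1 : Integrable (fun p : ℂ × ℂ => φ p.1 * M) (volume.prod dm) :=
    (hc.integrable_of_hasCompactSupport hs).mul_prod (integrable_const M)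
  refine h1.norm.mono' ?_ ?_
  · apply Continuous.aestronglyMeasurable
    unfold Function.uncurry
    fun_prop
  · refine ae_of_all _ fun p => ?_
    simp only [Function.uncurry, norm_mul]
    apply mul_le_mul_of_nonneg_left _ (norm_nonneg _)
    exact (hM _).trans (le_abs_self M)

end FmL

open FmL in
/-- the leaf FM -/
theorem fm : S_FM := by
  intro lam hlam hlim f hf hqe φ hφ R hR
  have hUH : IsOpen UH := isOpen_lt continuous_const Complex.continuous_im
  obtain ⟨s, hs⟩ : ∃ s : ℕ → ℝ, s = fun n => R / √(lam n) := ⟨_, rfl⟩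
  have hs0 : ∀ n, 0 ≤ s n := fun n => by rw [hs]; positivity
  have hslim : Tendsto s atTop (𝓝 0) := by
    rw [hs]
    exact tendsto_const_nhds.div_atTop (Real.tendsto_sqrt_atTop.comp hlim)
  -- the compact sets
  set K := tsupport φ with hK
  have hKc : IsCompact K := hφ.2.1
  obtain ⟨δ, hδ, hδB⟩ := hKc.exists_cthickening_subset_open hUH hφ.2.2
  obtain ⟨C, hC⟩ := hKc.exists_bound_of_continuousOn (f := fun z : ℂ => z.im)
    Complex.continuous_im.continuousOn
  set C1 : ℝ := max C 1 with hC1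
  have hC11 : 1 ≤ C1 := le_max_right _ _
  have hK1c : IsCompact (Metric.cthickening δ K) := hKc.cthickening
  obtain ⟨χ, hχ, hχ1, hχ0, -⟩ := exists_cut hUH hK1c hδB
  set s0 : ℝ := min (1 / 2) (δ / C1) with hs00
  have hs0p : 0 < s0 := lt_min (by norm_num) (div_pos hδ (by linarith))
  have hs0h : s0 ≤ 1 / 2 := min_le_left _ _
  have hs0d : C1 * s0 ≤ δ := by
    have : s0 ≤ δ / C1 := min_le_right _ _
    rw [le_div_iff₀ (by linarith)] at this
    linarith
  have hin : ∀ z ∈ K, ∀ v : ℂ, ‖v‖ ≤ s0 → z + (z.im : ℂ) * v ∈ Metric.cthickening δ K := by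
    intro z hz v hv
    apply Metric.mem_cthickening_of_dist_le _ z _ _ hz
    rw [dist_eq_norm, add_sub_cancel_left, norm_mul, norm_real]
    calc ‖z.im‖ * ‖v‖ ≤ C1 * s0 := by
          apply mul_le_mul ((hC z hz).trans (le_max_left _ _)) hv (norm_nonneg _) (by linarith)
      _ ≤ δ := hs0d
  -- the functions
  obtain ⟨Q, hQ⟩ : ∃ Q : ℕ → ℂ → ℝ, Q = fun n z => χ z * f n z ^ 2 := ⟨_, rfl⟩
  have hQc : ∀ n, Continuous (Q n) := by
    intro n
    rw [hQ]
    exact ShL.cont_mul hUH hχ.1.continuous hχ.2.2 ((hf n).continuousOn.pow 2)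
  have hQ0 : ∀ n z, 0 ≤ Q n z := by
    intro n z
    rw [hQ]
    exact mul_nonneg (hχ0 z) (sq_nonneg _)
  have hQK : ∀ n z, z ∉ tsupport χ → Q n z = 0 := by
    intro n z hz
    rw [hQ]
    simp only
    rw [image_eq_zero_of_notMem_tsupport hz, zero_mul]
  have hQs : ∀ n, HasCompactSupport (Q n) := fun n => HasCompactSupport.intro hχ.2.1 (hQK n)
  have hφQ : ∀ n, ∫ z, φ z * Q n z = ∫ z, φ z * f n z ^ 2 := by
    intro n
    apply integral_congr_ae
    refine ae_of_all _ fun z => ?_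
    show φ z * Q n z = φ z * f n z ^ 2
    by_cases hz : z ∈ K
    · have : χ z = 1 := hχ1 z (Metric.self_subset_cthickening K hz)
      rw [hQ]
      simp only
      rw [this, one_mul]
    · rw [image_eq_zero_of_notMem_tsupport hz, zero_mul, zero_mul]
  obtain ⟨D, hD0, hD⟩ := pert hφ.1 hφ.2.1 (tsupport χ) hχ.2.1
  have hsmall : ∀ᶠ n in atTop, s n ≤ s0 := hslim.eventually (ge_mem_nhds hs0p)
  have hkey : ∀ᶠ n in atTop, |(∫ z, φ z * AR R (lam n) (f n) z) - ∫ z, φ z * f n z ^ 2| ≤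
      D * s n * ∫ z, χ z * f n z ^ 2 := by
    filter_upwards [hsmall] with n hn
    have e1 : ∀ z, φ z * AR R (lam n) (f n) z =
        ∫ v, φ z * Q n (z + (z.im : ℂ) * ((s n : ℂ) * v)) ∂dm := by
      intro z
      unfold AR
      rw [← integral_const_mul]
      apply integral_congr_ae
      filter_upwards [dm_ae] with v hv
      by_cases hz : z ∈ K
      · have h1 : ‖(s n : ℂ) * v‖ ≤ s0 := by
          rw [norm_mul, norm_real, Real.norm_eq_abs, abs_of_nonneg (hs0 n)]
          have := norm_nonneg v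
          nlinarith [hs0 n]
        have h2 := hχ1 _ (hin z hz _ h1)
        have h3 : z + (((R / √(lam n)) * z.im : ℝ) : ℂ) * v =
            z + (z.im : ℂ) * ((s n : ℂ) * v) := by
          rw [hs]
          push_cast
          ring
        rw [h3, hQ]
        simp only
        rw [h2, one_mul]
      · rw [image_eq_zero_of_notMem_tsupport hz, zero_mul, zero_mul]
    have hint := fub hφ.1.continuous hφ.2.1 (hQc n) (hQs n) (s n)
    have e2 : ∫ z, φ z * AR R (lam n) (f n) z =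
        ∫ v, (∫ z, φ z * Q n (z + (z.im : ℂ) * ((s n : ℂ) * v))) ∂dm := by
      rw [← integral_integral_swap hint]
      exact integral_congr_ae (ae_of_all _ e1)
    have hint2 : Integrable (fun v => ∫ z, φ z * Q n (z + (z.im : ℂ) * ((s n : ℂ) * v))) dm :=
      hint.integral_prod_right
    have e3 : (∫ z, φ z * AR R (lam n) (f n) z) - ∫ z, φ z * f n z ^ 2 =
        ∫ v, ((∫ z, φ z * Q n (z + (z.im : ℂ) * ((s n : ℂ) * v))) - ∫ z, φ z * Q n z) ∂dm := by
      rw [integral_sub hint2 (integrable_const _), ← e2, hφQ n]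
      simp
    rw [e3]
    have h5 := norm_integral_le_of_norm_le_const (μ := dm)
      (f := fun v => (∫ z, φ z * Q n (z + (z.im : ℂ) * ((s n : ℂ) * v))) - ∫ z, φ z * Q n z)
      (C := D * s n * ∫ z, Q n z) (dm_ae.mono fun v hv => by
        rw [Real.norm_eq_abs]
        exact hD (Q n) (hQc n) (hQK n) (hQ0 n) (s n) (hs0 n) (hn.trans hs0h) v hv.le)
    rw [Real.norm_eq_abs] at h5
    refine h5.trans (le_of_eq ?_)
    rw [hQ]
    simp
  have hφlim := hqe φ hφ
  have hχlim := hqe χ hχ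
  have h6 : Tendsto (fun n => D * s n * ∫ z, χ z * f n z ^ 2) atTop (𝓝 0) := by
    have := (hslim.const_mul D).mul hχlim
    simpa using this
  have h7 : Tendsto (fun n => (∫ z, φ z * AR R (lam n) (f n) z) - ∫ z, φ z * f n z ^ 2) atTop
      (𝓝 0) := squeeze_zero_norm' hkey h6
  have h8 := h7.add hφlim
  simpa using h8

end Pool.Agent.Helper93K9.PE
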