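import Mathlib

/-!
Project PE: limits of integrals over the circle (lemmas for GR and FPL).
-/

set_option autoImplicit false

open MeasureTheory Filter Topology

namespace Pool.Agent.Helper93K9.PE.GrL

lemma two_cos_nonneg (θ : ℝ) : 0 ≤ 2 - 2 * Real.cos θ := by
  have := Real.cos_le_one θ
  linarith

lemma two_cos_le (θ : ℝ) : 2 - 2 * Real.cos θ ≤ 4 := by
  have := Real.neg_one_le_cos θ
  linarith

lemma two_cos_pos {θ : ℝ} (h0 : 0 < θ) (h1 : θ < 2 * Real.pi) : 0 < 2 - 2 * Real.cos θ := by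
  have h2 : Real.cos θ ≠ 1 := by
    intro h
    rw [Real.cos_eq_one_iff] at h
    obtain ⟨n, hn⟩ := h
    have hp := Real.pi_pos
    rw [← hn] at h0 h1
    have a1 : (0 : ℝ) < n := by
      by_contra h3
      push Not at h3
      nlinarith
    have a2 : (n : ℝ) < 1 := by
      by_contra h3
      push Not at h3
      nlinarith
    have b1 : 0 < n := by exact_mod_cast a1
    have b2 : n < 1 := by exact_mod_cast a2
    omega
  have h3 := lt_of_le_of_ne (Real.cos_le_one θ) h2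
  linarith

lemma cont_aux {J : ℝ → ℝ} (hc : Continuous J) (R : ℝ) :
    Continuous (fun θ : ℝ => J (R * √(2 - 2 * Real.cos θ)) ^ 2) := by
  fun_prop

theorem gr_abs (J : ℝ → ℝ) (hc : Continuous J) (h1 : ∀ y, |J y| ≤ 1) (hl : Tendsto J atTop (𝓝 0)) :
    Tendsto (fun R => 1 + 1 / Real.pi * ∫ θ in (0 : ℝ)..(2 * Real.pi),
      J (R * √(2 - 2 * Real.cos θ)) ^ 2) atTop (𝓝 1) := by
  have h2 : Tendsto (fun R : ℝ => ∫ θ in (0 : ℝ)..(2 * Real.pi),
      J (R * √(2 - 2 * Real.cos θ)) ^ 2) atTop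
      (𝓝 (∫ θ in (0 : ℝ)..(2 * Real.pi), (0 : ℝ))) := by
    apply intervalIntegral.tendsto_integral_filter_of_dominated_convergence (fun _ => (1 : ℝ))
    · exact Eventually.of_forall fun R => (cont_aux hc R).aestronglyMeasurable
    · refine Eventually.of_forall fun R => Eventually.of_forall fun θ _ => ?_
      rw [Real.norm_eq_abs, abs_pow]
      exact pow_le_one₀ (abs_nonneg _) (h1 _)
    · exact intervalIntegrable_const
    · have h3 : ∀ᵐ θ : ℝ, θ ≠ 2 * Real.pi := by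
        rw [ae_iff]
        simp
      filter_upwards [h3] with θ hθ hmem
      rw [Set.uIoc_of_le (by positivity)] at hmem
      have h4 := two_cos_pos hmem.1 (lt_of_le_of_ne hmem.2 hθ)
      have h5 : Tendsto (fun R : ℝ => J (R * √(2 - 2 * Real.cos θ))) atTop (𝓝 0) :=
        hl.comp (tendsto_id.atTop_mul_const (Real.sqrt_pos.2 h4))
      have h6 := h5.pow 2
      simpa using h6
  have h3 := (h2.const_mul (1 / Real.pi)).const_add 1
  simpa using h3

theorem gr_ge (J : ℝ → ℝ) (R : ℝ) :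
    1 ≤ 1 + 1 / Real.pi * ∫ θ in (0 : ℝ)..(2 * Real.pi), J (R * √(2 - 2 * Real.cos θ)) ^ 2 := by
  have h1 : 0 ≤ ∫ θ in (0 : ℝ)..(2 * Real.pi), J (R * √(2 - 2 * Real.cos θ)) ^ 2 :=
    intervalIntegral.integral_nonneg (by positivity) fun θ _ => sq_nonneg _
  have h2 : 0 ≤ 1 / Real.pi * ∫ θ in (0 : ℝ)..(2 * Real.pi),
      J (R * √(2 - 2 * Real.cos θ)) ^ 2 := by positivity
  linarith

lemma err_lim (R : ℝ) : Tendsto (fun N : ℕ => (R ^ 2 * 4) ^ N / (Nat.factorial (2 * N) : ℝ))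
    atTop (𝓝 0) := by
  have h1 := (FloorSemiring.tendsto_pow_div_factorial_atTop (2 * R)).comp
    (tendsto_id.const_mul_atTop' (show 0 < 2 by norm_num))
  refine h1.congr fun N => ?_
  simp only [Function.comp_def, id]
  rw [pow_mul (2 * R) 2 N, mul_pow 2 R 2]
  norm_num
  ring

lemma pt_lim {J : ℝ → ℝ} {F : ℕ → ℝ → ℝ} {R : ℝ}
    (hb : ∀ N x, 0 ≤ x → |J (R * √x) - F N x| ≤ (R ^ 2 * x) ^ N / (Nat.factorial (2 * N) : ℝ))
    {x : ℝ} (h0 : 0 ≤ x) (h4 : x ≤ 4) : Tendsto (fun N => F N x) atTop (𝓝 (J (R * √x))) := by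
  have h1 : Tendsto (fun N => J (R * √x) - F N x) atTop (𝓝 0) := by
    apply squeeze_zero_norm _ (err_lim R)
    intro N
    refine (hb N x h0).trans ?_
    refine div_le_div_of_nonneg_right ?_ (by positivity)
    exact pow_le_pow_left₀ (by positivity) (by nlinarith [sq_nonneg R]) _
  have h2 := (tendsto_const_nhds (x := J (R * √x))).sub h1
  simpa using h2

theorem fpl_abs (J : ℝ → ℝ) (F : ℕ → ℝ → ℝ) (R : ℝ) (h1 : ∀ y, |J y| ≤ 1)
    (hF : ∀ N, Continuous (F N))
    (hb : ∀ N x, 0 ≤ x → |J (R * √x) - F N x| ≤ (R ^ 2 * x) ^ N / (Nat.factorial (2 * N) : ℝ)) :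
    Tendsto (fun N => ∫ θ in (0 : ℝ)..(2 * Real.pi), F N (2 - 2 * Real.cos θ) ^ 2) atTop
      (𝓝 (∫ θ in (0 : ℝ)..(2 * Real.pi), J (R * √(2 - 2 * Real.cos θ)) ^ 2)) := by
  apply intervalIntegral.tendsto_integral_filter_of_dominated_convergence (fun _ => (4 : ℝ))
  · refine Eventually.of_forall fun N => Continuous.aestronglyMeasurable ?_
    have := hF N
    fun_prop
  · have h2 := (err_lim R).eventually (ge_mem_nhds (show (0 : ℝ) < 1 by norm_num))
    filter_upwards [h2] with N hN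
    refine Eventually.of_forall fun θ _ => ?_
    have a0 := two_cos_nonneg θ
    have a4 := two_cos_le θ
    have h3 := hb N _ a0
    have h4 : (R ^ 2 * (2 - 2 * Real.cos θ)) ^ N / (Nat.factorial (2 * N) : ℝ) ≤ 1 := by
      refine le_trans ?_ hN
      refine div_le_div_of_nonneg_right ?_ (by positivity)
      exact pow_le_pow_left₀ (by positivity) (by nlinarith [sq_nonneg R]) _
    have h5 := abs_le.1 (h3.trans h4)
    have h6 := abs_le.1 (h1 (R * √(2 - 2 * Real.cos θ)))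
    have h7 : |F N (2 - 2 * Real.cos θ)| ≤ 2 := abs_le.2 ⟨by linarith, by linarith⟩
    rw [Real.norm_eq_abs, abs_pow]
    nlinarith [abs_nonneg (F N (2 - 2 * Real.cos θ))]
  · exact intervalIntegrable_const
  · refine Eventually.of_forall fun θ _ => ?_
    exact (pt_lim hb (two_cos_nonneg θ) (two_cos_le θ)).pow 2

end Pool.Agent.Helper93K9.PE.GrL
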