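import Pool.Agent.Helper93K9.PE.Stm
import Pool.Agent.Helper93K9.PE.GrL

/-!
Project PE: leaves GR and FPL.
-/

set_option autoImplicit false

open MeasureTheory Filter Topology
open Pool.Agent.TH294.RG (dm mu FP JJ JJ_0 JJ_le JJ_lim FP_bd)

namespace Pool.Agent.Helper93K9.PE

lemma JJ_cont : Continuous JJ := by
  unfold Pool.Agent.TH294.RG.JJ
  apply continuous_of_dominated (bound := fun _ => (1 : ℝ))
  · intro y
    exact (by fun_prop : Continuous fun w : ℂ => Real.cos (y * w.re)).aestronglyMeasurable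
  · intro y
    exact Eventually.of_forall fun w => by rw [Real.norm_eq_abs]; exact Real.abs_cos_le_one _
  · exact integrable_const _
  · exact Eventually.of_forall fun w => by fun_prop

/-- the leaf GR -/
theorem gr : S_GR := ⟨GrL.gr_abs JJ JJ_cont JJ_le JJ_lim, fun R => GrL.gr_ge JJ R⟩

/-- the leaf FPL -/
theorem fpl : S_FPL := by
  intro R _
  have hb : ∀ (N : ℕ) (x : ℝ), 0 ≤ x →
      |JJ (R * √x) - (FP R N).eval x| ≤ (R ^ 2 * x) ^ N / (Nat.factorial (2 * N) : ℝ) :=
    fun N x hx => FP_bd R N hx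
  have h0 : Tendsto (fun N => (FP R N).eval 0) atTop (𝓝 1) := by
    have := GrL.pt_lim (J := JJ) (F := fun N x => (FP R N).eval x) (R := R) hb (le_refl (0 : ℝ))
      (by norm_num)
    rwa [Real.sqrt_zero, mul_zero, JJ_0] at this
  have h4 : Tendsto (fun N => (FP R N).eval 4) atTop (𝓝 (JJ (2 * R))) := by
    have := GrL.pt_lim (J := JJ) (F := fun N x => (FP R N).eval x) (R := R) hb
      (show (0 : ℝ) ≤ 4 by norm_num) (le_refl (4 : ℝ))
    have e : R * √4 = 2 * R := by
      rw [show (4 : ℝ) = 2 ^ 2 by norm_num, Real.sqrt_sq (by norm_num)]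
      ring
    rwa [e] at this
  constructor
  · have h := (((h0.pow 2).const_mul 2).add (h4.pow 2)).div_const 3
    have e : (2 * (1 : ℝ) ^ 2 + JJ (2 * R) ^ 2) / 3 = eR R := by
      show _ = (2 + JJ (2 * R) ^ 2) / 3
      norm_num
    rwa [e] at h
  · have h := (h0.pow 2).add ((GrL.fpl_abs JJ (fun N x => (FP R N).eval x) R JJ_le
      (fun N => (FP R N).continuous) hb).const_mul (1 / Real.pi))
    have e : (1 : ℝ) ^ 2 + 1 / Real.pi * ∫ θ in (0 : ℝ)..(2 * Real.pi),
        JJ (R * √(2 - 2 * Real.cos θ)) ^ 2 = gR R := by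
      show _ = 1 + 1 / Real.pi * ∫ θ in (0 : ℝ)..(2 * Real.pi),
        JJ (R * √(2 - 2 * Real.cos θ)) ^ 2
      norm_num
    rwa [e] at h

end Pool.Agent.Helper93K9.PE
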