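import Pool.Agent.Helper93K9.PE.DvBase

/-!
# Leaf HOM
-/

set_option autoImplicit false
open MeasureTheory Filter Topology Complex
open scoped ContDiff

namespace Pool.Agent.Helper93K9.PE

open Pool.Agent.W745.RW Pool.Agent.TH294.RS Pool.Agent.Y265.HY

noncomputable section

/-- **HOM** -/
theorem hom : S_HOM := by
  intro B hB g hg z hz j
  constructor
  · intro r v
    rw [DvL.expand hB hg _ j z hz, DvL.expand hB hg v j z hz, Finset.mul_sum]
    refine Finset.sum_congr rfl fun p hp => ?_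
    have h3 : p.1 + p.2 = j := Finset.HasAntidiagonal.mem_antidiagonal.1 hp
    rw [map_mul, Complex.conj_ofReal, mul_pow, mul_pow]
    have h4 : (r : ℂ) ^ j = (r : ℂ) ^ p.1 * (r : ℂ) ^ p.2 := by rw [← pow_add, h3]
    rw [h4]
    ring
  · have h1 : (fun v => ((dv v)^[j] g) z) = fun v => ∑ p ∈ Finset.HasAntidiagonal.antidiagonal j,
      ((j.choose p.1 : ℂ) * ((2⁻¹ : ℂ) ^ j * (v ^ p.1 * (starRingEnd ℂ) v ^ p.2))) *
        DvL.G g p.1 p.2 z := by
      funext v
      exact DvL.expand hB hg v j z hz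
    rw [h1]
    fun_prop

end

end Pool.Agent.Helper93K9.PE
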