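import Pool.Agent.Helper93K9.PE.DvBase

/-!
# Leaf LEI
-/

set_option autoImplicit false
open MeasureTheory Filter Topology Complex
open scoped ContDiff

namespace Pool.Agent.Helper93K9.PE

open Pool.Agent.W745.RW Pool.Agent.TH294.RS Pool.Agent.Y265.HY

noncomputable section

/-- **LEI** -/
theorem lei : S_LEI := by
  intro B hB u hu v hv t ht m z hz
  obtain ⟨Q, hQ⟩ : ∃ Q : ℝ, Q = ∑ k ∈ Finset.range (m + 1), ∑ l ∈ Finset.range (m + 1),
      (t ^ (k + l) * ‖(dd^[k] (db^[l] u)) z‖) ^ 2 := ⟨_, rfl⟩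
  rw [← hQ]
  have hQ0 : 0 ≤ Q := by
    rw [hQ]
    exact Finset.sum_nonneg fun _ _ => Finset.sum_nonneg fun _ _ => sq_nonneg _
  have hG : ∀ k l, k ≤ m → l ≤ m → t ^ (k + l) * ‖DvL.G u k l z‖ ≤ √Q := by
    intro k l hk hl
    refine Real.le_sqrt_of_sq_le ?_
    rw [hQ]
    have h1 : (t ^ (k + l) * ‖DvL.G u k l z‖) ^ 2 ≤ ∑ l ∈ Finset.range (m + 1),
        (t ^ (k + l) * ‖(dd^[k] (db^[l] u)) z‖) ^ 2 :=
      Finset.single_le_sum (f := fun l => (t ^ (k + l) * ‖(dd^[k] (db^[l] u)) z‖) ^ 2)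
        (fun _ _ => sq_nonneg _) (Finset.mem_range.2 (by omega))
    refine h1.trans ?_
    exact Finset.single_le_sum (f := fun k => ∑ l ∈ Finset.range (m + 1),
        (t ^ (k + l) * ‖(dd^[k] (db^[l] u)) z‖) ^ 2)
        (fun _ _ => Finset.sum_nonneg fun _ _ => sq_nonneg _) (Finset.mem_range.2 (by omega))
  have hj : ∀ j, j ≤ m → t ^ j * ‖((dv v)^[j] u) z‖ ≤ √Q := by
    intro j hjm
    rw [DvL.expand hB hu v j z hz]
    have h1 : ‖∑ p ∈ Finset.HasAntidiagonal.antidiagonal j,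
        ((j.choose p.1 : ℂ) * ((2⁻¹ : ℂ) ^ j * (v ^ p.1 * (starRingEnd ℂ) v ^ p.2))) *
        DvL.G u p.1 p.2 z‖ ≤ ∑ p ∈ Finset.HasAntidiagonal.antidiagonal j,
          (j.choose p.1 : ℝ) * ((2⁻¹ : ℝ) ^ j * ‖DvL.G u p.1 p.2 z‖) := by
      refine norm_sum_le_of_le _ fun p _ => ?_
      rw [norm_mul, norm_mul, norm_mul, norm_mul, norm_pow, norm_pow, norm_pow, RCLike.norm_conj,
        Complex.norm_natCast, norm_inv]
      have h2 : ‖(2 : ℂ)‖ = 2 := by simp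
      rw [h2]
      have h3 : ‖v‖ ^ p.1 * ‖v‖ ^ p.2 ≤ 1 :=
        mul_le_one₀ (pow_le_one₀ (norm_nonneg _) hv) (by positivity)
          (pow_le_one₀ (norm_nonneg _) hv)
      calc (j.choose p.1 : ℝ) * ((2⁻¹ : ℝ) ^ j * (‖v‖ ^ p.1 * ‖v‖ ^ p.2)) * ‖DvL.G u p.1 p.2 z‖
          ≤ (j.choose p.1 : ℝ) * ((2⁻¹ : ℝ) ^ j * 1) * ‖DvL.G u p.1 p.2 z‖ := by gcongr
        _ = _ := by ring
    calc t ^ j * ‖∑ p ∈ Finset.HasAntidiagonal.antidiagonal j,
        ((j.choose p.1 : ℂ) * ((2⁻¹ : ℂ) ^ j * (v ^ p.1 * (starRingEnd ℂ) v ^ p.2))) *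
        DvL.G u p.1 p.2 z‖
        ≤ t ^ j * ∑ p ∈ Finset.HasAntidiagonal.antidiagonal j,
          (j.choose p.1 : ℝ) * ((2⁻¹ : ℝ) ^ j * ‖DvL.G u p.1 p.2 z‖) :=
          mul_le_mul_of_nonneg_left h1 (by positivity)
      _ = ∑ p ∈ Finset.HasAntidiagonal.antidiagonal j,
          ((2⁻¹ : ℝ) ^ j * (j.choose p.1 : ℝ)) * (t ^ j * ‖DvL.G u p.1 p.2 z‖) := by
          rw [Finset.mul_sum]
          exact Finset.sum_congr rfl fun p _ => by ring
      _ ≤ ∑ p ∈ Finset.HasAntidiagonal.antidiagonal j,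
          ((2⁻¹ : ℝ) ^ j * (j.choose p.1 : ℝ)) * √Q := by
          refine Finset.sum_le_sum fun p hp => ?_
          have h3 : p.1 + p.2 = j := Finset.HasAntidiagonal.mem_antidiagonal.1 hp
          have h4 := hG p.1 p.2 (by omega) (by omega)
          rw [h3] at h4
          exact mul_le_mul_of_nonneg_left h4 (by positivity)
      _ = √Q := by
          rw [← Finset.sum_mul, ← Finset.mul_sum]
          have h5 : (∑ p ∈ Finset.HasAntidiagonal.antidiagonal j, (j.choose p.1 : ℝ)) = 2 ^ j := by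
            have h6 := Finset.Nat.sum_antidiagonal_eq_sum_range_succ (fun a _ => (j.choose a : ℝ)) j
            rw [h6]
            exact_mod_cast Nat.sum_range_choose j
          rw [h5, ← mul_pow]
          norm_num
  rw [DvL.leib hB hu v m z hz]
  have h1 : ‖∑ p ∈ Finset.HasAntidiagonal.antidiagonal m,
      (m.choose p.1 : ℂ) * (((dv v)^[p.1] u) z * ((dv v)^[p.2] u) z)‖ ≤
      ∑ p ∈ Finset.HasAntidiagonal.antidiagonal m,
        (m.choose p.1 : ℝ) * (‖((dv v)^[p.1] u) z‖ * ‖((dv v)^[p.2] u) z‖) := by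
    refine norm_sum_le_of_le _ fun p _ => ?_
    rw [norm_mul, norm_mul, Complex.norm_natCast]
  calc t ^ m * ‖∑ p ∈ Finset.HasAntidiagonal.antidiagonal m,
      (m.choose p.1 : ℂ) * (((dv v)^[p.1] u) z * ((dv v)^[p.2] u) z)‖
      ≤ t ^ m * ∑ p ∈ Finset.HasAntidiagonal.antidiagonal m,
        (m.choose p.1 : ℝ) * (‖((dv v)^[p.1] u) z‖ * ‖((dv v)^[p.2] u) z‖) :=
        mul_le_mul_of_nonneg_left h1 (by positivity)
    _ = ∑ p ∈ Finset.HasAntidiagonal.antidiagonal m,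
        (m.choose p.1 : ℝ) * ((t ^ p.1 * ‖((dv v)^[p.1] u) z‖) *
          (t ^ p.2 * ‖((dv v)^[p.2] u) z‖)) := by
        rw [Finset.mul_sum]
        refine Finset.sum_congr rfl fun p hp => ?_
        have h3 : p.1 + p.2 = m := Finset.HasAntidiagonal.mem_antidiagonal.1 hp
        have h4 : t ^ m = t ^ p.1 * t ^ p.2 := by rw [← pow_add, h3]
        rw [h4]
        ring
    _ ≤ ∑ p ∈ Finset.HasAntidiagonal.antidiagonal m, (m.choose p.1 : ℝ) * (√Q * √Q) := by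
        refine Finset.sum_le_sum fun p hp => ?_
        have h3 : p.1 + p.2 = m := Finset.HasAntidiagonal.mem_antidiagonal.1 hp
        have h4 := hj p.1 (by omega)
        have h5 := hj p.2 (by omega)
        gcongr
    _ = 2 ^ m * Q := by
        rw [← Finset.sum_mul, Real.mul_self_sqrt hQ0]
        congr 1
        have h6 := Finset.Nat.sum_antidiagonal_eq_sum_range_succ (fun a _ => (m.choose a : ℝ)) m
        rw [h6]
        exact_mod_cast Nat.sum_range_choose m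

end

end Pool.Agent.Helper93K9.PE
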