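import Pool.Agent.Helper93K9.PE.Stm

/-!
# [LOC] pointwise comparison of the mean and the averaged Taylor polynomial (helper55)
-/

set_option autoImplicit false
open MeasureTheory Filter Topology Complex
open scoped ContDiff

namespace Pool.Agent.Helper93K9.PE

open Pool.Agent.W745.RW Pool.Agent.TH294.RS Pool.Agent.Y265.HY
open Pool.Agent.TH294.RG (dm mu FP)

noncomputable section

namespace LocL

/-- retraction to the closed unit disc -/
def rb (v : ℂ) : ℂ := (((max 1 ‖v‖)⁻¹ : ℝ) : ℂ) * v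

lemma rb_cont : Continuous rb := by
  unfold rb
  have h1 : Continuous (fun v : ℂ => (max 1 ‖v‖)⁻¹) :=
    (continuous_const.max continuous_norm).inv₀ fun v => by positivity
  exact (continuous_ofReal.comp h1).mul continuous_id

lemma rb_le (v : ℂ) : ‖rb v‖ ≤ 1 := by
  unfold rb
  have h1 : (0 : ℝ) < max 1 ‖v‖ := by positivity
  rw [norm_mul, Complex.norm_real, Real.norm_of_nonneg (by positivity), inv_mul_le_iff₀ h1,
    mul_one]
  exact le_max_right _ _

lemma rb_eq {v : ℂ} (h : ‖v‖ ≤ 1) : rb v = v := by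
  unfold rb
  rw [max_eq_left h]
  simp

/-- retraction to the unit interval -/
def ct (t : ℝ) : ℝ := max 0 (min t 1)

lemma ct_cont : Continuous ct := by
  unfold ct
  fun_prop

lemma ct_nn (t : ℝ) : 0 ≤ ct t := le_max_left _ _

lemma ct_le (t : ℝ) : ct t ≤ 1 := max_le zero_le_one (min_le_right _ _)

lemma ct_eq {t : ℝ} (h : t ∈ Set.Icc (0 : ℝ) 1) : ct t = t := by
  unfold ct
  rw [min_eq_left h.2, max_eq_right h.1]

lemma rc_le (v : ℂ) (t : ℝ) : ‖((ct t : ℝ) : ℂ) * rb v‖ ≤ 1 := by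
  rw [norm_mul, Complex.norm_real, Real.norm_of_nonneg (ct_nn t)]
  exact mul_le_one₀ (ct_le t) (norm_nonneg _) (rb_le v)

lemma dm_congr {E : Type*} [NormedAddCommGroup E] [NormedSpace ℝ E] {f g : ℂ → E}
    (h : ∀ v, ‖v‖ ≤ 1 → f v = g v) : ∫ v, f v ∂dm = ∫ v, g v ∂dm :=
  integral_congr_ae (Pool.Agent.TH294.RG.dm_ae.mono fun v hv => h v hv.le)

lemma dm_int {E : Type*} [NormedAddCommGroup E] {f : ℂ → E}
    (hf : ContinuousOn f (Metric.closedBall (0 : ℂ) 1)) : Integrable f dm := by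
  unfold Pool.Agent.TH294.RG.dm
  refine Integrable.smul_measure ?_ ENNReal.ofReal_ne_top
  exact (hf.integrableOn_compact (isCompact_closedBall (0 : ℂ) 1)).mono_set
    Metric.ball_subset_closedBall

/-- the mean over a segment is integrable in the direction -/
lemma seg_int {B : Set ℂ} {Q : ℂ → ℝ} (hQ : ContinuousOn Q B) {z : ℂ} {ρ : ℝ}
    (hz : ∀ v : ℂ, ‖v‖ ≤ 1 → z + (ρ : ℂ) * v ∈ B) :
    Integrable (fun v : ℂ => ∫ t in (0 : ℝ)..1, Q (z + ((t * ρ : ℝ) : ℂ) * v)) dm := by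
  have h1 : Continuous (fun p : ℂ × ℝ => Q (z + ((ct p.2 * ρ : ℝ) : ℂ) * rb p.1)) := by
    refine hQ.comp_continuous ?_ ?_
    · have := rb_cont
      have := ct_cont
      fun_prop
    · intro p
      have h2 := hz (((ct p.2 : ℝ) : ℂ) * rb p.1) (rc_le _ _)
      have e : z + ((ct p.2 * ρ : ℝ) : ℂ) * rb p.1 =
          z + (ρ : ℂ) * (((ct p.2 : ℝ) : ℂ) * rb p.1) := by
        push_cast; ring
      rw [e]
      exact h2
  have h3 : Continuous (fun v : ℂ => ∫ t in (0 : ℝ)..1,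
      Q (z + ((ct t * ρ : ℝ) : ℂ) * rb v)) :=
    intervalIntegral.continuous_parametric_intervalIntegral_of_continuous' (μ := volume)
      (f := fun v t => Q (z + ((ct t * ρ : ℝ) : ℂ) * rb v)) h1 0 1
  refine (dm_int h3.continuousOn).congr (Pool.Agent.TH294.RG.dm_ae.mono fun v hv => ?_)
  refine intervalIntegral.integral_congr fun t ht => ?_
  rw [Set.uIcc_of_le zero_le_one] at ht
  simp only [ct_eq ht, rb_eq hv.le]

lemma sum_two {M : Type*} [AddCommMonoid M] (a : ℕ → M) (N : ℕ) :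
    ∑ j ∈ Finset.range (2 * N), a j = ∑ i ∈ Finset.range N, (a (2 * i) + a (2 * i + 1)) := by
  induction N with
  | zero => simp
  | succ N ih =>
    rw [show 2 * (N + 1) = 2 * N + 1 + 1 by ring, Finset.sum_range_succ, Finset.sum_range_succ, ih,
      Finset.sum_range_succ, add_assoc]

end LocL

open LocL in
theorem loc (hLEI : S_LEI) (hTAY : S_TAY) (hHOM : S_HOM) (hAVG : S_AVG) : S_LOC := by
  intro B hB hBU h w hh hw R hR N hN n hRh hRN z hz hdisc
  have hy : 0 < z.im := hBU hz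
  have hn := hh n
  set u : ℂ → ℂ := w 0 n with hu
  have hus : ContDiffOn ℝ ∞ u B := hw n
  set g : ℂ → ℂ := fun z => u z * u z with hg
  have hgs : ContDiffOn ℝ ∞ g B := hus.mul hus
  set ρ : ℝ := R * h n * z.im with hρ
  have hρ0 : 0 ≤ ρ := by positivity
  have hseg : ∀ v : ℂ, ‖v‖ ≤ 1 → ∀ t ∈ Set.Icc (0 : ℝ) 1,
      z + ((t * ρ : ℝ) : ℂ) * v ∈ B := by
    intro v hv t ht
    have h1 : ‖((t : ℝ) : ℂ) * v‖ ≤ 1 := by
      rw [norm_mul, Complex.norm_real, Real.norm_of_nonneg ht.1]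
      exact mul_le_one₀ ht.2 (norm_nonneg _) hv
    have h2 := hdisc _ h1
    have e : z + ((t * ρ : ℝ) : ℂ) * v = z + (ρ : ℂ) * (((t : ℝ) : ℂ) * v) := by
      push_cast; ring
    rw [e]
    exact h2
  -- the averaged Taylor polynomial
  have hmean : ∫ v, ∑ j ∈ Finset.range (2 * N), ((Nat.factorial j : ℂ))⁻¹ *
      ((dv ((ρ : ℂ) * v))^[j] g) z ∂dm = PN h w R N n z := by
    have hc : ∀ j, Continuous (fun v => ((Nat.factorial j : ℂ))⁻¹ *
        ((dv ((ρ : ℂ) * v))^[j] g) z) := by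
      intro j
      have h1 := (hHOM B hB g hgs z hz j).2
      have h2 : Continuous (fun v : ℂ => (ρ : ℂ) * v) := by fun_prop
      exact continuous_const.mul (h1.comp h2)
    rw [integral_finsetSum _ fun j _ => Pool.Agent.TH294.RG.dm_int (hc j), sum_two]
    unfold PN
    refine Finset.sum_congr rfl fun i _ => ?_
    have h1 : ∀ j, ∫ v, ((Nat.factorial j : ℂ))⁻¹ * ((dv ((ρ : ℂ) * v))^[j] g) z ∂dm =
        ((Nat.factorial j : ℂ))⁻¹ * (ρ : ℂ) ^ j * ∫ v, ((dv v)^[j] g) z ∂dm := by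
      intro j
      rw [← integral_const_mul]
      refine integral_congr_ae (ae_of_all _ fun v => ?_)
      change ((Nat.factorial j : ℂ))⁻¹ * ((dv ((ρ : ℂ) * v))^[j] g) z =
        ((Nat.factorial j : ℂ))⁻¹ * (ρ : ℂ) ^ j * ((dv v)^[j] g) z
      rw [(hHOM B hB g hgs z hz j).1 ρ v]
      ring
    rw [h1, h1, (hAVG B hB g hgs z hz i).1, (hAVG B hB g hgs z hz i).2, mul_zero, add_zero]
    unfold XX
    rw [hρ]
    push_cast
    ring
  have hAVc : ContinuousOn (fun v : ℂ => g (z + (ρ : ℂ) * v)) (Metric.closedBall (0 : ℂ) 1) := by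
    refine hgs.continuousOn.comp (by fun_prop) fun v hv => hdisc v ?_
    simpa using hv
  have hAV : AV h (w 0) R n z = ∫ v, g (z + (ρ : ℂ) * v) ∂dm := rfl
  have hPc : Continuous (fun v : ℂ => ∑ j ∈ Finset.range (2 * N), ((Nat.factorial j : ℂ))⁻¹ *
      ((dv ((ρ : ℂ) * v))^[j] g) z) := by
    refine continuous_finsetSum _ fun j _ => ?_
    have h1 := (hHOM B hB g hgs z hz j).2
    have h2 : Continuous (fun v : ℂ => (ρ : ℂ) * v) := by fun_prop
    exact continuous_const.mul (h1.comp h2)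
  rw [hAV, ← hmean, ← integral_sub (dm_int hAVc) (Pool.Agent.TH294.RG.dm_int hPc)]
  -- continuity of the derivatives
  have hEJ : ∀ k l : ℕ, ContDiffOn ℝ ∞ (dd^[k] (db^[l] u)) B := by
    have hl : ∀ l : ℕ, ContDiffOn ℝ ∞ (db^[l] u) B := by
      intro l
      induction l with
      | zero => exact hus
      | succ l ih => rw [Function.iterate_succ_apply']; exact db_sm hB ih
    intro k l
    induction k with
    | zero => exact hl l
    | succ k ih => rw [Function.iterate_succ_apply']; exact dd_sm hB ih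
  have hQc : ContinuousOn (QN h (w 0) N n) B := by
    unfold QN
    refine continuousOn_finsetSum _ fun k _ => continuousOn_finsetSum _ fun l _ => ?_
    refine ContinuousOn.pow (ContinuousOn.norm ?_) 2
    unfold EJ
    refine ContinuousOn.mul ?_ (hEJ k l).continuousOn
    fun_prop
  have hint := seg_int hQc (z := z) (ρ := ρ) hdisc
  rw [← integral_const_mul]
  refine norm_integral_le_of_norm_le (hint.const_mul _)
    (Pool.Agent.TH294.RG.dm_ae.mono fun v hv => ?_)
  have hv1 : ‖v‖ ≤ 1 := hv.le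
  have hN1 : 2 * N - 1 + 1 = 2 * N := by omega
  have hT := hTAY B hB g hgs z ((ρ : ℂ) * v) (fun t ht => by
    have := hseg v hv1 t ht
    have e : z + ((t * ρ : ℝ) : ℂ) * v = z + (t : ℂ) * ((ρ : ℂ) * v) := by push_cast; ring
    rw [← e]; exact this) (2 * N - 1)
  rw [hN1] at hT
  refine hT.trans ?_
  rw [mul_comm (((Nat.factorial (2 * N - 1) : ℕ) : ℝ))⁻¹, ← div_eq_mul_inv,
    div_mul_eq_mul_div]
  refine div_le_div_of_nonneg_right ?_ (by positivity)
  rw [← intervalIntegral.integral_const_mul]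
  have hsegc : ContinuousOn (fun t : ℝ => z + ((t * ρ : ℝ) : ℂ) * v) (Set.Icc 0 1) := by fun_prop
  -- the integrand on the right is integrable
  have hI2 : IntervalIntegrable (fun t : ℝ => 2 * (2 * R) ^ (2 * N) *
      QN h (w 0) N n (z + ((t * ρ : ℝ) : ℂ) * v)) volume 0 1 := by
    refine ContinuousOn.intervalIntegrable ?_
    rw [Set.uIcc_of_le zero_le_one]
    exact continuousOn_const.mul (hQc.comp hsegc fun t ht => hseg v hv1 t ht)
  have hpt : ∀ t ∈ Set.Icc (0 : ℝ) 1, ‖((dv ((ρ : ℂ) * v))^[2 * N] g)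
      (z + (t : ℂ) * ((ρ : ℂ) * v))‖ ≤
      2 * (2 * R) ^ (2 * N) * QN h (w 0) N n (z + ((t * ρ : ℝ) : ℂ) * v) := by
    intro t ht
    have e : z + (t : ℂ) * ((ρ : ℂ) * v) = z + ((t * ρ : ℝ) : ℂ) * v := by push_cast; ring
    rw [e]
    set z' : ℂ := z + ((t * ρ : ℝ) : ℂ) * v with hz'
    have hz'B : z' ∈ B := hseg v hv1 t ht
    rw [(hHOM B hB g hgs z' hz'B (2 * N)).1 ρ v, norm_mul, norm_pow, Complex.norm_real,
      Real.norm_of_nonneg hρ0]
    have hy' : z.im * (1 - R * h n) ≤ z'.im := by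
      have h1 : z'.im = z.im + t * ρ * v.im := by
        rw [hz', Complex.add_im, Complex.im_ofReal_mul]
      have h2 : |v.im| ≤ 1 := (Complex.abs_im_le_norm v).trans hv1
      have h3 := abs_le.1 h2
      have h4 : 0 ≤ t * ρ := mul_nonneg ht.1 hρ0
      have h5 : t * ρ ≤ ρ := by
        have := mul_le_mul_of_nonneg_right ht.2 hρ0
        linarith
      have h6 : -(t * ρ) ≤ t * ρ * v.im := by nlinarith
      rw [h1, hρ] at *
      nlinarith
    have h1R : 0 < 1 - R * h n := by linarith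
    have hhy : 0 ≤ h n * z.im := by positivity
    have hy'0 : 0 ≤ z'.im := le_trans (by positivity) hy'
    have hhy' : 0 ≤ h n * z'.im := by positivity
    have hcmp : (h n * z.im) ^ (2 * N) ≤ 2 * (h n * z'.im) ^ (2 * N) := by
      have h1 : (h n * z.im * (1 - R * h n)) ^ (2 * N) ≤ (h n * z'.im) ^ (2 * N) := by
        refine pow_le_pow_left₀ (by positivity) ?_ _
        calc h n * z.im * (1 - R * h n) = h n * (z.im * (1 - R * h n)) := by ring
          _ ≤ h n * z'.im := mul_le_mul_of_nonneg_left hy' hn.le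
      have h2 : (h n * z.im) ^ (2 * N) * 1 ≤
          (h n * z.im) ^ (2 * N) * (2 * (1 - R * h n) ^ (2 * N)) :=
        mul_le_mul_of_nonneg_left hRN (by positivity)
      rw [mul_pow] at h1
      nlinarith
    have hL := hLEI B hB u hus v hv1 (h n * z'.im) hhy' (2 * N) z' hz'B
    have hQ : ∑ k ∈ Finset.range (2 * N + 1), ∑ l ∈ Finset.range (2 * N + 1),
        ((h n * z'.im) ^ (k + l) * ‖(dd^[k] (db^[l] u)) z'‖) ^ 2 = QN h (w 0) N n z' := by
      unfold QN
      refine Finset.sum_congr rfl fun k _ => Finset.sum_congr rfl fun l _ => ?_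
      unfold EJ
      rw [norm_mul, norm_pow, Complex.norm_real, Real.norm_of_nonneg hhy']
    rw [hQ] at hL
    have e2 : ρ ^ (2 * N) = R ^ (2 * N) * (h n * z.im) ^ (2 * N) := by
      rw [hρ, ← mul_pow]; ring_nf
    set D : ℝ := ‖((dv v)^[2 * N] g) z'‖ with hD
    have hD0 : 0 ≤ D := norm_nonneg _
    have hR2 : 0 ≤ R ^ (2 * N) := by positivity
    calc ρ ^ (2 * N) * D = R ^ (2 * N) * ((h n * z.im) ^ (2 * N) * D) := by rw [e2]; ring
      _ ≤ R ^ (2 * N) * (2 * (h n * z'.im) ^ (2 * N) * D) :=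
          mul_le_mul_of_nonneg_left (mul_le_mul_of_nonneg_right hcmp hD0) hR2
      _ = R ^ (2 * N) * 2 * ((h n * z'.im) ^ (2 * N) * D) := by ring
      _ ≤ R ^ (2 * N) * 2 * (2 ^ (2 * N) * QN h (w 0) N n z') :=
          mul_le_mul_of_nonneg_left hL (by positivity)
      _ = 2 * (2 * R) ^ (2 * N) * QN h (w 0) N n z' := by rw [mul_pow]; ring
  have hds : ContDiffOn ℝ ∞ ((dv ((ρ : ℂ) * v))^[2 * N] g) B := by
    have : ∀ j : ℕ, ContDiffOn ℝ ∞ ((dv ((ρ : ℂ) * v))^[j] g) B := by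
      intro j
      induction j with
      | zero => exact hgs
      | succ j ih => rw [Function.iterate_succ_apply']; exact cfd hB ih _
    exact this _
  refine intervalIntegral.integral_mono_on zero_le_one ?_ hI2 hpt
  refine ContinuousOn.intervalIntegrable ?_
  rw [Set.uIcc_of_le zero_le_one]
  refine (hds.continuousOn.comp (by fun_prop) fun t ht => ?_).norm
  have e : z + (t : ℂ) * ((ρ : ℂ) * v) = z + ((t * ρ : ℝ) : ℂ) * v := by push_cast; ring
  rw [e]
  exact hseg v hv1 t ht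

end

end Pool.Agent.Helper93K9.PE
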