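import Pool.Agent.Helper93K9.PE.Jet

/-! Project PE: the leaf J4. -/

set_option autoImplicit false
open MeasureTheory Filter Topology Complex
open scoped ContDiff

namespace Pool.Agent.Helper93K9.PE

open Pool.Agent.W745.RW Pool.Agent.TH294.RS Pool.Agent.Y265.HY

noncomputable section

namespace J4L

variable {B : Set ℂ} {h : ℕ → ℝ} {w : ℤ → ℕ → ℂ → ℂ}

lemma n4 (x : ℂ) : ((‖x‖ ^ 4 : ℝ) : ℂ) = (x * (starRingEnd ℂ) x) * (x * (starRingEnd ℂ) x) := by
  rw [Complex.mul_conj, Complex.normSq_eq_norm_sq]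
  push_cast; ring

lemma int4 (φ : ℂ → ℝ) (F : ℂ → ℂ) : ((∫ z, φ z * ‖F z‖ ^ 4 : ℝ) : ℂ) =
    ∫ z, (φ z : ℂ) * ((F z * (starRingEnd ℂ) (F z)) * (F z * (starRingEnd ℂ) (F z))) := by
  rw [← integral_complex_ofReal]
  congr 1; funext z
  rw [← n4]; push_cast; ring

lemma wf4 (H : SY B Complex.im h w) {φ : ℂ → ℝ} (hφ : TF B φ) (m : ℤ) (n : ℕ) :
    ((∫ z, φ z * ‖w m n z‖ ^ 4 : ℝ) : ℂ) = ∫ z, (φ z : ℂ) * F4 w m m (-m) (-m) n z := by
  rw [int4]
  congr 1; funext z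
  by_cases hz : z ∈ B
  · rw [H.cj m n z hz]
    have h1 : ((-1 : ℂ) ^ m.natAbs) * (-1) ^ m.natAbs = 1 := by
      rw [← mul_pow]; simp
    simp only [F4]
    linear_combination ((φ z : ℂ) * (w m n z * w m n z * w (-m) n z * w (-m) n z)) * h1
  · rw [TF.zero hφ hz]; simp

lemma GGm (m : ℤ) : (GG m m (-m) (-m)).re ≤ 3 := by
  unfold GG CC
  have h1 : ((-1 : ℂ) ^ m.natAbs) * (-1) ^ m.natAbs = 1 := by
    rw [← mul_pow]; simp
  by_cases hm : m = 0
  · subst hm; simp; norm_num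
  · rw [if_neg (show ¬ (m + m = 0) by omega), if_pos (show m + -m = 0 by ring), h1]
    simp; norm_num

lemma GGim (m : ℤ) : (GG m m (-m) (-m)).im = 0 := by
  unfold GG CC
  have h1 : ((-1 : ℂ) ^ m.natAbs) * (-1) ^ m.natAbs = 1 := by
    rw [← mul_pow]; simp
  by_cases hm : m = 0
  · subst hm; simp
  · rw [if_neg (show ¬ (m + m = 0) by omega), if_pos (show m + -m = 0 by ring), h1]
    simp

lemma wbd (H : SY B Complex.im h w) (hBU : B ⊆ UH) (h0 : EX B h w (w 0)) {φ : ℂ → ℝ}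
    (hφ : TF B φ) (hφ0 : ∀ z, 0 ≤ φ z) (m : ℤ) {ε : ℝ} (hε : 0 < ε) :
    ∀ᶠ n in atTop, ∫ z, φ z * ‖w m n z‖ ^ 4 ≤ (∫ z, φ z * ‖w 0 n z‖ ^ 4) + ε := by
  filter_upwards [excess H hBU h0 hφ hφ0 m m (-m) (-m) hε] with n hn
  have h1 : (D4 w φ m m (-m) (-m) n).re ≤ (D4 w φ 0 0 0 0 n).re + ε :=
    (Complex.re_le_norm _).trans hn
  have h2 : (D4 w φ m m (-m) (-m) n).re = (∫ z, φ z * ‖w m n z‖ ^ 4) -
      (GG m m (-m) (-m)).re * ∫ z, φ z := by
    unfold D4
    rw [← wf4 H hφ m n, sub_re, ofReal_re, mul_re, ofReal_re, ofReal_im, mul_zero, sub_zero]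
  have h3 : (D4 w φ 0 0 0 0 n).re = (∫ z, φ z * ‖w 0 n z‖ ^ 4) - 3 * ∫ z, φ z := by
    have e := wf4 H hφ 0 n
    rw [neg_zero] at e
    unfold D4
    rw [← e, sub_re, ofReal_re, mul_re, ofReal_re, ofReal_im, mul_zero, sub_zero]
    have : GG 0 0 0 0 = 3 := by simp [GG, CC]; norm_num
    rw [this]; simp
  have h4 : 0 ≤ ∫ z, φ z := integral_nonneg hφ0
  have h5 := GGm m
  rw [h2, h3] at h1
  nlinarith

end J4L

theorem j4 : S_J4 := by
  intro B h w H hBU h0 φ hφ hφ0 k l ε hε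
  obtain ⟨hR, e, he, he'⟩ := jet B h w H h0 k l
  set m : ℤ := (k : ℤ) - l with hm
  set E := EJ h (w 0) k l with hE
  set c : ℂ := (-1) ^ l with hc
  have hcc : c * (starRingEnd ℂ) c = 1 := by
    rw [hc, map_pow, map_neg, map_one, ← mul_pow]; simp
  have rE' := hR.conj H
  have rW := RP.W H h0 m
  have rW' := rW.conj H
  have r1 : LB B 1 (fun n z => e n z * (starRingEnd ℂ) (E n z) +
      (c * w m n z) * (starRingEnd ℂ) (e n z)) :=
    (LB.mul2 he.lb (rE'.dec.m H).lb).add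
      (LB.mul2 ((H.bd m).cmul H.op H.hlim c).lb (he.conj H.op).lb)
  have a1 := hE4 H hBU r1 hR rE'
  have a2 := hE4 H hBU r1 rW rW'
  have a3 : WN B (fun n z => (E n z * (starRingEnd ℂ) (E n z)) * (E n z * (starRingEnd ℂ) (E n z)) -
      (w m n z * (starRingEnd ℂ) (w m n z)) * (w m n z * (starRingEnd ℂ) (w m n z))) := by
    refine (a1.add a2).congr fun n z hz => ?_
    have e1 := he' n z hz
    have e2 : (starRingEnd ℂ) (E n z) = (starRingEnd ℂ) c * (starRingEnd ℂ) (w m n z) +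
        (h n : ℂ) * (starRingEnd ℂ) (e n z) := by
      rw [e1, map_add, map_mul, map_mul, conj_ofReal]
    have e3 : E n z * (starRingEnd ℂ) (E n z) - w m n z * (starRingEnd ℂ) (w m n z) =
        (h n : ℂ) * (e n z * (starRingEnd ℂ) (E n z) + (c * w m n z) * (starRingEnd ℂ) (e n z)) := by
      have e4 : E n z * (starRingEnd ℂ) (E n z) = (c * w m n z + (h n : ℂ) * e n z) *
          (starRingEnd ℂ) (E n z) := by rw [← e1]
      have e5 : (c * w m n z) * (starRingEnd ℂ) (E n z) = w m n z * (starRingEnd ℂ) (w m n z) +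
          (h n : ℂ) * ((c * w m n z) * (starRingEnd ℂ) (e n z)) := by
        rw [e2]
        linear_combination (w m n z * (starRingEnd ℂ) (w m n z)) * hcc
      rw [e4]
      linear_combination e5
    linear_combination (E n z * (starRingEnd ℂ) (E n z) + w m n z * (starRingEnd ℂ) (w m n z)) * e3
  have a4 := a3.nul φ hφ
  -- the real form
  have hcont : ∀ n, ∀ F : ℕ → ℂ → ℂ, RP B h w F → Integrable (fun z => (φ z : ℂ) *
      ((F n z * (starRingEnd ℂ) (F n z)) * (F n z * (starRingEnd ℂ) (F n z)))) := by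
    intro n F hF
    have cF := (hF.dec.m H).co n
    have cF' := ((hF.conj H).dec.m H).co n
    exact TF.cint hφ ((cF.mul cF').mul (cF.mul cF'))
  have a5 : Tendsto (fun n => (∫ z, φ z * ‖E n z‖ ^ 4) - ∫ z, φ z * ‖w m n z‖ ^ 4) atTop (𝓝 0) := by
    have h1 := (Complex.continuous_re.tendsto _).comp a4
    rw [Complex.zero_re] at h1
    refine h1.congr fun n => ?_
    have h2 : ∫ z, (φ z : ℂ) * ((E n z * (starRingEnd ℂ) (E n z)) * (E n z * (starRingEnd ℂ) (E n z)) -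
      (w m n z * (starRingEnd ℂ) (w m n z)) * (w m n z * (starRingEnd ℂ) (w m n z))) =
      (((∫ z, φ z * ‖E n z‖ ^ 4) - ∫ z, φ z * ‖w m n z‖ ^ 4 : ℝ) : ℂ) := by
      rw [ofReal_sub, J4L.int4, J4L.int4, ← integral_sub (hcont n E hR) (hcont n (w m) rW)]
      congr 1; funext z; ring
    simp only [Function.comp_def]
    rw [h2, ofReal_re]
  filter_upwards [J4L.wbd H hBU h0 hφ hφ0 m (half_pos hε), a5.eventually (gt_mem_nhds (half_pos hε))]
    with n h1 h2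
  linarith

end

end Pool.Agent.Helper93K9.PE
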