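import Pool.Agent.Helper93K9.PE.Stm2
import Pool.Agent.Helper93K9.PE.J4
import Pool.Agent.Helper93K9.PE.Id

/-! Project PE: the leaf MIC. -/

set_option autoImplicit false
open MeasureTheory Filter Topology Complex
open scoped ContDiff

namespace Pool.Agent.Helper93K9.PE

open Pool.Agent.W745.RW Pool.Agent.TH294.RS Pool.Agent.Y265.HY
open Pool.Agent.TH294.RG (dm dm_ae)

noncomputable section

namespace MicL

variable {B : Set ℂ} {h : ℕ → ℝ} {w : ℤ → ℕ → ℂ → ℂ}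

/-- signed sums -/
def SJ (w : ℤ → ℕ → ℂ → ℂ) (k : ℤ) (J : ℕ) (n : ℕ) (z : ℂ) : ℂ :=
  ∑ j ∈ Finset.range J, (-1 : ℂ) ^ j * (w (-(j : ℤ)) n z * w (k + j) n z)

/-- the elementary step -/
def TE (w : ℤ → ℕ → ℂ → ℂ) (k : ℤ) (i : ℕ) (n : ℕ) (z : ℂ) : ℂ :=
  w (-(i : ℤ) - 1 + 1) n z * w (k + i) n z + w (-(i : ℤ) - 1) n z * w (k + i + 1) n z

/-- telescoping -/
lemma tele (w : ℤ → ℕ → ℂ → ℂ) (k : ℤ) (j n : ℕ) (z : ℂ) : w 0 n z * w k n z =
    (-1 : ℂ) ^ j * (w (-(j : ℤ)) n z * w (k + j) n z) +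
      ∑ i ∈ Finset.range j, (-1 : ℂ) ^ i * TE w k i n z := by
  induction j with
  | zero => simp
  | succ j ih =>
    rw [Finset.sum_range_succ, ih]
    unfold TE
    have e1 : -(j : ℤ) - 1 + 1 = -(j : ℤ) := by ring
    have e2 : -(((j + 1 : ℕ)) : ℤ) = -(j : ℤ) - 1 := by push_cast; ring
    have e3 : k + ((j + 1 : ℕ) : ℤ) = k + j + 1 := by push_cast; ring
    rw [e1, e2, e3, pow_succ]
    ring

lemma tele_sum (w : ℤ → ℕ → ℂ → ℂ) (k : ℤ) (J n : ℕ) (z : ℂ) : (J : ℂ) * (w 0 n z * w k n z) =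
    SJ w k J n z + ∑ j ∈ Finset.range J, ∑ i ∈ Finset.range j, (-1 : ℂ) ^ i * TE w k i n z := by
  unfold SJ
  rw [← Finset.sum_add_distrib]
  rw [← Finset.sum_congr rfl fun j _ => (tele w k j n z)]
  rw [Finset.sum_const, Finset.card_range, nsmul_eq_mul]


/-- the disc stays in `B` -/
lemma disc {z : ℂ} {s0 : ℝ} (hball : ∀ v : ℂ, ‖v‖ ≤ s0 → z + (z.im : ℂ) * v ∈ B) {r : ℝ}
    (hr0 : 0 ≤ r) (hr : r ≤ s0) {v : ℂ} (hv : ‖v‖ ≤ 1) : z + ((r * z.im : ℝ) : ℂ) * v ∈ B := by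
  have h1 : ‖(r : ℂ) * v‖ ≤ s0 := by
    rw [norm_mul, Complex.norm_real, Real.norm_of_nonneg hr0]
    nlinarith
  have h2 := hball _ h1
  have e : z + ((r * z.im : ℝ) : ℂ) * v = z + (z.im : ℂ) * ((r : ℂ) * v) := by
    push_cast; ring
  rw [e]
  exact h2

lemma disc_int {z : ℂ} {s0 : ℝ} (hball : ∀ v : ℂ, ‖v‖ ≤ s0 → z + (z.im : ℂ) * v ∈ B) {r : ℝ}
    (hr0 : 0 ≤ r) (hr : r ≤ s0) {F : ℂ → ℂ} (hF : ContinuousOn F B) :
    Integrable (fun v => F (z + ((r * z.im : ℝ) : ℂ) * v)) dm := by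
  refine LocL.dm_int (hF.comp (by fun_prop) fun v hv => ?_)
  exact disc hball hr0 hr (by simpa using hv)

/-- integrability of the squared means -/
lemma AA_int (hB : IsOpen B) {φ : ℂ → ℝ} (hφ : TF B φ) {s0 : ℝ}
    (hball : ∀ z ∈ tsupport φ, ∀ v : ℂ, ‖v‖ ≤ s0 → z + (z.im : ℂ) * v ∈ B)
    {F : ℕ → ℂ → ℂ} {n : ℕ} (hF : ContinuousOn (F n) B) {R : ℝ}
    (hr0 : 0 ≤ R * h n) (hr : R * h n ≤ s0) :
    Integrable (fun z => φ z * ‖AA h F R n z‖ ^ 2) := by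
  have hT : Continuous (fun p : ℂ × ℂ => p.1 + ((R * h n * p.1.im : ℝ) : ℂ) * LocL.rb p.2) := by
    have := LocL.rb_cont
    fun_prop
  have hTB : ∀ z ∈ tsupport φ, ∀ x : ℂ,
      (fun p : ℂ × ℂ => p.1 + ((R * h n * p.1.im : ℝ) : ℂ) * LocL.rb p.2) (z, x) ∈ B :=
    fun z hz x => disc (hball z hz) hr0 hr (LocL.rb_le x)
  have hc := IdL.cgC hB hφ.1.continuous hF hT hTB
  set g : ℂ × ℂ → ℂ := fun p => ((φ p.1 : ℝ) : ℂ) *
    (F n) (p.1 + ((R * h n * p.1.im : ℝ) : ℂ) * LocL.rb p.2) with hg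
  -- bounds
  have hF' : ContinuousOn (fun p : ℂ × ℂ => F n (p.1 + ((R * h n * p.1.im : ℝ) : ℂ) * LocL.rb p.2))
      ((tsupport φ) ×ˢ Metric.closedBall (0 : ℂ) 1) :=
    hF.comp hT.continuousOn fun p hp => hTB p.1 hp.1 p.2
  obtain ⟨M1, hM1⟩ := ((hφ.2.1.isCompact).prod (isCompact_closedBall (0 : ℂ) 1)
    ).exists_bound_of_continuousOn hF'
  obtain ⟨M2, hM2⟩ := hφ.2.1.isCompact.exists_bound_of_continuousOn
    (hφ.1.continuous.continuousOn (s := tsupport φ))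
  have hrr : ∀ x : ℂ, LocL.rb (LocL.rb x) = LocL.rb x := fun x => LocL.rb_eq (LocL.rb_le x)
  have hfb : ∀ z ∈ tsupport φ, ∀ x : ℂ,
      ‖F n (z + ((R * h n * z.im : ℝ) : ℂ) * LocL.rb x)‖ ≤ |M1| := by
    intro z hz x
    have h1 := hM1 (z, LocL.rb x) ⟨hz, by simpa using LocL.rb_le x⟩
    simp only [hrr] at h1
    exact h1.trans (le_abs_self _)
  have hgb : ∀ p : ℂ × ℂ, ‖g p‖ ≤ |M2| * |M1| := by
    rintro ⟨z, x⟩
    by_cases hz : z ∈ tsupport φ
    · simp only [hg, norm_mul, Complex.norm_real]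
      exact mul_le_mul ((hM2 z hz).trans (le_abs_self _)) (hfb z hz x) (norm_nonneg _)
        (abs_nonneg _)
    · have h1 : φ z = 0 := image_eq_zero_of_notMem_tsupport hz
      simp only [hg, h1, ofReal_zero, zero_mul, norm_zero]
      positivity
  have hAc : Continuous (fun z => ∫ v, g (z, v) ∂dm) := by
    refine continuous_of_dominated (bound := fun _ => |M2| * |M1|) (fun z => ?_) (fun z => ?_)
      (integrable_const _) (ae_of_all _ fun v => ?_)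
    · exact (hc.comp (continuous_const.prodMk continuous_id)).aestronglyMeasurable
    · exact ae_of_all _ fun v => hgb _
    · exact hc.comp (continuous_id.prodMk continuous_const)
  have hAe : ∀ z, ∫ v, g (z, v) ∂dm = (φ z : ℂ) * AA h F R n z := by
    intro z
    unfold AA
    rw [← integral_const_mul]
    exact LocL.dm_congr fun v hv => by simp only [hg, LocL.rb_eq hv]
  simp only [hAe] at hAc
  have hm : Measurable (fun z => φ z * ‖AA h F R n z‖ ^ 2) := by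
    have e : (fun z => φ z * ‖AA h F R n z‖ ^ 2) =
        fun z => ‖(φ z : ℂ) * AA h F R n z‖ ^ 2 * (φ z)⁻¹ := by
      funext z
      rw [norm_mul, Complex.norm_real, mul_pow, Real.norm_eq_abs, sq_abs]
      by_cases h0 : φ z = 0
      · rw [h0]; simp
      · field_simp
    rw [e]
    exact ((hAc.norm.pow 2).measurable).mul (hφ.1.continuous.measurable.inv)
  have hbi : Integrable (fun z : ℂ => (tsupport φ).indicator (fun _ => |M2| * |M1| ^ 2) z) := by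
    refine (integrable_indicator_iff (isClosed_tsupport φ).measurableSet).2 ?_
    exact integrableOn_const hφ.2.1.isCompact.measure_lt_top.ne
  refine hbi.mono' hm.aestronglyMeasurable (ae_of_all _ fun z => ?_)
  by_cases hz : z ∈ tsupport φ
  · rw [Set.indicator_of_mem hz, norm_mul, norm_pow, norm_norm]
    have h1 : ‖AA h F R n z‖ ≤ |M1| := by
      unfold AA
      have h2 := norm_integral_le_of_norm_le_const (μ := dm) (C := |M1|)
        (f := fun v => F n (z + ((R * h n * z.im : ℝ) : ℂ) * v)) (dm_ae.mono fun v hv => by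
          have := hfb z hz v
          rwa [LocL.rb_eq hv.le] at this)
      simpa using h2
    exact mul_le_mul ((hM2 z hz).trans (le_abs_self _)) (pow_le_pow_left₀ (norm_nonneg _) h1 2)
      (by positivity) (abs_nonneg _)
  · rw [Set.indicator_of_notMem hz, image_eq_zero_of_notMem_tsupport hz]
    simp

/-- the limits of the fourth moments -/
lemma lim4 (H : SY B Complex.im h w) (hBU : B ⊆ UH) (h0 : EX B h w (w 0)) {φ : ℂ → ℝ}
    (hφ : TF B φ) (hφ0 : ∀ z, 0 ≤ φ z)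
    (hexc : Tendsto (fun n => (∫ z, (φ z : ℂ) * F4 w 0 0 0 0 n z) - 3 * ((∫ z, φ z : ℝ) : ℂ))
      atTop (𝓝 0)) (a b c d : ℤ) :
    Tendsto (fun n => ∫ z, (φ z : ℂ) * F4 w a b c d n z) atTop
      (𝓝 (GG a b c d * ((∫ z, φ z : ℝ) : ℂ))) := by
  have hG : GG 0 0 0 0 = 3 := by simp [GG, CC]; norm_num
  have h1 : Tendsto (fun n => D4 w φ 0 0 0 0 n) atTop (𝓝 0) := by
    unfold D4
    rw [hG]
    exact hexc
  have h2 : Tendsto (fun n => D4 w φ a b c d n) atTop (𝓝 0) := by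
    rw [Metric.tendsto_nhds]
    intro ε hε
    filter_upwards [excess H hBU h0 hφ hφ0 a b c d (show 0 < ε / 3 by positivity),
      (Metric.tendsto_nhds.1 h1) (ε / 3) (by positivity)] with n k1 k2
    rw [dist_zero_right] at k2 ⊢
    have k3 := Complex.re_le_norm (D4 w φ 0 0 0 0 n)
    linarith
  have h3 := h2.add_const (GG a b c d * ((∫ z, φ z : ℝ) : ℂ))
  rw [zero_add] at h3
  refine h3.congr fun n => ?_
  unfold D4
  ring

/-- the coefficients of the square -/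
def cf (k : ℤ) (i j : ℕ) : ℂ :=
  (-1) ^ i * ((-1) ^ j * ((-1) ^ (-(j : ℤ)).natAbs * (-1) ^ (k + j).natAbs))

lemma cf_norm (k : ℤ) (i j : ℕ) : ‖cf k i j‖ = 1 := by
  unfold cf
  simp only [norm_mul, norm_pow, norm_neg, norm_one, one_pow, mul_one]

lemma SJ_sq (H : SY B Complex.im h w) (k : ℤ) (J n : ℕ) {z : ℂ} (hz : z ∈ B) :
    ((‖SJ w k J n z‖ ^ 2 : ℝ) : ℂ) = ∑ i ∈ Finset.range J, ∑ j ∈ Finset.range J,
      cf k i j * F4 w (-(i : ℤ)) (k + i) (-(-(j : ℤ))) (-(k + j)) n z := by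
  have h1 : ((‖SJ w k J n z‖ ^ 2 : ℝ) : ℂ) = SJ w k J n z * (starRingEnd ℂ) (SJ w k J n z) := by
    rw [Complex.mul_conj, Complex.normSq_eq_norm_sq]
  rw [h1]
  unfold SJ
  rw [map_sum, Finset.sum_mul_sum]
  refine Finset.sum_congr rfl fun i _ => Finset.sum_congr rfl fun j _ => ?_
  rw [map_mul, map_mul, H.cj _ n z hz, H.cj _ n z hz, map_pow, map_neg, map_one]
  unfold cf F4
  ring

lemma CC_norm (x y : ℤ) : ‖CC x y‖ ≤ if x + y = 0 then 1 else 0 := by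
  unfold CC
  split_ifs
  · simp
  · simp

lemma GG_norm {k : ℤ} (hk : k ≠ 0) (i j : ℕ) :
    ‖GG (-(i : ℤ)) (k + i) (-(-(j : ℤ))) (-(k + j))‖ ≤
      (if i = j then 1 else 0) + (if (i : ℤ) + j = -k then 1 else 0) := by
  unfold GG
  have e1 : CC (-(i : ℤ)) (k + i) = 0 := by
    unfold CC
    rw [if_neg (by omega)]
  rw [e1, zero_mul, zero_add]
  refine (norm_add_le _ _).trans (add_le_add ?_ ?_)
  · rw [norm_mul]
    have a1 := CC_norm (-(i : ℤ)) (-(-(j : ℤ)))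
    have a2 := CC_norm (k + i) (-(k + j))
    have a3 : ‖CC (k + i) (-(k + j))‖ ≤ 1 := a2.trans (by split_ifs <;> norm_num)
    by_cases hij : i = j
    · rw [if_pos hij]
      have a4 : ‖CC (-(i : ℤ)) (-(-(j : ℤ)))‖ ≤ 1 := a1.trans (by split_ifs <;> norm_num)
      exact mul_le_one₀ a4 (norm_nonneg _) a3
    · rw [if_neg hij]
      rw [if_neg (show ¬ (-(i : ℤ) + -(-(j : ℤ)) = 0) by omega)] at a1
      have a4 : ‖CC (-(i : ℤ)) (-(-(j : ℤ)))‖ = 0 := le_antisymm a1 (norm_nonneg _)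
      rw [a4, zero_mul]
  · rw [norm_mul]
    have a1 := CC_norm (-(i : ℤ)) (-(k + j))
    have a2 := CC_norm (k + i) (-(-(j : ℤ)))
    have a3 : ‖CC (k + i) (-(-(j : ℤ)))‖ ≤ 1 := a2.trans (by split_ifs <;> norm_num)
    by_cases hij : (i : ℤ) + j = -k
    · rw [if_pos hij]
      have a4 : ‖CC (-(i : ℤ)) (-(k + j))‖ ≤ 1 := a1.trans (by split_ifs <;> norm_num)
      exact mul_le_one₀ a4 (norm_nonneg _) a3
    · rw [if_neg hij]
      rw [if_neg (show ¬ (-(i : ℤ) + -(k + j) = 0) by omega)] at a1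
      have a4 : ‖CC (-(i : ℤ)) (-(k + j))‖ = 0 := le_antisymm a1 (norm_nonneg _)
      rw [a4, zero_mul]

lemma GG_sum {k : ℤ} (hk : k ≠ 0) (J : ℕ) :
    ∑ i ∈ Finset.range J, ∑ j ∈ Finset.range J,
      ‖GG (-(i : ℤ)) (k + i) (-(-(j : ℤ))) (-(k + j))‖ ≤ 2 * J := by
  have h1 : ∀ i ∈ Finset.range J, ∑ j ∈ Finset.range J,
      ‖GG (-(i : ℤ)) (k + i) (-(-(j : ℤ))) (-(k + j))‖ ≤ 2 := by
    intro i _
    refine (Finset.sum_le_sum fun j _ => GG_norm hk i j).trans ?_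
    rw [Finset.sum_add_distrib]
    have a1 : ∑ j ∈ Finset.range J, (if i = j then (1 : ℝ) else 0) ≤ 1 := by
      rw [Finset.sum_ite_eq]
      split_ifs <;> norm_num
    have a2 : ∑ j ∈ Finset.range J, (if (i : ℤ) + j = -k then (1 : ℝ) else 0) ≤ 1 := by
      rw [Finset.sum_ite, Finset.sum_const_zero, add_zero, Finset.sum_const, nsmul_eq_mul, mul_one]
      have : ((Finset.range J).filter (fun j : ℕ => (i : ℤ) + j = -k)).card ≤ 1 := by
        rw [Finset.card_le_one]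
        intro x hx y hy
        rw [Finset.mem_filter] at hx hy
        omega
      exact_mod_cast this
    linarith
  refine (Finset.sum_le_sum h1).trans ?_
  rw [Finset.sum_const, Finset.card_range, nsmul_eq_mul]
  linarith

/-- the second moment of the signed sums -/
lemma SJ_lim (H : SY B Complex.im h w) (hBU : B ⊆ UH) (h0 : EX B h w (w 0)) {φ : ℂ → ℝ}
    (hφ : TF B φ) (hφ0 : ∀ z, 0 ≤ φ z)
    (hexc : Tendsto (fun n => (∫ z, (φ z : ℂ) * F4 w 0 0 0 0 n z) - 3 * ((∫ z, φ z : ℝ) : ℂ))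
      atTop (𝓝 0)) {k : ℤ} (hk : k ≠ 0) (J : ℕ) :
    ∀ᶠ n in atTop, ∫ z, φ z * ‖SJ w k J n z‖ ^ 2 ≤ 2 * J * (∫ z, φ z) + 1 := by
  set M : ℝ := ∫ z, φ z with hM
  have hM0 : 0 ≤ M := integral_nonneg hφ0
  set L : ℂ := ∑ i ∈ Finset.range J, ∑ j ∈ Finset.range J,
    cf k i j * (GG (-(i : ℤ)) (k + i) (-(-(j : ℤ))) (-(k + j)) * (M : ℂ)) with hL
  have h1 : Tendsto (fun n => ∑ i ∈ Finset.range J, ∑ j ∈ Finset.range J,
      cf k i j * ∫ z, (φ z : ℂ) * F4 w (-(i : ℤ)) (k + i) (-(-(j : ℤ))) (-(k + j)) n z) atTop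
      (𝓝 L) :=
    tendsto_finsetSum _ fun i _ => tendsto_finsetSum _ fun j _ =>
      (lim4 H hBU h0 hφ hφ0 hexc _ _ _ _).const_mul _
  have co : ∀ m n, ContinuousOn (w m n) B := fun m n => (H.bd m).co n
  have c4 : ∀ a b c d n, ContinuousOn (F4 w a b c d n) B := by
    intro a b c d n
    unfold F4
    exact (((co a n).mul (co b n)).mul (co c n)).mul (co d n)
  have h2 : ∀ n, ∑ i ∈ Finset.range J, ∑ j ∈ Finset.range J,
      cf k i j * ∫ z, (φ z : ℂ) * F4 w (-(i : ℤ)) (k + i) (-(-(j : ℤ))) (-(k + j)) n z =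
      ((∫ z, φ z * ‖SJ w k J n z‖ ^ 2 : ℝ) : ℂ) := by
    intro n
    rw [← integral_complex_ofReal]
    have e1 : ∫ z, ((φ z * ‖SJ w k J n z‖ ^ 2 : ℝ) : ℂ) =
        ∫ z, ∑ i ∈ Finset.range J, ∑ j ∈ Finset.range J,
          cf k i j * ((φ z : ℂ) * F4 w (-(i : ℤ)) (k + i) (-(-(j : ℤ))) (-(k + j)) n z) := by
      congr 1; funext z
      by_cases hz : z ∈ B
      · rw [ofReal_mul, SJ_sq H k J n hz, Finset.mul_sum]
        refine Finset.sum_congr rfl fun i _ => ?_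
        rw [Finset.mul_sum]
        refine Finset.sum_congr rfl fun j _ => ?_
        ring
      · rw [TF.zero hφ hz]
        simp
    have i1 : ∀ a b c d, Integrable (fun z => (φ z : ℂ) * F4 w a b c d n z) :=
      fun a b c d => TF.cint hφ (c4 a b c d n)
    rw [e1, integral_finsetSum _ fun i _ => integrable_finsetSum _ fun j _ =>
      (i1 _ _ _ _).const_mul _]
    refine Finset.sum_congr rfl fun i _ => ?_
    rw [integral_finsetSum _ fun j _ => (i1 _ _ _ _).const_mul _]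
    refine Finset.sum_congr rfl fun j _ => ?_
    rw [integral_const_mul]
  simp only [h2] at h1
  have h3 := (Complex.continuous_re.tendsto _).comp h1
  simp only [Function.comp_def, ofReal_re] at h3
  have h4 : L.re ≤ 2 * J * M := by
    refine (Complex.re_le_norm L).trans ?_
    have a1 : ‖L‖ ≤ ∑ i ∈ Finset.range J, ∑ j ∈ Finset.range J,
        ‖GG (-(i : ℤ)) (k + i) (-(-(j : ℤ))) (-(k + j))‖ * M := by
      rw [hL]
      refine (norm_sum_le _ _).trans (Finset.sum_le_sum fun i _ => ?_)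
      refine (norm_sum_le _ _).trans (Finset.sum_le_sum fun j _ => ?_)
      rw [norm_mul, norm_mul, cf_norm, one_mul, Complex.norm_real, Real.norm_of_nonneg hM0]
    refine a1.trans ?_
    have a2 : ∑ i ∈ Finset.range J, ∑ j ∈ Finset.range J,
        ‖GG (-(i : ℤ)) (k + i) (-(-(j : ℤ))) (-(k + j))‖ * M =
        (∑ i ∈ Finset.range J, ∑ j ∈ Finset.range J,
        ‖GG (-(i : ℤ)) (k + i) (-(-(j : ℤ))) (-(k + j))‖) * M := by
      rw [Finset.sum_mul]
      exact Finset.sum_congr rfl fun i _ => (Finset.sum_mul _ _ _).symm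
    rw [a2]
    exact mul_le_mul_of_nonneg_right (GG_sum hk J) hM0
  exact (h3.eventually (gt_mem_nhds (show L.re < 2 * J * M + 1 by linarith))).mono
    fun n hn => hn.le

lemma SJ_co (H : SY B Complex.im h w) (k : ℤ) (J n : ℕ) : ContDiffOn ℝ ∞ (SJ w k J n) B := by
  have sm : ∀ m n, ContDiffOn ℝ ∞ (w m n) B := fun m n => (H.bd m).sm n
  unfold SJ
  exact ContDiffOn.sum fun j _ => contDiffOn_const.mul ((sm _ n).mul (sm _ n))

lemma TE_co (H : SY B Complex.im h w) (k : ℤ) (i n : ℕ) : ContDiffOn ℝ ∞ (TE w k i n) B := by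
  have sm : ∀ m n, ContDiffOn ℝ ∞ (w m n) B := fun m n => (H.bd m).sm n
  unfold TE
  exact ((sm _ n).mul (sm _ n)).add ((sm _ n).mul (sm _ n))

/-- the pointwise estimate -/
lemma ptw (H : SY B Complex.im h w) (k : ℤ) (J : ℕ) {z : ℂ} {s0 : ℝ}
    (hball : ∀ v : ℂ, ‖v‖ ≤ s0 → z + (z.im : ℂ) * v ∈ B) {R : ℝ} {n : ℕ}
    (hr0 : 0 ≤ R * h n) (hr : R * h n ≤ s0) :
    (J : ℝ) ^ 2 * ‖AA h (fun n z => w 0 n z * w k n z) R n z‖ ^ 2 ≤
      2 * ‖AA h (SJ w k J) R n z‖ ^ 2 +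
        2 * (J : ℝ) ^ 3 * ∑ i ∈ Finset.range J, ‖AA h (TE w k i) R n z‖ ^ 2 := by
  have iS := disc_int hball hr0 hr (SJ_co H k J n).continuousOn
  have iT : ∀ i, Integrable (fun v => TE w k i n (z + ((R * h n * z.im : ℝ) : ℂ) * v)) dm :=
    fun i => disc_int hball hr0 hr (TE_co H k i n).continuousOn
  have e1 : (J : ℂ) * AA h (fun n z => w 0 n z * w k n z) R n z = AA h (SJ w k J) R n z +
      ∑ j ∈ Finset.range J, ∑ i ∈ Finset.range j, (-1 : ℂ) ^ i * AA h (TE w k i) R n z := by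
    unfold AA
    rw [← integral_const_mul]
    simp only [tele_sum w k J n]
    rw [integral_add iS (integrable_finsetSum _ fun j _ => integrable_finsetSum _ fun i _ =>
      (iT i).const_mul _), integral_finsetSum _ fun j _ => integrable_finsetSum _ fun i _ =>
      (iT i).const_mul _]
    congr 1
    refine Finset.sum_congr rfl fun j _ => ?_
    rw [integral_finsetSum _ fun i _ => (iT i).const_mul _]
    refine Finset.sum_congr rfl fun i _ => ?_
    rw [integral_const_mul]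
  set A : ℝ := ‖AA h (fun n z => w 0 n z * w k n z) R n z‖ with hA
  set S : ℝ := ‖AA h (SJ w k J) R n z‖ with hS
  set T : ℕ → ℝ := fun i => ‖AA h (TE w k i) R n z‖ with hT
  set U : ℝ := ∑ i ∈ Finset.range J, T i with hU
  have hT0 : ∀ i, 0 ≤ T i := fun i => norm_nonneg _
  have h1 : (J : ℝ) * A ≤ S + J * U := by
    have a1 : (J : ℝ) * A = ‖(J : ℂ) * AA h (fun n z => w 0 n z * w k n z) R n z‖ := by
      rw [norm_mul, Complex.norm_natCast]
    rw [a1, e1]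
    refine (norm_add_le _ _).trans (add_le_add le_rfl ?_)
    refine (norm_sum_le _ _).trans ?_
    have a2 : ∀ j ∈ Finset.range J, ‖∑ i ∈ Finset.range j, (-1 : ℂ) ^ i *
        AA h (TE w k i) R n z‖ ≤ U := by
      intro j hj
      refine (norm_sum_le _ _).trans ?_
      have a3 : ∑ i ∈ Finset.range j, ‖(-1 : ℂ) ^ i * AA h (TE w k i) R n z‖ =
          ∑ i ∈ Finset.range j, T i :=
        Finset.sum_congr rfl fun i _ => by simp [hT]
      rw [a3]
      refine Finset.sum_le_sum_of_subset_of_nonneg ?_ fun i _ _ => hT0 i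
      exact Finset.range_mono (Finset.mem_range.1 hj).le
    refine (Finset.sum_le_sum a2).trans ?_
    rw [Finset.sum_const, Finset.card_range, nsmul_eq_mul]
  have hU2 : U ^ 2 ≤ J * ∑ i ∈ Finset.range J, T i ^ 2 := by
    have := sq_sum_le_card_mul_sum_sq (s := Finset.range J) (f := T)
    rwa [Finset.card_range] at this
  have hA0 : 0 ≤ A := norm_nonneg _
  have hJ0 : (0 : ℝ) ≤ J := Nat.cast_nonneg J
  have hU0 : 0 ≤ U := Finset.sum_nonneg fun i _ => hT0 i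
  have h2 : ((J : ℝ) * A) ^ 2 ≤ (S + J * U) ^ 2 := pow_le_pow_left₀ (by positivity) h1 2
  have h3 : (S + J * U) ^ 2 ≤ 2 * S ^ 2 + 2 * (J ^ 2 * U ^ 2) := by
    nlinarith [sq_nonneg (S - J * U)]
  have h4 : (J : ℝ) ^ 2 * U ^ 2 ≤ J ^ 2 * (J * ∑ i ∈ Finset.range J, T i ^ 2) :=
    mul_le_mul_of_nonneg_left hU2 (by positivity)
  calc (J : ℝ) ^ 2 * A ^ 2 = ((J : ℝ) * A) ^ 2 := by ring
    _ ≤ 2 * S ^ 2 + 2 * (J ^ 2 * U ^ 2) := h2.trans h3
    _ ≤ 2 * S ^ 2 + 2 * (J ^ 2 * (J * ∑ i ∈ Finset.range J, T i ^ 2)) := by linarith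
    _ = 2 * S ^ 2 + 2 * (J : ℝ) ^ 3 * ∑ i ∈ Finset.range J, T i ^ 2 := by ring

/-- the integrated estimate -/
lemma intg (H : SY B Complex.im h w) {φ : ℂ → ℝ} (hφ : TF B φ) (hφ0 : ∀ z, 0 ≤ φ z) (k : ℤ)
    (J : ℕ) {s0 : ℝ}
    (hball : ∀ z ∈ tsupport φ, ∀ v : ℂ, ‖v‖ ≤ s0 → z + (z.im : ℂ) * v ∈ B) {R : ℝ} {n : ℕ}
    (hr0 : 0 ≤ R * h n) (hr : R * h n ≤ s0) :
    (J : ℝ) ^ 2 * ∫ z, φ z * ‖AA h (fun n z => w 0 n z * w k n z) R n z‖ ^ 2 ≤
      2 * (∫ z, φ z * ‖AA h (SJ w k J) R n z‖ ^ 2) +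
        2 * (J : ℝ) ^ 3 * ∑ i ∈ Finset.range J, ∫ z, φ z * ‖AA h (TE w k i) R n z‖ ^ 2 := by
  have co : ∀ m n, ContinuousOn (w m n) B := fun m n => (H.bd m).co n
  have i1 := AA_int H.op hφ hball (F := fun n z => w 0 n z * w k n z) (n := n)
    ((co 0 n).mul (co k n)) hr0 hr
  have i2 := AA_int H.op hφ hball (SJ_co H k J n).continuousOn hr0 hr
  have i3 : ∀ i, Integrable (fun z => φ z * ‖AA h (TE w k i) R n z‖ ^ 2) := fun i =>
    AA_int H.op hφ hball (TE_co H k i n).continuousOn hr0 hr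
  rw [← integral_const_mul, ← integral_const_mul, ← integral_finsetSum _ fun i _ => i3 i,
    ← integral_const_mul, ← integral_add (i2.const_mul _)
      ((integrable_finsetSum _ fun i _ => i3 i).const_mul _)]
  refine integral_mono (i1.const_mul _) ((i2.const_mul _).add
    ((integrable_finsetSum _ fun i _ => i3 i).const_mul _)) fun z => ?_
  by_cases hz : z ∈ tsupport φ
  · have h1 := mul_le_mul_of_nonneg_left (ptw H k J (hball z hz) hr0 hr) (hφ0 z)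
    have h2 : ∑ i ∈ Finset.range J, φ z * ‖AA h (TE w k i) R n z‖ ^ 2 =
        φ z * ∑ i ∈ Finset.range J, ‖AA h (TE w k i) R n z‖ ^ 2 := (Finset.mul_sum _ _ _).symm
    simp only [Pi.add_apply, h2]
    calc _ = φ z * ((J : ℝ) ^ 2 * ‖AA h (fun n z => w 0 n z * w k n z) R n z‖ ^ 2) := by ring
      _ ≤ _ := h1
      _ = _ := by ring
  · have h1 : φ z = 0 := image_eq_zero_of_notMem_tsupport hz
    simp [h1]

end MicL

open MicL in
theorem mic (hDER : S_DER) (hTEL : S_TEL) : S_MIC := by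
  intro B h w H hBU h0 hBd hexc φ hφ hφ0 k hk ε hε
  obtain ⟨φ', hφ', hφ'0, s0, C, hs0, hs1, hC, hball, key⟩ := hDER B H.op hBU φ hφ hφ0
  set M : ℝ := ∫ z, φ' z with hM
  have hM0 : 0 ≤ M := integral_nonneg hφ'0
  -- the number of terms
  obtain ⟨J, hJ⟩ := exists_nat_gt (6 * C * (2 * M + 1) / ε)
  have hq0 : 0 ≤ 6 * C * (2 * M + 1) / ε := by positivity
  have hJ0 : (0 : ℝ) < J := lt_of_le_of_lt hq0 hJ
  have hJ1 : (1 : ℝ) ≤ J := by
    have : 0 < J := by exact_mod_cast hJ0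
    exact_mod_cast this
  -- the telescoping terms
  have hT : ∀ i : ℕ, ∃ C : ℝ, 0 ≤ C ∧ ∀ R : ℝ, 0 < R → ∀ ε : ℝ, 0 < ε → ∀ᶠ n in atTop,
      ∫ z, φ z * ‖AA h (TE w k i) R n z‖ ^ 2 ≤ C / R ^ 2 + ε := by
    intro i
    obtain ⟨C, hC, h1⟩ := hTEL B h w H hBU h0 hBd φ hφ hφ0 (-(i : ℤ) - 1) (k + i)
    exact ⟨C, hC, h1⟩
  choose Ci hCi hTi using hT
  set Cs : ℝ := ∑ i ∈ Finset.range J, Ci i with hCs
  have hCs0 : 0 ≤ Cs := Finset.sum_nonneg fun i _ => hCi i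
  set ε' : ℝ := ε / (6 * J ^ 2) with hε'
  have hε'0 : 0 < ε' := by positivity
  refine ⟨max 1 (6 * J * Cs / ε), lt_of_lt_of_le one_pos (le_max_left _ _), fun R hR => ?_⟩
  have hR1 : 1 ≤ R := (le_max_left _ _).trans hR
  have hR2 : 6 * J * Cs / ε ≤ R := (le_max_right _ _).trans hR
  have hR0 : 0 < R := lt_of_lt_of_le one_pos hR1
  have hsm : ∀ᶠ n in atTop, R * h n < s0 := by
    have h1 := H.hlim.const_mul R
    rw [mul_zero] at h1
    exact h1.eventually (gt_mem_nhds hs0)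
  have hall : ∀ᶠ n in atTop, ∀ i ∈ Finset.range J,
      ∫ z, φ z * ‖AA h (TE w k i) R n z‖ ^ 2 ≤ Ci i / R ^ 2 + ε' :=
    (Filter.eventually_all_finset _).2 fun i _ => hTi i R hR0 ε' hε'0
  filter_upwards [hsm, hall, SJ_lim H hBU h0 hφ' hφ'0 (hexc φ' hφ') hk J] with n h1 h2 h3
  have hn := H.hpos n
  have hr0 : 0 ≤ R * h n := by positivity
  have a1 := intg H hφ hφ0 k J hball hr0 h1.le
  have a2 := (key h n hn (SJ w k J) (SJ_co H k J n) R hR0 h1.le).1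
  have a3 : ∫ z, φ z * ‖AA h (SJ w k J) R n z‖ ^ 2 ≤ C * (2 * J * M + 1) :=
    a2.trans (mul_le_mul_of_nonneg_left h3 hC)
  have a4 : ∑ i ∈ Finset.range J, ∫ z, φ z * ‖AA h (TE w k i) R n z‖ ^ 2 ≤
      Cs / R ^ 2 + J * ε' := by
    refine (Finset.sum_le_sum h2).trans (le_of_eq ?_)
    rw [Finset.sum_add_distrib, ← Finset.sum_div, Finset.sum_const, Finset.card_range,
      nsmul_eq_mul]
  set X : ℝ := ∫ z, φ z * ‖AA h (fun n z => w 0 n z * w k n z) R n z‖ ^ 2 with hX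
  have a5 : (J : ℝ) ^ 2 * X ≤ 2 * (C * (2 * J * M + 1)) +
      2 * (J : ℝ) ^ 3 * (Cs / R ^ 2 + J * ε') := by
    refine a1.trans (add_le_add (by linarith) ?_)
    exact mul_le_mul_of_nonneg_left a4 (by positivity)
  -- the three parts
  have b1 : 2 * (C * (2 * J * M + 1)) ≤ J ^ 2 * (ε / 3) := by
    have c1 : 6 * C * (2 * M + 1) < J * ε := by
      rw [div_lt_iff₀ hε] at hJ
      exact hJ
    have c2 : C * (2 * J * M + 1) ≤ J * (C * (2 * M + 1)) := by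
      have : C * 1 ≤ C * J := mul_le_mul_of_nonneg_left hJ1 hC
      nlinarith
    nlinarith
  have b2 : 2 * (J : ℝ) ^ 3 * (Cs / R ^ 2) ≤ J ^ 2 * (ε / 3) := by
    have c1 : 6 * J * Cs ≤ R * ε := by
      rw [div_le_iff₀ hε] at hR2
      exact hR2
    have c2 : Cs / R ^ 2 ≤ Cs / R := by
      refine div_le_div_of_nonneg_left hCs0 hR0 ?_
      nlinarith
    have c3 : 6 * (J * (Cs / R)) ≤ ε := by
      have : 6 * (J * (Cs / R)) = (6 * J * Cs) / R := by ring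
      rw [this, div_le_iff₀ hR0]
      linarith
    have c4 : 2 * (J : ℝ) ^ 3 * (Cs / R ^ 2) ≤ 2 * (J : ℝ) ^ 3 * (Cs / R) :=
      mul_le_mul_of_nonneg_left c2 (by positivity)
    have c5 : 2 * (J : ℝ) ^ 3 * (Cs / R) = J ^ 2 * (2 * (J * (Cs / R))) := by ring
    have c6 : (J : ℝ) ^ 2 * (2 * (J * (Cs / R))) ≤ J ^ 2 * (ε / 3) :=
      mul_le_mul_of_nonneg_left (by linarith) (by positivity)
    linarith
  have b3 : 2 * (J : ℝ) ^ 3 * (J * ε') = J ^ 2 * (ε / 3) := by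
    rw [hε']
    field_simp
    ring
  have b4 : (J : ℝ) ^ 2 * X ≤ J ^ 2 * ε := by
    have : 2 * (J : ℝ) ^ 3 * (Cs / R ^ 2 + J * ε') = 2 * (J : ℝ) ^ 3 * (Cs / R ^ 2) +
      2 * (J : ℝ) ^ 3 * (J * ε') := by ring
    rw [this, b3] at a5
    linarith
  exact le_of_mul_le_mul_left b4 (by positivity)

end

end Pool.Agent.Helper93K9.PE
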