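import Pool.Agent.Helper93K9.PE.Stm

/-!
Project PE: leaf POW, the second moments of the averaged Taylor polynomials.
-/

set_option autoImplicit false

open MeasureTheory Filter Topology Complex
open scoped ContDiff

namespace Pool.Agent.Helper93K9.PE

open Pool.Agent.W745.RW Pool.Agent.TH294.RS Pool.Agent.Y265.HY
open Pool.Agent.Y265.HY.PS (Good QE pow4 pj)
open Pool.Agent.TH294.RG (dm mu FP FP_eval ang_sum ang_unif unif mu0 ea_meas ea_norm)

/-- the leaf POW -/
theorem pow (hXG : S_XG) : S_POW := by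
  intro B h w H hBU h0 φ hφ R N
  have G : Good B h w (PN h w R N) (fun α => (FP R N).eval (2 - 2 * Real.cos α)) := by
    have g1 : ∀ i, Good B h w
        (fun n z => ((mu i * R ^ (2 * i) / (Nat.factorial (2 * i) : ℝ) : ℝ) : ℂ) * XX h w i n z)
        (fun α => (mu i * R ^ (2 * i) / (Nat.factorial (2 * i) : ℝ)) *
          ((-1) ^ i * (2 - 2 * Real.cos α) ^ i)) :=
      fun i => Good.cmul H (hXG B h w H h0 i) _
    refine (PS.good_sum H h0 (Finset.range N) g1).cg (fun n z _ => rfl) fun α => ?_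
    rw [FP_eval]
    exact Finset.sum_congr rfl fun i _ => by ring
  obtain ⟨c, hc, lim⟩ := pow4 H hBU h0 hφ G
  have e3 : (2 * (FP R N).eval (2 - 2 * Real.cos 0) ^ 2 +
      (FP R N).eval (2 - 2 * Real.cos Real.pi) ^ 2) / 3 =
      (2 * (FP R N).eval 0 ^ 2 + (FP R N).eval 4 ^ 2) / 3 := by
    rw [Real.cos_zero, Real.cos_pi]; norm_num
  simp only [e3] at lim
  have a := ang_sum (m := fun _ => (1 : ℝ)) (ν := unif) ea_meas ea_norm hc 0
  have e4 : ∑ j ∈ c.support, ∑ k ∈ c.support, c j * c k * pj j k =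
      (FP R N).eval 0 ^ 2 + 1 / Real.pi *
        ∫ θ in (0 : ℝ)..(2 * Real.pi), (FP R N).eval (2 - 2 * Real.cos θ) ^ 2 := by
    have : ∀ z : ℂ, unif z = mu0 := fun z => by
      simp only [unif, ProbabilityTheory.Kernel.const_apply]
    rw [this, ang_unif, one_pow, one_mul] at a
    exact a
  rw [e4] at lim
  exact lim

end Pool.Agent.Helper93K9.PE
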