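import Pool.Agent.Helper93K9.PE.Sh

/-! Project PE (helper93), leaf SAND (helper27): discs of radius `r` and of radius `r y`. -/

set_option autoImplicit false
open MeasureTheory Filter Topology Complex
open scoped ContDiff

namespace Pool.Agent.Helper93K9.PE

open Pool.Agent.W745.RW Pool.Agent.TH294.RS Pool.Agent.Y265.HY

namespace SandL

/-- continuity of the integrals over the discs -/
lemma ball_cont {G : ℂ → ℝ} (hG : Continuous G) (hs : HasCompactSupport G) (r : ℝ) :
    Continuous (fun z => ∫ w in Metric.ball z r, G w) := by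
  obtain ⟨M, hM⟩ := hs.exists_bound_of_continuous hG
  have h1 : ∀ z, ∫ w in Metric.ball z r, G w = ∫ w in Metric.ball (0:ℂ) r, G (z + w) := by
    intro z
    rw [← integral_indicator measurableSet_ball, ← integral_indicator measurableSet_ball,
      ← integral_add_left_eq_self (fun w => (Metric.ball z r).indicator G w) z]
    congr 1
    funext w
    by_cases hw : w ∈ Metric.ball (0:ℂ) r
    · rw [Set.indicator_of_mem hw, Set.indicator_of_mem]
      rw [Metric.mem_ball, dist_eq_norm] at hw ⊢
      simpa using hw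
    · rw [Set.indicator_of_notMem hw, Set.indicator_of_notMem]
      rw [Metric.mem_ball, dist_eq_norm] at hw ⊢
      simpa using hw
  simp_rw [h1]
  have : IsFiniteMeasure ((volume : Measure ℂ).restrict (Metric.ball (0:ℂ) r)) :=
    ⟨by rw [Measure.restrict_apply_univ]; exact measure_ball_lt_top⟩
  apply continuous_of_dominated (bound := fun _ => M)
  · intro z
    exact (hG.comp (continuous_const.add continuous_id)).aestronglyMeasurable
  · intro z
    exact ae_of_all _ fun w => hM _
  · exact integrable_const _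
  · exact ae_of_all _ fun w => hG.comp (continuous_id.add continuous_const)

/-- nested discs -/
lemma pt {F : ℂ → ℝ} (hF0 : ∀ z, 0 ≤ F z) {z : ℂ} {p q t : ℝ} (hp : 0 < p) (hpt : p ≤ t)
    (htq : t ≤ q) (hint : IntegrableOn F (Metric.ball z q)) {c : ℝ} (hc : 1 ≤ c)
    (hqt : q ^ 2 ≤ c * t ^ 2) (htp : t ^ 2 ≤ c * p ^ 2) :
    (mn t F z - 1) ^ 2 ≤ 2 * (c ^ 2 * (mn q F z - 1) ^ 2 + (mn p F z - 1) ^ 2 + (c - 1) ^ 2) := by
  have ht : 0 < t := hp.trans_le hpt
  have hq : 0 < q := ht.trans_le htq
  have i1 : ∫ w in Metric.ball z p, F w ≤ ∫ w in Metric.ball z t, F w :=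
    setIntegral_mono_set (hint.mono_set (Metric.ball_subset_ball htq))
      (ae_of_all _ fun w => hF0 w) (Metric.ball_subset_ball hpt).eventuallyLE
  have i2 : ∫ w in Metric.ball z t, F w ≤ ∫ w in Metric.ball z q, F w :=
    setIntegral_mono_set hint (ae_of_all _ fun w => hF0 w) (Metric.ball_subset_ball htq).eventuallyLE
  have i0 : 0 ≤ ∫ w in Metric.ball z p, F w := integral_nonneg fun w => hF0 w
  have hpi := Real.pi_pos
  have k1 : mn t F z ≤ c * mn q F z := by
    unfold mn
    rw [one_div, one_div, ← div_eq_inv_mul, ← div_eq_inv_mul, mul_div_assoc',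
      div_le_div_iff₀ (by positivity) (by positivity)]
    have h1 : 0 ≤ ∫ w in Metric.ball z t, F w := i0.trans i1
    calc (∫ w in Metric.ball z t, F w) * (Real.pi * q ^ 2)
        ≤ (∫ w in Metric.ball z q, F w) * (Real.pi * (c * t ^ 2)) := by
          apply mul_le_mul i2 _ (by positivity) (h1.trans i2)
          exact mul_le_mul_of_nonneg_left hqt hpi.le
      _ = _ := by ring
  have k2 : mn p F z ≤ c * mn t F z := by
    unfold mn
    rw [one_div, one_div, ← div_eq_inv_mul, ← div_eq_inv_mul, mul_div_assoc',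
      div_le_div_iff₀ (by positivity) (by positivity)]
    calc (∫ w in Metric.ball z p, F w) * (Real.pi * t ^ 2)
        ≤ (∫ w in Metric.ball z t, F w) * (Real.pi * (c * p ^ 2)) := by
          apply mul_le_mul i1 _ (by positivity) (i0.trans i1)
          exact mul_le_mul_of_nonneg_left htp hpi.le
      _ = _ := by ring
  set X := mn t F z
  set A := mn q F z
  set A' := mn p F z
  rcases le_total 1 X with hX | hX
  · have h1 : X - 1 ≤ c * (A - 1) + (c - 1) := by linarith
    have h2 : (X - 1) ^ 2 ≤ (c * (A - 1) + (c - 1)) ^ 2 := pow_le_pow_left₀ (by linarith) h1 2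
    nlinarith [sq_nonneg (c * (A - 1) - (c - 1)), sq_nonneg (A' - 1)]
  · have h1 : 1 - X ≤ (1 - A') + (c - 1) := by nlinarith
    have h2 : (1 - X) ^ 2 ≤ ((1 - A') + (c - 1)) ^ 2 := pow_le_pow_left₀ (by linarith) h1 2
    nlinarith [sq_nonneg ((1 - A') - (c - 1)), sq_nonneg (c * (A - 1))]

lemma find (α : ℕ → ℝ) (y : ℝ) (h0 : α 0 ≤ y) : ∀ J : ℕ, y < α J → ∃ j, j < J ∧ α j ≤ y ∧
    y < α (j + 1) := by
  intro J
  induction J with
  | zero => intro h; exact absurd (h0.trans_lt h) (lt_irrefl _)
  | succ J ih =>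
    intro h
    by_cases hJ : y < α J
    · obtain ⟨j, hj, h1, h2⟩ := ih hJ
      exact ⟨j, by omega, h1, h2⟩
    · exact ⟨J, by omega, not_lt.1 hJ, h⟩

end SandL

theorem sand : S_SAND := by
  intro s hs hs0 F hF0 hFc hyp φ hφ hφ0 ε hε
  set K := tsupport φ with hK
  have hKc : IsCompact K := hφ.2.1
  have hKU : K ⊆ UH := hφ.2.2
  rcases K.eq_empty_or_nonempty with hKe | hKn
  · refine ⟨1, 1, one_pos, one_pos, Eventually.of_forall fun n r _ _ => ?_⟩
    have : ∀ z, φ z = 0 := fun z => image_eq_zero_of_notMem_tsupport (by rw [← hK, hKe]; simp)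
    simp only [this, zero_mul, integral_zero]
    exact hε.le
  obtain ⟨z1, hz1, hmin⟩ := hKc.exists_isMinOn hKn Complex.continuous_im.continuousOn
  obtain ⟨z2, hz2, hmax⟩ := hKc.exists_isMaxOn hKn Complex.continuous_im.continuousOn
  set a := z1.im with ha
  set b := z2.im with hb
  have ha0 : 0 < a := hKU hz1
  have hab : ∀ z ∈ K, a ≤ z.im ∧ z.im ≤ b := fun z hz => ⟨hmin hz, hmax hz⟩
  set L : ℝ := ∫ z, φ z with hL
  have hL0 : 0 ≤ L := integral_nonneg hφ0
  set δ : ℝ := min 1 (ε / (36 * (L + 1))) with hδ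
  have hδ0 : 0 < δ := lt_min one_pos (by positivity)
  have hδ1 : δ ≤ 1 := min_le_left _ _
  have hδ2 : δ * (36 * (L + 1)) ≤ ε := by
    rw [← le_div_iff₀ (by positivity)]
    exact min_le_right _ _
  set c : ℝ := (1 + δ) ^ 2 with hc
  have hc1 : 1 ≤ c := one_le_pow₀ (by linarith)
  have hc3 : c - 1 ≤ 3 * δ := by rw [hc]; nlinarith
  have hc4 : c ≤ 4 := by linarith
  have hcL : 2 * (c - 1) ^ 2 * L ≤ ε / 2 := by
    have h1 : (c - 1) ^ 2 ≤ 9 * δ := by nlinarith
    nlinarith
  obtain ⟨J, hJ⟩ := pow_unbounded_of_one_lt (b / a) (show (1:ℝ) < 1 + δ by linarith)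
  have hJ' : b < a * (1 + δ) ^ J := by
    rw [div_lt_iff₀ ha0] at hJ
    linarith
  set α : ℕ → ℝ := fun j => a * (1 + δ) ^ j with hα
  have hα0 : ∀ j, a ≤ α j := fun j => le_mul_of_one_le_right ha0.le (one_le_pow₀ (by linarith))
  have hαJ : ∀ j, j ≤ J → α j ≤ α J := fun j hj =>
    mul_le_mul_of_nonneg_left (pow_le_pow_right₀ (by linarith) hj) ha0.le
  set ε' : ℝ := ε / (64 * (J + 1)) with hε'
  have hε'0 : 0 < ε' := by positivity
  obtain ⟨R₀, r₀, hR₀, hr₀, hev⟩ := hyp φ hφ hφ0 ε' hε'0
  have hαJ0 : 0 < α J := ha0.trans_le (hα0 J)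
  refine ⟨R₀ / a, min (r₀ / α J) (a / 2 / α J), by positivity, by positivity, ?_⟩
  filter_upwards [hev] with n hn r hr1 hr2
  have hsn := hs n
  have hr0 : 0 < r := lt_of_lt_of_le (by positivity) hr1
  have hrR : R₀ * s n ≤ r * a := by
    rw [div_mul_eq_mul_div, div_le_iff₀ ha0] at hr1
    exact hr1
  have hrr : r * α J ≤ r₀ := by
    rw [← le_div_iff₀ hαJ0]; exact hr2.trans (min_le_left _ _)
  have hra : r * α J ≤ a / 2 := by
    rw [← le_div_iff₀ hαJ0]; exact hr2.trans (min_le_right _ _)
  -- the compact neighbourhood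
  set K1 := Metric.cthickening (a / 2) K with hK1
  have hK1c : IsCompact K1 := hKc.cthickening
  have hK1U : K1 ⊆ UH := by
    intro w hw
    rw [hK1, hKc.cthickening_eq_biUnion_closedBall (by positivity)] at hw
    obtain ⟨z, hz, hzw⟩ := Set.mem_iUnion₂.1 hw
    rw [Metric.mem_closedBall, dist_eq_norm] at hzw
    have h1 := Complex.abs_im_le_norm (w - z)
    rw [sub_im] at h1
    have h2 := (abs_le.1 (h1.trans hzw)).1
    have h3 := (hab z hz).1
    show 0 < w.im
    linarith
  have hUo : IsOpen UH := isOpen_lt continuous_const Complex.continuous_im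
  obtain ⟨χ, hχ, hχ1, -, -⟩ := exists_cut hUo hK1c hK1U
  set G : ℂ → ℝ := fun z => χ z * F n z with hG
  have hGc : Continuous G := ShL.cont_mul hUo hχ.1.continuous hχ.2.2 (hFc n)
  have hGs : HasCompactSupport G := hχ.2.1.mul_right
  have hballK : ∀ z ∈ K, ∀ ρ, ρ ≤ a / 2 → Metric.ball z ρ ⊆ K1 := by
    intro z hz ρ hρ w hw
    rw [Metric.mem_ball] at hw
    exact Metric.mem_cthickening_of_dist_le _ z _ _ hz (by linarith)
  have hmn : ∀ z ∈ K, ∀ ρ, ρ ≤ a / 2 → mn ρ (F n) z = mn ρ G z := by
    intro z hz ρ hρ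
    unfold mn
    congr 1
    refine setIntegral_congr_fun measurableSet_ball fun w hw => ?_
    show F n w = χ w * F n w
    rw [hχ1 w (hballK z hz ρ hρ hw), one_mul]
  have hintF : IntegrableOn (F n) K1 := ((hFc n).mono hK1U).integrableOn_compact hK1c
  have hai : ∀ i, i ≤ J → r * α i ≤ a / 2 := fun i hi =>
    (mul_le_mul_of_nonneg_left (hαJ i hi) hr0.le).trans hra
  have hintA : ∀ i, i ≤ J → Integrable (fun z => φ z * (mn (r * α i) (F n) z - 1) ^ 2) := by
    intro i hi
    have e : (fun z => φ z * (mn (r * α i) (F n) z - 1) ^ 2) =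
        fun z => φ z * (mn (r * α i) G z - 1) ^ 2 := by
      funext z
      by_cases hz : z ∈ K
      · rw [hmn z hz _ (hai i hi)]
      · rw [image_eq_zero_of_notMem_tsupport hz, zero_mul, zero_mul]
    rw [e]
    have hcG : Continuous (fun z => mn (r * α i) G z) := by
      unfold mn
      exact continuous_const.mul (SandL.ball_cont hGc hGs _)
    apply Continuous.integrable_of_hasCompactSupport
    · exact hφ.1.continuous.mul ((hcG.sub continuous_const).pow 2)
    · exact hφ.2.1.mul_right
  have hφi : Integrable φ := hφ.1.continuous.integrable_of_hasCompactSupport hφ.2.1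
  -- the pointwise bound
  have hpt : ∀ z, φ z * (mn (r * z.im) (F n) z - 1) ^ 2 ≤
      (∑ i ∈ Finset.range (J + 1), 32 * (φ z * (mn (r * α i) (F n) z - 1) ^ 2)) +
        2 * (c - 1) ^ 2 * φ z := by
    intro z
    by_cases hz : z ∈ K
    · obtain ⟨j, hj, hj1, hj2⟩ := SandL.find α z.im (by
        show a * (1 + δ) ^ 0 ≤ z.im
        rw [pow_zero, mul_one]; exact (hab z hz).1) J ((hab z hz).2.trans_lt hJ')
      have hp0 : 0 < r * α j := mul_pos hr0 (ha0.trans_le (hα0 j))
      have hstep : α (j + 1) = (1 + δ) * α j := by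
        show a * (1 + δ) ^ (j + 1) = (1 + δ) * (a * (1 + δ) ^ j)
        ring
      have hy0 : 0 < z.im := hKU hz
      have hb1 := SandL.pt (hF0 n) (z := z) (p := r * α j) (q := r * α (j + 1)) (t := r * z.im)
        hp0 (mul_le_mul_of_nonneg_left hj1 hr0.le) (mul_le_mul_of_nonneg_left hj2.le hr0.le)
        (hintF.mono_set (hballK z hz _ (hai (j + 1) (by omega)))) hc1
        (by
          have h1 : α (j + 1) ≤ (1 + δ) * z.im := by
            rw [hstep]; exact mul_le_mul_of_nonneg_left hj1 (by linarith)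
          have h2 : r * α (j + 1) ≤ (1 + δ) * (r * z.im) := by
            calc r * α (j + 1) ≤ r * ((1 + δ) * z.im) := mul_le_mul_of_nonneg_left h1 hr0.le
              _ = _ := by ring
          have h3 : 0 ≤ r * α (j + 1) := mul_nonneg hr0.le (ha0.le.trans (hα0 _))
          calc (r * α (j + 1)) ^ 2 ≤ ((1 + δ) * (r * z.im)) ^ 2 := pow_le_pow_left₀ h3 h2 2
            _ = c * (r * z.im) ^ 2 := by rw [hc]; ring)
        (by
          have h2 : r * z.im ≤ (1 + δ) * (r * α j) := by
            calc r * z.im ≤ r * α (j + 1) := mul_le_mul_of_nonneg_left hj2.le hr0.le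
              _ = _ := by rw [hstep]; ring
          calc (r * z.im) ^ 2 ≤ ((1 + δ) * (r * α j)) ^ 2 :=
                pow_le_pow_left₀ (by positivity) h2 2
            _ = c * (r * α j) ^ 2 := by rw [hc]; ring)
      have hsum : (mn (r * α j) (F n) z - 1) ^ 2 + (mn (r * α (j + 1)) (F n) z - 1) ^ 2 ≤
          ∑ i ∈ Finset.range (J + 1), (mn (r * α i) (F n) z - 1) ^ 2 := by
        have hsub : ({j, j + 1} : Finset ℕ) ⊆ Finset.range (J + 1) := by
          intro i hi
          simp only [Finset.mem_insert, Finset.mem_singleton] at hi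
          rw [Finset.mem_range]
          omega
        have h1 := Finset.sum_le_sum_of_subset_of_nonneg hsub
          (f := fun i => (mn (r * α i) (F n) z - 1) ^ 2) (fun i _ _ => sq_nonneg _)
        rwa [Finset.sum_pair (by omega)] at h1
      have hφz := hφ0 z
      have e1 : (mn (r * z.im) (F n) z - 1) ^ 2 ≤
          32 * (∑ i ∈ Finset.range (J + 1), (mn (r * α i) (F n) z - 1) ^ 2) +
            2 * (c - 1) ^ 2 := by
        have h1 : 0 ≤ (mn (r * α (j + 1)) (F n) z - 1) ^ 2 := sq_nonneg _
        have h2 : 0 ≤ (mn (r * α j) (F n) z - 1) ^ 2 := sq_nonneg _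
        have h3 : c ^ 2 ≤ 16 := by nlinarith
        have h4 : c ^ 2 * (mn (r * α (j + 1)) (F n) z - 1) ^ 2 ≤
            16 * (mn (r * α (j + 1)) (F n) z - 1) ^ 2 := mul_le_mul_of_nonneg_right h3 h1
        linarith
      calc φ z * (mn (r * z.im) (F n) z - 1) ^ 2
          ≤ φ z * (32 * (∑ i ∈ Finset.range (J + 1), (mn (r * α i) (F n) z - 1) ^ 2) +
            2 * (c - 1) ^ 2) := mul_le_mul_of_nonneg_left e1 hφz
        _ = _ := by
          rw [mul_add, Finset.mul_sum, Finset.mul_sum]
          congr 1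
          · exact Finset.sum_congr rfl fun i _ => by ring
          · ring
    · rw [image_eq_zero_of_notMem_tsupport hz]
      simp
  have hRi : Integrable (fun z => (∑ i ∈ Finset.range (J + 1),
      32 * (φ z * (mn (r * α i) (F n) z - 1) ^ 2)) + 2 * (c - 1) ^ 2 * φ z) := by
    apply Integrable.add
    · apply integrable_finsetSum
      intro i hi
      exact (hintA i (by rw [Finset.mem_range] at hi; omega)).const_mul _
    · exact hφi.const_mul _
  calc ∫ z, φ z * (mn (r * z.im) (F n) z - 1) ^ 2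
      ≤ ∫ z, ((∑ i ∈ Finset.range (J + 1), 32 * (φ z * (mn (r * α i) (F n) z - 1) ^ 2)) +
          2 * (c - 1) ^ 2 * φ z) :=
        integral_mono_of_nonneg (ae_of_all _ fun z => mul_nonneg (hφ0 z) (sq_nonneg _)) hRi
          (ae_of_all _ hpt)
    _ = (∑ i ∈ Finset.range (J + 1), 32 * ∫ z, φ z * (mn (r * α i) (F n) z - 1) ^ 2) +
          2 * (c - 1) ^ 2 * L := by
        rw [integral_add, integral_finsetSum, integral_const_mul]
        · congr 1
          exact Finset.sum_congr rfl fun i _ => integral_const_mul _ _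
        · intro i hi
          exact (hintA i (by rw [Finset.mem_range] at hi; omega)).const_mul _
        · apply integrable_finsetSum
          intro i hi
          exact (hintA i (by rw [Finset.mem_range] at hi; omega)).const_mul _
        · exact hφi.const_mul _
    _ ≤ (∑ i ∈ Finset.range (J + 1), 32 * ε') + ε / 2 := by
        apply add_le_add _ hcL
        apply Finset.sum_le_sum
        intro i hi
        have hi' : i ≤ J := by rw [Finset.mem_range] at hi; omega
        apply mul_le_mul_of_nonneg_left _ (by norm_num)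
        apply hn
        · exact hrR.trans (mul_le_mul_of_nonneg_left (hα0 i) hr0.le)
        · exact (mul_le_mul_of_nonneg_left (hαJ i hi') hr0.le).trans hrr
    _ = ε := by
        rw [Finset.sum_const, Finset.card_range, nsmul_eq_mul, hε']
        push_cast
        field_simp
        ring

end Pool.Agent.Helper93K9.PE
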