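import Pool.Agent.Helper93K9.PE.Stm

/-! Project PE (helper93), leaf SH (helper27): shifts proportional to the height. -/

set_option autoImplicit false
open MeasureTheory Filter Topology Complex
open scoped ContDiff

namespace Pool.Agent.Helper93K9.PE

open Pool.Agent.W745.RW Pool.Agent.TH294.RS Pool.Agent.Y265.HY

namespace ShL

/-- the linear map `z ↦ z + y v` -/
noncomputable def TL (v : ℂ) : ℂ →ₗ[ℝ] ℂ where
  toFun z := z + (z.im : ℂ) * v
  map_add' x y := by simp only [add_im, ofReal_add]; ring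
  map_smul' c x := by
    simp only [RingHom.id_apply, real_smul, mul_im, ofReal_re, ofReal_im, zero_mul, add_zero]
    push_cast
    ring

lemma TL_apply (v z : ℂ) : TL v z = z + (z.im : ℂ) * v := rfl

lemma TL_det (v : ℂ) : LinearMap.det (TL v) = 1 + v.im := by
  rw [← LinearMap.det_toMatrix Complex.basisOneI, Matrix.det_fin_two]
  simp [LinearMap.toMatrix_apply, TL_apply]

lemma TL_cont (v : ℂ) : Continuous (TL v) := (TL v).continuous_of_finiteDimensional

lemma TL_inj (v : ℂ) (hv : 1 + v.im ≠ 0) : Function.Injective (TL v) := by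
  intro x y hxy
  rw [TL_apply, TL_apply] at hxy
  have h1 := congrArg Complex.im hxy
  simp only [add_im, mul_im, ofReal_re, ofReal_im, zero_mul, add_zero] at h1
  have h2 : (x.im - y.im) * (1 + v.im) = 0 := by linarith
  have h3 : x.im = y.im := by
    rcases mul_eq_zero.1 h2 with h | h
    · linarith
    · exact absurd h hv
  rw [h3] at hxy
  exact add_right_cancel hxy

lemma TL_emb (v : ℂ) (hv : 1 + v.im ≠ 0) : MeasurableEmbedding (TL v) :=
  (TL_cont v).measurableEmbedding (TL_inj v hv)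

lemma TL_map (v : ℂ) (hv : 1 + v.im ≠ 0) :
    Measure.map (TL v) (volume : Measure ℂ) = ENNReal.ofReal |(1 + v.im)⁻¹| • volume := by
  have := Measure.map_linearMap_addHaar_eq_smul_addHaar (μ := (volume : Measure ℂ))
    (f := TL v) (by rw [TL_det]; exact hv)
  rw [TL_det] at this
  exact this

lemma TL_int (v : ℂ) (hv : 1 + v.im ≠ 0) (F : ℂ → ℝ) :
    ∫ z, F (z + (z.im : ℂ) * v) = |(1 + v.im)⁻¹| * ∫ z, F z := by
  have h1 := (TL_emb v hv).integral_map (μ := volume) F
  rw [TL_map v hv, integral_smul_measure, ENNReal.toReal_ofReal (abs_nonneg _), smul_eq_mul] at h1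
  exact h1.symm

lemma TL_integrable (v : ℂ) (hv : 1 + v.im ≠ 0) (F : ℂ → ℝ) (hF : Integrable F) :
    Integrable (fun z => F (z + (z.im : ℂ) * v)) := by
  have h1 := (TL_emb v hv).integrable_map_iff (μ := volume) (g := F)
  rw [TL_map v hv] at h1
  exact h1.1 (hF.smul_measure ENNReal.ofReal_ne_top)

/-- product of a test function with a function continuous on the open set -/
lemma cont_mul {B : Set ℂ} (hB : IsOpen B) {χ Q : ℂ → ℝ} (hχ : Continuous χ)
    (hs : tsupport χ ⊆ B) (hQ : ContinuousOn Q B) : Continuous (fun z => χ z * Q z) := by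
  rw [continuous_iff_continuousAt]
  intro z
  by_cases hz : z ∈ B
  · exact hχ.continuousAt.mul (hQ.continuousAt (hB.mem_nhds hz))
  · have hz' : z ∉ tsupport χ := fun h => hz (hs h)
    have h1 : (fun w => χ w * Q w) =ᶠ[𝓝 z] fun _ => 0 := by
      filter_upwards [notMem_tsupport_iff_eventuallyEq.1 hz'] with w hw
      have : χ w = 0 := hw
      rw [this, zero_mul]
    exact continuousAt_const.congr h1.symm

end ShL

theorem sh : S_SH := by
  intro B hB hBU φ hφ
  set K := tsupport φ with hK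
  have hKc : IsCompact K := hφ.2.1
  obtain ⟨δ, hδ, hδB⟩ := hKc.exists_cthickening_subset_open hB hφ.2.2
  obtain ⟨C, hC⟩ := hKc.exists_bound_of_continuousOn (f := fun z : ℂ => z.im)
    Complex.continuous_im.continuousOn
  obtain ⟨M, hM⟩ := hφ.2.1.exists_bound_of_continuous hφ.1.continuous
  have hM0 : 0 ≤ M := (norm_nonneg _).trans (hM 0)
  set C1 : ℝ := max C 1 with hC1
  have hC11 : 1 ≤ C1 := le_max_right _ _
  have hK1c : IsCompact (Metric.cthickening δ K) := hKc.cthickening
  obtain ⟨χ, hχ, hχ1, hχ0, -⟩ := exists_cut hB hK1c hδB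
  set s0 : ℝ := min (1 / 2) (δ / C1) with hs0
  have hs0p : 0 < s0 := lt_min (by norm_num) (div_pos hδ (by linarith))
  have hs0h : s0 ≤ 1 / 2 := min_le_left _ _
  have hs0d : C1 * s0 ≤ δ := by
    have : s0 ≤ δ / C1 := min_le_right _ _
    rw [le_div_iff₀ (by linarith)] at this
    linarith
  have hin : ∀ z ∈ K, ∀ v : ℂ, ‖v‖ ≤ s0 → z + (z.im : ℂ) * v ∈ Metric.cthickening δ K := by
    intro z hz v hv
    apply Metric.mem_cthickening_of_dist_le _ z _ _ hz
    rw [dist_eq_norm, add_sub_cancel_left, norm_mul, norm_real]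
    calc ‖z.im‖ * ‖v‖ ≤ C1 * s0 := by
          apply mul_le_mul ((hC z hz).trans (le_max_left _ _)) hv (norm_nonneg _) (by linarith)
      _ ≤ δ := hs0d
  have hφ' : TF B (fun z => M * χ z) := by
    refine ⟨contDiff_const.mul hχ.1, hχ.2.1.mul_left, ?_⟩
    refine (closure_mono ?_).trans hχ.2.2
    intro z hz
    rw [Function.mem_support] at hz ⊢
    exact right_ne_zero_of_mul hz
  refine ⟨fun z => M * χ z, hφ', fun z => mul_nonneg hM0 (hχ0 z), s0, hs0p, by linarith,
    fun z hz v hv => hδB (hin z hz v hv), ?_⟩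
  intro v hv Q hQ0 hQ
  have hvi : |v.im| ≤ 1 / 2 := (Complex.abs_im_le_norm v).trans (hv.trans hs0h)
  have hd : 1 / 2 ≤ 1 + v.im := by
    have := (abs_le.1 hvi).1
    linarith
  have hd0 : 1 + v.im ≠ 0 := by linarith
  have hc : Continuous (fun z => (M * χ z) * Q z) :=
    ShL.cont_mul hB hφ'.1.continuous hφ'.2.2 hQ
  have hcs : HasCompactSupport (fun z => (M * χ z) * Q z) := hφ'.2.1.mul_right
  have hint : Integrable (fun z => (M * χ z) * Q z) := hc.integrable_of_hasCompactSupport hcs
  have h1 := ShL.TL_int v hd0 (fun z => (M * χ z) * Q z)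
  have h2 := ShL.TL_integrable v hd0 _ hint
  have h3 : ∫ z, |φ z| * Q (z + (z.im : ℂ) * v) ≤
      ∫ z, (M * χ (z + (z.im : ℂ) * v)) * Q (z + (z.im : ℂ) * v) := by
    apply integral_mono_of_nonneg
    · exact ae_of_all _ fun z => mul_nonneg (abs_nonneg _) (hQ0 _)
    · exact h2
    · refine ae_of_all _ fun z => ?_
      show |φ z| * Q (z + (z.im : ℂ) * v) ≤
        (M * χ (z + (z.im : ℂ) * v)) * Q (z + (z.im : ℂ) * v)
      apply mul_le_mul_of_nonneg_right _ (hQ0 _)
      by_cases hz : z ∈ K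
      · rw [hχ1 _ (hin z hz v hv), mul_one]
        exact hM z
      · rw [image_eq_zero_of_notMem_tsupport hz, abs_zero]
        exact mul_nonneg hM0 (hχ0 _)
  refine h3.trans ?_
  rw [h1]
  apply mul_le_mul_of_nonneg_right _ (integral_nonneg fun z =>
    mul_nonneg (mul_nonneg hM0 (hχ0 z)) (hQ0 z))
  rw [abs_of_nonneg (by positivity)]
  rw [inv_le_comm₀ (by linarith) (by norm_num)]
  linarith

end Pool.Agent.Helper93K9.PE
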