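import Pool.Agent.Helper93K9.PE.Loc

/-!
# [STAR] the mean square comparison (helper55)
-/

set_option autoImplicit false
open MeasureTheory Filter Topology Complex
open scoped ContDiff

namespace Pool.Agent.Helper93K9.PE

open Pool.Agent.W745.RW Pool.Agent.TH294.RS Pool.Agent.Y265.HY
open Pool.Agent.TH294.RG (dm mu FP)

noncomputable section

namespace StarL

open LocL

/-- the distribution of `t v` -/
def nu : Measure ℂ := Measure.map (fun p : ℂ × ℝ => ((ct p.2 : ℝ) : ℂ) * rb p.1)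
  (dm.prod (volume.restrict (Set.Ioc (0 : ℝ) 1)))

instance prob_Ioc : IsProbabilityMeasure (volume.restrict (Set.Ioc (0 : ℝ) 1)) :=
  ⟨by simp⟩

lemma x_cont : Continuous (fun p : ℂ × ℝ => ((ct p.2 : ℝ) : ℂ) * rb p.1) := by
  have := rb_cont
  have := ct_cont
  fun_prop

instance prob_nu : IsProbabilityMeasure nu := by
  unfold nu
  exact Measure.isProbabilityMeasure_map x_cont.measurable.aemeasurable

lemma nu_ae : ∀ᵐ x ∂nu, ‖x‖ ≤ 1 := by
  unfold nu
  rw [ae_map_iff x_cont.measurable.aemeasurable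
    (measurableSet_le continuous_norm.measurable measurable_const)]
  exact ae_of_all _ fun p => rc_le _ _

lemma bdd {G : ℂ → ℝ} (hG : ContinuousOn G (Metric.closedBall (0 : ℂ) 1)) :
    Continuous (fun x => G (rb x)) ∧ ∃ M : ℝ, ∀ x, ‖G (rb x)‖ ≤ M := by
  refine ⟨hG.comp_continuous rb_cont fun x => by simpa using rb_le x, ?_⟩
  obtain ⟨M, hM⟩ := (isCompact_closedBall (0 : ℂ) 1).exists_bound_of_continuousOn hG
  exact ⟨M, fun x => hM _ (by simpa using rb_le x)⟩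

lemma nu_int {G : ℂ → ℝ} (hG : ContinuousOn G (Metric.closedBall (0 : ℂ) 1)) :
    Integrable G nu := by
  obtain ⟨h1, M, hM⟩ := bdd hG
  have h2 : Integrable (fun x => G (rb x)) nu :=
    Integrable.of_bound h1.aestronglyMeasurable M (ae_of_all _ hM)
  exact h2.congr (nu_ae.mono fun x hx => by simp only [rb_eq hx])

lemma nu_eq {G : ℂ → ℝ} (hG : ContinuousOn G (Metric.closedBall (0 : ℂ) 1)) :
    ∫ v, (∫ t in (0 : ℝ)..1, G ((t : ℂ) * v)) ∂dm = ∫ x, G x ∂nu := by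
  obtain ⟨h1, M, hM⟩ := bdd hG
  have e1 : ∫ x, G x ∂nu = ∫ x, G (rb x) ∂nu :=
    integral_congr_ae (nu_ae.mono fun x hx => by simp only [rb_eq hx])
  rw [e1]
  unfold nu
  rw [integral_map x_cont.measurable.aemeasurable h1.aestronglyMeasurable, integral_prod]
  · refine integral_congr_ae (Pool.Agent.TH294.RG.dm_ae.mono fun v hv => ?_)
    change (∫ t in (0 : ℝ)..1, G ((t : ℂ) * v)) = _
    rw [intervalIntegral.integral_of_le zero_le_one]
    refine setIntegral_congr_fun measurableSet_Ioc fun t ht => ?_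
    have ht' : t ∈ Set.Icc (0 : ℝ) 1 := ⟨ht.1.le, ht.2⟩
    have h2 : ‖((t : ℝ) : ℂ) * v‖ ≤ 1 := by
      rw [norm_mul, Complex.norm_real, Real.norm_of_nonneg ht'.1]
      exact mul_le_one₀ ht'.2 (norm_nonneg _) hv.le
    simp only [ct_eq ht', rb_eq hv.le, rb_eq h2]
  · exact Integrable.of_bound (h1.comp x_cont).aestronglyMeasurable M
      (ae_of_all _ fun p => hM _)

lemma jensen {G : ℂ → ℝ} (hG : ContinuousOn G (Metric.closedBall (0 : ℂ) 1)) :
    (∫ x, G x ∂nu) ^ 2 ≤ ∫ x, G x ^ 2 ∂nu := by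
  set m := ∫ x, G x ∂nu with hm
  have h1 := nu_int hG
  have h2 : Integrable (fun x => G x ^ 2) nu := nu_int (hG.pow 2)
  have h3 : 0 ≤ ∫ x, (G x - m) ^ 2 ∂nu := integral_nonneg fun x => sq_nonneg _
  have h4 : ∫ x, (G x - m) ^ 2 ∂nu = (∫ x, G x ^ 2 ∂nu) - m ^ 2 := by
    have e : ∀ x, (G x - m) ^ 2 = G x ^ 2 - (2 * m * G x - m ^ 2) := fun x => by ring
    simp only [e]
    have e2 : ∫ x, (G x ^ 2 - (2 * m * G x - m ^ 2)) ∂nu =
        (∫ x, G x ^ 2 ∂nu) - ∫ x, (2 * m * G x - m ^ 2) ∂nu :=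
      integral_sub h2 ((h1.const_mul (2 * m)).sub (integrable_const (m ^ 2)))
    have e3 : ∫ x, (2 * m * G x - m ^ 2) ∂nu = (∫ x, 2 * m * G x ∂nu) - ∫ _, m ^ 2 ∂nu :=
      integral_sub (h1.const_mul (2 * m)) (integrable_const (m ^ 2))
    rw [e2, e3, integral_const_mul, ← hm]
    simp
    ring
  linarith

/-- products with a test function are continuous -/
lemma cg {X : Type*} [TopologicalSpace X] {B : Set ℂ} (hB : IsOpen B) {φ : ℂ → ℝ}
    (hφ : Continuous φ) {Q : ℂ → ℝ} (hQ : ContinuousOn Q B) {T : ℂ × X → ℂ} (hT : Continuous T)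
    (hTB : ∀ z ∈ tsupport φ, ∀ x, T (z, x) ∈ B) :
    Continuous (fun p : ℂ × X => φ p.1 * Q (T p)) := by
  rw [continuous_iff_continuousAt]
  rintro ⟨z, x⟩
  by_cases hz : z ∈ tsupport φ
  · have h1 : ContinuousAt Q (T (z, x)) := hQ.continuousAt (hB.mem_nhds (hTB z hz x))
    exact ((hφ.comp continuous_fst).continuousAt).mul
      (ContinuousAt.comp (f := T) (g := Q) h1 hT.continuousAt)
  · have h1 : φ =ᶠ[𝓝 z] 0 := notMem_tsupport_iff_eventuallyEq.1 hz
    have h2 : ∀ᶠ p : ℂ × X in 𝓝 (z, x), φ p.1 * Q (T p) = 0 := by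
      have h3 := (continuous_fst (X := ℂ) (Y := X)).continuousAt (x := (z, x)) |>.eventually h1
      refine h3.mono fun p hp => ?_
      have : φ p.1 = 0 := hp
      rw [this, zero_mul]
    exact (continuousAt_const (y := (0 : ℝ))).congr (h2.mono fun p hp => hp.symm)

lemma cg1 {B : Set ℂ} (hB : IsOpen B) {φ : ℂ → ℝ} (hφ : TF B φ) {Q : ℂ → ℝ}
    (hQ : ContinuousOn Q B) : Integrable (fun z => φ z * Q z) := by
  have h1 : Continuous (fun p : ℂ × Unit => φ p.1 * Q p.1) :=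
    cg hB hφ.1.continuous hQ continuous_fst fun z hz _ => hφ.2.2 hz
  have h2 : Continuous (fun z : ℂ => φ z * Q z) :=
    h1.comp (continuous_id.prodMk continuous_const : Continuous fun z : ℂ => (z, ()))
  exact h2.integrable_of_hasCompactSupport hφ.2.1.mul_right

/-- Fubini and the shift estimate -/
lemma shift {B : Set ℂ} (hB : IsOpen B) {φ φ' : ℂ → ℝ} (hφ : TF B φ) (hφ0 : ∀ z, 0 ≤ φ z)
    {s0 : ℝ}
    (hball : ∀ z ∈ tsupport φ, ∀ v : ℂ, ‖v‖ ≤ s0 → z + (z.im : ℂ) * v ∈ B)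
    (hsh : ∀ v : ℂ, ‖v‖ ≤ s0 → ∀ Q : ℂ → ℝ, (∀ z, 0 ≤ Q z) → ContinuousOn Q B →
      ∫ z, |φ z| * Q (z + (z.im : ℂ) * v) ≤ 2 * ∫ z, φ' z * Q z)
    {r : ℝ} (hr0 : 0 ≤ r) (hr : r ≤ s0) {Q : ℂ → ℝ} (hQ0 : ∀ z, 0 ≤ Q z)
    (hQ : ContinuousOn Q B) :
    Integrable (fun z => φ z * ∫ x, Q (z + ((r * z.im : ℝ) : ℂ) * x) ∂nu) ∧
    ∫ z, φ z * ∫ x, Q (z + ((r * z.im : ℝ) : ℂ) * x) ∂nu ≤ 2 * ∫ z, φ' z * Q z := by
  have hT : Continuous (fun p : ℂ × ℂ => p.1 + ((r * p.1.im : ℝ) : ℂ) * rb p.2) := by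
    have := rb_cont
    fun_prop
  have hTB : ∀ z ∈ tsupport φ, ∀ x : ℂ,
      (fun p : ℂ × ℂ => p.1 + ((r * p.1.im : ℝ) : ℂ) * rb p.2) (z, x) ∈ B := by
    intro z hz x
    have h1 : ‖(r : ℂ) * rb x‖ ≤ s0 := by
      rw [norm_mul, Complex.norm_real, Real.norm_of_nonneg hr0]
      have := rb_le x
      nlinarith
    have h2 := hball z hz _ h1
    have e : z + ((r * z.im : ℝ) : ℂ) * rb x = z + (z.im : ℂ) * ((r : ℂ) * rb x) := by
      push_cast; ring
    change z + ((r * z.im : ℝ) : ℂ) * rb x ∈ B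
    rw [e]
    exact h2
  have hc := cg hB hφ.1.continuous hQ hT hTB
  set g : ℂ × ℂ → ℝ := fun p => φ p.1 * Q (p.1 + ((r * p.1.im : ℝ) : ℂ) * rb p.2) with hg
  -- boundedness
  obtain ⟨M, hM⟩ := ((hφ.2.1.isCompact).prod (isCompact_closedBall (0 : ℂ) 1)
    ).exists_bound_of_continuousOn hc.continuousOn
  have hrr : ∀ x : ℂ, rb (rb x) = rb x := fun x => rb_eq (rb_le x)
  have hgb : ∀ p : ℂ × ℂ, ‖g p‖ ≤ (tsupport φ).indicator (fun _ => M) p.1 := by
    rintro ⟨z, x⟩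
    by_cases hz : z ∈ tsupport φ
    · rw [Set.indicator_of_mem hz]
      have h1 := hM (z, rb x) ⟨hz, by simpa using rb_le x⟩
      have h2 : g (z, rb x) = g (z, x) := by simp only [hg, hrr]
      rw [h2] at h1
      exact h1
    · rw [Set.indicator_of_notMem hz]
      have h1 : φ z = 0 := image_eq_zero_of_notMem_tsupport hz
      simp only [hg, h1, zero_mul, norm_zero, le_refl]
  have hbi : Integrable (fun z : ℂ => (tsupport φ).indicator (fun _ => M) z) := by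
    refine (integrable_indicator_iff (isClosed_tsupport φ).measurableSet).2 ?_
    exact integrableOn_const hφ.2.1.isCompact.measure_lt_top.ne
  have hgi : Integrable g (volume.prod nu) :=
    (hbi.comp_fst nu).mono' hc.aestronglyMeasurable (ae_of_all _ hgb)
  have hin : ∀ z, ∫ x, g (z, x) ∂nu = φ z * ∫ x, Q (z + ((r * z.im : ℝ) : ℂ) * x) ∂nu := by
    intro z
    rw [← integral_const_mul]
    refine integral_congr_ae (nu_ae.mono fun x hx => ?_)
    simp only [hg, rb_eq hx]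
  constructor
  · have h1 := hgi.integral_prod_left
    simp only [hin] at h1
    exact h1
  · have e1 : ∫ z, φ z * ∫ x, Q (z + ((r * z.im : ℝ) : ℂ) * x) ∂nu =
        ∫ x, (∫ z, g (z, x)) ∂nu := by
      simp only [← hin]
      exact integral_integral_swap hgi
    rw [e1]
    have h2 : ∀ᵐ x ∂nu, (∫ z, g (z, x)) ≤ 2 * ∫ z, φ' z * Q z := by
      refine nu_ae.mono fun x hx => ?_
      have h3 : ‖(r : ℂ) * x‖ ≤ s0 := by
        rw [norm_mul, Complex.norm_real, Real.norm_of_nonneg hr0]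
        nlinarith [norm_nonneg x]
      refine le_trans (le_of_eq ?_) (hsh _ h3 Q hQ0 hQ)
      refine integral_congr_ae (ae_of_all _ fun z => ?_)
      simp only [hg, rb_eq hx, abs_of_nonneg (hφ0 z)]
      congr 2
      push_cast; ring
    set c : ℝ := 2 * ∫ z, φ' z * Q z with hc
    calc ∫ x, (∫ z, g (z, x)) ∂nu ≤ ∫ _, c ∂nu :=
          integral_mono_ae hgi.integral_prod_right (integrable_const c) h2
      _ = c := by simp

lemma EJ_co {B : Set ℂ} (hB : IsOpen B) {h : ℕ → ℝ} {u : ℕ → ℂ → ℂ} {n : ℕ}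
    (hu : ContDiffOn ℝ ∞ (u n) B) (k l : ℕ) : ContinuousOn (EJ h u k l n) B := by
  have hl : ∀ l : ℕ, ContDiffOn ℝ ∞ (db^[l] (u n)) B := by
    intro l
    induction l with
    | zero => exact hu
    | succ l ih => rw [Function.iterate_succ_apply']; exact db_sm hB ih
  have hk : ContDiffOn ℝ ∞ (dd^[k] (db^[l] (u n))) B := by
    induction k with
    | zero => exact hl l
    | succ k ih => rw [Function.iterate_succ_apply']; exact dd_sm hB ih
  unfold EJ
  refine ContinuousOn.mul ?_ hk.continuousOn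
  fun_prop

lemma QN_co {B : Set ℂ} (hB : IsOpen B) {h : ℕ → ℝ} {u : ℕ → ℂ → ℂ} {n : ℕ}
    (hu : ContDiffOn ℝ ∞ (u n) B) (N : ℕ) : ContinuousOn (QN h u N n) B := by
  unfold QN
  refine continuousOn_finsetSum _ fun k _ => continuousOn_finsetSum _ fun l _ => ?_
  exact ContinuousOn.pow (EJ_co hB hu k l).norm 2

lemma QN_nn (h : ℕ → ℝ) (u : ℕ → ℂ → ℂ) (N n : ℕ) (z : ℂ) : 0 ≤ QN h u N n z :=
  Finset.sum_nonneg fun _ _ => Finset.sum_nonneg fun _ _ => sq_nonneg _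

lemma QN_sq (h : ℕ → ℝ) (u : ℕ → ℂ → ℂ) (N n : ℕ) (z : ℂ) : QN h u N n z ^ 2 ≤
    (2 * N + 1 : ℝ) ^ 2 * ∑ k ∈ Finset.range (2 * N + 1), ∑ l ∈ Finset.range (2 * N + 1),
      ‖EJ h u k l n z‖ ^ 4 := by
  unfold QN
  have hc : ((Finset.range (2 * N + 1)).card : ℝ) = 2 * N + 1 := by
    rw [Finset.card_range]; push_cast; ring
  refine (sq_sum_le_card_mul_sum_sq).trans ?_
  rw [hc, pow_two, mul_assoc]
  refine mul_le_mul_of_nonneg_left ?_ (by positivity)
  rw [Finset.mul_sum]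
  refine Finset.sum_le_sum fun k _ => ?_
  refine (sq_sum_le_card_mul_sum_sq).trans ?_
  rw [hc]
  refine mul_le_mul_of_nonneg_left (le_of_eq ?_) (by positivity)
  refine Finset.sum_congr rfl fun l _ => ?_
  rw [← pow_mul]

/-- the constants -/
lemma const_lim (R : ℝ) (hR : 0 < R) (D : ℝ) (hD : 0 ≤ D) (ε : ℝ) (hε : 0 < ε) :
    ∃ N0 : ℕ, 1 ≤ N0 ∧ ∀ N : ℕ, N0 ≤ N → (2 * (2 * R) ^ (2 * N) /
      (Nat.factorial (2 * N - 1) : ℝ)) ^ 2 * (2 * ((2 * N + 1 : ℝ) ^ 4 * D)) ≤ ε := by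
  have h1 := FloorSemiring.tendsto_pow_div_factorial_atTop (16 * R)
  have h2 : Tendsto (fun N : ℕ => (2 * ((16 * R) ^ (2 * N) / (Nat.factorial (2 * N) : ℝ))) ^ 2 *
      (2 * D)) atTop (𝓝 0) := by
    have h3 : Tendsto (fun N : ℕ => 2 * N) atTop atTop :=
      tendsto_id.const_mul_atTop' (by norm_num)
    have h4 := (((h1.comp h3).const_mul 2).pow 2).mul_const (2 * D)
    simpa using h4
  obtain ⟨N1, hN1⟩ := eventually_atTop.1 (h2.eventually (gt_mem_nhds hε))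
  refine ⟨max N1 1, le_max_right _ _, fun N hN => ?_⟩
  have h5 := hN1 N ((le_max_left _ _).trans hN)
  have hN' : 1 ≤ N := (le_max_right _ _).trans hN
  refine le_trans ?_ h5.le
  have hf : (Nat.factorial (2 * N) : ℝ) = (2 * N : ℝ) * (Nat.factorial (2 * N - 1) : ℝ) := by
    have : Nat.factorial (2 * N) = (2 * N) * Nat.factorial (2 * N - 1) := by
      rw [Nat.mul_factorial_pred (by omega)]
    rw [this]
    push_cast
    ring
  have hfp : (0 : ℝ) < (Nat.factorial (2 * N - 1) : ℝ) := by positivity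
  have hN0 : (0 : ℝ) < 2 * N := by
    have : (1 : ℝ) ≤ N := by exact_mod_cast hN'
    linarith
  have h6 : (2 * R) ^ (2 * N) / (Nat.factorial (2 * N - 1) : ℝ) * (2 * N + 1) ^ 2 ≤
      (16 * R) ^ (2 * N) / (Nat.factorial (2 * N) : ℝ) := by
    rw [hf, div_mul_eq_mul_div, div_le_div_iff₀ hfp (mul_pos hN0 hfp)]
    have h7 : ((2 * N + 1 : ℝ)) ^ 2 * (2 * N) ≤ 8 ^ (2 * N) := by
      have h8 : (2 * N + 1 : ℕ) ≤ 2 ^ (2 * N) := Nat.lt_two_pow_self
      have h9 : ((2 * N + 1 : ℝ)) ≤ 2 ^ (2 * N) := by exact_mod_cast h8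
      have h10 : ((2 * N + 1 : ℝ)) ^ 3 ≤ (2 ^ (2 * N)) ^ 3 :=
        pow_le_pow_left₀ (by positivity) h9 3
      have h11 : ((2 : ℝ) ^ (2 * N)) ^ 3 = 8 ^ (2 * N) := by
        rw [← pow_mul, mul_comm, pow_mul]; norm_num
      rw [h11] at h10
      nlinarith [sq_nonneg ((2 * N + 1 : ℝ))]
    have e1 : (16 * R) ^ (2 * N) = (2 * R) ^ (2 * N) * 8 ^ (2 * N) := by
      rw [← mul_pow]; ring_nf
    rw [e1]
    have hp : 0 ≤ (2 * R) ^ (2 * N) := by positivity
    calc (2 * R) ^ (2 * N) * (2 * N + 1) ^ 2 * (2 * N * (Nat.factorial (2 * N - 1) : ℝ)) =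
        (2 * R) ^ (2 * N) * ((2 * N + 1) ^ 2 * (2 * N)) * (Nat.factorial (2 * N - 1) : ℝ) := by
          ring
      _ ≤ (2 * R) ^ (2 * N) * 8 ^ (2 * N) * (Nat.factorial (2 * N - 1) : ℝ) := by
          refine mul_le_mul_of_nonneg_right (mul_le_mul_of_nonneg_left h7 hp) hfp.le
  have h7 : 0 ≤ (2 * R) ^ (2 * N) / (Nat.factorial (2 * N - 1) : ℝ) * (2 * N + 1) ^ 2 := by
    positivity
  have h8 := pow_le_pow_left₀ h7 h6 2
  calc (2 * (2 * R) ^ (2 * N) / (Nat.factorial (2 * N - 1) : ℝ)) ^ 2 *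
      (2 * ((2 * N + 1 : ℝ) ^ 4 * D)) =
      ((2 * R) ^ (2 * N) / (Nat.factorial (2 * N - 1) : ℝ) * (2 * N + 1) ^ 2) ^ 2 *
        (4 * (2 * D)) := by ring
    _ ≤ ((16 * R) ^ (2 * N) / (Nat.factorial (2 * N) : ℝ)) ^ 2 * (4 * (2 * D)) :=
        mul_le_mul_of_nonneg_right h8 (by positivity)
    _ = _ := by ring

end StarL

open LocL StarL in
theorem star (hLOC : S_LOC) (hSH : S_SH) (hJ4 : S_J4) : S_STAR := by
  intro B h w H hBU h0 hBd φ hφ hφ0 R hR ε hε
  have hB := H.op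
  obtain ⟨φ', hφ', hφ'0, s0, hs0, hs01, hball, hsh⟩ := hSH B hB hBU φ hφ
  -- the fourth moment is bounded
  obtain ⟨C0, hC0⟩ := hBd (tsupport φ') hφ'.2.1.isCompact hφ'.2.2
  obtain ⟨M, hM⟩ := hφ'.2.1.isCompact.exists_bound_of_continuousOn
    (hφ'.1.continuous.continuousOn (s := tsupport φ'))
  have hws : ∀ n, ContDiffOn ℝ ∞ (w 0 n) B := fun n => (H.bd 0).sm n
  have hM0 : 0 ≤ |M| := abs_nonneg M
  have hfour : ∀ᶠ n in atTop, ∫ z, φ' z * ‖w 0 n z‖ ^ 4 ≤ |M| * |C0| := by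
    filter_upwards [hC0] with n hn
    have h1 : ContinuousOn (fun z => ‖w 0 n z‖ ^ 4) B := ((hws n).continuousOn.norm).pow 4
    have e1 : ∫ z, φ' z * ‖w 0 n z‖ ^ 4 = ∫ z in tsupport φ', φ' z * ‖w 0 n z‖ ^ 4 := by
      refine (setIntegral_eq_integral_of_forall_compl_eq_zero fun z hz => ?_).symm
      rw [image_eq_zero_of_notMem_tsupport hz, zero_mul]
    rw [e1]
    have h2 : IntegrableOn (fun z => ‖w 0 n z‖ ^ 4) (tsupport φ') :=
      (h1.mono hφ'.2.2).integrableOn_compact hφ'.2.1.isCompact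
    calc ∫ z in tsupport φ', φ' z * ‖w 0 n z‖ ^ 4 ≤ ∫ z in tsupport φ', |M| * ‖w 0 n z‖ ^ 4 := by
          refine setIntegral_mono_on ((cg1 hB hφ' h1).integrableOn) (h2.const_mul _)
            (isClosed_tsupport φ').measurableSet fun z hz => ?_
          refine mul_le_mul_of_nonneg_right ?_ (by positivity)
          exact (le_abs_self _).trans ((hM z hz).trans (le_abs_self _))
      _ = |M| * ∫ z in tsupport φ', ‖w 0 n z‖ ^ 4 := integral_const_mul _ _
      _ ≤ |M| * |C0| := mul_le_mul_of_nonneg_left (hn.trans (le_abs_self _)) hM0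
  set D : ℝ := |M| * |C0| + 1 with hD
  have hD0 : 0 ≤ D := by positivity
  obtain ⟨N0, hN0, hN0'⟩ := const_lim R hR D hD0 ε hε
  refine ⟨N0, fun N hN => ?_⟩
  have hN1 : 1 ≤ N := hN0.trans hN
  have hJ : ∀ᶠ n in atTop, ∀ k ∈ Finset.range (2 * N + 1), ∀ l ∈ Finset.range (2 * N + 1),
      ∫ z, φ' z * ‖EJ h (w 0) k l n z‖ ^ 4 ≤ (∫ z, φ' z * ‖w 0 n z‖ ^ 4) + 1 := by
    rw [Finset.eventually_all]
    intro k _
    rw [Finset.eventually_all]
    intro l _
    exact hJ4 B h w H hBU h0 φ' hφ' hφ'0 k l 1 one_pos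
  have hRh : Tendsto (fun n => R * h n) atTop (𝓝 0) := by
    have := H.hlim.const_mul R
    simpa using this
  have hRs : ∀ᶠ n in atTop, R * h n < s0 := hRh.eventually (gt_mem_nhds hs0)
  have hRN : ∀ᶠ n in atTop, 1 ≤ 2 * (1 - R * h n) ^ (2 * N) := by
    have h1 : Tendsto (fun n => 2 * (1 - R * h n) ^ (2 * N)) atTop (𝓝 2) := by
      have := ((hRh.const_sub 1).pow (2 * N)).const_mul 2
      simpa using this
    exact (h1.eventually (lt_mem_nhds (by norm_num : (1 : ℝ) < 2))).mono fun n hn => hn.le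
  filter_upwards [hfour, hJ, hRs, hRN] with n h4 hJn hRsn hRNn
  have hhn : 0 < h n := H.hpos n
  set A : ℝ := 2 * (2 * R) ^ (2 * N) / (Nat.factorial (2 * N - 1) : ℝ) with hA
  have hA0 : 0 ≤ A := by positivity
  have hQc := QN_co hB (h := h) (hws n) N
  have hQ2c : ContinuousOn (fun z => QN h (w 0) N n z ^ 2) B := hQc.pow 2
  obtain ⟨hi1, hi2⟩ := shift hB hφ hφ0 hball hsh (r := R * h n) (by positivity) hRsn.le
    (Q := fun z => QN h (w 0) N n z ^ 2) (fun z => sq_nonneg _) hQ2c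
  have hdisc : ∀ z ∈ tsupport φ, ∀ v : ℂ, ‖v‖ ≤ 1 →
      z + ((R * h n * z.im : ℝ) : ℂ) * v ∈ B := by
    intro z hz v hv
    have h1 : ‖((R * h n : ℝ) : ℂ) * v‖ ≤ s0 := by
      rw [norm_mul, Complex.norm_real, Real.norm_of_nonneg (by positivity)]
      nlinarith [norm_nonneg v, mul_pos hR hhn]
    have h2 := hball z hz _ h1
    have e : z + ((R * h n * z.im : ℝ) : ℂ) * v = z + (z.im : ℂ) * (((R * h n : ℝ) : ℂ) * v) := by
      push_cast; ring
    rw [e]
    exact h2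
  -- the pointwise estimate
  have hpt : ∀ z, φ z * ‖AV h (w 0) R n z - PN h w R N n z‖ ^ 2 ≤
      A ^ 2 * (φ z * ∫ x, QN h (w 0) N n (z + ((R * h n * z.im : ℝ) : ℂ) * x) ^ 2 ∂nu) := by
    intro z
    by_cases hz : z ∈ tsupport φ
    · have h1 := hLOC B hB hBU h w H.hpos hws R hR N hN1 n (hRsn.trans hs01) hRNn z (hφ.2.2 hz)
        (hdisc z hz)
      have hGc : ContinuousOn (fun x : ℂ => QN h (w 0) N n
          (z + ((R * h n * z.im : ℝ) : ℂ) * x)) (Metric.closedBall (0 : ℂ) 1) := by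
        refine hQc.comp (by fun_prop) fun x hx => hdisc z hz x ?_
        simpa using hx
      have e1 : ∫ v, (∫ t in (0 : ℝ)..1, QN h (w 0) N n
          (z + ((t * (R * h n * z.im) : ℝ) : ℂ) * v)) ∂dm =
          ∫ x, QN h (w 0) N n (z + ((R * h n * z.im : ℝ) : ℂ) * x) ∂nu := by
        rw [← nu_eq hGc]
        refine integral_congr_ae (ae_of_all _ fun v => ?_)
        refine intervalIntegral.integral_congr fun t _ => ?_
        congr 1
        push_cast; ring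
      rw [e1] at h1
      have h2 := jensen hGc
      have h3 := pow_le_pow_left₀ (norm_nonneg _) h1 2
      rw [mul_pow] at h3
      have h4 := h3.trans (mul_le_mul_of_nonneg_left h2 (sq_nonneg A))
      calc φ z * ‖AV h (w 0) R n z - PN h w R N n z‖ ^ 2 ≤ φ z * (A ^ 2 *
            ∫ x, QN h (w 0) N n (z + ((R * h n * z.im : ℝ) : ℂ) * x) ^ 2 ∂nu) :=
            mul_le_mul_of_nonneg_left h4 (hφ0 z)
        _ = _ := by ring
    · have h1 : φ z = 0 := image_eq_zero_of_notMem_tsupport hz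
      rw [h1]
      simp
  have hstep1 : ∫ z, φ z * ‖AV h (w 0) R n z - PN h w R N n z‖ ^ 2 ≤
      A ^ 2 * ∫ z, φ z * ∫ x, QN h (w 0) N n (z + ((R * h n * z.im : ℝ) : ℂ) * x) ^ 2 ∂nu := by
    rw [← integral_const_mul]
    exact integral_mono_of_nonneg (ae_of_all _ fun z => mul_nonneg (hφ0 z) (sq_nonneg _))
      (hi1.const_mul _) (ae_of_all _ hpt)
  have hstep2 : ∫ z, φ' z * QN h (w 0) N n z ^ 2 ≤ (2 * N + 1 : ℝ) ^ 4 * D := by
    have hEc : ∀ k l, Integrable (fun z => φ' z * ‖EJ h (w 0) k l n z‖ ^ 4) := fun k l =>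
      cg1 hB hφ' (((EJ_co hB (hws n) k l).norm).pow 4)
    have h1 : ∫ z, φ' z * QN h (w 0) N n z ^ 2 ≤ ∫ z, (2 * N + 1 : ℝ) ^ 2 *
        ∑ k ∈ Finset.range (2 * N + 1), ∑ l ∈ Finset.range (2 * N + 1),
          φ' z * ‖EJ h (w 0) k l n z‖ ^ 4 := by
      refine integral_mono (cg1 hB hφ' hQ2c) ((integrable_finsetSum _ fun k _ =>
        integrable_finsetSum _ fun l _ => hEc k l).const_mul _) fun z => ?_
      change φ' z * QN h (w 0) N n z ^ 2 ≤ _
      refine (mul_le_mul_of_nonneg_left (QN_sq h (w 0) N n z) (hφ'0 z)).trans (le_of_eq ?_)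
      rw [mul_left_comm, Finset.mul_sum]
      congr 1
      refine Finset.sum_congr rfl fun k _ => ?_
      rw [Finset.mul_sum]
    refine h1.trans ?_
    rw [integral_const_mul, integral_finsetSum _ fun k _ => integrable_finsetSum _ fun l _ =>
      hEc k l]
    have h2 : ∑ k ∈ Finset.range (2 * N + 1), ∫ z, ∑ l ∈ Finset.range (2 * N + 1),
        φ' z * ‖EJ h (w 0) k l n z‖ ^ 4 ≤ ∑ k ∈ Finset.range (2 * N + 1),
          ∑ l ∈ Finset.range (2 * N + 1), D := by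
      refine Finset.sum_le_sum fun k hk => ?_
      rw [integral_finsetSum _ fun l _ => hEc k l]
      refine Finset.sum_le_sum fun l hl => ?_
      refine (hJn k hk l hl).trans ?_
      rw [hD]
      linarith
    refine (mul_le_mul_of_nonneg_left h2 (by positivity)).trans (le_of_eq ?_)
    simp only [Finset.sum_const, Finset.card_range, nsmul_eq_mul]
    push_cast
    ring
  calc ∫ z, φ z * ‖AV h (w 0) R n z - PN h w R N n z‖ ^ 2 ≤
        A ^ 2 * (2 * ((2 * N + 1 : ℝ) ^ 4 * D)) := by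
        refine hstep1.trans (mul_le_mul_of_nonneg_left (hi2.trans ?_) (sq_nonneg A))
        exact mul_le_mul_of_nonneg_left hstep2 (by norm_num)
    _ ≤ ε := hN0' N hN

end

end Pool.Agent.Helper93K9.PE
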