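import Pool.Agent.Helper93K9.PE.Stm

/-! Project PE (helper93), leaf TAY (helper27): Taylor's formula with integral remainder. -/

set_option autoImplicit false
open MeasureTheory Filter Topology Complex
open scoped ContDiff

namespace Pool.Agent.Helper93K9.PE

namespace TayL

lemma dv_cd {B : Set ℂ} (hB : IsOpen B) {g : ℂ → ℂ} (hg : ContDiffOn ℝ ∞ g B) (v : ℂ) :
    ContDiffOn ℝ ∞ (dv v g) B := by
  have h1 : ContDiffOn ℝ ∞ (fderiv ℝ g) B := hg.fderiv_of_isOpen hB (by simp)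
  exact h1.clm_apply contDiffOn_const

lemma dv_it {B : Set ℂ} (hB : IsOpen B) {g : ℂ → ℂ} (hg : ContDiffOn ℝ ∞ g B) (v : ℂ) (j : ℕ) :
    ContDiffOn ℝ ∞ ((dv v)^[j] g) B := by
  induction j with
  | zero => exact hg
  | succ j ih =>
    rw [Function.iterate_succ_apply']
    exact dv_cd hB ih v

lemma der {B : Set ℂ} (hB : IsOpen B) {g : ℂ → ℂ} (hg : ContDiffOn ℝ ∞ g B) (z v : ℂ) (j : ℕ)
    (t : ℝ) (ht : z + (t : ℂ) * v ∈ B) :
    HasDerivAt (fun s : ℝ => ((dv v)^[j] g) (z + (s : ℂ) * v))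
      (((dv v)^[j + 1] g) (z + (t : ℂ) * v)) t := by
  have h1 : HasFDerivAt ((dv v)^[j] g) (fderiv ℝ ((dv v)^[j] g) (z + (t : ℂ) * v))
      (z + (t : ℂ) * v) :=
    (((dv_it hB hg v j).contDiffAt (hB.mem_nhds ht)).differentiableAt (by simp)).hasFDerivAt
  have h2 : HasDerivAt (fun s : ℝ => z + (s : ℂ) * v) v t := by
    have := ((ofRealCLM.hasDerivAt (x := t)).mul_const v).const_add z
    simpa using this
  have h3 := h1.comp_hasDerivAt t h2
  rw [Function.iterate_succ_apply']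
  exact h3

lemma der_sum {B : Set ℂ} (hB : IsOpen B) {g : ℂ → ℂ} (hg : ContDiffOn ℝ ∞ g B) (z v : ℂ) (m : ℕ)
    (t : ℝ) (ht : z + (t : ℂ) * v ∈ B) :
    HasDerivAt (fun s : ℝ => ∑ j ∈ Finset.range (m + 1),
        (((1 - s) ^ j / (Nat.factorial j : ℝ) : ℝ) : ℂ) * ((dv v)^[j] g) (z + (s : ℂ) * v))
      ((((1 - t) ^ m / (Nat.factorial m : ℝ) : ℝ) : ℂ) * ((dv v)^[m + 1] g) (z + (t : ℂ) * v)) t := by
  induction m with
  | zero =>
    have := der hB hg z v 0 t ht
    simpa using this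
  | succ m ih =>
    have h1 := der hB hg z v (m + 1) t ht
    have h2 : HasDerivAt (fun s : ℝ => (1 - s) ^ (m + 1) / (Nat.factorial (m + 1) : ℝ))
        (-((1 - t) ^ m / (Nat.factorial m : ℝ))) t := by
      have h3 : HasDerivAt (fun s : ℝ => 1 - s) (-1) t := by
        simpa using (hasDerivAt_id t).const_sub 1
      have h4 := (h3.pow (m + 1)).div_const (Nat.factorial (m + 1) : ℝ)
      refine h4.congr_deriv ?_
      rw [Nat.factorial_succ]
      push_cast
      have : (Nat.factorial m : ℝ) ≠ 0 := by positivity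
      have : (m : ℝ) + 1 ≠ 0 := by positivity
      field_simp
    have h5 := h2.ofReal_comp.mul h1
    have h6 := ih.add h5
    have e : (fun s : ℝ => ∑ j ∈ Finset.range (m + 1 + 1),
        (((1 - s) ^ j / (Nat.factorial j : ℝ) : ℝ) : ℂ) * ((dv v)^[j] g) (z + (s : ℂ) * v)) =
        (fun s : ℝ => ∑ j ∈ Finset.range (m + 1),
        (((1 - s) ^ j / (Nat.factorial j : ℝ) : ℝ) : ℂ) * ((dv v)^[j] g) (z + (s : ℂ) * v)) +
        ((fun s : ℝ => (((1 - s) ^ (m + 1) / (Nat.factorial (m + 1) : ℝ) : ℝ) : ℂ)) *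
          (fun s : ℝ => ((dv v)^[m + 1] g) (z + (s : ℂ) * v))) := by
      funext s
      rw [Finset.sum_range_succ]
      rfl
    rw [e]
    refine h6.congr_deriv ?_
    push_cast
    ring

end TayL

theorem tay : S_TAY := by
  intro B hB g hg z v hs m
  have hcont : ContinuousOn (fun t : ℝ => ((dv v)^[m + 1] g) (z + (t : ℂ) * v)) (Set.uIcc 0 1) := by
    rw [Set.uIcc_of_le zero_le_one]
    intro t ht
    exact (TayL.der hB hg z v (m + 1) t (hs t ht)).continuousAt.continuousWithinAt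
  have hcw : Continuous (fun t : ℝ => (((1 - t) ^ m / (Nat.factorial m : ℝ) : ℝ) : ℂ)) := by
    fun_prop
  have hI := intervalIntegral.integral_eq_sub_of_hasDerivAt
    (f := fun s : ℝ => ∑ j ∈ Finset.range (m + 1),
        (((1 - s) ^ j / (Nat.factorial j : ℝ) : ℝ) : ℂ) * ((dv v)^[j] g) (z + (s : ℂ) * v))
    (f' := fun t => (((1 - t) ^ m / (Nat.factorial m : ℝ) : ℝ) : ℂ) *
      ((dv v)^[m + 1] g) (z + (t : ℂ) * v)) (a := 0) (b := 1)
    (fun t ht => TayL.der_sum hB hg z v m t (hs t (by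
      rw [Set.uIcc_of_le zero_le_one] at ht; exact ht)))
    ((hcw.continuousOn.mul hcont).intervalIntegrable)
  have e1 : (∑ j ∈ Finset.range (m + 1),
        (((1 - (1:ℝ)) ^ j / (Nat.factorial j : ℝ) : ℝ) : ℂ) * ((dv v)^[j] g) (z + ((1:ℝ) : ℂ) * v)) =
      g (z + v) := by
    rw [Finset.sum_range_succ']
    have : ∑ k ∈ Finset.range m, (((1 - (1:ℝ)) ^ (k + 1) / (Nat.factorial (k + 1) : ℝ) : ℝ) : ℂ) *
        ((dv v)^[k + 1] g) (z + ((1:ℝ) : ℂ) * v) = 0 := by
      apply Finset.sum_eq_zero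
      intro k _
      simp
    rw [this]
    simp
  have e0 : (∑ j ∈ Finset.range (m + 1),
        (((1 - (0:ℝ)) ^ j / (Nat.factorial j : ℝ) : ℝ) : ℂ) * ((dv v)^[j] g) (z + ((0:ℝ) : ℂ) * v)) =
      ∑ j ∈ Finset.range (m + 1), ((Nat.factorial j : ℂ))⁻¹ * ((dv v)^[j] g) z := by
    apply Finset.sum_congr rfl
    intro j _
    simp
  rw [e1, e0] at hI
  rw [← hI]
  calc ‖∫ t in (0:ℝ)..1, (((1 - t) ^ m / (Nat.factorial m : ℝ) : ℝ) : ℂ) *
        ((dv v)^[m + 1] g) (z + (t : ℂ) * v)‖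
      ≤ ∫ t in (0:ℝ)..1, ((Nat.factorial m : ℝ))⁻¹ * ‖((dv v)^[m + 1] g) (z + (t : ℂ) * v)‖ := by
        apply intervalIntegral.norm_integral_le_of_norm_le zero_le_one
        · refine ae_of_all _ fun t ht => ?_
          rw [norm_mul, norm_real, Real.norm_eq_abs]
          apply mul_le_mul_of_nonneg_right _ (norm_nonneg _)
          have h0 : 0 ≤ 1 - t := by linarith [ht.2]
          have h1 : 1 - t ≤ 1 := by linarith [ht.1]
          rw [abs_of_nonneg (by positivity), div_eq_mul_inv]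
          exact mul_le_of_le_one_left (by positivity) (pow_le_one₀ h0 h1)
        · exact (continuousOn_const.mul hcont.norm).intervalIntegrable
    _ = _ := intervalIntegral.integral_const_mul _ _

end Pool.Agent.Helper93K9.PE
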