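import Pool.Agent.Helper93K9.PE.Der
import Pool.Agent.Helper93K9.PE.J4

/-!
# [TEL] disc means of telescoping sums (helper27)
-/

set_option autoImplicit false
open MeasureTheory Filter Topology Complex
open scoped ContDiff ENNReal

namespace Pool.Agent.Helper93K9.PE

open Pool.Agent.W745.RW Pool.Agent.TH294.RS Pool.Agent.Y265.HY
open Pool.Agent.TH294.RG (dm)

noncomputable section

namespace TelL

open LocL StarL

/-- the disc is in `B` -/
lemma disc {B : Set ℂ} {φ : ℂ → ℝ} {s0 : ℝ}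
    (hball : ∀ z ∈ tsupport φ, ∀ v : ℂ, ‖v‖ ≤ s0 → z + (z.im : ℂ) * v ∈ B)
    {r : ℝ} (hr0 : 0 ≤ r) (hr : r ≤ s0) {z : ℂ} (hz : z ∈ tsupport φ) {v : ℂ} (hv : ‖v‖ ≤ 1) :
    z + ((r * z.im : ℝ) : ℂ) * v ∈ B := by
  have h1 : ‖(r : ℂ) * v‖ ≤ s0 := by
    rw [norm_mul, Complex.norm_real, Real.norm_of_nonneg hr0]
    nlinarith
  have h2 := hball z hz _ h1
  have e : z + ((r * z.im : ℝ) : ℂ) * v = z + (z.im : ℂ) * ((r : ℂ) * v) := by
    push_cast; ring
  rw [e]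
  exact h2

/-- the weighted square of the disc mean is integrable -/
lemma AA_int {B : Set ℂ} (hB : IsOpen B) {φ : ℂ → ℝ} (hφ : TF B φ) {s0 : ℝ}
    (hball : ∀ z ∈ tsupport φ, ∀ v : ℂ, ‖v‖ ≤ s0 → z + (z.im : ℂ) * v ∈ B)
    {h : ℕ → ℝ} {F : ℕ → ℂ → ℂ} {n : ℕ} (hF : ContinuousOn (F n) B) {R : ℝ}
    (hr0 : 0 ≤ R * h n) (hr : R * h n ≤ s0) :
    Integrable (fun z => φ z * ‖AA h F R n z‖ ^ 2) := by
  have hT : Continuous (fun p : ℂ × ℂ => p.1 + ((R * h n * p.1.im : ℝ) : ℂ) * rb p.2) := by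
    have := rb_cont
    fun_prop
  have hTB : ∀ z ∈ tsupport φ, ∀ x : ℂ,
      (fun p : ℂ × ℂ => p.1 + ((R * h n * p.1.im : ℝ) : ℂ) * rb p.2) (z, x) ∈ B :=
    fun z hz x => disc hball hr0 hr hz (rb_le x)
  have hc := IdL.cgC hB hφ.1.continuous (Q := F n) hF hT hTB
  have hFT : ContinuousOn (fun p : ℂ × ℂ => F n (p.1 + ((R * h n * p.1.im : ℝ) : ℂ) * rb p.2))
      (tsupport φ ×ˢ Metric.closedBall (0 : ℂ) 1) :=
    hF.comp (f := fun p : ℂ × ℂ => p.1 + ((R * h n * p.1.im : ℝ) : ℂ) * rb p.2) hT.continuousOn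
      fun p hp => hTB p.1 hp.1 p.2
  obtain ⟨M, hM⟩ := (hφ.2.1.isCompact.prod
    (isCompact_closedBall (0 : ℂ) 1)).exists_bound_of_continuousOn hFT
  obtain ⟨N, hN⟩ := hφ.2.1.isCompact.exists_bound_of_continuousOn
    (hφ.1.continuous.continuousOn (s := tsupport φ))
  have hb : ∀ z ∈ tsupport φ, ∀ v : ℂ,
      ‖F n (z + ((R * h n * z.im : ℝ) : ℂ) * rb v)‖ ≤ M := by
    intro z hz v
    have h1 := hM (z, rb v) ⟨hz, by simpa using rb_le v⟩
    have h2 : rb (rb v) = rb v := rb_eq (rb_le v)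
    simp only [h2] at h1
    exact h1
  set g : ℂ × ℂ → ℂ := fun p => ((φ p.1 : ℝ) : ℂ) *
    F n (p.1 + ((R * h n * p.1.im : ℝ) : ℂ) * rb p.2) with hg
  have hgb : ∀ p : ℂ × ℂ, ‖g p‖ ≤ |N| * |M| := by
    rintro ⟨z, x⟩
    by_cases hz : z ∈ tsupport φ
    · simp only [hg, norm_mul, Complex.norm_real]
      exact mul_le_mul ((hN z hz).trans (le_abs_self _)) ((hb z hz x).trans (le_abs_self _))
        (norm_nonneg _) (abs_nonneg _)
    · have h1 : φ z = 0 := image_eq_zero_of_notMem_tsupport hz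
      simp only [hg, h1, ofReal_zero, zero_mul, norm_zero]
      positivity
  have hGc : Continuous (fun z => ∫ v, g (z, v) ∂dm) := by
    refine continuous_of_dominated (bound := fun _ => |N| * |M|) (fun z => ?_) (fun z => ?_)
      (integrable_const _) (ae_of_all _ fun v => ?_)
    · exact (hc.comp (continuous_const.prodMk continuous_id)).aestronglyMeasurable
    · exact ae_of_all _ fun v => hgb _
    · exact hc.comp (continuous_id.prodMk continuous_const)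
  have hGe : ∀ z, ∫ v, g (z, v) ∂dm = (φ z : ℂ) * AA h F R n z := by
    intro z
    unfold AA
    rw [← integral_const_mul]
    refine dm_congr fun v hv => ?_
    simp only [hg, rb_eq hv]
  have hAM : ∀ z ∈ tsupport φ, ‖AA h F R n z‖ ≤ |M| := by
    intro z hz
    have e : AA h F R n z = ∫ v, F n (z + ((R * h n * z.im : ℝ) : ℂ) * rb v) ∂dm := by
      unfold AA
      exact dm_congr fun v hv => by rw [rb_eq hv]
    rw [e]
    have h1 := norm_integral_le_of_norm_le_const (μ := dm) (C := |M|)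
      (f := fun v => F n (z + ((R * h n * z.im : ℝ) : ℂ) * rb v))
      (ae_of_all _ fun v => (hb z hz v).trans (le_abs_self _))
    simpa using h1
  have e : (fun z => φ z * ‖AA h F R n z‖ ^ 2) = fun z => ‖∫ v, g (z, v) ∂dm‖ ^ 2 / φ z := by
    funext z
    rw [hGe, norm_mul, Complex.norm_real, mul_pow, Real.norm_eq_abs, sq_abs]
    by_cases hz : φ z = 0
    · rw [hz]; simp
    · field_simp
  have hm : AEStronglyMeasurable (fun z => φ z * ‖AA h F R n z‖ ^ 2) volume := by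
    rw [e]
    exact ((hGc.norm.pow 2).measurable.div hφ.1.continuous.measurable).aestronglyMeasurable
  refine Integrable.mono' (g := fun z => |M| ^ 2 * |φ z|)
    (((hφ.1.continuous.integrable_of_hasCompactSupport hφ.2.1).abs).const_mul _) hm
    (ae_of_all _ fun z => ?_)
  rw [norm_mul, norm_pow, norm_norm, Real.norm_eq_abs]
  by_cases hz : z ∈ tsupport φ
  · rw [mul_comm]
    exact mul_le_mul_of_nonneg_right (pow_le_pow_left₀ (norm_nonneg _) (hAM z hz) 2) (abs_nonneg _)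
  · have h1 : φ z = 0 := image_eq_zero_of_notMem_tsupport hz
    rw [h1]; simp

/-- the mean of a difference -/
lemma AA_sub {B : Set ℂ} {φ : ℂ → ℝ} {s0 : ℝ}
    (hball : ∀ z ∈ tsupport φ, ∀ v : ℂ, ‖v‖ ≤ s0 → z + (z.im : ℂ) * v ∈ B)
    {h : ℕ → ℝ} {T F E : ℕ → ℂ → ℂ} {n : ℕ} (hF : ContinuousOn (F n) B)
    (hE : ContinuousOn (E n) B) (hT : ∀ z ∈ B, T n z = F n z - E n z) {R : ℝ}
    (hr0 : 0 ≤ R * h n) (hr : R * h n ≤ s0) {z : ℂ} (hz : z ∈ tsupport φ) :
    AA h T R n z = AA h F R n z - AA h E R n z := by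
  have hm : Set.MapsTo (fun v : ℂ => z + ((R * h n * z.im : ℝ) : ℂ) * v)
      (Metric.closedBall (0 : ℂ) 1) B := fun v hv =>
    disc hball hr0 hr hz (mem_closedBall_zero_iff.1 hv)
  have hl : ContinuousOn (fun v : ℂ => z + ((R * h n * z.im : ℝ) : ℂ) * v)
      (Metric.closedBall (0 : ℂ) 1) := by fun_prop
  have i1 : Integrable (fun v : ℂ => F n (z + ((R * h n * z.im : ℝ) : ℂ) * v)) dm :=
    dm_int (hF.comp hl hm)
  have i2 : Integrable (fun v : ℂ => E n (z + ((R * h n * z.im : ℝ) : ℂ) * v)) dm :=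
    dm_int (hE.comp hl hm)
  unfold AA
  rw [← integral_sub i1 i2]
  exact dm_congr fun v hv => hT _ (disc hball hr0 hr hz hv)

/-- `h ∫ φ' ‖e‖² → 0` -/
lemma hnul {B : Set ℂ} (hB : IsOpen B) {h : ℕ → ℝ} (hlim : Tendsto h atTop (𝓝 0))
    {e : ℕ → ℂ → ℂ} (he : M2C B h e) {φ : ℂ → ℝ} (hφ : TF B φ) :
    Tendsto (fun n => h n * ∫ z, φ z * ‖e n z‖ ^ 2) atTop (𝓝 0) := by
  have n1 := ((LB.mul2 he.lb (he.conj hB).lb).wn hlim).nul φ hφ
  have h4 : Tendsto (fun n => ((h n * ∫ z, φ z * ‖e n z‖ ^ 2 : ℝ) : ℂ)) atTop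
      (𝓝 ((0 : ℝ) : ℂ)) := by
    rw [ofReal_zero]
    refine Tendsto.congr (fun n => ?_) n1
    rw [ofReal_mul, ← integral_complex_ofReal, ← integral_const_mul]
    congr 1; funext z
    have h6 := Complex.mul_conj (e n z)
    rw [Complex.normSq_eq_norm_sq] at h6
    push_cast at h6 ⊢
    rw [← h6]; ring
  exact toR h4

end TelL

open LocL StarL TelL in
theorem tel (hDER : S_DER) : S_TEL := by
  intro B h w H hBU h0 hBd φ hφ hφ0 a b
  have hB := H.op
  obtain ⟨φ', hφ', hφ'0, s0, C, hs0, hs01, hC, hball, hD⟩ := hDER B hB hBU φ hφ hφ0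
  obtain ⟨e1, he1, he1'⟩ := H.up a
  obtain ⟨e2, he2, he2'⟩ := H.up b
  obtain ⟨C4, hC40, hC4⟩ := IdL.four hB (fun n => (H.bd 0).sm n) hBd hφ'
  set F : ℕ → ℂ → ℂ := fun n z => w a n z * w b n z with hF
  set E : ℕ → ℂ → ℂ := fun n z => (h n : ℂ) * (e1 n z * w b n z + w a n z * e2 n z) with hE
  set T : ℕ → ℂ → ℂ := fun n z => w (a + 1) n z * w b n z + w a n z * w (b + 1) n z with hT
  have hFs : ∀ n, ContDiffOn ℝ ∞ (F n) B := fun n => ((H.bd a).sm n).mul ((H.bd b).sm n)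
  have hEs : ∀ n, ContDiffOn ℝ ∞ (E n) B := fun n =>
    contDiffOn_const.mul (((he1.sm n).mul ((H.bd b).sm n)).add (((H.bd a).sm n).mul (he2.sm n)))
  have hTs : ∀ n, ContDiffOn ℝ ∞ (T n) B := fun n =>
    (((H.bd (a + 1)).sm n).mul ((H.bd b).sm n)).add (((H.bd a).sm n).mul ((H.bd (b + 1)).sm n))
  have hTe : ∀ n, ∀ z ∈ B, T n z = sP Complex.im h F n z - E n z := by
    intro n z hz
    have c1 := he1' n z hz
    have c2 := he2' n z hz
    simp only [hT, hE, hF, sP, DP] at c1 c2 ⊢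
    rw [dd_mul (da hB ((H.bd a).sm n) hz) (da hB ((H.bd b).sm n) hz)]
    linear_combination (-(w b n z)) * c1 - (w a n z) * c2
  have hPs : ∀ n, ContinuousOn (sP Complex.im h F n) B := by
    intro n
    have h1 : ContinuousOn (fun z => T n z + E n z) B :=
      (hTs n).continuousOn.add (hEs n).continuousOn
    refine h1.congr fun z hz => ?_
    show sP Complex.im h F n z = T n z + E n z
    rw [hTe n z hz]; ring
  refine ⟨2 * (C * (C4 + 1)), by positivity, fun R hR ε hε => ?_⟩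
  have hlim : Tendsto (fun n => 2 * (C * h n ^ 2 * (C4 + 1)) +
      2 * (C * (2 * (h n * ∫ z, φ' z * ‖e1 n z‖ ^ 2) + 2 * (h n * ∫ z, φ' z * ‖e2 n z‖ ^ 2))))
      atTop (𝓝 0) := by
    have t1 := ((H.hlim.pow 2).const_mul C).mul_const (C4 + 1)
    have t2 := (hnul hB H.hlim he1 hφ').const_mul 2
    have t3 := (hnul hB H.hlim he2 hφ').const_mul 2
    have t4 := (t1.const_mul 2).add (((t2.add t3).const_mul C).const_mul 2)
    simpa using t4
  have hRh : Tendsto (fun n => R * h n) atTop (𝓝 0) := by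
    have := H.hlim.const_mul R
    simpa using this
  have hK : IsCompact (tsupport φ') := hφ'.2.1.isCompact
  filter_upwards [J4L.wbd H hBU h0 hφ' hφ'0 a one_pos, J4L.wbd H hBU h0 hφ' hφ'0 b one_pos, hC4,
    sup_rp H hBU (RP.W H h0 a) hK hφ'.2.2 one_pos, sup_rp H hBU (RP.W H h0 b) hK hφ'.2.2 one_pos,
    hRh.eventually (gt_mem_nhds hs0), hlim.eventually (gt_mem_nhds hε)]
    with n ha hb h4 sa sb hRn hsm
  have hr0 : 0 ≤ R * h n := mul_nonneg hR.le (H.hpos n).le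
  have hn := H.hpos n
  -- integrability
  have iP := AA_int hB hφ hball (h := h) (F := sP Complex.im h F) (hPs n) (R := R) hr0 hRn.le
  have iE := AA_int hB hφ hball (h := h) (F := E) (hEs n).continuousOn (R := R) hr0 hRn.le
  have d1 := (hD h n hn F (hFs n) R hR hRn.le).2
  have d2 := (hD h n hn E (hEs n) R hR hRn.le).1
  -- the fourth moments
  have f1 : ∫ z, φ' z * ‖F n z‖ ^ 2 ≤ C4 + 1 := by
    have c1 : Integrable (fun z => φ' z * ‖w a n z‖ ^ 4) := cg1 hB hφ' (((H.bd a).co n).norm.pow 4)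
    have c2 : Integrable (fun z => φ' z * ‖w b n z‖ ^ 4) := cg1 hB hφ' (((H.bd b).co n).norm.pow 4)
    calc ∫ z, φ' z * ‖F n z‖ ^ 2
        ≤ ∫ z, (1 / 2 * (φ' z * ‖w a n z‖ ^ 4) + 1 / 2 * (φ' z * ‖w b n z‖ ^ 4)) := by
          refine integral_mono_of_nonneg (ae_of_all _ fun z => mul_nonneg (hφ'0 z) (sq_nonneg _))
            ((c1.const_mul _).add (c2.const_mul _)) (ae_of_all _ fun z => ?_)
          have h5 : ‖F n z‖ ^ 2 ≤ 1 / 2 * ‖w a n z‖ ^ 4 + 1 / 2 * ‖w b n z‖ ^ 4 := by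
            simp only [hF, norm_mul, mul_pow]
            nlinarith [sq_nonneg (‖w a n z‖ ^ 2 - ‖w b n z‖ ^ 2)]
          calc φ' z * ‖F n z‖ ^ 2 ≤ φ' z * (1 / 2 * ‖w a n z‖ ^ 4 + 1 / 2 * ‖w b n z‖ ^ 4) :=
                mul_le_mul_of_nonneg_left h5 (hφ'0 z)
            _ = _ := by ring
      _ = 1 / 2 * (∫ z, φ' z * ‖w a n z‖ ^ 4) + 1 / 2 * (∫ z, φ' z * ‖w b n z‖ ^ 4) := by
          rw [integral_add (c1.const_mul _) (c2.const_mul _), integral_const_mul,
            integral_const_mul]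
      _ ≤ C4 + 1 := by linarith
  -- the error
  have f2 : ∫ z, φ' z * ‖E n z‖ ^ 2 ≤
      2 * (h n * ∫ z, φ' z * ‖e1 n z‖ ^ 2) + 2 * (h n * ∫ z, φ' z * ‖e2 n z‖ ^ 2) := by
    have c1 : Integrable (fun z => φ' z * ‖e1 n z‖ ^ 2) := cg1 hB hφ' ((he1.co n).norm.pow 2)
    have c2 : Integrable (fun z => φ' z * ‖e2 n z‖ ^ 2) := cg1 hB hφ' ((he2.co n).norm.pow 2)
    calc ∫ z, φ' z * ‖E n z‖ ^ 2
        ≤ ∫ z, (2 * h n * (φ' z * ‖e1 n z‖ ^ 2) + 2 * h n * (φ' z * ‖e2 n z‖ ^ 2)) := by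
          refine integral_mono_of_nonneg (ae_of_all _ fun z => mul_nonneg (hφ'0 z) (sq_nonneg _))
            ((c1.const_mul _).add (c2.const_mul _)) (ae_of_all _ fun z => ?_)
          by_cases hz : z ∈ tsupport φ'
          · have h5 := sa z hz
            have h6 := sb z hz
            have h7 : ‖E n z‖ ≤ h n * (‖e1 n z‖ * ‖w b n z‖ + ‖w a n z‖ * ‖e2 n z‖) := by
              simp only [hE]
              rw [norm_mul, Complex.norm_real, Real.norm_of_nonneg hn.le]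
              refine mul_le_mul_of_nonneg_left ?_ hn.le
              refine (norm_add_le _ _).trans ?_
              rw [norm_mul, norm_mul]
            have h8 : ‖E n z‖ ^ 2 ≤ 2 * h n * ‖e1 n z‖ ^ 2 + 2 * h n * ‖e2 n z‖ ^ 2 := by
              refine (pow_le_pow_left₀ (norm_nonneg _) h7 2).trans ?_
              have h9 : (h n * (‖e1 n z‖ * ‖w b n z‖ + ‖w a n z‖ * ‖e2 n z‖)) ^ 2 ≤
                  2 * h n * (‖e1 n z‖ ^ 2 * (h n * ‖w b n z‖ ^ 2)) +
                  2 * h n * (‖e2 n z‖ ^ 2 * (h n * ‖w a n z‖ ^ 2)) := by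
                have : 0 ≤ h n ^ 2 * (‖e1 n z‖ * ‖w b n z‖ - ‖w a n z‖ * ‖e2 n z‖) ^ 2 := by
                  positivity
                nlinarith
              refine h9.trans ?_
              have h10 : ‖e1 n z‖ ^ 2 * (h n * ‖w b n z‖ ^ 2) ≤ ‖e1 n z‖ ^ 2 * 1 :=
                mul_le_mul_of_nonneg_left h6 (sq_nonneg _)
              have h11 : ‖e2 n z‖ ^ 2 * (h n * ‖w a n z‖ ^ 2) ≤ ‖e2 n z‖ ^ 2 * 1 :=
                mul_le_mul_of_nonneg_left h5 (sq_nonneg _)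
              rw [mul_one] at h10 h11
              exact add_le_add (mul_le_mul_of_nonneg_left h10 (by positivity))
                (mul_le_mul_of_nonneg_left h11 (by positivity))
            calc φ' z * ‖E n z‖ ^ 2 ≤ φ' z * (2 * h n * ‖e1 n z‖ ^ 2 + 2 * h n * ‖e2 n z‖ ^ 2) :=
                  mul_le_mul_of_nonneg_left h8 (hφ'0 z)
              _ = _ := by ring
          · have h1 : φ' z = 0 := image_eq_zero_of_notMem_tsupport hz
            simp only [h1, zero_mul, mul_zero, add_zero, le_refl]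
      _ = _ := by
          rw [integral_add (c1.const_mul _) (c2.const_mul _), integral_const_mul,
            integral_const_mul]
          ring
  have hmain : ∫ z, φ z * ‖AA h T R n z‖ ^ 2 ≤
      2 * (∫ z, φ z * ‖AA h (sP Complex.im h F) R n z‖ ^ 2) +
      2 * ∫ z, φ z * ‖AA h E R n z‖ ^ 2 := by
    rw [← integral_const_mul, ← integral_const_mul, ← integral_add (iP.const_mul 2)
      (iE.const_mul 2)]
    refine integral_mono_of_nonneg (ae_of_all _ fun z => mul_nonneg (hφ0 z) (sq_nonneg _))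
      ((iP.const_mul 2).add (iE.const_mul 2)) (ae_of_all _ fun z => ?_)
    by_cases hz : z ∈ tsupport φ
    · have e := AA_sub hball (h := h) (T := T) (F := sP Complex.im h F) (E := E) (n := n) (hPs n)
        (hEs n).continuousOn (hTe n) (R := R) hr0 hRn.le hz
      have h5 : ‖AA h T R n z‖ ^ 2 ≤ 2 * ‖AA h (sP Complex.im h F) R n z‖ ^ 2 +
          2 * ‖AA h E R n z‖ ^ 2 := by
        rw [e]
        refine (pow_le_pow_left₀ (norm_nonneg _) (norm_sub_le _ _) 2).trans ?_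
        nlinarith [sq_nonneg (‖AA h (sP Complex.im h F) R n z‖ - ‖AA h E R n z‖)]
      calc φ z * ‖AA h T R n z‖ ^ 2 ≤ φ z * (2 * ‖AA h (sP Complex.im h F) R n z‖ ^ 2 +
            2 * ‖AA h E R n z‖ ^ 2) := mul_le_mul_of_nonneg_left h5 (hφ0 z)
        _ = _ := by ring
    · have h1 : φ z = 0 := image_eq_zero_of_notMem_tsupport hz
      simp only [h1, zero_mul, mul_zero, add_zero, le_refl]
  have g1 : ∫ z, φ z * ‖AA h (sP Complex.im h F) R n z‖ ^ 2 ≤
      C * (1 / R ^ 2 + h n ^ 2) * (C4 + 1) :=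
    d1.trans (mul_le_mul_of_nonneg_left f1 (by positivity))
  have g2 : ∫ z, φ z * ‖AA h E R n z‖ ^ 2 ≤ C * (2 * (h n * ∫ z, φ' z * ‖e1 n z‖ ^ 2) +
      2 * (h n * ∫ z, φ' z * ‖e2 n z‖ ^ 2)) := d2.trans (mul_le_mul_of_nonneg_left f2 hC)
  have g3 : 2 * (C * (1 / R ^ 2 + h n ^ 2) * (C4 + 1)) =
      2 * (C * (C4 + 1)) / R ^ 2 + 2 * (C * h n ^ 2 * (C4 + 1)) := by
    field_simp
  have g4 := hsm.le
  calc ∫ z, φ z * ‖AA h T R n z‖ ^ 2 ≤ _ := hmain
    _ ≤ 2 * (C * (1 / R ^ 2 + h n ^ 2) * (C4 + 1)) +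
        2 * (C * (2 * (h n * ∫ z, φ' z * ‖e1 n z‖ ^ 2) +
          2 * (h n * ∫ z, φ' z * ‖e2 n z‖ ^ 2))) := by linarith
    _ ≤ 2 * (C * (C4 + 1)) / R ^ 2 + ε := by
        rw [g3]
        linarith

end

end Pool.Agent.Helper93K9.PE
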