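import Pool.Agent.Helper93K9.PE.Jet

/-! Project PE: the leaf XG. -/

set_option autoImplicit false
open MeasureTheory Filter Topology Complex
open scoped ContDiff

namespace Pool.Agent.Helper93K9.PE

open Pool.Agent.W745.RW Pool.Agent.TH294.RS Pool.Agent.Y265.HY
open Pool.Agent.Y265.HY.PS (Good QE good_v good_it QE.zero)
open Pool.Agent.TH294.RG (vv)

noncomputable section

namespace XgL

open JetL

variable {B : Set ℂ} {h : ℕ → ℝ} {w : ℤ → ℕ → ℂ → ℂ}

lemma lpk_sm (hB : IsOpen B) {f : ℂ → ℂ} (hf : ContDiffOn ℝ ∞ f B) (i : ℕ) :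
    ContDiffOn ℝ ∞ (lp^[i] f) B := by
  induction i with
  | zero => exact hf
  | succ i ih => rw [Function.iterate_succ_apply']; exact clap hB ih

lemma XX_eq (i n : ℕ) (z : ℂ) :
    XX h w i n z = ty (h n) z ^ (2 * i) * (lp^[i] (fun z => w 0 n z * w 0 n z)) z := rfl

lemma XX_sm (H : SY B Complex.im h w) (i n : ℕ) : ContDiffOn ℝ ∞ (XX h w i n) B := by
  have s0 : ContDiffOn ℝ ∞ (fun z => w 0 n z * w 0 n z) B := ((H.bd 0).sm n).mul ((H.bd 0).sm n)
  exact (((ty_sm (h n)).contDiffOn).pow (2 * i)).mul (lpk_sm H.op s0 i)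

/-- sums of the `vv` with an error are quadratic expressions -/
lemma Good.qe (H : SY B Complex.im h w) (h0 : EX B h w (w 0)) {E : ℕ → ℂ → ℂ} {s : ℝ → ℝ}
    (G : Good B h w E s) : QE B h w E := by
  obtain ⟨c, -, Q, hQ, hQ'⟩ := G
  have h1 : QE B h w (fun n z => c.sum fun m x => (x : ℂ) * vv w m n z) := by
    simp only [Finsupp.sum]
    have key : ∀ t : Finset ℕ, QE B h w (fun n z => ∑ m ∈ t, ((c m : ℝ) : ℂ) * vv w m n z) := by
      intro t
      classical
      induction t using Finset.induction_on with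
      | empty => exact (QE.zero H h0).cg fun n z _ => by simp
      | insert i t hi ih =>
        have hv : QE B h w (fun n z => ((c i : ℝ) : ℂ) * vv w i n z) := by
          have q : QE B h w (fun n z => w (i : ℤ) n z * w (-(i : ℤ)) n z) :=
            QE.mul (H.bd i) (RP.W H h0 _)
          exact ((q.cmul H ((-1) ^ (i : ℤ).natAbs)).cmul H ((c i : ℝ) : ℂ)).cg fun n z _ => by
            simp only [vv]
        exact (hv.add ih).cg fun n z _ => by rw [Finset.sum_insert hi]
    exact key c.support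
  exact (h1.add (hQ.hmul H)).cg fun n z hz => hQ' n z hz

lemma lp_dbdd (hB : IsOpen B) {f : ℂ → ℂ} (hf : ContDiffOn ℝ ∞ f B) {z : ℂ} (hz : z ∈ B) :
    db (dd f) z = lp f z := db_dd hB hf hz

/-- the recursion -/
lemma XX_succ (H : SY B Complex.im h w) (i n : ℕ) {z : ℂ} (hz : z ∈ B) :
    XX h w (i + 1) n z = (-1 : ℝ) * TH294.RG.sL Complex.im h (XX h w i) n z +
      (h n : ℂ) * (((2 * (i : ℂ) * I) * (TH294.RS.sM Complex.im h (XX h w i) n z +
        (-1) * TH294.RS.sP Complex.im h (XX h w i) n z)) +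
        (h n : ℂ) * ((4 * (i : ℂ) ^ 2 + 2 * (i : ℂ)) * XX h w i n z)) := by
  have hB := H.op
  set g : ℂ → ℂ := fun z => w 0 n z * w 0 n z with hg
  set G : ℂ → ℂ := lp^[i] g with hG
  set m : ℕ := 2 * i with hm
  set t : ℝ := h n with ht
  have s0 : ContDiffOn ℝ ∞ g B := ((H.bd 0).sm n).mul ((H.bd 0).sm n)
  have sG : ContDiffOn ℝ ∞ G B := lpk_sm hB s0 i
  have eX : XX h w i n = fun z => ty t z ^ m * G z := by funext z; rfl
  -- the raising operator
  have eP : ∀ z ∈ B, TH294.RS.sP Complex.im h (XX h w i) n z =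
      -((m : ℂ) * t * I) * (ty t z ^ m * G z) + ty t z ^ (m + 1) * dd G z := by
    intro z hz
    have e1 : TH294.RS.sP Complex.im h (XX h w i) n z = ty t z * dd (XX h w i n) z := by
      simp only [TH294.RS.sP, DP, ty, ← ht]; push_cast; ring
    rw [e1, eX, dd_mul (typ_da t m z) (fda hB sG hz)]
    have e2 := typ_dd t m z
    rw [pow_succ]
    linear_combination (G z) * e2
  have eM : ∀ z ∈ B, TH294.RS.sM Complex.im h (XX h w i) n z =
      ((m : ℂ) * t * I) * (ty t z ^ m * G z) + ty t z ^ (m + 1) * db G z := by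
    intro z hz
    have e1 : TH294.RS.sM Complex.im h (XX h w i) n z = ty t z * db (XX h w i n) z := by
      simp only [TH294.RS.sM, DM, ty, ← ht]; push_cast; ring
    rw [e1, eX, db_mul (typ_da t m z) (fda hB sG hz)]
    have e2 := typ_db t m z
    rw [pow_succ]
    linear_combination (G z) * e2
  have eMP : TH294.RS.sM Complex.im h (TH294.RS.sP Complex.im h (XX h w i)) n z =
      -((m : ℂ) * t * I) * (((m : ℂ) * t * I) * (ty t z ^ m * G z) + ty t z ^ (m + 1) * db G z) +
      ((((m + 1 : ℕ) : ℂ) * t * I) * (ty t z ^ (m + 1) * dd G z) +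
        ty t z ^ (m + 2) * db (dd G) z) := by
    have e1 : TH294.RS.sM Complex.im h (TH294.RS.sP Complex.im h (XX h w i)) n z =
        ty t z * db (TH294.RS.sP Complex.im h (XX h w i) n) z := by
      simp only [TH294.RS.sM, DM, ty, ← ht]; push_cast; ring
    have d1 : DifferentiableAt ℝ (fun z => ty t z ^ m * G z) z := (typ_da t m z).mul (fda hB sG hz)
    have d2 : DifferentiableAt ℝ (fun z => ty t z ^ (m + 1) * dd G z) z :=
      (typ_da t (m + 1) z).mul (fda hB (dd_sm hB sG) hz)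
    have d1' : DifferentiableAt ℝ (fun z => -((m : ℂ) * t * I) * (ty t z ^ m * G z)) z :=
      d1.const_mul _
    rw [e1, db_cg hB eP hz, Pool.Agent.Y265.HY.db_add d1' d2, db_cm d1,
      db_mul (typ_da t m z) (fda hB sG hz), db_mul (typ_da t (m + 1) z) (fda hB (dd_sm hB sG) hz)]
    have e2 := typ_db t m z
    have e3 := typ_db t (m + 1) z
    have e4 : ty t z ^ (m + 2) = ty t z ^ (m + 1) * ty t z := pow_succ _ _
    have e5 : ty t z ^ (m + 1) = ty t z ^ m * ty t z := pow_succ _ _
    rw [e4]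
    rw [e5] at e3 ⊢
    linear_combination (-((m : ℂ) * t * I) * G z) * e2 + (dd G z) * e3
  have eL := TH294.RG.sL_eq (h := h) hB H.sa (f := XX h w i) (fun n => XX_sm H i n) n hz
  have eab : TH294.RS.ab Complex.im z = I := by
    have e1 : (fun z : ℂ => ((Complex.im z : ℝ) : ℂ)) = ty 1 := by
      funext z; simp [ty]
    have e2 : TH294.RS.ab Complex.im z = db (ty 1) z := by
      unfold TH294.RS.ab
      rw [e1]
    rw [e2, ty_db]; simp
  rw [eL, eab, eMP]
  have eN : XX h w (i + 1) n z = ty t z ^ (m + 2) * db (dd G) z := by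
    rw [XX_eq, lp_dbdd hB sG hz, Function.iterate_succ_apply']
    have : 2 * (i + 1) = m + 2 := by rw [hm]; ring
    rw [this]
  have eX2 : XX h w i n z = ty t z ^ m * G z := congrFun eX z
  rw [eN, eX2, eM z hz, eP z hz]
  have hmc : (m : ℂ) = 2 * (i : ℂ) := by rw [hm]; push_cast; ring
  push_cast
  rw [hmc]
  ring_nf
  rw [I_sq]
  ring

end XgL

theorem xg : S_XG := by
  intro B h w H h0 i
  induction i with
  | zero =>
    refine (good_v H h0 0).cg (fun n z _ => ?_) fun α => by simp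
    simp [XX, vv]
  | succ i ih =>
    have q := XgL.Good.qe H h0 ih
    have g1 := (Good.sL H h0 ih).cmul H (-1)
    have g2 := Good.hq ((((q.sM H).add ((q.sP H).cmul H (-1))).cmul H (2 * (i : ℂ) * I)).add
      ((q.cmul H (4 * (i : ℂ) ^ 2 + 2 * (i : ℂ))).hmul H))
    refine (g1.add g2).cg (fun n z hz => ?_) fun α => ?_
    · rw [XgL.XX_succ H i n hz]
    · rw [pow_succ, pow_succ]; ring

end

end Pool.Agent.Helper93K9.PE
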