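import Pool.Agent.Helper93K9.PE.Mic2
import Pool.Agent.Helper93K9.PE.Xg
import Pool.Agent.Helper93K9.PE.Fm
import Pool.Agent.Helper93K9.PE.Gr
import Pool.Agent.Helper93K9.PE.Ell
import Pool.Agent.Helper93K9.PE.Sand
import Pool.Agent.Helper93K9.PE.Star
import Pool.Agent.Helper93K9.PE.Loc
import Pool.Agent.Helper93K9.PE.Avg
import Pool.Agent.Helper93K9.PE.Hom
import Pool.Agent.Helper93K9.PE.Lei
import Pool.Agent.Helper93K9.PE.Tay
import Pool.Agent.Helper93K9.PE.Sh
import Pool.Agent.Helper93K9.PE.Id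
import Pool.Agent.Helper93K9.PE.Pow
import Pool.Agent.Helper93K9.PE.Mic
import Pool.Agent.Helper93K9.PE.Der
import Pool.Agent.Helper93K9.PE.Tel

/-! Project PE: all leaves. -/

set_option autoImplicit false
open MeasureTheory Filter Topology Complex

namespace Pool.Agent.Helper93K9.PE

noncomputable section

lemma J_eq (y : ℝ) : 1 / Real.pi * ∫ w in Metric.ball (0 : ℂ) 1, Real.cos (y * w.re) = jj y := by
  unfold jj TH294.RG.JJ
  rw [TH294.RG.int_dm, smul_eq_mul]

/-- means over discs -/
lemma mean_E {E : Type*} [NormedAddCommGroup E] [NormedSpace ℝ E] (f : ℂ → E) (z : ℂ) {r : ℝ}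
    (hr : 0 < r) : (1 / (Real.pi * r ^ 2)) • ∫ w in Metric.ball z r, f w =
      ∫ w, f (z + ((r : ℝ) : ℂ) * w) ∂TH294.RG.dm := by
  have h1 := TH294.RG.dm_scale (fun w => f (z + w)) hr
  simp only [Complex.real_smul] at h1
  rw [h1]
  congr 1
  have h2 := (measurePreserving_add_left (volume : Measure ℂ) z).setIntegral_preimage_emb
    (Homeomorph.addLeft z).measurableEmbedding f (Metric.ball z r)
  have h3 : (fun w => z + w) ⁻¹' Metric.ball z r = Metric.ball 0 r := by
    ext w
    simp [dist_eq_norm]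
  rw [h3] at h2
  exact h2.symm

theorem pow' : S_POW := pow xg

theorem mic' : S_MIC := mic (der sh) (tel (der sh))

theorem starr : S_STAR := star (loc lei tay hom avg) sh j4

theorem idd : S_ID := ident starr pow' fpl sh

end

end Pool.Agent.Helper93K9.PE
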