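import Pool.Agent.Helper93K9.PE.Core

/-! Project PE: mesoscopic scales. -/

set_option autoImplicit false
open MeasureTheory Filter Topology Complex ProbabilityTheory
open scoped ContDiff

namespace Pool.Agent.Helper93K9.PE.FinL

open Pool.Agent.W745.RW Pool.Agent.TH294.RS Pool.Agent.Y265.HY
open Pool.Agent.TH294.RG (dm dm_ae ea unif mu0 par meso_unif RawG MM MM_unif mean_dm ea_par)

noncomputable section

variable {lam : ℕ → ℝ} {f : ℕ → ℂ → ℝ}

lemma sin0 (x : ℝ) : mu0 {y | Real.sin (x - y) = 0} = 0 := by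
  have h1 : {y : ℝ | Real.sin (x - y) = 0} ⊆ Set.range (fun n : ℤ => x - n * Real.pi) := by
    intro y hy
    obtain ⟨n, hn⟩ := Real.sin_eq_zero_iff.1 hy
    exact ⟨n, by simp only; linarith⟩
  refine measure_mono_null h1 ?_
  have h2 : (volume : Measure ℝ) (Set.range (fun n : ℤ => x - n * Real.pi)) = 0 :=
    (Set.countable_range _).measure_zero _
  have h3 : (volume.restrict (Set.Ioc 0 (2 * Real.pi)) : Measure ℝ)
      (Set.range (fun n : ℤ => x - n * Real.pi)) = 0 :=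
    le_antisymm ((Measure.restrict_apply_le _ _).trans h2.le) bot_le
  unfold TH294.RG.mu0
  rw [Measure.smul_apply, h3, smul_zero]

lemma par0 (z : ℂ) : par ea (unif z) = 0 := by
  have h0 : unif z = mu0 := by simp only [unif, ProbabilityTheory.Kernel.const_apply]
  rw [h0]
  unfold TH294.RG.par
  rw [ea_par]
  have hm : MeasurableSet {p : ℝ × ℝ | Real.sin (p.1 - p.2) = 0} := by
    have : Measurable (fun p : ℝ × ℝ => Real.sin (p.1 - p.2)) := by fun_prop
    exact this (measurableSet_singleton 0)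
  have h1 : (mu0.prod mu0) {p : ℝ × ℝ | Real.sin (p.1 - p.2) = 0} = 0 := by
    rw [Measure.measure_prod_null hm]
    refine Eventually.of_forall fun x => ?_
    exact sin0 x
  simp only [Measure.real, h1, ENNReal.toReal_zero]

/-- discs of a fixed radius -/
lemma meso0 (S : Seq lam f) (H : M4 f) {φ : ℂ → ℝ} (hφ : TF UH φ) (hφ0 : ∀ z, 0 ≤ φ z) {ε : ℝ}
    (hε : 0 < ε) : ∃ R₀ r₀ : ℝ, 0 < R₀ ∧ 0 < r₀ ∧ ∀ᶠ n in atTop, ∀ r : ℝ, R₀ * hh lam n ≤ r →
      r ≤ r₀ → ∫ z, φ z * (mn r (fun w => f n w ^ 2) z - 1) ^ 2 ≤ ε := by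
  have hraw : RawG UH Complex.im (hh lam) f (MM (fun _ => 1) ea unif) := by
    refine ⟨hh_pos S, hh_lim S, imCLM.contDiff.contDiffOn, UHp, S.sm, fun n z hz => ?_,
      fun φ hφ k => ?_⟩
    · have h1 := S.eq n z hz
      have h2 : (hh lam n) ^ 2 = 1 / lam n := by
        unfold hh
        rw [div_pow, Real.sq_sqrt (S.pos n).le, one_pow]
      have h3 := (S.pos n).ne'
      have h4 : z.im ^ 2 * lap (f n) z = -(lam n * f n z) := by linarith
      rw [h2, h4]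
      field_simp
      ring
    · have h1 := S.qe _ (tfy' hφ) k
      simp only [yy hφ, FD_eq] at h1
      have e1 : ∫ z, (φ z : ℂ) * MM (fun _ => 1) ea unif k z =
          if k = 0 then ((∫ z, φ z : ℝ) : ℂ) else 0 := by
        simp only [MM_unif]
        rw [integral_mul_const, integral_complex_ofReal]
        split_ifs <;> simp
      rw [e1]
      exact h1
  have hm2 : ∀ K' : Set ℂ, IsCompact K' → K' ⊆ UH →
      MemLp (fun _ : ℂ => (1 : ℝ)) 2 (volume.restrict K') := by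
    intro K' hK' _
    have : IsFiniteMeasure (volume.restrict K') := ⟨by simpa using hK'.measure_lt_top⟩
    exact memLp_const 1
  have hp : ∀ᵐ z ∂(volume.restrict UH), par ea (unif z) = 0 := ae_of_all _ par0
  obtain ⟨K, hK, hK1, hK2⟩ := exists_compact_between hφ.2.1 UHo hφ.2.2
  have hφ' : TF (interior K) φ := ⟨hφ.1, hφ.2.1, hK1⟩
  obtain ⟨C, hC⟩ := bd_M4 S H K hK hK2
  obtain ⟨R₀, r₀, hR, hr, key⟩ := meso_unif (m := fun _ => 1) (ν := unif) hm2 contDiffOn_const hp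
    hraw hK hK2 hφ' hφ0 (show 0 < ε / (2 * (1 + |C|)) by positivity)
  refine ⟨R₀, r₀, hR, hr, ?_⟩
  have h5 : ∀ᶠ n in atTop, ∫ z, φ z * f n z ^ 4 < 3 * (∫ z, φ z) + ε / 2 :=
    (H φ hφ).eventually (gt_mem_nhds (by linarith))
  filter_upwards [key, h5, hC] with n k1 k2 k3 r hr1 hr2
  have k4 := k1 r hr1 hr2
  have r0 : 0 < r := lt_of_lt_of_le (mul_pos hR (hh_pos S n)) hr1
  have e1 : ∀ z, mn r (fun w => f n w ^ 2) z = ∫ w, f n (z + r • w) ^ 2 ∂dm := fun z =>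
    mean_dm (fun w => f n w ^ 2) z r0
  simp only [e1]
  refine k4.trans ?_
  have e2 : ∫ z, φ z * (1 : ℝ) ^ 2 = ∫ z, φ z := by simp
  rw [e2]
  have k5 : ε / (2 * (1 + |C|)) * (1 + ∫ z in K, f n z ^ 4) ≤ ε / 2 := by
    have k6 : 1 + ∫ z in K, f n z ^ 4 ≤ 1 + |C| := by linarith [le_abs_self C]
    calc ε / (2 * (1 + |C|)) * (1 + ∫ z in K, f n z ^ 4) ≤
          ε / (2 * (1 + |C|)) * (1 + |C|) := by gcongr
      _ = ε / 2 := by
        have : (1 + |C|) ≠ 0 := by positivity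
        field_simp
  linarith

/-- (1) → (5) -/
lemma M4_MA (hSA : S_SAND) (S : Seq lam f) (H : M4 f) : MA lam f := by
  intro φ hφ hφ0 ε hε
  obtain ⟨R₀, r₀, h1, h2, h3⟩ := hSA (hh lam) (hh_pos S) (hh_lim S) (fun n z => f n z ^ 2)
    (fun n z => sq_nonneg _) (fun n => (S.sm n).continuousOn.pow 2)
    (fun φ hφ hφ0 ε hε => meso0 S H hφ hφ0 hε) φ hφ hφ0 ε hε
  refine ⟨R₀, r₀, h1, h2, h3.mono fun n hn r hr1 hr2 => hn r ?_ hr2⟩
  unfold hh
  rw [mul_one_div]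
  exact hr1

/-- (5) → (4) -/
lemma MA_MP (S : Seq lam f) (H : MA lam f) : MP lam f := by
  intro φ hφ hφ0 ε hε
  obtain ⟨R₀, r₀, h1, h2, h3⟩ := H φ hφ hφ0 ε hε
  refine ⟨R₀, h1, ?_⟩
  filter_upwards [h3, (s_small S R₀).eventually (gt_mem_nhds h2)] with n k1 k2
  have k3 := k1 (R₀ / √(lam n)) (le_refl _) k2.le
  refine le_trans (le_of_eq ?_) k3
  congr 1; funext z
  by_cases hz : z ∈ UH
  · rw [mn_AR S h1 n hz]
  · rw [TF.zero hφ hz]; simp

theorem tfae (hID : S_ID) (hGR : S_GR) (hE : S_ELL) (hFM : S_FM) (hSA : S_SAND)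
    (S : Seq lam f) : List.TFAE [M4 f, ∀ R : ℝ, 0 < R → MR lam f R, ∃ R : ℝ, 0 < R ∧ MR lam f R,
      MP lam f, MA lam f] := by
  tfae_have 1 → 2 := fun H R hR => M4_MR hID S H hR
  tfae_have 2 → 3 := fun H => ⟨1, one_pos, H 1 one_pos⟩
  tfae_have 3 → 1 := fun ⟨R, hR, H⟩ => MR_M4 hID hE S hR H
  tfae_have 1 → 5 := fun H => M4_MA hSA S H
  tfae_have 5 → 4 := fun H => MA_MP S H
  tfae_have 4 → 1 := fun H => MP_M4 hID hGR hE hFM S H
  tfae_finish

end

end Pool.Agent.Helper93K9.PE.FinL
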