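import Pool.Agent.Helper93K9.PE.Stm

/-!
# Iterated directional derivatives (base file for the leaves HOM, AVG, LEI)
-/

set_option autoImplicit false
open MeasureTheory Filter Topology Complex
open scoped ContDiff

namespace Pool.Agent.Helper93K9.PE

open Pool.Agent.W745.RW Pool.Agent.TH294.RS Pool.Agent.Y265.HY

noncomputable section

namespace DvL

variable {B : Set ℂ}

theorem dv_eq (v : ℂ) (F : ℂ → ℂ) (z : ℂ) :
    dv v F z = 2⁻¹ * (v * dd F z + (starRingEnd ℂ) v * db F z) := by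
  have h1 : dv v F z = (v.re : ℂ) * fderiv ℝ F z 1 + (v.im : ℂ) * fderiv ℝ F z I := by
    unfold dv
    have h2 : v = v.re • (1 : ℂ) + v.im • I := by
      simp
    conv_lhs => rw [h2]
    rw [map_add, map_smul, map_smul]
    simp only [Complex.real_smul]
  rw [h1]
  unfold dd db dx dy
  have h3 : v = (v.re : ℂ) + (v.im : ℂ) * I := (re_add_im v).symm
  have h4 : (starRingEnd ℂ) v = (v.re : ℂ) - (v.im : ℂ) * I := by
    apply Complex.ext <;> simp
  rw [h4]
  nth_rewrite 3 [h3]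
  have h5 : I * I = -1 := I_mul_I
  linear_combination ((v.im : ℂ) * fderiv ℝ F z I) * h5

theorem dv_cg (hB : IsOpen B) {f g : ℂ → ℂ} (e : ∀ z ∈ B, f z = g z) {z : ℂ} (hz : z ∈ B) (v : ℂ) :
    dv v f z = dv v g z := fd_cg hB e hz v

theorem dv_sm (hB : IsOpen B) {f : ℂ → ℂ} (hf : ContDiffOn ℝ ∞ f B) (v : ℂ) :
    ContDiffOn ℝ ∞ (dv v f) B := cfd hB hf v

theorem dv_it_sm (hB : IsOpen B) {f : ℂ → ℂ} (hf : ContDiffOn ℝ ∞ f B) (v : ℂ) (j : ℕ) :
    ContDiffOn ℝ ∞ ((dv v)^[j] f) B := by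
  induction j with
  | zero => exact hf
  | succ j ih =>
    rw [Function.iterate_succ_apply']
    exact dv_sm hB ih v

theorem dv_sum (hB : IsOpen B) {ι : Type} (s : Finset ι) (c : ι → ℂ) (f : ι → ℂ → ℂ)
    (hf : ∀ i ∈ s, ContDiffOn ℝ ∞ (f i) B) {z : ℂ} (hz : z ∈ B) (v : ℂ) :
    dv v (fun w => ∑ i ∈ s, c i * f i w) z = ∑ i ∈ s, c i * dv v (f i) z := by
  unfold dv
  rw [fderiv_fun_sum fun i hi => (fda hB (hf i hi) hz).const_mul (c i)]
  rw [sum_apply]
  refine Finset.sum_congr rfl fun i hi => ?_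
  exact fd_cm (fda hB (hf i hi) hz) (c i) v

theorem dv_mul (v : ℂ) {a b : ℂ → ℂ} {z : ℂ} (ha : DifferentiableAt ℝ a z)
    (hb : DifferentiableAt ℝ b z) :
    dv v (fun z => a z * b z) z = a z * dv v b z + dv v a z * b z := by
  unfold dv
  rw [fderiv_fun_mul ha hb]
  simp only [add_apply, smul_apply, smul_eq_mul]
  ring

/-- the mixed derivatives -/
def G (g : ℂ → ℂ) (k l : ℕ) : ℂ → ℂ := dd^[k] (db^[l] g)

theorem G_sm (hB : IsOpen B) {g : ℂ → ℂ} (hg : ContDiffOn ℝ ∞ g B) (k l : ℕ) :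
    ContDiffOn ℝ ∞ (G g k l) B := by
  unfold G
  induction k with
  | zero =>
    rw [Function.iterate_zero_apply]
    induction l with
    | zero => exact hg
    | succ l ih =>
      rw [Function.iterate_succ_apply']
      exact db_sm hB ih
  | succ k ih =>
    rw [Function.iterate_succ_apply']
    exact dd_sm hB ih

theorem dd_G (g : ℂ → ℂ) (k l : ℕ) : dd (G g k l) = G g (k + 1) l := by
  unfold G
  rw [Function.iterate_succ_apply']

theorem db_G (hB : IsOpen B) {g : ℂ → ℂ} (hg : ContDiffOn ℝ ∞ g B) (k l : ℕ) :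
    ∀ z ∈ B, db (G g k l) z = G g k (l + 1) z := by
  induction k with
  | zero =>
    intro z _
    unfold G
    rw [Function.iterate_zero_apply, Function.iterate_zero_apply, Function.iterate_succ_apply']
  | succ k ih =>
    intro z hz
    rw [← dd_G g k l, ← dd_G g k (l + 1), db_dd hB (G_sm hB hg k l) hz,
      ← dd_db hB (G_sm hB hg k l) hz]
    exact dd_cg hB ih hz

theorem dv_G (hB : IsOpen B) {g : ℂ → ℂ} (hg : ContDiffOn ℝ ∞ g B) (k l : ℕ) (v : ℂ) :
    ∀ z ∈ B, dv v (G g k l) z =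
      2⁻¹ * (v * G g (k + 1) l z + (starRingEnd ℂ) v * G g k (l + 1) z) := by
  intro z hz
  rw [dv_eq, dd_G, db_G hB hg k l z hz]

/-- the expansion -/
theorem expand (hB : IsOpen B) {g : ℂ → ℂ} (hg : ContDiffOn ℝ ∞ g B) (v : ℂ) (j : ℕ) :
    ∀ z ∈ B, ((dv v)^[j] g) z = ∑ p ∈ Finset.HasAntidiagonal.antidiagonal j,
      ((j.choose p.1 : ℂ) * ((2⁻¹ : ℂ) ^ j * (v ^ p.1 * (starRingEnd ℂ) v ^ p.2))) *
        G g p.1 p.2 z := by
  induction j with
  | zero =>
    intro z _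
    simp [G]
  | succ j ih =>
    intro z hz
    rw [Function.iterate_succ_apply', dv_cg hB ih hz v,
      dv_sum hB _ _ _ (fun p _ => G_sm hB hg p.1 p.2) hz v]
    have h1 := Finset.sum_antidiagonal_choose_succ_mul (R := ℂ) (fun a b =>
      (2⁻¹ : ℂ) ^ (j + 1) * (v ^ a * (starRingEnd ℂ) v ^ b) * G g a b z) j
    have h2 : ∀ p ∈ Finset.HasAntidiagonal.antidiagonal (j + 1), (((j + 1).choose p.1 : ℂ) *
        ((2⁻¹ : ℂ) ^ (j + 1) * (v ^ p.1 * (starRingEnd ℂ) v ^ p.2))) * G g p.1 p.2 z =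
        ((j + 1).choose p.1 : ℂ) * ((2⁻¹ : ℂ) ^ (j + 1) * (v ^ p.1 * (starRingEnd ℂ) v ^ p.2) *
          G g p.1 p.2 z) := fun p _ => by ring
    rw [Finset.sum_congr rfl h2, h1, ← Finset.sum_add_distrib]
    refine Finset.sum_congr rfl fun p hp => ?_
    have h3 : p.1 + p.2 = j := Finset.HasAntidiagonal.mem_antidiagonal.1 hp
    have h4 : j.choose p.2 = j.choose p.1 := by
      rw [← h3]
      exact (Nat.choose_symm_add).symm
    rw [h4, dv_G hB hg p.1 p.2 v z hz]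
    ring

/-- smoothness of the products, Leibniz rule -/
theorem leib (hB : IsOpen B) {u : ℂ → ℂ} (hu : ContDiffOn ℝ ∞ u B) (v : ℂ) (m : ℕ) :
    ∀ z ∈ B, ((dv v)^[m] (fun z => u z * u z)) z = ∑ p ∈ Finset.HasAntidiagonal.antidiagonal m,
      (m.choose p.1 : ℂ) * (((dv v)^[p.1] u) z * ((dv v)^[p.2] u) z) := by
  induction m with
  | zero =>
    intro z _
    simp
  | succ m ih =>
    intro z hz
    have hsm : ∀ j, ContDiffOn ℝ ∞ ((dv v)^[j] u) B := dv_it_sm hB hu v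
    rw [Function.iterate_succ_apply', dv_cg hB ih hz v,
      dv_sum hB _ (fun p : ℕ × ℕ => (m.choose p.1 : ℂ))
        (fun p z => ((dv v)^[p.1] u) z * ((dv v)^[p.2] u) z)
        (fun p _ => (hsm p.1).mul (hsm p.2)) hz v]
    have h1 := Finset.sum_antidiagonal_choose_succ_mul (R := ℂ) (fun a b =>
      ((dv v)^[a] u) z * ((dv v)^[b] u) z) m
    rw [h1, ← Finset.sum_add_distrib]
    refine Finset.sum_congr rfl fun p hp => ?_
    have h3 : p.1 + p.2 = m := Finset.HasAntidiagonal.mem_antidiagonal.1 hp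
    have h4 : m.choose p.2 = m.choose p.1 := by
      rw [← h3]
      exact (Nat.choose_symm_add).symm
    have h5 : dv v (fun z => ((dv v)^[p.1] u) z * ((dv v)^[p.2] u) z) z =
        ((dv v)^[p.1] u) z * ((dv v)^[p.2 + 1] u) z +
        ((dv v)^[p.1 + 1] u) z * ((dv v)^[p.2] u) z := by
      rw [Function.iterate_succ_apply', Function.iterate_succ_apply']
      exact dv_mul v (fda hB (hsm p.1) hz) (fda hB (hsm p.2) hz)
    rw [h4, h5]
    ring

end DvL

end

end Pool.Agent.Helper93K9.PE
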