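import Pool.Agent.Helper93K9.PE.Fin

/-! Project PE: continuity of the local mass. -/

set_option autoImplicit false
open MeasureTheory Filter Topology Complex ProbabilityTheory
open scoped ContDiff

namespace Pool.Agent.Helper93K9.PE.FinL

open Pool.Agent.W745.RW Pool.Agent.TH294.RS Pool.Agent.Y265.HY
open Pool.Agent.TH294.RG (dm dm_ae)

noncomputable section

lemma disc_UH {s : ℝ} (hs0 : 0 ≤ s) (hs : s < 1) {z v : ℂ} (hz : z ∈ UH) (hv : ‖v‖ ≤ 1) :
    z + ((s * z.im : ℝ) : ℂ) * v ∈ UH := by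
  have h1 : 0 < z.im := hz
  show 0 < (z + ((s * z.im : ℝ) : ℂ) * v).im
  have h2 : (z + ((s * z.im : ℝ) : ℂ) * v).im = z.im * (1 + s * v.im) := by
    simp [Complex.add_im, Complex.mul_im]; ring
  rw [h2]
  have h3 : |v.im| ≤ 1 := (Complex.abs_im_le_norm v).trans hv
  have h4 := (abs_le.1 h3).1
  have h5 : 0 < 1 + s * v.im := by nlinarith
  positivity

/-- continuity of disc means -/
lemma disc_cont {s : ℝ} (hs0 : 0 ≤ s) (hs : s < 1) {g : ℂ → ℝ} (hg : ContinuousOn g UH) :
    ContinuousOn (fun z : ℂ => ∫ v, g (z + ((s * z.im : ℝ) : ℂ) * v) ∂dm) UH := by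
  intro z0 hz0
  obtain ⟨δ, hδ, hδB⟩ := Metric.isOpen_iff.1 UHo z0 hz0
  have hK : IsCompact (Metric.closedBall z0 (δ / 2)) := isCompact_closedBall _ _
  have hKU : Metric.closedBall z0 (δ / 2) ⊆ UH :=
    (Metric.closedBall_subset_ball (by linarith)).trans hδB
  have hT : Continuous (fun p : ℂ × ℂ => p.1 + ((s * p.1.im : ℝ) : ℂ) * p.2) := by fun_prop
  have hC : IsCompact ((fun p : ℂ × ℂ => p.1 + ((s * p.1.im : ℝ) : ℂ) * p.2) ''
      (Metric.closedBall z0 (δ / 2) ×ˢ Metric.closedBall (0 : ℂ) 1)) :=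
    (hK.prod (isCompact_closedBall _ _)).image hT
  have hCU : ((fun p : ℂ × ℂ => p.1 + ((s * p.1.im : ℝ) : ℂ) * p.2) ''
      (Metric.closedBall z0 (δ / 2) ×ˢ Metric.closedBall (0 : ℂ) 1)) ⊆ UH := by
    rintro _ ⟨⟨z, v⟩, ⟨hz, hv⟩, rfl⟩
    exact disc_UH hs0 hs (hKU hz) (by simpa using hv)
  obtain ⟨M, hM⟩ := hC.exists_bound_of_continuousOn (hg.mono hCU)
  have key : ContinuousOn (fun z : ℂ => ∫ v, g (z + ((s * z.im : ℝ) : ℂ) * v) ∂dm)
      (Metric.closedBall z0 (δ / 2)) := by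
    refine continuousOn_of_dominated (bound := fun _ => M) (fun z hz => ?_) (fun z hz => ?_)
      (integrable_const _) ?_
    · -- measurability
      have c1 : ContinuousOn (fun v : ℂ => g (z + ((s * z.im : ℝ) : ℂ) * v))
          (Metric.ball (0 : ℂ) 1) := by
        refine hg.comp (by fun_prop) fun v hv => ?_
        exact disc_UH hs0 hs (hKU hz) (by simpa using (Metric.mem_ball.1 hv).le)
      have h1 : AEStronglyMeasurable (fun v : ℂ => g (z + ((s * z.im : ℝ) : ℂ) * v))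
          (volume.restrict (Metric.ball (0 : ℂ) 1)) := c1.aestronglyMeasurable measurableSet_ball
      unfold TH294.RG.dm
      exact h1.smul_measure _
    · filter_upwards [dm_ae] with v hv
      exact hM _ ⟨⟨z, v⟩, ⟨hz, by simpa using hv.le⟩, rfl⟩
    · filter_upwards [dm_ae] with v hv
      refine hg.comp (by fun_prop) fun z hz => ?_
      exact disc_UH hs0 hs (hKU hz) hv.le
  exact (key.continuousAt (Metric.closedBall_mem_nhds z0 (by positivity))).continuousWithinAt

variable {lam : ℕ → ℝ} {f : ℕ → ℂ → ℝ}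

lemma s_small (S : Seq lam f) (R : ℝ) : Tendsto (fun n => R / √(lam n)) atTop (𝓝 0) := by
  have := (hh_lim S).const_mul R
  rw [mul_zero] at this
  refine this.congr fun n => ?_
  unfold hh; ring

lemma AR_cont (S : Seq lam f) {R : ℝ} (hR : 0 < R) :
    ∀ᶠ n in atTop, ContinuousOn (AR R (lam n) (f n)) UH := by
  filter_upwards [(s_small S R).eventually (gt_mem_nhds one_pos)] with n hn
  have h0 : 0 ≤ R / √(lam n) := div_nonneg hR.le (Real.sqrt_nonneg _)
  exact disc_cont h0 hn ((S.sm n).continuousOn.pow 2)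

/-- the square of the deviation -/
lemma dev (S : Seq lam f) {φ : ℂ → ℝ} (hφ : TF UH φ) {R : ℝ} (hR : 0 < R) :
    ∀ᶠ n in atTop, ∫ z, φ z * (AR R (lam n) (f n) z - 1) ^ 2 =
      (∫ z, φ z * AR R (lam n) (f n) z ^ 2) - 2 * (∫ z, φ z * AR R (lam n) (f n) z) +
        ∫ z, φ z := by
  filter_upwards [AR_cont S hR] with n hn
  have i1 := int_tf hφ (hn.pow 2)
  have i2 := int_tf hφ hn
  have i3 : Integrable φ := hφ.1.continuous.integrable_of_hasCompactSupport hφ.2.1
  have e : ∀ z, φ z * (AR R (lam n) (f n) z - 1) ^ 2 = φ z * AR R (lam n) (f n) z ^ 2 -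
      2 * (φ z * AR R (lam n) (f n) z) + φ z := fun z => by ring
  have i1' : Integrable (fun z => φ z * AR R (lam n) (f n) z ^ 2) := i1
  have i4 : Integrable (fun z => φ z * AR R (lam n) (f n) z ^ 2 -
      2 * (φ z * AR R (lam n) (f n) z)) := i1'.sub (i2.const_mul 2)
  rw [integral_congr_ae (ae_of_all _ e), integral_add i4 i3,
    integral_sub i1' (i2.const_mul 2), integral_const_mul]

end

end Pool.Agent.Helper93K9.PE.FinL
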