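import Pool.Agent.Helper93K9.PE.ArC

/-! Project PE: the equivalences. -/

set_option autoImplicit false
open MeasureTheory Filter Topology Complex ProbabilityTheory
open scoped ContDiff

namespace Pool.Agent.Helper93K9.PE.FinL

open Pool.Agent.W745.RW Pool.Agent.TH294.RS Pool.Agent.Y265.HY
open Pool.Agent.TH294.RG (dm dm_ae ea unif mu0 par meso_unif RawG MM MM_unif mean_dm)

noncomputable section

variable {lam : ℕ → ℝ} {f : ℕ → ℂ → ℝ}

/-- the case `n = 4` -/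
def M4 (f : ℕ → ℂ → ℝ) : Prop := ∀ φ, TF UH φ →
  Tendsto (fun n => ∫ z, φ z * f n z ^ 4) atTop (𝓝 (3 * ∫ z, φ z))

/-- fixed scale -/
def MR (lam : ℕ → ℝ) (f : ℕ → ℂ → ℝ) (R : ℝ) : Prop := ∀ φ, TF UH φ →
  Tendsto (fun n => ∫ z, φ z * AR R (lam n) (f n) z ^ 2) atTop (𝓝 (gR R * ∫ z, φ z))

/-- Planck scale equidistribution -/
def MP (lam : ℕ → ℝ) (f : ℕ → ℂ → ℝ) : Prop := ∀ φ, TF UH φ → (∀ z, 0 ≤ φ z) → ∀ ε : ℝ, 0 < ε →
  ∃ R : ℝ, 0 < R ∧ ∀ᶠ n in atTop, ∫ z, φ z * (AR R (lam n) (f n) z - 1) ^ 2 ≤ ε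

/-- equidistribution at all scales above the Planck scale -/
def MA (lam : ℕ → ℝ) (f : ℕ → ℂ → ℝ) : Prop := ∀ φ, TF UH φ → (∀ z, 0 ≤ φ z) → ∀ ε : ℝ, 0 < ε →
  ∃ R₀ r₀ : ℝ, 0 < R₀ ∧ 0 < r₀ ∧ ∀ᶠ n in atTop, ∀ r : ℝ, R₀ / √(lam n) ≤ r → r ≤ r₀ →
    ∫ z, φ z * (mn (r * z.im) (fun w => f n w ^ 2) z - 1) ^ 2 ≤ ε

lemma bd_M4 (S : Seq lam f) (H : M4 f) : Bdf f :=
  bd_of S fun φ hφ => ⟨3 * (∫ z, φ z) + 1,
    (H φ hφ).eventually (ge_mem_nhds (lt_add_one _))⟩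

/-- (1) → (2) -/
lemma M4_MR (hID : S_ID) (S : Seq lam f) (H : M4 f) {R : ℝ} (hR : 0 < R) : MR lam f R := by
  intro φ hφ
  have h1 := idr hID S (bd_M4 S H) hφ hR
  have h2 := ((H φ hφ).sub_const (3 * ∫ z, φ z)).const_mul (eR R)
  rw [sub_self, mul_zero] at h2
  have h3 := h1.add h2
  rw [add_zero] at h3
  refine h3.congr fun n => ?_
  ring

lemma bd_ell (hE : S_ELL) (S : Seq lam f) {R : ℝ} (hR : 0 < R)
    (h : ∀ φ, TF UH φ → (∀ z, 0 ≤ φ z) → ∃ C : ℝ, ∀ᶠ n in atTop,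
      ∫ z, φ z * AR R (lam n) (f n) z ^ 2 ≤ C) : Bdf f := by
  intro K hK hKU
  obtain ⟨ψ, hψ, hψ0, hell⟩ := hE K hK hKU
  obtain ⟨C, hC⟩ := hell lam S.pos S.lim f S.sm S.eq R hR
  obtain ⟨D, hD⟩ := h ψ hψ hψ0
  refine ⟨|C| * |D|, ?_⟩
  filter_upwards [hC, hD] with n h1 h2
  have h3 : 0 ≤ ∫ z, ψ z * AR R (lam n) (f n) z ^ 2 :=
    integral_nonneg fun z => mul_nonneg (hψ0 z) (sq_nonneg _)
  calc _ ≤ C * ∫ z, ψ z * AR R (lam n) (f n) z ^ 2 := h1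
    _ ≤ |C| * ∫ z, ψ z * AR R (lam n) (f n) z ^ 2 :=
        mul_le_mul_of_nonneg_right (le_abs_self C) h3
    _ ≤ |C| * |D| := mul_le_mul_of_nonneg_left (h2.trans (le_abs_self D)) (abs_nonneg _)

lemma eR_pos (R : ℝ) : 2 / 3 ≤ eR R := by
  unfold eR
  have := sq_nonneg (jj (2 * R))
  linarith

/-- (3) → (1) -/
lemma MR_M4 (hID : S_ID) (hE : S_ELL) (S : Seq lam f) {R : ℝ} (hR : 0 < R) (H : MR lam f R) :
    M4 f := by
  have hb : Bdf f := bd_ell hE S hR fun φ hφ _ =>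
    ⟨gR R * (∫ z, φ z) + 1, (H φ hφ).eventually (ge_mem_nhds (lt_add_one _))⟩
  intro φ hφ
  have h1 := idr hID S hb hφ hR
  have h2 := (H φ hφ).sub h1
  rw [sub_self] at h2
  have h3 := (h2.div_const (eR R)).add_const (3 * ∫ z, φ z)
  rw [zero_div, zero_add] at h3
  have e0 : eR R ≠ 0 := by have := eR_pos R; linarith
  refine h3.congr fun n => ?_
  field_simp
  ring

/-- from nonnegative test functions to all test functions -/
lemma M4_of_nonneg (S : Seq lam f) (H : ∀ φ, TF UH φ → (∀ z, 0 ≤ φ z) →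
    Tendsto (fun n => ∫ z, φ z * f n z ^ 4) atTop (𝓝 (3 * ∫ z, φ z))) : M4 f := by
  intro φ hφ
  obtain ⟨ζ, hζ, hζ0, -, hζ1⟩ := Pool.Agent.Y265.RW.cutoff UHo hφ.2.1 hφ.2.2
  obtain ⟨M', hM'⟩ := hφ.2.1.isCompact.exists_bound_of_continuousOn hφ.1.continuous.continuousOn
  set M := max M' 0 with hM
  have hM0 : 0 ≤ M := le_max_right _ _
  have hb : ∀ z, |φ z| ≤ M * ζ z := by
    intro z
    by_cases hz : z ∈ tsupport φ
    · rw [hζ1 z hz, mul_one]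
      exact (hM' z hz).trans (le_max_left _ _)
    · rw [image_eq_zero_of_notMem_tsupport hz, abs_zero]
      exact mul_nonneg hM0 (hζ0 z)
  have t1 : TF UH (fun z => M * ζ z) := by
    refine ⟨contDiff_const.mul hζ.1, hζ.2.1.mul_left, ?_⟩
    exact (tsupport_mul_subset_right).trans hζ.2.2
  have t2 : TF UH (fun z => M * ζ z - φ z) := by
    refine ⟨t1.1.sub hφ.1, t1.2.1.sub hφ.2.1, ?_⟩
    refine (tsupport_sub _ _).trans (Set.union_subset t1.2.2 hφ.2.2)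
  have h1 := H _ t1 fun z => mul_nonneg hM0 (hζ0 z)
  have h2 := H _ t2 fun z => by have := (abs_le.1 (hb z)).2; linarith
  have h3 := h1.sub h2
  have ii : ∀ φ, TF UH φ → Integrable φ := fun φ hφ =>
    hφ.1.continuous.integrable_of_hasCompactSupport hφ.2.1
  have e1 : 3 * (∫ z, M * ζ z) - 3 * (∫ z, (M * ζ z - φ z)) = 3 * ∫ z, φ z := by
    rw [integral_sub (ii _ t1) (ii _ hφ)]; ring
  rw [e1] at h3
  refine h3.congr fun n => ?_
  rw [← integral_sub (int_f4 S t1 n) (int_f4 S t2 n)]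
  congr 1; funext z; ring

/-- (4) → (1) -/
lemma MP_M4 (hID : S_ID) (hGR : S_GR) (hE : S_ELL) (hFM : S_FM) (S : Seq lam f)
    (H : MP lam f) : M4 f := by
  have hb : Bdf f := by
    intro K hK hKU
    obtain ⟨ψ, hψ, hψ0, hell⟩ := hE K hK hKU
    obtain ⟨R, hR, h1⟩ := H ψ hψ hψ0 1 one_pos
    obtain ⟨C, hC⟩ := hell lam S.pos S.lim f S.sm S.eq R hR
    refine ⟨|C| * (2 + 2 * ∫ z, ψ z), ?_⟩
    filter_upwards [hC, h1, AR_cont S hR] with n h2 h3 h4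
    have i0 : Integrable ψ := hψ.1.continuous.integrable_of_hasCompactSupport hψ.2.1
    have i1 : Integrable (fun z => ψ z * (AR R (lam n) (f n) z - 1) ^ 2) :=
      int_tf hψ ((h4.sub continuousOn_const).pow 2)
    have i2 : Integrable (fun z => ψ z * AR R (lam n) (f n) z ^ 2) := int_tf hψ (h4.pow 2)
    have h5 : ∫ z, ψ z * AR R (lam n) (f n) z ^ 2 ≤
        2 * (∫ z, ψ z * (AR R (lam n) (f n) z - 1) ^ 2) + 2 * ∫ z, ψ z := by
      rw [← integral_const_mul, ← integral_const_mul, ← integral_add (i1.const_mul 2)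
        (i0.const_mul 2)]
      refine integral_mono i2 ((i1.const_mul 2).add (i0.const_mul 2)) fun z => ?_
      have := hψ0 z
      simp only [Pi.add_apply]
      nlinarith [mul_nonneg this (sq_nonneg (AR R (lam n) (f n) z - 2))]
    have h6 : 0 ≤ ∫ z, ψ z * AR R (lam n) (f n) z ^ 2 :=
      integral_nonneg fun z => mul_nonneg (hψ0 z) (sq_nonneg _)
    calc _ ≤ C * ∫ z, ψ z * AR R (lam n) (f n) z ^ 2 := h2
      _ ≤ |C| * ∫ z, ψ z * AR R (lam n) (f n) z ^ 2 :=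
          mul_le_mul_of_nonneg_right (le_abs_self C) h6
      _ ≤ |C| * (2 + 2 * ∫ z, ψ z) :=
          mul_le_mul_of_nonneg_left (by linarith) (abs_nonneg _)
  refine M4_of_nonneg S fun φ hφ hφ0 => ?_
  rw [Metric.tendsto_atTop']
  intro ε hε
  obtain ⟨R, hR, h1⟩ := H φ hφ hφ0 (ε / 6) (by positivity)
  have h2 := idr hID S hb hφ hR
  have h3 := fmr hFM S hφ hR
  have hJ0 : 0 ≤ ∫ z, φ z := integral_nonneg hφ0
  have h4 : ∀ᶠ n in atTop, gR R * (∫ z, φ z) - ε / 12 < (∫ z, φ z * AR R (lam n) (f n) z ^ 2) -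
      eR R * ((∫ z, φ z * f n z ^ 4) - 3 * ∫ z, φ z) :=
    h2.eventually (lt_mem_nhds (by linarith))
  have h5 : ∀ᶠ n in atTop, ∫ z, φ z * AR R (lam n) (f n) z < (∫ z, φ z) + ε / 24 :=
    h3.eventually (gt_mem_nhds (by linarith))
  obtain ⟨N, hN⟩ := eventually_atTop.1 (h1.and (h4.and (h5.and ((dev S hφ hR).and
    (low S hφ hφ0 (half_pos hε))))))
  refine ⟨N, fun n hn => ?_⟩
  obtain ⟨a1, a2, a3, a4, a5⟩ := hN n hn.le
  rw [a4] at a1
  have g1 := hGR.2 R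
  have e1 := eR_pos R
  rw [Real.dist_eq, abs_lt]
  set x := (∫ z, φ z * f n z ^ 4) - 3 * ∫ z, φ z with hx
  have hx1 : eR R * x < ε / 3 := by nlinarith
  constructor
  · linarith
  · by_cases hx0 : 0 ≤ x
    · nlinarith
    · push Not at hx0
      linarith

end

end Pool.Agent.Helper93K9.PE.FinL
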