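import Pool.Agent.Helper93K9.PE.Stm
import Pool.Agent.TH294.RG.Ms7

/-! Project PE: assembly. -/

set_option autoImplicit false
open MeasureTheory Filter Topology Complex ProbabilityTheory
open scoped ContDiff

namespace Pool.Agent.Helper93K9.PE

open Pool.Agent.W745.RW Pool.Agent.TH294.RS Pool.Agent.Y265.HY
open Pool.Agent.TH294.RG (dm mean_dm)

noncomputable section

/-- sequences of eigenfunctions with microlocal quantum unique ergodicity -/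
structure Seq (lam : ℕ → ℝ) (f : ℕ → ℂ → ℝ) : Prop where
  pos : ∀ n, 0 < lam n
  lim : Tendsto lam atTop atTop
  sm : ∀ n, ContDiffOn ℝ ∞ (f n) UH
  eq : ∀ n, ∀ z ∈ UH, z.im ^ 2 * lap (f n) z + lam n * f n z = 0
  qe : ∀ φ, TF UH φ → ∀ k : ℕ, Tendsto (fun n => ∫ z, ((φ z / z.im ^ 2 : ℝ) : ℂ) *
      ((f n z : ℂ) * (FD (lam n))^[k] (fun w => (f n w : ℂ)) z)) atTop
      (𝓝 (if k = 0 then ((∫ z, φ z / z.im ^ 2 : ℝ) : ℂ) else 0))

namespace FinL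

lemma UHo : IsOpen UH := isOpen_lt continuous_const continuous_im

lemma UHp : ∀ z ∈ UH, 0 < z.im := fun _ hz => hz

variable {lam : ℕ → ℝ} {f : ℕ → ℂ → ℝ}

/-- scale -/
def hh (lam : ℕ → ℝ) (n : ℕ) : ℝ := 1 / √(lam n)

lemma hh_pos (S : Seq lam f) (n : ℕ) : 0 < hh lam n := div_pos one_pos (Real.sqrt_pos.2 (S.pos n))

lemma hh_lim (S : Seq lam f) : Tendsto (hh lam) atTop (𝓝 0) := by
  have : Tendsto (fun n => √(lam n)) atTop atTop := Real.tendsto_sqrt_atTop.comp S.lim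
  exact (this.inv_tendsto_atTop).congr (fun n => by simp [hh, one_div])

/-- the ladder -/
def WL (lam : ℕ → ℝ) (f : ℕ → ℂ → ℝ) : ℤ → ℕ → ℂ → ℂ :=
  ww Complex.im (hh lam) (fun n z => (f n z : ℂ))

lemma WL0 (n : ℕ) (z : ℂ) : WL lam f 0 n z = (f n z : ℂ) := rfl

lemma sys (S : Seq lam f) : SY UH Complex.im (hh lam) (WL lam f) ∧
    EX UH (hh lam) (WL lam f) (WL lam f 0) :=
  hyp_sys UHo UHp S.pos S.lim S.sm S.eq S.qe

lemma tfy {φ : ℂ → ℝ} (hφ : TF UH φ) : TF UH (fun z => φ z / z.im ^ 2) := by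
  have sy : ContDiffOn ℝ ∞ (fun z : ℂ => (z.im ^ 2)⁻¹) UH := by
    refine ContDiffOn.inv ((imCLM.contDiff.pow 2).contDiffOn) fun z hz => ?_
    exact pow_ne_zero 2 (UHp z hz).ne'
  exact TF.mulc UHo hφ sy

lemma tfy' {φ : ℂ → ℝ} (hφ : TF UH φ) : TF UH (fun z => φ z * z.im ^ 2) :=
  TF.mulc UHo hφ (imCLM.contDiff.pow 2).contDiffOn

lemma yy {φ : ℂ → ℝ} (hφ : TF UH φ) (z : ℂ) : φ z * z.im ^ 2 / z.im ^ 2 = φ z := by
  by_cases hz : z ∈ UH
  · have : z.im ^ 2 ≠ 0 := pow_ne_zero 2 (UHp z hz).ne'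
    rw [mul_div_assoc, div_self this, mul_one]
  · rw [TF.zero hφ hz]; simp

/-- weak convergence of the squares -/
lemma mass (S : Seq lam f) {φ : ℂ → ℝ} (hφ : TF UH φ) :
    Tendsto (fun n => ∫ z, φ z * f n z ^ 2) atTop (𝓝 (∫ z, φ z)) := by
  have h1 := S.qe _ (tfy' hφ) 0
  rw [if_pos rfl] at h1
  simp only [yy hφ] at h1
  refine toR (h1.congr fun n => ?_)
  rw [← integral_complex_ofReal]
  congr 1; funext z
  simp only [Function.iterate_zero, id_eq]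
  push_cast; ring

lemma AV_AR (R : ℝ) (n : ℕ) (z : ℂ) : AV (hh lam) (WL lam f 0) R n z =
    ((AR R (lam n) (f n) z : ℝ) : ℂ) := by
  unfold AV AR
  rw [← integral_complex_ofReal]
  congr 1; funext v
  have e : R * hh lam n * z.im = R / √(lam n) * z.im := by
    unfold hh; ring
  rw [e, WL0]
  push_cast; ring

lemma mn_AR (S : Seq lam f) {R : ℝ} (hR : 0 < R) (n : ℕ) {z : ℂ} (hz : z ∈ UH) :
    mn (R / √(lam n) * z.im) (fun w => f n w ^ 2) z = AR R (lam n) (f n) z := by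
  have h1 : 0 < R / √(lam n) * z.im :=
    mul_pos (div_pos hR (Real.sqrt_pos.2 (S.pos n))) (UHp z hz)
  have h2 := mean_dm (fun w => f n w ^ 2) z h1
  unfold mn AR
  rw [h2]
  simp only [real_smul]

/-- the fourth moment -/
lemma F4_r (n : ℕ) (φ : ℂ → ℝ) : ∫ z, (φ z : ℂ) * F4 (WL lam f) 0 0 0 0 n z =
    ((∫ z, φ z * f n z ^ 4 : ℝ) : ℂ) := by
  rw [← integral_complex_ofReal]
  congr 1; funext z
  simp only [F4, WL0]
  push_cast; ring

/-- local boundedness of the fourth moments -/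
def Bdf (f : ℕ → ℂ → ℝ) : Prop :=
  ∀ K : Set ℂ, IsCompact K → K ⊆ UH → ∃ C : ℝ, ∀ᶠ n in atTop, ∫ z in K, f n z ^ 4 ≤ C

lemma Bdf.b4 (H : Bdf f) : Bd4 UH (WL lam f 0) := by
  intro K hK hKU
  obtain ⟨C, hC⟩ := H K hK hKU
  refine ⟨C, hC.mono fun n hn => ?_⟩
  refine le_trans (le_of_eq ?_) hn
  congr 1; funext z
  rw [WL0, Complex.norm_real, Real.norm_eq_abs]
  exact (show Even 4 by decide).pow_abs _

/-- the identity at a fixed scale, real form -/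
lemma idr (hID : S_ID) (S : Seq lam f) (H : Bdf f) {φ : ℂ → ℝ} (hφ : TF UH φ) {R : ℝ} (hR : 0 < R) :
    Tendsto (fun n => (∫ z, φ z * AR R (lam n) (f n) z ^ 2) -
      eR R * ((∫ z, φ z * f n z ^ 4) - 3 * ∫ z, φ z)) atTop (𝓝 (gR R * ∫ z, φ z)) := by
  obtain ⟨S1, S2⟩ := sys S
  have key := hID UH (hh lam) (WL lam f) S1 (le_refl _) S2 (Bdf.b4 H) φ hφ R hR
  refine toR ?_
  rw [ofReal_mul]
  refine key.congr fun n => ?_
  have e1 : ∫ z, (φ z : ℂ) * (AV (hh lam) (WL lam f 0) R n z * AV (hh lam) (WL lam f 0) R n z) =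
      ((∫ z, φ z * AR R (lam n) (f n) z ^ 2 : ℝ) : ℂ) := by
    rw [← integral_complex_ofReal]
    congr 1; funext z
    rw [AV_AR]
    push_cast; ring
  rw [e1, F4_r]
  push_cast; ring

/-- lower bound of the fourth moment -/
lemma low (S : Seq lam f) {φ : ℂ → ℝ} (hφ : TF UH φ) (hφ0 : ∀ z, 0 ≤ φ z) {ε : ℝ} (hε : 0 < ε) :
    ∀ᶠ n in atTop, 3 * (∫ z, φ z) - ε ≤ ∫ z, φ z * f n z ^ 4 := by
  obtain ⟨S1, S2⟩ := sys S
  filter_upwards [excess S1 (le_refl _) S2 hφ hφ0 0 0 0 0 hε] with n hn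
  have h3 : D4 (WL lam f) φ 0 0 0 0 n = (((∫ z, φ z * f n z ^ 4) - 3 * ∫ z, φ z : ℝ) : ℂ) := by
    unfold D4
    rw [F4_r]
    have : GG 0 0 0 0 = 3 := by simp [GG, CC]; norm_num
    rw [this]; push_cast; ring
  rw [h3, ofReal_re, Complex.norm_real, Real.norm_eq_abs] at hn
  have := neg_abs_le ((∫ z, φ z * f n z ^ 4) - 3 * ∫ z, φ z)
  linarith

lemma int_tf {φ : ℂ → ℝ} (hφ : TF UH φ) {F : ℂ → ℝ} (hF : ContinuousOn F UH) :
    Integrable (fun z => φ z * F z) := Pool.Agent.Y265.RW.int_mulr UHo hφ hF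

lemma int_f4 (S : Seq lam f) {φ : ℂ → ℝ} (hφ : TF UH φ) (n : ℕ) :
    Integrable (fun z => φ z * f n z ^ 4) := int_tf hφ ((S.sm n).continuousOn.pow 4)

/-- bounded fourth moments from a test function which is one on `K` -/
lemma bd_of (S : Seq lam f) (h : ∀ φ, TF UH φ → ∃ C : ℝ, ∀ᶠ n in atTop, ∫ z, φ z * f n z ^ 4 ≤ C) :
    Bdf f := by
  intro K hK hKU
  obtain ⟨ζ, hζ, hζ0, -, hζ1⟩ := Pool.Agent.Y265.RW.cutoff UHo hK hKU
  obtain ⟨C, hC⟩ := h ζ hζ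
  refine ⟨C, hC.mono fun n hn => ?_⟩
  calc ∫ z in K, f n z ^ 4 = ∫ z in K, ζ z * f n z ^ 4 := by
        refine setIntegral_congr_fun hK.measurableSet fun z hz => ?_
        simp only [hζ1 z hz, one_mul]
    _ ≤ ∫ z, ζ z * f n z ^ 4 := setIntegral_le_integral (int_f4 S hζ n)
        (Eventually.of_forall fun z => by
          have := hζ0 z
          simp only [Pi.zero_apply]; positivity)
    _ ≤ C := hn

/-- the first moment of the local mass -/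
lemma fmr (hFM : S_FM) (S : Seq lam f) {φ : ℂ → ℝ} (hφ : TF UH φ) {R : ℝ} (hR : 0 < R) :
    Tendsto (fun n => ∫ z, φ z * AR R (lam n) (f n) z) atTop (𝓝 (∫ z, φ z)) :=
  hFM lam S.pos S.lim f S.sm (fun φ hφ => mass S hφ) φ hφ R hR

end FinL

end

end Pool.Agent.Helper93K9.PE
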