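import Pool.Agent.Helper93K9.PE.Stm3

/-!
PE, leaf [HL] (helper55 for helper93): the maximal theorem of Hardy and Littlewood in the plane, `L²`
(discrete radii: after `Pool/Agent/Y7/Hl.lean`).
-/

set_option autoImplicit false

open MeasureTheory Set Metric
open scoped ENNReal

namespace Pool.Agent.Helper93K9.PE

namespace HlL

/-- The radii. -/
noncomputable def Rr (R₀ : ℝ) (m : ℕ) : ℝ := R₀ / 2 ^ m

/-- The discrete maximal function. -/
noncomputable def Mx (R₀ : ℝ) (g : ℂ → ℝ≥0∞) (x : ℂ) : ℝ≥0∞ :=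
  ⨆ m : ℕ, (∫⁻ y in ball x (Rr R₀ m), g y) / ENNReal.ofReal (Rr R₀ m ^ 2)

variable {R₀ : ℝ}

lemma Rr_pos (h : 0 < R₀) (m : ℕ) : 0 < Rr R₀ m := by
  unfold Rr
  positivity

lemma Rr_le (h : 0 < R₀) (m : ℕ) : Rr R₀ m ≤ R₀ := by
  unfold Rr
  exact div_le_self h.le (one_le_pow₀ (by norm_num))

lemma pi_le_four : ((NNReal.pi : ℝ≥0∞)) ≤ 4 := by
  have h : NNReal.pi ≤ 4 := by
    rw [← NNReal.coe_le_coe, NNReal.coe_real_pi]
    simpa using Real.pi_le_four
  exact_mod_cast h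

lemma vol_ball (x : ℂ) {r : ℝ} (hr : 0 ≤ r) : volume (ball x r) ≤ 4 * ENNReal.ofReal (r ^ 2) := by
  rw [Complex.volume_ball, ENNReal.ofReal_pow hr, mul_comm]
  gcongr
  exact pi_le_four

lemma vol_cball (x : ℂ) {r : ℝ} (hr : 0 ≤ r) :
    volume (closedBall x r) ≤ 4 * ENNReal.ofReal (r ^ 2) := by
  rw [Complex.volume_closedBall, ENNReal.ofReal_pow hr, mul_comm]
  gcongr
  exact pi_le_four

lemma meas_avg {g : ℂ → ℝ≥0∞} (hg : Measurable g) (r : ℝ) :
    Measurable fun x : ℂ => ∫⁻ y in ball x r, g y := by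
  have e : (fun x : ℂ => ∫⁻ y in ball x r, g y)
      = fun x : ℂ => ∫⁻ y, ({p : ℂ × ℂ | dist p.2 p.1 < r}.indicator (fun p => g p.2)) (x, y) := by
    funext x
    rw [← lintegral_indicator measurableSet_ball]
    rfl
  rw [e]
  apply Measurable.lintegral_prod_right' (f := {p : ℂ × ℂ | dist p.2 p.1 < r}.indicator
    (fun p => g p.2))
  exact (hg.comp measurable_snd).indicator
    (measurableSet_lt (measurable_snd.dist measurable_fst) measurable_const)

lemma meas_Mx {g : ℂ → ℝ≥0∞} (hg : Measurable g) : Measurable (Mx R₀ g) := by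
  unfold Mx
  exact Measurable.iSup fun m => (meas_avg hg _).div_const _

/-- The weak type inequality. -/
theorem weak (h : 0 < R₀) {g : ℂ → ℝ≥0∞} {l : ℝ≥0∞} (_hl : l ≠ 0) :
    l * volume {x | l < Mx R₀ g x} ≤ 100 * ∫⁻ y, g y := by
  classical
  obtain ⟨S, hS⟩ : ∃ S : Set ℂ, S = {x | l < Mx R₀ g x} := ⟨_, rfl⟩
  have hch : ∀ x : ℂ, ∃ m : ℕ, x ∈ S →
      l * ENNReal.ofReal (Rr R₀ m ^ 2) < ∫⁻ y in ball x (Rr R₀ m), g y := by
    intro x
    by_cases hx : x ∈ S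
    · rw [hS] at hx
      obtain ⟨m, hm⟩ := lt_iSup_iff.1 (show l < Mx R₀ g x from hx)
      refine ⟨m, fun _ => ?_⟩
      have hR := Rr_pos h m
      exact (ENNReal.lt_div_iff_mul_lt (Or.inl (by
        rw [Ne, ENNReal.ofReal_eq_zero, not_le]
        positivity)) (Or.inl ENNReal.ofReal_ne_top)).1 hm
    · exact ⟨0, fun h => absurd h hx⟩
  choose m hm using hch
  rw [← hS]
  obtain ⟨u, huS, hud, huc⟩ := Vitali.exists_disjoint_subfamily_covering_enlargement_closedBall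
    S (fun x : ℂ => x) (fun x => Rr R₀ (m x)) R₀ (fun x _ => Rr_le h _) 5 (by norm_num)
  have hRp : ∀ x, 0 < Rr R₀ (m x) := fun x => Rr_pos h _
  have hcount : u.Countable := hud.countable_of_nonempty_interior fun x _ => by
    rw [interior_closedBall _ (hRp x).ne']
    exact ⟨x, mem_ball_self (hRp x)⟩
  have hcov : S ⊆ ⋃ b ∈ u, closedBall b (5 * Rr R₀ (m b)) := by
    intro x hx
    obtain ⟨b, hb, hsub⟩ := huc x hx
    exact mem_biUnion hb (hsub (mem_closedBall_self (hRp x).le))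
  have h1 : volume S ≤ ∑' b : u, volume (closedBall (b : ℂ) (5 * Rr R₀ (m b))) :=
    (measure_mono hcov).trans (measure_biUnion_le volume hcount _)
  have h2 : ∀ b : u, l * volume (closedBall (b : ℂ) (5 * Rr R₀ (m b)))
      ≤ 100 * ∫⁻ y in closedBall (b : ℂ) (Rr R₀ (m b)), g y := by
    intro b
    have hb := hm b (huS b.2)
    have hv := vol_cball (b : ℂ) (r := 5 * Rr R₀ (m b)) (by have := hRp b; positivity)
    rw [mul_pow, ENNReal.ofReal_mul (by norm_num)] at hv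
    have e5 : ENNReal.ofReal ((5 : ℝ) ^ 2) = 25 := by norm_num
    rw [e5] at hv
    calc l * volume (closedBall (b : ℂ) (5 * Rr R₀ (m b)))
        ≤ l * (4 * (25 * ENNReal.ofReal (Rr R₀ (m b) ^ 2))) := by gcongr
      _ = 100 * (l * ENNReal.ofReal (Rr R₀ (m b) ^ 2)) := by
          rw [show (100 : ℝ≥0∞) = 4 * 25 by norm_num]
          ring
      _ ≤ 100 * ∫⁻ y in ball (b : ℂ) (Rr R₀ (m b)), g y := by gcongr
      _ ≤ _ := by
          gcongr
          exact ball_subset_closedBall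
  calc l * volume S ≤ l * ∑' b : u, volume (closedBall (b : ℂ) (5 * Rr R₀ (m b))) := by gcongr
    _ = ∑' b : u, l * volume (closedBall (b : ℂ) (5 * Rr R₀ (m b))) := ENNReal.tsum_mul_left.symm
    _ ≤ ∑' b : u, 100 * ∫⁻ y in closedBall (b : ℂ) (Rr R₀ (m b)), g y :=
        ENNReal.tsum_le_tsum h2
    _ = 100 * ∑' b : u, ∫⁻ y in closedBall (b : ℂ) (Rr R₀ (m b)), g y := ENNReal.tsum_mul_left
    _ = 100 * ∫⁻ y in ⋃ b ∈ u, closedBall b (Rr R₀ (m b)), g y := by
        rw [lintegral_biUnion hcount (fun b _ => measurableSet_closedBall) hud]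
    _ ≤ 100 * ∫⁻ y, g y := by
        gcongr
        exact Measure.restrict_le_self

/-- The maximal function of a bounded function. -/
lemma Mx_le (h : 0 < R₀) {g : ℂ → ℝ≥0∞} {B : ℝ≥0∞} (hB : ∀ x, g x ≤ B) (x : ℂ) :
    Mx R₀ g x ≤ 4 * B := by
  refine iSup_le fun m => ?_
  have hR := Rr_pos h m
  refine ENNReal.div_le_of_le_mul ?_
  calc ∫⁻ y in ball x (Rr R₀ m), g y ≤ ∫⁻ _ in ball x (Rr R₀ m), B :=
        lintegral_mono fun y => hB y
    _ = B * volume (ball x (Rr R₀ m)) := by rw [setLIntegral_const]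
    _ ≤ B * (4 * ENNReal.ofReal (Rr R₀ m ^ 2)) := by
        gcongr; exact vol_ball x hR.le
    _ = 4 * B * ENNReal.ofReal (Rr R₀ m ^ 2) := by ring

/-- Sub-additivity. -/
lemma Mx_add (h : 0 < R₀) {g g1 : ℂ → ℝ≥0∞} {B : ℝ≥0∞} (hg : ∀ x, g x ≤ g1 x + B) (x : ℂ) :
    Mx R₀ g x ≤ Mx R₀ g1 x + 4 * B := by
  refine iSup_le fun m => ?_
  have hR := Rr_pos h m
  have h1 : (∫⁻ y in ball x (Rr R₀ m), g y)
      ≤ (∫⁻ y in ball x (Rr R₀ m), g1 y) + 4 * B * ENNReal.ofReal (Rr R₀ m ^ 2) := by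
    refine (lintegral_mono fun y => hg y).trans ?_
    rw [lintegral_add_right _ measurable_const, setLIntegral_const]
    refine add_le_add le_rfl ?_
    calc B * volume (ball x (Rr R₀ m)) ≤ B * (4 * ENNReal.ofReal (Rr R₀ m ^ 2)) := by
          gcongr; exact vol_ball x hR.le
      _ = 4 * B * ENNReal.ofReal (Rr R₀ m ^ 2) := by ring
  have h0 : ENNReal.ofReal (Rr R₀ m ^ 2) ≠ 0 := by
    rw [Ne, ENNReal.ofReal_eq_zero, not_le]
    positivity
  refine (ENNReal.div_le_div_right h1 _).trans ?_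
  rw [ENNReal.add_div, ENNReal.mul_div_cancel_right h0 ENNReal.ofReal_ne_top]
  exact add_le_add (le_iSup (fun m : ℕ => (∫⁻ y in ball x (Rr R₀ m), g1 y)
    / ENNReal.ofReal (Rr R₀ m ^ 2)) m) le_rfl

/-- The strong type inequality. -/
theorem strong {p : ℝ} (hp : 1 < p) (h : 0 < R₀) {g : ℂ → ℝ≥0∞} (hg : Measurable g) {B : ℝ≥0∞}
    (hBt : B ≠ ⊤) (hB : ∀ x, g x ≤ B) :
    ∫⁻ x, Mx R₀ g x ^ p ≤ ENNReal.ofReal p * (200 * (ENNReal.ofReal (8 ^ (p - 1)) *
      ((ENNReal.ofReal (p - 1))⁻¹ * ∫⁻ x, g x ^ p))) := by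
  have hp0 : 0 < p := by linarith
  have hp1 : 0 < p - 1 := by linarith
  have hMt : ∀ x, Mx R₀ g x ≠ ⊤ := fun x =>
    ((Mx_le h hB x).trans_lt (ENNReal.mul_lt_top (by norm_num) hBt.lt_top)).ne
  have hgt : ∀ x, g x ≠ ⊤ := fun x => ((hB x).trans_lt hBt.lt_top).ne
  obtain ⟨f, hf⟩ : ∃ f : ℂ → ℝ, f = fun x => (Mx R₀ g x).toReal := ⟨_, rfl⟩
  obtain ⟨G, hG⟩ : ∃ G : ℂ → ℝ, G = fun x => 8 * (g x).toReal := ⟨_, rfl⟩
  have hfm : Measurable f := by rw [hf]; exact (meas_Mx hg).ennreal_toReal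
  have hGm : Measurable G := by rw [hG]; exact hg.ennreal_toReal.const_mul 8
  have e1 : ∫⁻ x, Mx R₀ g x ^ p = ∫⁻ x, ENNReal.ofReal (f x ^ p) := by
    refine lintegral_congr fun x => ?_
    rw [← ENNReal.ofReal_rpow_of_nonneg (by rw [hf]; exact ENNReal.toReal_nonneg) hp0.le, hf,
      ENNReal.ofReal_toReal (hMt x)]
  rw [e1, lintegral_rpow_eq_lintegral_meas_lt_mul volume
    (Filter.Eventually.of_forall fun x => by rw [hf]; exact ENNReal.toReal_nonneg)
    hfm.aemeasurable hp0]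
  refine mul_le_mul_right ?_ _
  obtain ⟨ν, hν⟩ : ∃ ν : Measure ℂ, ν = volume.withDensity g := ⟨_, rfl⟩
  -- the level sets
  have key : ∀ t ∈ Ioi (0 : ℝ), volume {a : ℂ | t < f a} * ENNReal.ofReal (t ^ (p - 1))
      ≤ 200 * (ν {a : ℂ | t < G a} * ENNReal.ofReal (t ^ (p - 1 - 1))) := by
    intro t ht
    have ht0 : (0 : ℝ) < t := ht
    obtain ⟨A, hA⟩ : ∃ A : Set ℂ, A = {a : ℂ | t < G a} := ⟨_, rfl⟩
    have hAm : MeasurableSet A := by rw [hA]; exact measurableSet_lt measurable_const hGm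
    have hsub : {a : ℂ | t < f a} ⊆ {x | ENNReal.ofReal (t / 2) < Mx R₀ (A.indicator g) x} := by
      intro x hx
      have hx' : t < f x := hx
      have h1 : ∀ y, g y ≤ A.indicator g y + ENNReal.ofReal (t / 8) := by
        intro y
        by_cases hy : y ∈ A
        · rw [indicator_of_mem hy]
          exact le_self_add
        · rw [indicator_of_notMem hy, zero_add]
          rw [hA, hG] at hy
          have hy' : ¬ t < 8 * (g y).toReal := hy
          rw [← ENNReal.ofReal_toReal (hgt y)]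
          apply ENNReal.ofReal_le_ofReal
          linarith
      have h2 := Mx_add h h1 x
      have h3 : ENNReal.ofReal t < Mx R₀ g x := by
        rw [hf] at hx'
        exact (ENNReal.ofReal_lt_iff_lt_toReal ht0.le (hMt x)).2 hx'
      have h4 : (4 : ℝ≥0∞) * ENNReal.ofReal (t / 8) = ENNReal.ofReal (t / 2) := by
        have : (4 : ℝ≥0∞) = ENNReal.ofReal 4 := by simp
        rw [this, ← ENNReal.ofReal_mul (by norm_num)]
        congr 1
        ring
      rw [h4] at h2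
      show ENNReal.ofReal (t / 2) < Mx R₀ (A.indicator g) x
      by_contra h5
      push Not at h5
      have h6 : Mx R₀ g x ≤ ENNReal.ofReal t := by
        refine h2.trans ((add_le_add h5 le_rfl).trans (le_of_eq ?_))
        rw [← ENNReal.ofReal_add (by positivity) (by positivity)]
        congr 1
        ring
      exact absurd h3 (not_lt.2 h6)
    have hw := weak h (g := A.indicator g) (l := ENNReal.ofReal (t / 2))
      (by rw [Ne, ENNReal.ofReal_eq_zero, not_le]; positivity)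
    rw [lintegral_indicator hAm] at hw
    have hν' : ν A = ∫⁻ y in A, g y := by rw [hν, withDensity_apply _ hAm]
    rw [← hν'] at hw
    have h7 : ENNReal.ofReal (t / 2) * volume {a : ℂ | t < f a} ≤ 100 * ν A :=
      (mul_le_mul_right (measure_mono hsub) _).trans hw
    have h8 : ENNReal.ofReal (t ^ (p - 1))
        = 2 * (ENNReal.ofReal (t / 2) * ENNReal.ofReal (t ^ (p - 1 - 1))) := by
      have : (2 : ℝ≥0∞) = ENNReal.ofReal 2 := by simp
      rw [this, ← ENNReal.ofReal_mul (by positivity), ← ENNReal.ofReal_mul (by norm_num)]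
      congr 1
      rw [Real.rpow_sub_one ht0.ne' (p - 1)]
      field_simp
    rw [h8, ← hA]
    calc volume {a : ℂ | t < f a} * (2 * (ENNReal.ofReal (t / 2) * ENNReal.ofReal (t ^ (p - 1 - 1))))
        = 2 * ENNReal.ofReal (t ^ (p - 1 - 1)) *
            (ENNReal.ofReal (t / 2) * volume {a : ℂ | t < f a}) := by ring
      _ ≤ 2 * ENNReal.ofReal (t ^ (p - 1 - 1)) * (100 * ν A) := by gcongr
      _ = 200 * (ν A * ENNReal.ofReal (t ^ (p - 1 - 1))) := by
          rw [show (200 : ℝ≥0∞) = 2 * 100 by norm_num]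
          ring
  refine (setLIntegral_mono' measurableSet_Ioi key).trans ?_
  rw [lintegral_const_mul' _ _ (by norm_num)]
  refine mul_le_mul_right ?_ _
  have e2 := lintegral_rpow_eq_lintegral_meas_lt_mul ν (f := G)
    (Filter.Eventually.of_forall fun x => by
      rw [hG]
      exact mul_nonneg (by norm_num) ENNReal.toReal_nonneg)
    hGm.aemeasurable hp1
  have e3 : ∫⁻ x, ENNReal.ofReal (G x ^ (p - 1)) ∂ν
      = ENNReal.ofReal (8 ^ (p - 1)) * ∫⁻ x, g x ^ p := by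
    rw [hν, lintegral_withDensity_eq_lintegral_mul _ hg
      ((hGm.pow_const (p - 1)).ennreal_ofReal), ← lintegral_const_mul' _ _ ENNReal.ofReal_ne_top]
    refine lintegral_congr fun x => ?_
    simp only [Pi.mul_apply]
    rw [hG]
    simp only
    rw [Real.mul_rpow (by norm_num) ENNReal.toReal_nonneg, ENNReal.ofReal_mul (by positivity),
      ← ENNReal.ofReal_rpow_of_nonneg ENNReal.toReal_nonneg hp1.le, ENNReal.ofReal_toReal (hgt x)]
    have e4 : g x ^ p = g x * g x ^ (p - 1) := by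
      have : p = 1 + (p - 1) := by ring
      conv_lhs => rw [this]
      rw [ENNReal.rpow_add_of_nonneg _ _ (by norm_num) hp1.le, ENNReal.rpow_one]
    rw [e4]
    ring
  rw [e3] at e2
  have h9 : ENNReal.ofReal (p - 1) ≠ 0 := by
    rw [Ne, ENNReal.ofReal_eq_zero, not_le]
    exact hp1
  rw [mul_left_comm, e2, ← mul_assoc, ENNReal.inv_mul_cancel h9 ENNReal.ofReal_ne_top, one_mul]

/-- The case of the exponent two. -/
theorem strong2 (h : 0 < R₀) {g : ℂ → ℝ≥0∞} (hg : Measurable g) {B : ℝ≥0∞}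
    (hBt : B ≠ ⊤) (hB : ∀ x, g x ≤ B) : ∫⁻ x, Mx R₀ g x ^ 2 ≤ 3200 * ∫⁻ x, g x ^ 2 := by
  have h1 := strong (p := 2) (by norm_num) h hg hBt hB
  have h2 : (2 : ℝ) - 1 = 1 := by norm_num
  rw [h2] at h1
  simp only [ENNReal.rpow_two, Real.rpow_one, ENNReal.ofReal_one, inv_one, one_mul] at h1
  refine h1.trans (le_of_eq ?_)
  have e2 : ENNReal.ofReal 2 = 2 := by simp
  have e8 : ENNReal.ofReal 8 = 8 := by simp
  rw [e2, e8, ← mul_assoc, ← mul_assoc]
  norm_num

/-- No bound is needed. -/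
theorem strong2' (h : 0 < R₀) {g : ℂ → ℝ≥0∞} (hg : Measurable g) :
    ∫⁻ x, Mx R₀ g x ^ 2 ≤ 3200 * ∫⁻ x, g x ^ 2 := by
  -- truncation
  have hcut : ∀ n : ℕ, ∫⁻ x, Mx R₀ (fun y => min (g y) n) x ^ 2 ≤ 3200 * ∫⁻ x, g x ^ 2 := by
    intro n
    refine (strong2 h (hg.min measurable_const) (B := n) (ENNReal.natCast_ne_top n)
      (fun x => min_le_right _ _)).trans ?_
    gcongr
    exact min_le_left _ _
  have hsup : ∀ x, Mx R₀ g x = ⨆ n : ℕ, Mx R₀ (fun y => min (g y) n) x := by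
    intro x
    unfold Mx
    rw [iSup_comm]
    congr 1
    funext m
    have h1 : ∫⁻ y in ball x (Rr R₀ m), g y = ⨆ n : ℕ, ∫⁻ y in ball x (Rr R₀ m), min (g y) n := by
      rw [← lintegral_iSup (fun n => hg.min measurable_const)
        (fun a b hab y => min_le_min le_rfl (by exact_mod_cast hab))]
      congr 1
      funext y
      refine le_antisymm ?_ (iSup_le fun n => min_le_left _ _)
      by_cases hy : g y = ⊤
      · rw [hy]
        have : ∀ n : ℕ, min (⊤ : ℝ≥0∞) n = n := fun n => min_eq_right le_top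
        simp only [this, ENNReal.iSup_natCast]
        exact le_rfl
      · obtain ⟨n, hn⟩ := ENNReal.exists_nat_gt hy
        exact (le_iSup_of_le n (by rw [min_eq_left hn.le]))
    rw [h1, ENNReal.iSup_div]
  have hmono : Monotone fun (n : ℕ) (x : ℂ) => Mx R₀ (fun y => min (g y) n) x ^ 2 := by
    intro a b hab x
    have : Mx R₀ (fun y => min (g y) a) x ≤ Mx R₀ (fun y => min (g y) b) x := by
      refine iSup_mono fun m => ?_
      refine ENNReal.div_le_div_right (lintegral_mono fun y => ?_) _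
      exact min_le_min le_rfl (by exact_mod_cast hab)
    exact pow_le_pow_left₀ zero_le this 2
  calc ∫⁻ x, Mx R₀ g x ^ 2 = ∫⁻ x, ⨆ n : ℕ, Mx R₀ (fun y => min (g y) n) x ^ 2 := by
        refine lintegral_congr fun x => ?_
        rw [hsup x, ENNReal.iSup_pow]
    _ = ⨆ n : ℕ, ∫⁻ x, Mx R₀ (fun y => min (g y) n) x ^ 2 :=
        lintegral_iSup (fun n => (meas_Mx (hg.min measurable_const)).pow_const 2) hmono
    _ ≤ _ := iSup_le hcut

theorem Mx_mono (g : ℂ → ℝ≥0∞) : Monotone fun (N : ℕ) (x : ℂ) => Mx (2 ^ N) g x := by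
  refine monotone_nat_of_le_succ ?_
  intro N x
  refine iSup_le fun m => ?_
  have h : Rr (2 ^ N) m = Rr (2 ^ (N + 1)) (m + 1) := by
    unfold Rr
    rw [pow_succ, pow_succ]
    field_simp
  rw [h]
  exact le_iSup (fun m : ℕ => (∫⁻ y in ball x (Rr (2 ^ (N + 1)) m), g y)
    / ENNReal.ofReal (Rr (2 ^ (N + 1)) m ^ 2)) (m + 1)

theorem HM_le (g : ℂ → ℝ≥0∞) (z : ℂ) : HM g z ≤ 2 * ⨆ N : ℕ, Mx (2 ^ N) g z := by
  unfold HM
  refine iSup_le fun ρ => iSup_le fun hρ => ?_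
  obtain ⟨n, hn1, hn2⟩ := exists_mem_Ico_zpow hρ (by norm_num : (1 : ℝ) < 2)
  set k : ℤ := n + 1 with hk
  have hr : Rr (2 ^ k.toNat) (-k).toNat = (2 : ℝ) ^ k := by
    unfold Rr
    rw [← zpow_natCast, ← zpow_natCast, ← zpow_sub₀ (by norm_num : (2 : ℝ) ≠ 0), Int.toNat_sub_toNat_neg]
  set r : ℝ := (2 : ℝ) ^ k with hrd
  have hr0 : 0 < r := by positivity
  have hρr : ρ ≤ r := hn2.le
  have hr2 : r ≤ 2 * ρ := by
    have : r = 2 * (2 : ℝ) ^ n := by
      rw [hrd, hk, zpow_add₀ (by norm_num : (2 : ℝ) ≠ 0), zpow_one, mul_comm]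
    rw [this]
    linarith
  have h1 : (∫⁻ w in ball z r, g w) / ENNReal.ofReal (r ^ 2) ≤ ⨆ N : ℕ, Mx (2 ^ N) g z := by
    refine le_trans ?_ (le_iSup (fun N : ℕ => Mx (2 ^ N) g z) k.toNat)
    refine le_trans ?_ (le_iSup (fun m : ℕ => (∫⁻ y in ball z (Rr (2 ^ k.toNat) m), g y)
      / ENNReal.ofReal (Rr (2 ^ k.toNat) m ^ 2)) (-k).toNat)
    rw [hr]
  refine le_trans ?_ (mul_le_mul_right h1 2)
  have hR0 : ENNReal.ofReal (r ^ 2) ≠ 0 := by
    rw [Ne, ENNReal.ofReal_eq_zero, not_le]; positivity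
  have hRP : ENNReal.ofReal (r ^ 2) ≤ 2 * ENNReal.ofReal (Real.pi * ρ ^ 2) := by
    have e2 : (2 : ℝ≥0∞) = ENNReal.ofReal 2 := by simp
    rw [e2, ← ENNReal.ofReal_mul (by norm_num)]
    apply ENNReal.ofReal_le_ofReal
    have h3 : r ^ 2 ≤ (2 * ρ) ^ 2 := pow_le_pow_left₀ hr0.le hr2 2
    have h4 : 2 ≤ Real.pi := Real.two_le_pi
    nlinarith [sq_nonneg ρ]
  refine ENNReal.div_le_of_le_mul ?_
  calc ∫⁻ w in ball z ρ, g w ≤ ∫⁻ w in ball z r, g w := by
        refine lintegral_mono_set ?_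
        exact ball_subset_ball hρr
    _ = (∫⁻ w in ball z r, g w) / ENNReal.ofReal (r ^ 2) * ENNReal.ofReal (r ^ 2) := by
        rw [ENNReal.div_mul_cancel hR0 ENNReal.ofReal_ne_top]
    _ ≤ (∫⁻ w in ball z r, g w) / ENNReal.ofReal (r ^ 2) * (2 * ENNReal.ofReal (Real.pi * ρ ^ 2)) := by
        gcongr
    _ = _ := by ring

end HlL

open HlL in
theorem hl : S_HL := by
  refine ⟨12800, by norm_num, ?_⟩
  intro g hg
  have e1 : ENNReal.ofReal 12800 = 12800 := by simp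
  rw [e1]
  calc ∫⁻ z, HM g z ^ 2 ≤ ∫⁻ z, 4 * (⨆ N : ℕ, Mx (2 ^ N) g z ^ 2) := by
        refine lintegral_mono fun z => ?_
        calc HM g z ^ 2 ≤ (2 * ⨆ N : ℕ, Mx (2 ^ N) g z) ^ 2 := pow_le_pow_left₀ zero_le (HM_le g z) 2
          _ = 4 * (⨆ N : ℕ, Mx (2 ^ N) g z ^ 2) := by
              rw [mul_pow, ENNReal.iSup_pow]; norm_num
    _ = 4 * ∫⁻ z, ⨆ N : ℕ, Mx (2 ^ N) g z ^ 2 := lintegral_const_mul' _ _ (by norm_num)
    _ = 4 * ⨆ N : ℕ, ∫⁻ z, Mx (2 ^ N) g z ^ 2 := by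
        rw [lintegral_iSup (fun N => (meas_Mx hg).pow_const 2)]
        intro a b hab x
        exact pow_le_pow_left₀ zero_le (Mx_mono g hab x) 2
    _ ≤ 4 * (3200 * ∫⁻ z, g z ^ 2) := by
        refine mul_le_mul_right ?_ _
        exact iSup_le fun N => strong2' (by positivity) hg
    _ = 12800 * ∫⁻ z, g z ^ 2 := by
        rw [← mul_assoc]; norm_num

end Pool.Agent.Helper93K9.PE
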