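import Pool.Agent.Helper93K9.PE.Stm

/-! Project PE: the leaf JET. -/

set_option autoImplicit false
open MeasureTheory Filter Topology Complex
open scoped ContDiff

namespace Pool.Agent.Helper93K9.PE

open Pool.Agent.W745.RW Pool.Agent.TH294.RS Pool.Agent.Y265.HY

noncomputable section

namespace JetL

variable {B : Set ℂ} {h : ℕ → ℝ} {w : ℤ → ℕ → ℂ → ℂ}

/-- the function `t y` -/
def ty (t : ℝ) (z : ℂ) : ℂ := ((t * z.im : ℝ) : ℂ)

lemma ty_sm (t : ℝ) : ContDiff ℝ ∞ (ty t) :=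
  ofRealCLM.contDiff.comp (contDiff_const.mul imCLM.contDiff)

lemma ty_fd (t : ℝ) (z v : ℂ) : fderiv ℝ (ty t) z v = ((t * v.im : ℝ) : ℂ) := by
  have h1 : HasFDerivAt (ty t) ((ofRealCLM : ℝ →L[ℝ] ℂ).comp (t • imCLM)) z := by
    have h2 : HasFDerivAt (fun z : ℂ => t * z.im) (t • imCLM) z := by
      exact (imCLM.hasFDerivAt (x := z)).const_mul t
    exact (ofRealCLM.hasFDerivAt (x := t * z.im)).comp z h2
  rw [h1.fderiv]
  simp

lemma ty_dd (t : ℝ) (z : ℂ) : dd (ty t) z = -(t : ℂ) * I := by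
  simp only [dd, dx, dy, ty_fd]; simp; ring

lemma ty_db (t : ℝ) (z : ℂ) : db (ty t) z = (t : ℂ) * I := by
  simp only [db, dx, dy, ty_fd]; simp; ring

lemma ty_da (t : ℝ) (z : ℂ) : DifferentiableAt ℝ (ty t) z :=
  (ty_sm t).contDiffAt.differentiableAt (by simp)

lemma typ_da (t : ℝ) (m : ℕ) (z : ℂ) : DifferentiableAt ℝ (fun z => ty t z ^ m) z :=
  (ty_da t z).pow m

lemma typ_dd (t : ℝ) (m : ℕ) (z : ℂ) :
    ty t z * dd (fun z => ty t z ^ m) z = -((m : ℂ) * t * I) * ty t z ^ m := by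
  induction m with
  | zero =>
    have : dd (fun _ : ℂ => (1 : ℂ)) z = 0 := by simp [dd, dx, dy]
    simp only [pow_zero, this]; push_cast; ring
  | succ m ih =>
    have e : (fun z => ty t z ^ (m + 1)) = fun z => ty t z ^ m * ty t z := by
      funext z; rw [pow_succ]
    rw [e, dd_mul (typ_da t m z) (ty_da t z), ty_dd]
    push_cast
    linear_combination (ty t z) * ih

lemma typ_db (t : ℝ) (m : ℕ) (z : ℂ) :
    ty t z * db (fun z => ty t z ^ m) z = ((m : ℂ) * t * I) * ty t z ^ m := by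
  induction m with
  | zero =>
    have : db (fun _ : ℂ => (1 : ℂ)) z = 0 := by simp [db, dx, dy]
    simp only [pow_zero, this]; push_cast; ring
  | succ m ih =>
    have e : (fun z => ty t z ^ (m + 1)) = fun z => ty t z ^ m * ty t z := by
      funext z; rw [pow_succ]
    rw [e, db_mul (typ_da t m z) (ty_da t z), ty_db]
    push_cast
    linear_combination (ty t z) * ih

lemma dbk_sm (hB : IsOpen B) {f : ℂ → ℂ} (hf : ContDiffOn ℝ ∞ f B) (l : ℕ) :
    ContDiffOn ℝ ∞ (db^[l] f) B := by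
  induction l with
  | zero => exact hf
  | succ l ih => rw [Function.iterate_succ_apply']; exact db_sm hB ih

lemma ddk_sm (hB : IsOpen B) {f : ℂ → ℂ} (hf : ContDiffOn ℝ ∞ f B) (l : ℕ) :
    ContDiffOn ℝ ∞ (dd^[l] f) B := by
  induction l with
  | zero => exact hf
  | succ l ih => rw [Function.iterate_succ_apply']; exact dd_sm hB ih

lemma EJ_eq (u : ℕ → ℂ → ℂ) (k l n : ℕ) (z : ℂ) :
    EJ h u k l n z = ty (h n) z ^ (k + l) * (dd^[k] (db^[l] (u n))) z := rfl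

lemma EJ_M (hB : IsOpen B) {u : ℕ → ℂ → ℂ} (hu : ∀ n, ContDiffOn ℝ ∞ (u n) B) (l n : ℕ) {z : ℂ}
    (hz : z ∈ B) : EJ h u 0 (l + 1) n z = TH294.RS.sM Complex.im h (EJ h u 0 l) n z +
      (h n : ℂ) * ((-(l : ℂ) * I) * EJ h u 0 l n z) := by
  have e : EJ h u 0 l n = fun z => ty (h n) z ^ l * (db^[l] (u n)) z := by
    funext z; rw [EJ_eq, zero_add]; rfl
  have e1 : TH294.RS.sM Complex.im h (EJ h u 0 l) n z =
      ty (h n) z * db (EJ h u 0 l n) z := by
    simp only [TH294.RS.sM, DM, ty]; push_cast; ring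
  rw [e1, e, db_mul (typ_da (h n) l z) (fda hB (dbk_sm hB (hu n) l) hz)]
  have e2 := typ_db (h n) l z
  rw [EJ_eq, zero_add]
  have e3 : (dd^[0] (db^[l + 1] (u n))) z = db (db^[l] (u n)) z := by
    rw [Function.iterate_zero, id, Function.iterate_succ_apply']
  rw [e3]
  linear_combination (-(db^[l] (u n)) z) * e2

lemma EJ_P (hB : IsOpen B) {u : ℕ → ℂ → ℂ} (hu : ∀ n, ContDiffOn ℝ ∞ (u n) B) (k l n : ℕ) {z : ℂ}
    (hz : z ∈ B) : EJ h u (k + 1) l n z = TH294.RS.sP Complex.im h (EJ h u k l) n z +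
      (h n : ℂ) * ((((k + l : ℕ) : ℂ) * I) * EJ h u k l n z) := by
  have e : EJ h u k l n = fun z => ty (h n) z ^ (k + l) * (dd^[k] (db^[l] (u n))) z := by
    funext z; rw [EJ_eq]
  have e1 : TH294.RS.sP Complex.im h (EJ h u k l) n z =
      ty (h n) z * dd (EJ h u k l n) z := by
    simp only [TH294.RS.sP, DP, ty]; push_cast; ring
  rw [e1, e, dd_mul (typ_da (h n) (k + l) z)
    (fda hB (ddk_sm hB (dbk_sm hB (hu n) l) k) hz)]
  have e2 := typ_dd (h n) (k + l) z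
  rw [EJ_eq]
  have e3 : (dd^[k + 1] (db^[l] (u n))) z = dd (dd^[k] (db^[l] (u n))) z := by
    rw [Function.iterate_succ_apply']
  rw [e3, show k + 1 + l = (k + l) + 1 by ring]
  linear_combination (-(dd^[k] (db^[l] (u n))) z) * e2

/-- elements of the ladder up to errors -/
def PR (B : Set ℂ) (h : ℕ → ℝ) (w : ℤ → ℕ → ℂ → ℂ) (F : ℕ → ℂ → ℂ) (c : ℂ) (m : ℤ) : Prop :=
  RP B h w F ∧ ∃ e, M2C B h e ∧ ∀ n, ∀ z ∈ B, F n z = c * w m n z + (h n : ℂ) * e n z

lemma PR.sM (H : SY B Complex.im h w) {F : ℕ → ℂ → ℂ} {c : ℂ} {m : ℤ} (hF : PR B h w F c m) :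
    PR B h w (TH294.RS.sM Complex.im h F) (-c) (m - 1) := by
  obtain ⟨hR, e, he, he'⟩ := hF
  obtain ⟨f, hf, hf'⟩ := H.dn m
  refine ⟨RP.sM H hR, fun n z => c * f n z + TH294.RS.sM Complex.im h e n z,
    (hf.cmul H.op H.hlim c).add H.op (he.sM H.op H.hlim H.sa), fun n z hz => ?_⟩
  have e1 : TH294.RS.sM Complex.im h F n z =
      DM Complex.im (h n) (fun z => c * w m n z + (h n : ℂ) * e n z) z := by
    simp only [TH294.RS.sM, DM]
    rw [db_cg H.op (he' n) hz]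
  have d1 := fda H.op ((H.bd m).sm n) hz
  have d2 := fda H.op (he.sm n) hz
  rw [e1]
  have e2 := hf' n z hz
  simp only [TH294.RS.sM, DM] at e2 ⊢
  rw [Pool.Agent.Y265.HY.db_add (f := fun z => c * w m n z) (g := fun z => (h n : ℂ) * e n z)
    (d1.const_mul c) (d2.const_mul _), db_cm d1, db_cm d2]
  linear_combination c * e2

lemma PR.sP (H : SY B Complex.im h w) {F : ℕ → ℂ → ℂ} {c : ℂ} {m : ℤ} (hF : PR B h w F c m) :
    PR B h w (TH294.RS.sP Complex.im h F) c (m + 1) := by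
  obtain ⟨hR, e, he, he'⟩ := hF
  obtain ⟨f, hf, hf'⟩ := H.up m
  refine ⟨RP.sP H hR, fun n z => c * f n z + TH294.RS.sP Complex.im h e n z,
    (hf.cmul H.op H.hlim c).add H.op (he.sP H.op H.hlim H.sa), fun n z hz => ?_⟩
  have e1 : TH294.RS.sP Complex.im h F n z =
      DP Complex.im (h n) (fun z => c * w m n z + (h n : ℂ) * e n z) z := by
    simp only [TH294.RS.sP, DP]
    rw [dd_cg H.op (he' n) hz]
  have d1 := fda H.op ((H.bd m).sm n) hz
  have d2 := fda H.op (he.sm n) hz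
  rw [e1]
  have e2 := hf' n z hz
  simp only [TH294.RS.sP, DP] at e2 ⊢
  rw [Pool.Agent.Y265.HY.dd_add (f := fun z => c * w m n z) (g := fun z => (h n : ℂ) * e n z)
    (d1.const_mul c) (d2.const_mul _), dd_cm d1, dd_cm d2]
  linear_combination c * e2

lemma PR.adde (H : SY B Complex.im h w) {F G : ℕ → ℂ → ℂ} {c : ℂ} {m : ℤ} (hF : PR B h w F c m)
    (hG : M2C B h G) : PR B h w (fun n z => F n z + (h n : ℂ) * G n z) c m := by
  obtain ⟨hR, e, he, he'⟩ := hF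
  refine ⟨hR.add (RP.err hG), fun n z => e n z + G n z, he.add H.op hG, fun n z hz => ?_⟩
  simp only [he' n z hz]; ring

lemma PR.cg {F G : ℕ → ℂ → ℂ} {c : ℂ} {m : ℤ} (hF : PR B h w F c m)
    (hG : ∀ n, ∀ z ∈ B, G n z = F n z) : PR B h w G c m := by
  obtain ⟨hR, e, he, he'⟩ := hF
  exact ⟨hR.congr hG, e, he, fun n z hz => by rw [hG n z hz, he' n z hz]⟩

lemma main (H : SY B Complex.im h w) (h0 : EX B h w (w 0)) (k l : ℕ) :
    PR B h w (EJ h (w 0) k l) ((-1) ^ l) ((k : ℤ) - l) := by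
  have sm : ∀ n, ContDiffOn ℝ ∞ (w 0 n) B := fun n => (H.bd 0).sm n
  have hM : ∀ {F : ℕ → ℂ → ℂ} {c : ℂ} {m : ℤ}, PR B h w F c m → ∀ c', M2C B h (fun n z => c' * F n z) :=
    fun hF c' => (hF.1.dec.m H).cmul H.op H.hlim c'
  induction k with
  | zero =>
    induction l with
    | zero =>
      refine ⟨(RP.W H h0 0).congr fun n z _ => by simp [EJ], fun _ _ => 0, M2C.zero H.op,
        fun n z _ => by simp [EJ]⟩
    | succ l ih =>
      have h1 := (ih.sM H).adde H (hM ih (-(l : ℂ) * I))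
      have h2 := h1.cg (fun n z hz => EJ_M (h := h) H.op sm l n hz)
      have e1 : -((-1 : ℂ) ^ l) = (-1) ^ (l + 1) := by rw [pow_succ]; ring
      have e2 : ((0 : ℕ) : ℤ) - (l : ℤ) - 1 = ((0 : ℕ) : ℤ) - ((l + 1 : ℕ) : ℤ) := by
        push_cast; ring
      rw [e1, e2] at h2
      exact h2
  | succ k ih =>
    have h1 := (ih.sP H).adde H (hM ih (((k + l : ℕ) : ℂ) * I))
    have h2 := h1.cg (fun n z hz => EJ_P (h := h) H.op sm k l n hz)
    have e2 : ((k : ℕ) : ℤ) - (l : ℤ) + 1 = ((k + 1 : ℕ) : ℤ) - (l : ℤ) := by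
      push_cast; ring
    rw [e2] at h2
    exact h2

end JetL

theorem jet : S_JET := fun _ _ _ H h0 k l => JetL.main H h0 k l

end

end Pool.Agent.Helper93K9.PE
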