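import Pool.Agent.Helper93K9.PE.Mes

/-! Project PE: the moments of order at most four. -/

set_option autoImplicit false
open MeasureTheory Filter Topology Complex ProbabilityTheory
open scoped ContDiff

namespace Pool.Agent.Helper93K9.PE.FinL

open Pool.Agent.W745.RW Pool.Agent.TH294.RS Pool.Agent.Y265.HY

noncomputable section

variable {lam : ℕ → ℝ} {f : ℕ → ℂ → ℝ}

/-- the moments of the standard Gaussian -/
def gm (k : ℕ) : ℝ := if Even k then ((Nat.doubleFactorial (k - 1) : ℕ) : ℝ) else 0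

/-- the cases `n ≤ 4` -/
def ML (f : ℕ → ℂ → ℝ) : Prop := ∀ k : ℕ, 1 ≤ k → k ≤ 4 → ∀ φ, TF UH φ →
  Tendsto (fun n => ∫ z, φ z * f n z ^ k) atTop (𝓝 (gm k * ∫ z, φ z))

lemma first (S : Seq lam f) {φ : ℂ → ℝ} (hφ : TF UH φ) :
    Tendsto (fun n => ∫ z, φ z * f n z) atTop (𝓝 0) := by
  obtain ⟨H, -⟩ := sys S
  obtain ⟨e, he, he'⟩ := H.dn 1
  have o1 : ContDiffOn ℝ ∞ (fun _ : ℂ => (1 : ℂ)) UH := contDiffOn_const
  have l1 : LB UH 1 (fun n z => (1 : ℂ) * WL lam f 1 n z) :=
    LB.mul2 (LB.const UH 2 o1) (H.bd 1).lb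
  have l2 : LB UH 1 (fun n z => (1 : ℂ) * e n z) := LB.mul2 (LB.const UH 2 o1) he.lb
  have h1 := ((l2.wn H.hlim).sub (l1.wnM H.op H.hlim H.sa)).congr
    (g := fun n z => WL lam f 0 n z) fun n z hz => by
      have := he' n z hz
      simp only [one_mul]
      rw [sub_self] at this
      linear_combination this
  have h2 := h1.nul φ hφ
  have h3 : Tendsto (fun n => ((∫ z, φ z * f n z : ℝ) : ℂ)) atTop (𝓝 ((0 : ℝ) : ℂ)) := by
    rw [ofReal_zero]
    refine Tendsto.congr (fun n => ?_) h2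
    rw [← integral_complex_ofReal]
    congr 1; funext z
    rw [WL0]; push_cast; ring
  exact toR h3

lemma third (S : Seq lam f) {φ : ℂ → ℝ} (hφ : TF UH φ) :
    Tendsto (fun n => ∫ z, φ z * f n z ^ 3) atTop (𝓝 0) := by
  have key := hyp_third UHo UHp S.pos S.lim S.sm S.eq S.qe (tfy' hφ) 0 0 0
  simp only [yy hφ] at key
  have h3 : Tendsto (fun n => ((∫ z, φ z * f n z ^ 3 : ℝ) : ℂ)) atTop (𝓝 ((0 : ℝ) : ℂ)) := by
    rw [ofReal_zero]
    refine Tendsto.congr (fun n => ?_) key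
    rw [← integral_complex_ofReal]
    congr 1; funext z
    have : FW (lam n) (f n) 0 z = (f n z : ℂ) := rfl
    rw [this]; push_cast; ring
  exact toR h3

lemma M4_ML (S : Seq lam f) : M4 f ↔ ML f := by
  have g1 : gm 1 = 0 := by simp [gm]
  have g2 : gm 2 = 1 := by simp [gm]
  have g3 : gm 3 = 0 := by simp [gm, show ¬ Even 3 by decide]
  have g4 : gm 4 = 3 := by simp [gm, show Even 4 by decide, Nat.doubleFactorial]
  constructor
  · intro H k h1 h4 φ hφ
    interval_cases k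
    · rw [g1, zero_mul]
      simpa using first S hφ
    · rw [g2, one_mul]; exact mass S hφ
    · rw [g3, zero_mul]; exact third S hφ
    · rw [g4]; exact H φ hφ
  · intro H φ hφ
    have := H 4 (by norm_num) (le_refl 4) φ hφ
    rwa [g4] at this

end

end Pool.Agent.Helper93K9.PE.FinL
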