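import Pool.Agent.Helper93K9.PE.Sws
import Pool.Agent.Helper93K9.PE.Hl
import Pool.Agent.Helper93K9.PE.ArC
import Pool.Agent.Helper93K9.PE.Core

/-! Project PE (helper93): maximal equidistribution, the assembly. -/

set_option autoImplicit false
open MeasureTheory Set Metric Filter Topology
open scoped ENNReal ContDiff

namespace Pool.Agent.Helper93K9.PE

open Pool.Agent.W745.RW Pool.Agent.TH294.RS Pool.Agent.Y265.HY

noncomputable section

namespace MaxL

open SwsL FinL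

/-- open sets containing `z`, contained in a disc of radius `r im c` with centre `c`, `a ≤ r ≤ b`, and
star-shaped with respect to all points of the disc of radius `κ r im c` -/
def Adm (κ a b : ℝ) (z : ℂ) (E : Set ℂ) : Prop :=
  IsOpen E ∧ z ∈ E ∧ ∃ (c : ℂ) (r : ℝ), a ≤ r ∧ r ≤ b ∧ E ⊆ ball c (r * c.im) ∧
    ∀ v ∈ ball c (κ * (r * c.im)), ∀ u ∈ E, segment ℝ v u ⊆ E

/-- the maximal deviation of the means from `1` -/
def MX (κ a b : ℝ) (F : ℂ → ℝ) (z : ℂ) : ℝ≥0∞ :=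
  ⨆ (E : Set ℂ) (_ : Adm κ a b z E), ENNReal.ofReal |(volume E).toReal⁻¹ * (∫ w in E, F w) - 1|

/-- the same for discs with centre `z` -/
def MD (a b : ℝ) (F : ℂ → ℝ) (z : ℂ) : ℝ≥0∞ :=
  ⨆ (r : ℝ) (_ : a ≤ r ∧ r ≤ b), ENNReal.ofReal |mn (r * z.im) F z - 1|

lemma MX_lsc (κ a b : ℝ) (F : ℂ → ℝ) : LowerSemicontinuous (MX κ a b F) := by
  intro z t ht
  unfold MX at ht
  rw [gt_iff_lt, lt_iSup_iff] at ht
  obtain ⟨E, hE⟩ := ht
  rw [lt_iSup_iff] at hE
  obtain ⟨⟨hEo, hzE, hr⟩, h⟩ := hE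
  filter_upwards [hEo.mem_nhds hzE] with w hw
  refine lt_of_lt_of_le h ?_
  exact le_iSup₂_of_le E ⟨hEo, hw, hr⟩ le_rfl

lemma MX_meas (κ a b : ℝ) (F : ℂ → ℝ) : Measurable (MX κ a b F) := (MX_lsc κ a b F).measurable

lemma const_aux {p q A B : ℝ} (hp : 0 ≤ p) (hq : 0 ≤ q) (hA : 0 < A) (hB : 0 < B)
    (h : p * A⁻¹ = q * B⁻¹) (J : ℝ≥0∞) :
    ENNReal.ofReal p * (ENNReal.ofReal A)⁻¹ * J = ENNReal.ofReal q * (J / ENNReal.ofReal B) := by
  rw [ENNReal.div_eq_inv_mul, ← ENNReal.ofReal_inv_of_pos hA, ← ENNReal.ofReal_inv_of_pos hB,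
    ← mul_assoc, ← ENNReal.ofReal_mul hp, ← ENNReal.ofReal_mul hq, h]

/-- the pointwise bound by the maximal function of Hardy and Littlewood -/
lemma ptw {F : ℂ → ℝ} (hFc : ContinuousOn F UH) (hF0 : ∀ z, 0 ≤ F z) {δ s κ a b : ℝ}
    (hδ : 0 < δ) (hδ1 : δ ≤ 1 / 16) (hs : 0 < s) (hsδ : s ≤ δ) (hκ : 0 < κ) (hκ1 : κ ≤ 1)
    (ha : 0 < a) (hb : b ≤ 1 / 4) (hsa : s ≤ δ * κ * a) {z : ℂ} {K' : Set ℂ}
    (hK : ∀ (c : ℂ) (r : ℝ), 0 < r → r ≤ b → dist z c < r * c.im →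
      ball c (2 * (r * c.im)) ⊆ K') {g : ℂ → ℝ≥0∞}
    (hg : ∀ w ∈ K', ENNReal.ofReal |mn (s * w.im) F w - 1| ≤ g w) :
    MX κ a b F z ≤ ENNReal.ofReal (12 * δ) + ENNReal.ofReal (18 / κ ^ 2) * HM g z := by
  refine iSup₂_le fun E hE => ?_
  obtain ⟨hEo, hzE, c, r, har, hrb, hEb, hst⟩ := hE
  have hr : 0 < r := ha.trans_le har
  have hzc : dist z c < r * c.im := mem_ball.1 (hEb hzE)
  have hρ : 0 < r * c.im := lt_of_le_of_lt dist_nonneg hzc
  have hc : 0 < c.im := by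
    by_contra h
    push Not at h
    have := mul_nonpos_of_nonneg_of_nonpos hr.le h
    linarith
  have hsr : s ≤ δ * κ * r := hsa.trans (by gcongr)
  have h1 := sws hFc hF0 hδ hδ1 hs hsδ hκ hκ1 hr (hrb.trans hb) hsr (c := c) hc
    ⟨hEo.measurableSet, hEb, hst⟩ ⟨z, hzE⟩
  refine h1.trans (add_le_add le_rfl ?_)
  set ρ : ℝ := r * c.im with hρd
  have hpi := Real.pi_pos
  have hκE : ball c (κ * ρ) ⊆ E := fun v hv => hst v hv z hzE (left_mem_segment ℝ v z)
  have hvol : ENNReal.ofReal (Real.pi * (κ * ρ) ^ 2) ≤ volume E := by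
    rw [← SwlL.vol_ball c (by positivity : 0 ≤ κ * ρ)]
    exact measure_mono hκE
  have h2 : ∫⁻ w in ball c (2 * ρ), ENNReal.ofReal |mn (s * w.im) F w - 1| ≤
      ∫⁻ w in ball z (3 * ρ), g w := by
    calc _ ≤ ∫⁻ w in ball c (2 * ρ), g w :=
          setLIntegral_mono' measurableSet_ball fun w hw => hg w (hK c r hr hrb hzc hw)
      _ ≤ _ := by
          apply lintegral_mono_set
          apply ball_subset_ball'
          rw [dist_comm]
          linarith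
  have h3 : (∫⁻ w in ball z (3 * ρ), g w) / ENNReal.ofReal (Real.pi * (3 * ρ) ^ 2) ≤ HM g z := by
    unfold HM
    exact le_iSup₂_of_le (3 * ρ) (by positivity) le_rfl
  set J := ∫⁻ w in ball z (3 * ρ), g w with hJ
  calc 2 * (volume E)⁻¹ * ∫⁻ w in ball c (2 * ρ), ENNReal.ofReal |mn (s * w.im) F w - 1|
      ≤ 2 * (ENNReal.ofReal (Real.pi * (κ * ρ) ^ 2))⁻¹ * J := by
        refine mul_le_mul' (mul_le_mul' le_rfl (ENNReal.inv_le_inv.2 hvol)) h2
    _ = ENNReal.ofReal (18 / κ ^ 2) * (J / ENNReal.ofReal (Real.pi * (3 * ρ) ^ 2)) := by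
        rw [show (2 : ℝ≥0∞) = ENNReal.ofReal 2 by simp]
        refine const_aux (by positivity) (by positivity) (by positivity) (by positivity) ?_ J
        field_simp
        ring
    _ ≤ _ := mul_le_mul' le_rfl h3

lemma four_sq (p q : ℝ≥0∞) : (p + q) ^ 2 ≤ 4 * p ^ 2 + 4 * q ^ 2 := by
  have h : ∀ p q : ℝ≥0∞, p ≤ q → (p + q) ^ 2 ≤ 4 * p ^ 2 + 4 * q ^ 2 := by
    intro p q h
    calc (p + q) ^ 2 ≤ (q + q) ^ 2 := by gcongr
      _ = 4 * q ^ 2 := by rw [← two_mul, mul_pow]; norm_num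
      _ ≤ _ := le_add_left le_rfl
  rcases le_total p q with h1 | h1
  · exact h p q h1
  · rw [add_comm p q, add_comm (4 * p ^ 2)]
    exact h q p h1

variable {lam : ℕ → ℝ} {f : ℕ → ℂ → ℝ}

/-- maximal equidistribution -/
def MM (lam : ℕ → ℝ) (f : ℕ → ℂ → ℝ) (κ : ℝ) : Prop :=
  ∀ φ, TF UH φ → (∀ z, 0 ≤ φ z) → ∀ ε : ℝ, 0 < ε → ∃ R₀ r₀ : ℝ, 0 < R₀ ∧ 0 < r₀ ∧ ∀ᶠ n in atTop,
    ∫⁻ z, ENNReal.ofReal (φ z) * MX κ (R₀ / √(lam n)) r₀ (fun w => f n w ^ 2) z ^ 2 ≤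
      ENNReal.ofReal ε

def MMD (lam : ℕ → ℝ) (f : ℕ → ℂ → ℝ) : Prop :=
  ∀ φ, TF UH φ → (∀ z, 0 ≤ φ z) → ∀ ε : ℝ, 0 < ε → ∃ R₀ r₀ : ℝ, 0 < R₀ ∧ 0 < r₀ ∧ ∀ᶠ n in atTop,
    ∫⁻ z, ENNReal.ofReal (φ z) * MD (R₀ / √(lam n)) r₀ (fun w => f n w ^ 2) z ^ 2 ≤
      ENNReal.ofReal ε

theorem MP_MM (hHL : S_HL) (S : Seq lam f) (H : MP lam f) {κ : ℝ} (hκ : 0 < κ) (hκ1 : κ ≤ 1) :
    MM lam f κ := by
  intro φ hφ hφ0 ε hε
  obtain ⟨C, hC0, hHL⟩ := hHL
  set K := tsupport φ with hK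
  have hKc : IsCompact K := hφ.2.1.isCompact
  obtain ⟨d, hd, hdU⟩ := hKc.exists_cthickening_subset_open UHo hφ.2.2
  set K' := cthickening d K with hK'
  have hK'c : IsCompact K' := hKc.cthickening
  obtain ⟨ψ, hψ, hψ0, -, hψ1⟩ := Pool.Agent.Y265.RW.cutoff UHo hK'c hdU
  obtain ⟨Y0, hY0⟩ := hKc.exists_bound_of_continuousOn (f := fun z : ℂ => z.im)
    Complex.continuous_im.continuousOn
  set Y : ℝ := max Y0 1 with hY
  have hY1 : 1 ≤ Y := le_max_right _ _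
  have hYK : ∀ z ∈ K, z.im ≤ Y := fun z hz =>
    ((le_abs_self _).trans (hY0 z hz)).trans (le_max_left _ _)
  set r₀ : ℝ := min (1 / 4) (d / (6 * Y)) with hr₀
  have hr₀0 : 0 < r₀ := by positivity
  have hr₀4 : r₀ ≤ 1 / 4 := min_le_left _ _
  have hr₀d : 6 * Y * r₀ ≤ d := by
    have h1 : r₀ ≤ d / (6 * Y) := min_le_right _ _
    rw [le_div_iff₀ (by positivity)] at h1
    linarith
  have hgeo : ∀ z ∈ K, ∀ (c : ℂ) (r : ℝ), 0 < r → r ≤ r₀ → dist z c < r * c.im →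
      ball c (2 * (r * c.im)) ⊆ K' := by
    intro z hz c r hr hrr hzc w hw
    have hρ : 0 < r * c.im := lt_of_le_of_lt dist_nonneg hzc
    have hc : 0 < c.im := by
      by_contra h
      push Not at h
      have := mul_nonpos_of_nonneg_of_nonpos hr.le h
      linarith
    have h1 : |c.im - z.im| < r * c.im := SwlL.im_close (by rw [dist_comm]; exact hzc)
    have h2 := (abs_lt.1 h1).2
    have h3 : r * c.im ≤ 1 / 4 * c.im := by
      have := hrr.trans hr₀4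
      gcongr
    have h4 : c.im ≤ 2 * Y := by
      have := hYK z hz
      linarith
    refine mem_cthickening_of_dist_le w z d K hz ?_
    have h5 := mem_ball.1 hw
    calc dist w z ≤ dist w c + dist c z := dist_triangle _ _ _
      _ ≤ 2 * (r * c.im) + r * c.im := by rw [dist_comm c z]; linarith
      _ = 3 * r * c.im := by ring
      _ ≤ 3 * r₀ * (2 * Y) := by gcongr
      _ ≤ d := by linarith
  obtain ⟨A0, hA0⟩ := hKc.exists_bound_of_continuousOn hφ.1.continuous.continuousOn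
  set A : ℝ := |A0| with hA
  have hAφ : ∀ z, φ z ≤ A := by
    intro z
    by_cases hz : z ∈ K
    · exact (le_abs_self _).trans ((hA0 z hz).trans (le_abs_self _))
    · rw [image_eq_zero_of_notMem_tsupport hz]; exact abs_nonneg _
  set I : ℝ := ∫ z, φ z with hI
  have hI0 : 0 ≤ I := integral_nonneg hφ0
  set δ : ℝ := min (1 / 16) (ε / (1152 * (I + 1))) with hδ
  have hδ0 : 0 < δ := by positivity
  have hδ1 : δ ≤ 1 / 16 := min_le_left _ _
  have hδI : 576 * δ ^ 2 * I ≤ ε / 2 := by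
    have h1 : δ ≤ ε / (1152 * (I + 1)) := min_le_right _ _
    rw [le_div_iff₀ (by positivity)] at h1
    have h2 : δ ^ 2 ≤ δ := by nlinarith
    have h3 : 576 * δ ^ 2 * I ≤ 576 * δ * I := by gcongr
    nlinarith
  set D : ℝ := A * (4 * (18 / κ ^ 2) ^ 2) with hD
  have hD0 : 0 ≤ D := by positivity
  set ε' : ℝ := ε / (2 * (D * C + 1)) with hε'
  have hε'0 : 0 < ε' := by positivity
  have hDε : D * (C * ε') ≤ ε / 2 := by
    have : D * (C * ε') = (D * C / (D * C + 1)) * (ε / 2) := by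
      rw [hε']; field_simp
    rw [this]
    apply mul_le_of_le_one_left (by positivity)
    rw [div_le_one (by positivity)]
    linarith
  obtain ⟨R, hR, hMP⟩ := H ψ hψ hψ0 ε' hε'0
  refine ⟨R / (δ * κ), r₀, by positivity, hr₀0, ?_⟩
  filter_upwards [hMP, AR_cont S hR, (s_small S R).eventually (ge_mem_nhds hδ0)] with n h1 h2 h3
  have hsq : 0 < √(lam n) := Real.sqrt_pos.2 (S.pos n)
  set s : ℝ := R / √(lam n) with hs
  have hs0 : 0 < s := by positivity
  set F : ℂ → ℝ := fun w => f n w ^ 2 with hF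
  have hFc : ContinuousOn F UH := (S.sm n).continuousOn.pow 2
  have hF0 : ∀ z, 0 ≤ F z := fun z => sq_nonneg _
  have hmn : ∀ w ∈ UH, mn (s * w.im) F w = AR R (lam n) (f n) w := fun w hw => mn_AR S hR n hw
  set g : ℂ → ℝ≥0∞ := K'.indicator (fun w => ENNReal.ofReal |AR R (lam n) (f n) w - 1|) with hg
  have hgm : Measurable g := by
    classical
    rw [hg, ← piecewise_eq_indicator]
    refine ContinuousOn.measurable_piecewise ?_ continuousOn_const hK'c.measurableSet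
    exact ENNReal.continuous_ofReal.comp_continuousOn ((h2.mono hdU).sub continuousOn_const).abs
  have hpt : ∀ z ∈ K, MX κ (R / (δ * κ) / √(lam n)) r₀ F z ≤
      ENNReal.ofReal (12 * δ) + ENNReal.ofReal (18 / κ ^ 2) * HM g z := by
    intro z hz
    refine ptw hFc hF0 hδ0 hδ1 hs0 h3 hκ hκ1 (by positivity) hr₀4 (le_of_eq ?_) (hgeo z hz) ?_
    · rw [hs]; field_simp
    · intro w hw
      rw [hg, indicator_of_mem hw, hmn w (hdU hw)]
  have hg2 : ∫⁻ z, g z ^ 2 ≤ ENNReal.ofReal ε' := by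
    have i1 : Integrable (fun z => ψ z * (AR R (lam n) (f n) z - 1) ^ 2) :=
      int_tf hψ ((h2.sub continuousOn_const).pow 2)
    calc ∫⁻ z, g z ^ 2 ≤ ∫⁻ z, ENNReal.ofReal (ψ z * (AR R (lam n) (f n) z - 1) ^ 2) := by
          refine lintegral_mono fun z => ?_
          by_cases hz : z ∈ K'
          · rw [hg, indicator_of_mem hz, hψ1 z hz, one_mul, ← ENNReal.ofReal_pow (abs_nonneg _),
              sq_abs]
          · rw [hg, indicator_of_notMem hz]
            simp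
      _ = ENNReal.ofReal (∫ z, ψ z * (AR R (lam n) (f n) z - 1) ^ 2) :=
          (ofReal_integral_eq_lintegral_ofReal i1 (Eventually.of_forall fun z =>
            mul_nonneg (hψ0 z) (sq_nonneg _))).symm
      _ ≤ _ := ENNReal.ofReal_le_ofReal h1
  have hφi : Integrable φ := hφ.1.continuous.integrable_of_hasCompactSupport hφ.2.1
  calc ∫⁻ z, ENNReal.ofReal (φ z) * MX κ (R / (δ * κ) / √(lam n)) r₀ F z ^ 2
      ≤ ∫⁻ z, (ENNReal.ofReal (576 * δ ^ 2 * φ z) + ENNReal.ofReal D * HM g z ^ 2) := by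
        refine lintegral_mono fun z => ?_
        by_cases hz : z ∈ K
        · have h4 : MX κ (R / (δ * κ) / √(lam n)) r₀ F z ^ 2 ≤
              4 * ENNReal.ofReal (12 * δ) ^ 2 + 4 * (ENNReal.ofReal (18 / κ ^ 2) * HM g z) ^ 2 :=
            (pow_le_pow_left' (hpt z hz) 2).trans (four_sq _ _)
          calc ENNReal.ofReal (φ z) * MX κ (R / (δ * κ) / √(lam n)) r₀ F z ^ 2
              ≤ ENNReal.ofReal (φ z) * (4 * ENNReal.ofReal (12 * δ) ^ 2) +
                ENNReal.ofReal (φ z) * (4 * (ENNReal.ofReal (18 / κ ^ 2) * HM g z) ^ 2) := by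
                rw [← mul_add]
                exact mul_le_mul' le_rfl h4
            _ ≤ ENNReal.ofReal (φ z) * (4 * ENNReal.ofReal (12 * δ) ^ 2) +
                ENNReal.ofReal A * (4 * (ENNReal.ofReal (18 / κ ^ 2) * HM g z) ^ 2) := by
                refine add_le_add le_rfl (mul_le_mul' (ENNReal.ofReal_le_ofReal (hAφ z)) le_rfl)
            _ = _ := by
                have e4 : (4 : ℝ≥0∞) = ENNReal.ofReal 4 := by simp
                congr 1
                · rw [e4, ← ENNReal.ofReal_pow (by positivity), ← ENNReal.ofReal_mul (by norm_num),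
                    ← ENNReal.ofReal_mul (hφ0 z)]
                  congr 1
                  ring
                · rw [mul_pow, e4, ← mul_assoc, ← mul_assoc, ← ENNReal.ofReal_pow (by positivity),
                    ← ENNReal.ofReal_mul (abs_nonneg _), ← ENNReal.ofReal_mul (by positivity)]
                  congr 2
                  rw [hD]
                  ring
        · rw [image_eq_zero_of_notMem_tsupport hz]
          simp
    _ = (∫⁻ z, ENNReal.ofReal (576 * δ ^ 2 * φ z)) + ENNReal.ofReal D * ∫⁻ z, HM g z ^ 2 := by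
        rw [lintegral_add_left, lintegral_const_mul' _ _ ENNReal.ofReal_ne_top]
        exact ENNReal.measurable_ofReal.comp (hφ.1.continuous.measurable.const_mul _)
    _ ≤ ENNReal.ofReal (576 * δ ^ 2 * I) + ENNReal.ofReal D * (ENNReal.ofReal C *
          ENNReal.ofReal ε') := by
        refine add_le_add (le_of_eq ?_) (mul_le_mul' le_rfl ((hHL g hgm).trans
          (mul_le_mul' le_rfl hg2)))
        rw [← ofReal_integral_eq_lintegral_ofReal (hφi.const_mul _) (Eventually.of_forall fun z =>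
            mul_nonneg (by positivity) (hφ0 z)), integral_const_mul]
    _ = ENNReal.ofReal (576 * δ ^ 2 * I + D * (C * ε')) := by
        rw [← ENNReal.ofReal_mul hC0, ← ENNReal.ofReal_mul hD0, ← ENNReal.ofReal_add (by positivity)
          (by positivity)]
    _ ≤ _ := ENNReal.ofReal_le_ofReal (by linarith)

/-- discs are admissible -/
lemma MD_MX {κ a b : ℝ} (hκ1 : κ ≤ 1) (ha : 0 < a) {F : ℂ → ℝ} {z : ℂ} (hz : z ∈ UH) :
    MD a b F z ≤ MX κ a b F z := by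
  refine iSup₂_le fun r hr => ?_
  have hr0 : 0 < r := ha.trans_le hr.1
  have hy : 0 < z.im := hz
  have hρ : 0 < r * z.im := by positivity
  have hadm : Adm κ a b z (ball z (r * z.im)) := by
    refine ⟨isOpen_ball, mem_ball_self hρ, z, r, hr.1, hr.2, le_refl _, fun v hv u hu => ?_⟩
    refine (convex_ball z (r * z.im)).segment_subset (ball_subset_ball ?_ hv) hu
    nlinarith
  refine le_iSup₂_of_le _ hadm (le_of_eq ?_)
  congr 3
  unfold mn
  rw [SwlL.vol_ball z hρ.le, ENNReal.toReal_ofReal (by positivity), one_div]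

theorem MM_MMD (S : Seq lam f) {κ : ℝ} (hκ1 : κ ≤ 1) (H : MM lam f κ) : MMD lam f := by
  intro φ hφ hφ0 ε hε
  obtain ⟨R₀, r₀, hR, hr, h1⟩ := H φ hφ hφ0 ε hε
  refine ⟨R₀, r₀, hR, hr, h1.mono fun n hn => le_trans (lintegral_mono fun z => ?_) hn⟩
  by_cases hz : z ∈ UH
  · have hsq : 0 < √(lam n) := Real.sqrt_pos.2 (S.pos n)
    exact mul_le_mul' le_rfl (pow_le_pow_left' (MD_MX hκ1 (by positivity) hz) 2)
  · rw [TF.zero hφ hz]
    simp

theorem MMD_MP (S : Seq lam f) (H : MMD lam f) : MP lam f := by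
  intro φ hφ hφ0 ε hε
  obtain ⟨R₀, r₀, hR, hr, h1⟩ := H φ hφ hφ0 ε hε
  refine ⟨R₀, hR, ?_⟩
  filter_upwards [h1, AR_cont S hR, (s_small S R₀).eventually (ge_mem_nhds hr)] with n a b c
  have i1 : Integrable (fun z => φ z * (AR R₀ (lam n) (f n) z - 1) ^ 2) :=
    int_tf hφ ((b.sub continuousOn_const).pow 2)
  rw [← ENNReal.ofReal_le_ofReal_iff hε.le, ofReal_integral_eq_lintegral_ofReal i1
    (Eventually.of_forall fun z => mul_nonneg (hφ0 z) (sq_nonneg _))]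
  refine le_trans (lintegral_mono fun z => ?_) a
  by_cases hz : z ∈ UH
  · rw [ENNReal.ofReal_mul (hφ0 z)]
    refine mul_le_mul' le_rfl ?_
    have h2 : ENNReal.ofReal |AR R₀ (lam n) (f n) z - 1| ≤
        MD (R₀ / √(lam n)) r₀ (fun w => f n w ^ 2) z := by
      rw [← mn_AR S hR n hz]
      exact le_iSup₂_of_le (R₀ / √(lam n)) ⟨le_rfl, c⟩ le_rfl
    calc ENNReal.ofReal ((AR R₀ (lam n) (f n) z - 1) ^ 2)
        = ENNReal.ofReal |AR R₀ (lam n) (f n) z - 1| ^ 2 := by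
          rw [← ENNReal.ofReal_pow (abs_nonneg _), sq_abs]
      _ ≤ _ := pow_le_pow_left' h2 2
  · rw [TF.zero hφ hz]
    simp

/-- all but a small part of the points -/
theorem MM_meas {κ : ℝ} (H : MM lam f κ) (K : Set ℂ) (hK : IsCompact K) (hKU : K ⊆ UH) {ε : ℝ}
    (hε : 0 < ε) : ∃ R₀ r₀ : ℝ, 0 < R₀ ∧ 0 < r₀ ∧ ∀ᶠ n in atTop,
      volume {z | z ∈ K ∧ ∃ E, Adm κ (R₀ / √(lam n)) r₀ z E ∧
        ε < |(volume E).toReal⁻¹ * (∫ w in E, f n w ^ 2) - 1|} ≤ ENNReal.ofReal ε := by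
  obtain ⟨ζ, hζ, hζ0, -, hζ1⟩ := Pool.Agent.Y265.RW.cutoff UHo hK hKU
  obtain ⟨R₀, r₀, hR, hr, h1⟩ := H ζ hζ hζ0 (ε ^ 3) (by positivity)
  refine ⟨R₀, r₀, hR, hr, h1.mono fun n hn => ?_⟩
  set h : ℂ → ℝ≥0∞ := fun z => ENNReal.ofReal (ζ z) *
    MX κ (R₀ / √(lam n)) r₀ (fun w => f n w ^ 2) z ^ 2 with hh
  have hm : Measurable h :=
    (ENNReal.measurable_ofReal.comp hζ.1.continuous.measurable).mul ((MX_meas _ _ _ _).pow_const 2)
  have h2 := mul_meas_ge_le_lintegral (μ := (volume : Measure ℂ)) hm (ENNReal.ofReal (ε ^ 2))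
  have hsub : {z | z ∈ K ∧ ∃ E, Adm κ (R₀ / √(lam n)) r₀ z E ∧
      ε < |(volume E).toReal⁻¹ * (∫ w in E, f n w ^ 2) - 1|} ⊆ {z | ENNReal.ofReal (ε ^ 2) ≤ h z} := by
    rintro z ⟨hzK, E, hE, hlt⟩
    show ENNReal.ofReal (ε ^ 2) ≤ h z
    simp only [hh]
    rw [hζ1 z hzK, ENNReal.ofReal_one, one_mul, ENNReal.ofReal_pow hε.le]
    refine pow_le_pow_left' ?_ 2
    exact le_iSup₂_of_le E hE (ENNReal.ofReal_le_ofReal hlt.le)
  have h3 : ENNReal.ofReal (ε ^ 2) * volume {z | ENNReal.ofReal (ε ^ 2) ≤ h z} ≤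
      ENNReal.ofReal (ε ^ 2) * ENNReal.ofReal ε := by
    refine (h2.trans hn).trans (le_of_eq ?_)
    rw [← ENNReal.ofReal_mul (by positivity)]
    congr 1
  have h4 : ENNReal.ofReal (ε ^ 2) ≠ 0 := by
    rw [Ne, ENNReal.ofReal_eq_zero, not_le]; positivity
  exact (measure_mono hsub).trans ((ENNReal.mul_le_mul_iff_right h4 ENNReal.ofReal_ne_top).1 h3)

end MaxL

end

end Pool.Agent.Helper93K9.PE
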