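import Pool.Agent.Helper93K9.PE.Stm2
import Pool.Agent.Helper93K9.PE.Low4
import Pool.Agent.Helper93K9.PE.J4

/-! Project PE: equidistribution in phase space at the Planck scale, assembly. -/

set_option autoImplicit false
open MeasureTheory Filter Topology Complex ProbabilityTheory
open scoped ContDiff

namespace Pool.Agent.Helper93K9.PE.FinL

open Pool.Agent.W745.RW Pool.Agent.TH294.RS Pool.Agent.Y265.HY
open Pool.Agent.TH294.RG (dm)

noncomputable section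

variable {lam : ℕ → ℝ} {f : ℕ → ℂ → ℝ}

/-- complex disc means -/
def AC (R : ℝ) (lam : ℝ) (F : ℂ → ℂ) (z : ℂ) : ℂ :=
  ∫ v, F (z + (((R / √lam) * z.im : ℝ) : ℂ) * v) ∂dm

/-- microlocal equidistribution at the Planck scale -/
def MK' (lam : ℕ → ℝ) (f : ℕ → ℂ → ℝ) : Prop := ∀ φ, TF UH φ → (∀ z, 0 ≤ φ z) → ∀ k : ℕ, ∀ ε : ℝ,
  0 < ε → ∃ R : ℝ, 0 < R ∧ ∀ᶠ n in atTop, ∫ z, φ z *
    ‖AC R (lam n) (fun w => (f n w : ℂ) * (FD (lam n))^[k] (fun w => (f n w : ℂ)) w) z -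
      (if k = 0 then 1 else 0)‖ ^ 2 ≤ ε

lemma AC_zero (R : ℝ) (n : ℕ) (z : ℂ) :
    AC R (lam n) (fun w => (f n w : ℂ) * (FD (lam n))^[0] (fun w => (f n w : ℂ)) w) z =
      ((AR R (lam n) (f n) z : ℝ) : ℂ) := by
  unfold AC AR
  rw [← integral_complex_ofReal]
  congr 1; funext v
  simp only [Function.iterate_zero, id_eq]
  push_cast; ring

lemma WLk (k n : ℕ) (z : ℂ) : WL lam f (k : ℤ) n z = (FD (lam n))^[k] (fun w => (f n w : ℂ)) z :=
  FW_eq lam f (k : ℤ) n z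

lemma MK_MP (H : MK' lam f) : MP lam f := by
  intro φ hφ hφ0 ε hε
  obtain ⟨R, hR, h1⟩ := H φ hφ hφ0 0 ε hε
  refine ⟨R, hR, h1.mono fun n hn => le_trans (le_of_eq ?_) hn⟩
  congr 1; funext z
  rw [AC_zero, if_pos rfl]
  have : ((AR R (lam n) (f n) z : ℝ) : ℂ) - 1 = ((AR R (lam n) (f n) z - 1 : ℝ) : ℂ) := by
    push_cast; ring
  rw [this, Complex.norm_real, Real.norm_eq_abs, sq_abs]

lemma M4_MK (hM : S_MIC) (S : Seq lam f) (H : M4 f) (HP : MP lam f) : MK' lam f := by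
  intro φ hφ hφ0 k ε hε
  by_cases hk : k = 0
  · subst hk
    obtain ⟨R, hR, h1⟩ := HP φ hφ hφ0 ε hε
    refine ⟨R, hR, h1.mono fun n hn => le_trans (le_of_eq ?_) hn⟩
    congr 1; funext z
    rw [AC_zero, if_pos rfl]
    have : ((AR R (lam n) (f n) z : ℝ) : ℂ) - 1 = ((AR R (lam n) (f n) z - 1 : ℝ) : ℂ) := by
      push_cast; ring
    rw [this, Complex.norm_real, Real.norm_eq_abs, sq_abs]
  · obtain ⟨S1, S2⟩ := sys S
    have h4 : ∀ φ, TF UH φ → Tendsto (fun n => (∫ z, (φ z : ℂ) * F4 (WL lam f) 0 0 0 0 n z) -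
        3 * ((∫ z, φ z : ℝ) : ℂ)) atTop (𝓝 0) := by
      intro φ hφ
      have h1 := (H φ hφ).sub_const (3 * ∫ z, φ z)
      rw [sub_self] at h1
      have h2 := (Complex.continuous_ofReal.tendsto _).comp h1
      rw [ofReal_zero] at h2
      refine h2.congr fun n => ?_
      simp only [Function.comp_def]
      rw [F4_r]; push_cast; ring
    obtain ⟨R₀, hR₀, key⟩ := hM UH (hh lam) (WL lam f) S1 (le_refl _) S2 (Bdf.b4 (bd_M4 S H)) h4 φ
      hφ hφ0 (k : ℤ) (by exact_mod_cast hk) ε hε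
    refine ⟨R₀, hR₀, (key R₀ (le_refl _)).mono fun n hn => le_trans (le_of_eq ?_) hn⟩
    congr 1; funext z
    rw [if_neg hk, sub_zero]
    congr 3
    unfold AC AA
    have e : R₀ * hh lam n * z.im = R₀ / √(lam n) * z.im := by unfold hh; ring
    rw [e]
    congr 1; funext v
    simp only [WLk, WL0]

theorem tfae7 (hID : S_ID) (hGR : S_GR) (hE : S_ELL) (hFM : S_FM) (hSA : S_SAND) (hM : S_MIC)
    (S : Seq lam f) : List.TFAE [M4 f, ML f, ∀ R : ℝ, 0 < R → MR lam f R,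
      ∃ R : ℝ, 0 < R ∧ MR lam f R, MP lam f, MA lam f, MK' lam f] := by
  have key := tfae hID hGR hE hFM hSA S
  have k12 := key.out 0 1
  have k13 := key.out 0 2
  have k14 := key.out 0 3
  have k15 := key.out 0 4
  tfae_have 1 ↔ 2 := M4_ML S
  tfae_have 1 ↔ 3 := k12
  tfae_have 1 ↔ 4 := k13
  tfae_have 1 ↔ 5 := k14
  tfae_have 1 ↔ 6 := k15
  tfae_have 1 → 7 := fun H => M4_MK hM S H (k14.1 H)
  tfae_have 7 → 5 := MK_MP
  tfae_finish

end

end Pool.Agent.Helper93K9.PE.FinL
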