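import Pool.Agent.Y265.HY.PS2
import Pool.Agent.TH294.RG.Pl11

/-!
Project PE (helper93), MP_a54f13_nt: Planck scale equidistribution and the fourth moment, on the
hyperbolic plane.  Statements of the leaves.  Proofs of the leaves are sketched in the doc comments.

Conventions: `UH = {z | 0 < z.im}`; `SY B Complex.im h w`, `EX B h w (w 0)` = the ladder system of a
sequence of eigenfunctions `u n = w 0 n` (real valued, `h n ^ 2 y ^ 2 Δ u = - u`), see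
`Pool/Agent/Y265/HY/B.lean`, `C.lean`, `PS1.lean`; `M2C B h e` = all semiclassical derivatives of `e`
are locally bounded in `L²`; `RP B h w f`: combinations of exact solutions (for these
`h |f|² → 0` locally uniformly, which gives `hE4` in SB7).
`dd = ∂x - i ∂y`, `db = ∂x + i ∂y`, `dm` = the uniform probability measure on the unit disc,
`jj y = RG.JJ y = ∫ cos (y Re v) dm(v)`, `mu i = ∫ (Re v)^(2i) dm(v)`,
`FP R N = ∑_{i<N} (-1)^i mu_i R^(2i)/(2i)! X^i` (file `Pool/Agent/TH294/RG/Pl1.lean`).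
-/

set_option autoImplicit false
open MeasureTheory Filter Topology Complex
open scoped ContDiff

namespace Pool.Agent.Helper93K9.PE

open Pool.Agent.W745.RW Pool.Agent.TH294.RS Pool.Agent.Y265.HY
open Pool.Agent.Y265.HY.PS (Good QE)
open Pool.Agent.TH294.RG (dm mu FP)

noncomputable section

/-- `∫ cos (y Re v) dm(v)` -/
abbrev jj (y : ℝ) : ℝ := Pool.Agent.TH294.RG.JJ y

/-- derivative in the direction `v` -/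
def dv (v : ℂ) (F : ℂ → ℂ) (z : ℂ) : ℂ := fderiv ℝ F z v

/-- the Laplacian of a complex valued function -/
def lp (F : ℂ → ℂ) (z : ℂ) : ℂ := lap F z

/-- `(h y)^{2i} Δ^i (u²)` -/
def XX (h : ℕ → ℝ) (w : ℤ → ℕ → ℂ → ℂ) (i : ℕ) (n : ℕ) (z : ℂ) : ℂ :=
  ((h n * z.im : ℝ) : ℂ) ^ (2 * i) * (lp^[i] (fun z => w 0 n z * w 0 n z)) z

/-- `(h y)^{k+l} (∂x - i∂y)^k (∂x + i∂y)^l u` -/
def EJ (h : ℕ → ℝ) (u : ℕ → ℂ → ℂ) (k l : ℕ) (n : ℕ) (z : ℂ) : ℂ :=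
  ((h n * z.im : ℝ) : ℂ) ^ (k + l) * (dd^[k] (db^[l] (u n))) z

/-- mean of `u²` over the disc with centre `z` and radius `R h y` -/
def AV (h : ℕ → ℝ) (u : ℕ → ℂ → ℂ) (R : ℝ) (n : ℕ) (z : ℂ) : ℂ :=
  ∫ v, u n (z + ((R * h n * z.im : ℝ) : ℂ) * v) * u n (z + ((R * h n * z.im : ℝ) : ℂ) * v) ∂dm

/-- the averaged Taylor polynomial -/
def PN (h : ℕ → ℝ) (w : ℤ → ℕ → ℂ → ℂ) (R : ℝ) (N n : ℕ) (z : ℂ) : ℂ :=
  ∑ i ∈ Finset.range N, ((mu i * R ^ (2 * i) / (Nat.factorial (2 * i) : ℝ) : ℝ) : ℂ) * XX h w i n z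

/-- sum of the squares of the scaled derivatives of orders at most `2N` in both variables -/
def QN (h : ℕ → ℝ) (u : ℕ → ℂ → ℂ) (N n : ℕ) (z : ℂ) : ℝ :=
  ∑ k ∈ Finset.range (2 * N + 1), ∑ l ∈ Finset.range (2 * N + 1), ‖EJ h u k l n z‖ ^ 2

/-- local boundedness of the fourth moments -/
def Bd4 (B : Set ℂ) (u : ℕ → ℂ → ℂ) : Prop :=
  ∀ K : Set ℂ, IsCompact K → K ⊆ B → ∃ C : ℝ, ∀ᶠ n in atTop, ∫ z in K, ‖u n z‖ ^ 4 ≤ C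

/-- excess factor -/
def eR (R : ℝ) : ℝ := (2 + jj (2 * R) ^ 2) / 3
/-- Gaussian value -/
def gR (R : ℝ) : ℝ :=
  1 + 1 / Real.pi * ∫ θ in (0 : ℝ)..(2 * Real.pi), jj (R * √(2 - 2 * Real.cos θ)) ^ 2

/-- [XG] `XX i` is good with symbol `(-1)^i (2 - 2 cos α)^i`.
Proof by induction on `i`. `XX 0 = vv w 0` (`good_v`, or `good_poly` with `F = 1`). Let
`X = XX h w i`. With `sL = - h² y² Δ` one has, since `X = (h y)^{2i} G`, `G = Δ^i (u²)`,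
`Δ(y^m G) = y^m Δ G + 2 m y^{m-1} ∂y G + m (m-1) y^{m-2} G`:
`XX (i+1) = (h y)^2 Δ X - h (4i) ((h y) ∂y X) + h² (8 i² - 2 i (2 i - 1)) X`
(check: `(h y) ∂y X = (h y)^{2i+1} ∂y G + 2 i h X`), and `(h y) ∂y X = (sM X - sP X) / (2 I)`.
So `XX (i+1) = - sL X + h * (combination of sM X, sP X, h X)`. Every good function is in `QE`
(the sum of the `vv` is: `vv w m = ± w m * w (-m)` with `QE.mul (H.bd m) (RP.W H h0 _)`), and `QE` is closed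
under `sP`, `sM`, `hmul`, `cmul`, `add`; conclude with `Good.sL`, `Good.add`, `Good.hq`, `Good.cmul`.
On `B` the functions `XX` are smooth. (PS1.lean has all these lemmas.) -/
def S_XG : Prop := ∀ (B : Set ℂ) (h : ℕ → ℝ) (w : ℤ → ℕ → ℂ → ℂ), SY B Complex.im h w →
  EX B h w (w 0) → ∀ i : ℕ,
    Good B h w (XX h w i) (fun α => (-1) ^ i * (2 - 2 * Real.cos α) ^ i)

/-- [JET] The scaled Euclidean derivatives: `EJ k l = (-1)^l w_{k-l} + h e`.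
Induction: `EJ 0 0 = w 0`; `sM (EJ 0 l) = EJ 0 (l+1) + I l h (EJ 0 l)` (because
`db y = I`), `sP (EJ k l) = EJ (k+1) l - I (k+l) h (EJ k l)` (because `dd y = -I`); `sP w_m = w_{m+1} + h e`
and `sM w_m = - w_{m-1} + h e` (`SY.up`, `SY.dn`); `M2C` and `RP` are closed under `sP`, `sM`
(`M2C.sP`, `RP.sP`, `RP.sM` in C.lean, SB8.lean), products with constants and with `h` (`RP.err`). -/
def S_JET : Prop := ∀ (B : Set ℂ) (h : ℕ → ℝ) (w : ℤ → ℕ → ℂ → ℂ), SY B Complex.im h w →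
  EX B h w (w 0) → ∀ k l : ℕ, RP B h w (EJ h (w 0) k l) ∧ ∃ e, M2C B h e ∧ ∀ n, ∀ z ∈ B,
    EJ h (w 0) k l n z = (-1) ^ l * w ((k : ℤ) - l) n z + (h n : ℂ) * e n z

/-- [J4] Fourth moments of the scaled derivatives. With `m = k - l`, `E = EJ k l`, `W = (-1)^l w_m`:
`‖E‖^4 - ‖W‖^4 = (‖E‖² - ‖W‖²)(‖E‖² + ‖W‖²)`, `‖E‖² - ‖W‖² = h (e conj E + W conj e)`; `e conj E + W conj e`
is `LB B 1` (`LB.mul2`), and `‖E‖² = E conj E`, `‖W‖² = W conj W` with `conj w_m = ± w_{-m}` (`SY.cj`),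
`conj E` is `RP` by `RP.conj` (C.lean). By `hE4` the
difference is `WN`. And `‖w_m‖^4 = w_m w_m w_{-m} w_{-m}`, `excess` (SB10) with
`GG m m (-m) (-m) = 2` (`m ≠ 0`), `= 3` (`m = 0`): `∫ φ ‖w_m‖^4 ≤ ∫ φ ‖w_0‖^4 + ε`
(`D4 w φ a b c d n = ∫ φ F4 - GG a b c d ∫ φ`). -/
def S_J4 : Prop := ∀ (B : Set ℂ) (h : ℕ → ℝ) (w : ℤ → ℕ → ℂ → ℂ), SY B Complex.im h w →
  B ⊆ UH → EX B h w (w 0) → ∀ φ, TF B φ → (∀ z, 0 ≤ φ z) → ∀ k l : ℕ, ∀ ε : ℝ, 0 < ε →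
    ∀ᶠ n in atTop, ∫ z, φ z * ‖EJ h (w 0) k l n z‖ ^ 4 ≤ (∫ z, φ z * ‖w 0 n z‖ ^ 4) + ε

/-- [LEI] Leibniz rule and triangle inequality. `dv v = (v dd + conj v db) / 2`; on an open set where
`u` is smooth the operators `dd`, `db` commute, so
`(dv v)^j u = 2^{-j} ∑_k binom(j,k) v^k (conj v)^{j-k} dd^k db^{j-k} u`, hence
`t^j ‖(dv v)^j u‖ ≤ max_k t^j ‖dd^k db^{j-k} u‖ ≤ √Q`, `Q` the double sum; and
`(dv v)^m (u u) = ∑_j binom(m,j) (dv v)^j u (dv v)^{m-j} u`. -/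
def S_LEI : Prop := ∀ (B : Set ℂ), IsOpen B → ∀ (u : ℂ → ℂ), ContDiffOn ℝ ∞ u B → ∀ v : ℂ,
  ‖v‖ ≤ 1 → ∀ t : ℝ, 0 ≤ t → ∀ m : ℕ, ∀ z ∈ B,
    t ^ m * ‖((dv v)^[m] (fun z => u z * u z)) z‖ ≤
      2 ^ m * ∑ k ∈ Finset.range (m + 1), ∑ l ∈ Finset.range (m + 1),
        (t ^ (k + l) * ‖(dd^[k] (db^[l] u)) z‖) ^ 2

/-- [TAY] Taylor's formula with integral remainder, norm form, by induction on `m` or from Mathlib's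
Taylor theorem; the function `t ↦ g (z + t v)` has the derivatives `((dv v)^[j] g) (z + t v)`.
(`(1 - t)^m ≤ 1` was dropped.) The segment lies in the open set `B`. -/
def S_TAY : Prop := ∀ (B : Set ℂ), IsOpen B → ∀ g : ℂ → ℂ, ContDiffOn ℝ ∞ g B → ∀ z v : ℂ,
  (∀ t ∈ Set.Icc (0 : ℝ) 1, z + (t : ℂ) * v ∈ B) → ∀ m : ℕ,
    ‖g (z + v) - ∑ j ∈ Finset.range (m + 1), ((Nat.factorial j : ℂ))⁻¹ * ((dv v)^[j] g) z‖ ≤
      ((Nat.factorial m : ℝ))⁻¹ * ∫ t in (0 : ℝ)..1, ‖((dv v)^[m + 1] g) (z + (t : ℂ) * v)‖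

/-- [HOM] homogeneity and continuity in the direction: `(dv v)^j g z` is a homogeneous polynomial of
degree `j` in `(Re v, Im v)`. -/
def S_HOM : Prop := ∀ (B : Set ℂ), IsOpen B → ∀ g : ℂ → ℂ, ContDiffOn ℝ ∞ g B → ∀ z ∈ B, ∀ j : ℕ,
  (∀ (r : ℝ) (v : ℂ), ((dv ((r : ℂ) * v))^[j] g) z = (r : ℂ) ^ j * ((dv v)^[j] g) z) ∧
  Continuous (fun v => ((dv v)^[j] g) z)

/-- [AVG] Average of the iterated derivatives over the directions: with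
`dv v = (v dd + conj v db) / 2`, `dd db = lap`, `(dv v)^{j} = 2^{-j} ∑_k binom(j,k) v^k (conj v)^{j-k} dd^k db^{j-k}`,
and `∫ v^k (conj v)^l dm = 0` for `k ≠ l` (rotation invariance of `dm`),
`∫ |v|^{2i} dm * binom(2i,i) 4^{-i} = mu i` (expand `(Re v)^{2i} = 4^{-i} (v + conj v)^{2i}`). -/
def S_AVG : Prop := ∀ (B : Set ℂ), IsOpen B → ∀ g : ℂ → ℂ, ContDiffOn ℝ ∞ g B → ∀ z ∈ B, ∀ i : ℕ,
  (∫ v, ((dv v)^[2 * i] g) z ∂dm = (mu i : ℂ) * (lp^[i] g) z) ∧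
  (∫ v, ((dv v)^[2 * i + 1] g) z ∂dm = 0)

/-- [LOC] Pointwise comparison of the mean and the averaged Taylor polynomial (from LEI, TAY, HOM, AVG).
Take `m + 1 = 2N`, `v ↦ (R h y) v`, `g = u²` in TAY and integrate over `v`: at `z' = z + t (R h y) v`,
`y' = Im z' ≥ y (1 - R h)`, so `(h y)^{2N} ≤ 2 (h y')^{2N}`, and by HOM, LEI (with `t := h y'`)
`‖(dv (R h y v))^{2N} g z'‖ = R^{2N} (h y)^{2N} ‖(dv v)^{2N} g z'‖ ≤ 2 R^{2N} 4^N QN(z')`. -/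
def S_LOC : Prop := ∀ (B : Set ℂ), IsOpen B → B ⊆ UH → ∀ (h : ℕ → ℝ) (w : ℤ → ℕ → ℂ → ℂ),
  (∀ n, 0 < h n) → (∀ n, ContDiffOn ℝ ∞ (w 0 n) B) → ∀ (R : ℝ), 0 < R → ∀ N : ℕ, 1 ≤ N → ∀ n : ℕ,
  R * h n < 1 → 1 ≤ 2 * (1 - R * h n) ^ (2 * N) → ∀ z ∈ B,
  (∀ v : ℂ, ‖v‖ ≤ 1 → z + ((R * h n * z.im : ℝ) : ℂ) * v ∈ B) →
    ‖AV h (w 0) R n z - PN h w R N n z‖ ≤
      2 * (2 * R) ^ (2 * N) / (Nat.factorial (2 * N - 1) : ℝ) *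
        ∫ v, (∫ t in (0 : ℝ)..1, QN h (w 0) N n (z + ((t * (R * h n * z.im) : ℝ) : ℂ) * v)) ∂dm

/-- [SH] Shifts proportional to the height: `z ↦ z + y v` is real linear with determinant
`1 + Im v ≥ 1/2`. Take `K1 = {z + y v : z ∈ tsupport φ, ‖v‖ ≤ s0}`, compact in `B` for small `s0`, and
`φ' = M χ`, `M = sup |φ|`, `χ` a cutoff which is `1` on `K1` (`exists_cut`). -/
def S_SH : Prop := ∀ (B : Set ℂ), IsOpen B → B ⊆ UH → ∀ φ, TF B φ → ∃ φ', TF B φ' ∧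
  (∀ z, 0 ≤ φ' z) ∧ ∃ s0 : ℝ, 0 < s0 ∧ s0 < 1 ∧
    (∀ z ∈ tsupport φ, ∀ v : ℂ, ‖v‖ ≤ s0 → z + (z.im : ℂ) * v ∈ B) ∧
    ∀ v : ℂ, ‖v‖ ≤ s0 → ∀ Q : ℂ → ℝ, (∀ z, 0 ≤ Q z) → ContinuousOn Q B →
      ∫ z, |φ z| * Q (z + (z.im : ℂ) * v) ≤ 2 * ∫ z, φ' z * Q z

/-- [STAR] `L²` comparison (from LOC, SH, J4). Let `φ', s0` be as in SH for `φ`. For large `n`,
`R h ≤ s0`; by LOC, Jensen for the probability measure `dm × dt`, Fubini (`φ z * QN(...)²` is continuous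
on `tsupport φ × disc × [0,1]`) and SH (for each `v`, `t`):
`∫ φ ‖AV - PN‖² ≤ (2 (2R)^{2N} / (2N-1)!)² * 2 ∫ φ' QN²`, `∫ φ' QN² ≤ (2N+1)² ∑∑ ∫ φ' ‖EJ k l‖⁴ ≤
(2N+1)⁴ (∫ φ' ‖w 0‖⁴ + 1)` for large `n` (J4), bounded by `Bd4`; the constant tends to `0` as
`N → ∞`. -/
def S_STAR : Prop := ∀ (B : Set ℂ) (h : ℕ → ℝ) (w : ℤ → ℕ → ℂ → ℂ), SY B Complex.im h w →
  B ⊆ UH → EX B h w (w 0) → Bd4 B (w 0) → ∀ φ, TF B φ → (∀ z, 0 ≤ φ z) → ∀ R : ℝ, 0 < R →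
    ∀ ε : ℝ, 0 < ε → ∃ N0 : ℕ, ∀ N : ℕ, N0 ≤ N → ∀ᶠ n in atTop,
      ∫ z, φ z * ‖AV h (w 0) R n z - PN h w R N n z‖ ^ 2 ≤ ε

/-- [POW] the second moments of the averaged Taylor polynomials, as in `spec_c` (PS2.lean): `pow4` with
`PN` good (sum of XG), symbol `(FP R N).eval (2 - 2 cos α)` (`FP_eval`), then `ang_sum`, `ang_unif`
exactly as in the proof of `spec_c`. -/
def S_POW : Prop := ∀ (B : Set ℂ) (h : ℕ → ℝ) (w : ℤ → ℕ → ℂ → ℂ), SY B Complex.im h w →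
  B ⊆ UH → EX B h w (w 0) → ∀ φ, TF B φ → ∀ (R : ℝ) (N : ℕ),
    Tendsto (fun n => (∫ z, (φ z : ℂ) * (PN h w R N n z * PN h w R N n z)) -
      (((2 * (FP R N).eval 0 ^ 2 + (FP R N).eval 4 ^ 2) / 3 : ℝ) : ℂ) *
      ((∫ z, (φ z : ℂ) * F4 w 0 0 0 0 n z) - 3 * ((∫ z, φ z : ℝ) : ℂ))) atTop
      (𝓝 ((((FP R N).eval 0 ^ 2 + 1 / Real.pi *
        ∫ θ in (0 : ℝ)..(2 * Real.pi), (FP R N).eval (2 - 2 * Real.cos θ) ^ 2 : ℝ) : ℂ) *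
        ((∫ z, φ z : ℝ) : ℂ)))

/-- [FPL] limits `N → ∞` of the constants: `FP_bd`, `(R² x)^N / (2N)! → 0` uniformly for
`0 ≤ x ≤ 4`, `FP_0`, `JJ_0`, `√4 = 2`. -/
def S_FPL : Prop := ∀ R : ℝ, 0 < R →
  Tendsto (fun N => (2 * (FP R N).eval 0 ^ 2 + (FP R N).eval 4 ^ 2) / 3) atTop (𝓝 (eR R)) ∧
  Tendsto (fun N => (FP R N).eval 0 ^ 2 + 1 / Real.pi *
    ∫ θ in (0 : ℝ)..(2 * Real.pi), (FP R N).eval (2 - 2 * Real.cos θ) ^ 2) atTop (𝓝 (gR R))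

/-- [GR] `gR R → 1` as `R → ∞`: `JJ_lim` (Pl7), `|JJ| ≤ 1`, dominated convergence; also `1 ≤ gR R`. -/
def S_GR : Prop := Tendsto gR atTop (𝓝 1) ∧ ∀ R, 1 ≤ gR R

/-- [ID] The identity at a fixed scale (from STAR, POW, FPL): `|A² - P²| ≤ (1 + 1/δ) |A - P|² + δ |A|²`,
`∫ |φ| |A|² ≤ 2 ∫ φ' |u|⁴` (Jensen, Fubini, SH) is bounded, `∫ φ F4 w 0 0 0 0` is bounded by `Bd4`; for
`φ` of both signs use STAR for a test function `≥ |φ|`. `AV` is real valued. -/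
def S_ID : Prop := ∀ (B : Set ℂ) (h : ℕ → ℝ) (w : ℤ → ℕ → ℂ → ℂ), SY B Complex.im h w →
  B ⊆ UH → EX B h w (w 0) → Bd4 B (w 0) → ∀ φ, TF B φ → ∀ R : ℝ, 0 < R →
    Tendsto (fun n => (∫ z, (φ z : ℂ) * (AV h (w 0) R n z * AV h (w 0) R n z)) -
      (eR R : ℂ) * ((∫ z, (φ z : ℂ) * F4 w 0 0 0 0 n z) - 3 * ((∫ z, φ z : ℝ) : ℂ))) atTop
      (𝓝 ((gR R : ℂ) * ((∫ z, φ z : ℝ) : ℂ)))

/-- the real local mass -/
def AR (R : ℝ) (lam : ℝ) (f : ℂ → ℝ) (z : ℂ) : ℝ :=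
  ∫ v, f (z + (((R / √lam) * z.im : ℝ) : ℂ) * v) ^ 2 ∂dm

/-- [ELL] Local `L⁴` bound by the local mass. Let `h = 1/√lam`. (a) There is `C` such that for
every ball `ball c (2 r) ⊆ {y > y0}` with `r = ε h`: `∫_{ball c r} f⁴ ≤ C r^{-2} (∫_{ball c (2r)} f²)²`
(Ladyzhenskaya `Pool.Agent.W404.RW.L.main` for `ζ f`, energy identity `energy1` of TH294/RS/En.lean, cutoffs as
in TH294/RS/Ell.lean, `Δ f = - lam y^{-2} f`). (b) if `5 ε ≤ R y` on the compact set, then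
`ball c (2r) ⊆ ball z (R h y)` for `z ∈ ball c (3r)`, so `(∫_{ball c (2r)} f²)² ≤ C h⁴ AR(z)²`; average over
`z ∈ ball c (3r)`. (c) `cover` (Ell.lean) with `G = f⁴`, `H = AR²`. -/
def S_ELL : Prop := ∀ K : Set ℂ, IsCompact K → K ⊆ UH → ∃ ψ, TF UH ψ ∧ (∀ z, 0 ≤ ψ z) ∧
  ∀ (lam : ℕ → ℝ), (∀ n, 0 < lam n) → Tendsto lam atTop atTop → ∀ f : ℕ → ℂ → ℝ,
  (∀ n, ContDiffOn ℝ ∞ (f n) UH) →
  (∀ n, ∀ z ∈ UH, z.im ^ 2 * lap (f n) z + lam n * f n z = 0) → ∀ R : ℝ, 0 < R →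
    ∃ C : ℝ, ∀ᶠ n in atTop, ∫ z in K, f n z ^ 4 ≤ C * ∫ z, ψ z * AR R (lam n) (f n) z ^ 2

/-- [FM] first moment of the local mass: `φ = ψ / y²`; SH-type linear change of variables,
`|φ(T⁻¹ z) / det - φ z| ≤ C s` on a compact set, `s = R / √lam → 0`, and `∫_K f²` is bounded. -/
def S_FM : Prop := ∀ (lam : ℕ → ℝ), (∀ n, 0 < lam n) → Tendsto lam atTop atTop →
  ∀ f : ℕ → ℂ → ℝ, (∀ n, ContDiffOn ℝ ∞ (f n) UH) →
  (∀ φ, TF UH φ → Tendsto (fun n => ∫ z, φ z * f n z ^ 2) atTop (𝓝 (∫ z, φ z))) →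
  ∀ φ, TF UH φ → ∀ R : ℝ, 0 < R →
    Tendsto (fun n => ∫ z, φ z * AR R (lam n) (f n) z) atTop (𝓝 (∫ z, φ z))

/-- mean of `F` over the disc with centre `z` and radius `r` -/
def mn (r : ℝ) (F : ℂ → ℝ) (z : ℂ) : ℝ := 1 / (Real.pi * r ^ 2) * ∫ w in Metric.ball z r, F w

/-- [SAND] From discs of radius `r` to discs of radius `r y`. Let `F n ≥ 0` be continuous on `UH`. If the
means over discs of radius `r` are close to `1` in mean square for all `r` between `R₀ s_n` and `r₀`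
then also the means over the discs of radius `r y`. Proof: let `ε > 0`, `δ > 0` small; cover `tsupport φ` by
finitely many strips `y ∈ [a_j, a_j (1+δ))`; there
`(1+δ)^{-4} mn (r a_j) F ≤ mn (r y) F ≤ (1+δ)^4 mn (r a_j (1+δ)) F` pointwise (nested discs, the
quotient of the areas is at most `(1+δ)^4`), hence `|mn (r y) F - 1| ≤ (1+δ)^4 |mn (r a_j(1+δ)) F - 1| +
|mn (r a_j) F - 1| + ((1+δ)^4 - 1)`; integrate `φ` over the strip and use the hypothesis at the two radii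
`r a_j`, `r a_j (1+δ)`. -/
def S_SAND : Prop := ∀ (s : ℕ → ℝ), (∀ n, 0 < s n) → Tendsto s atTop (𝓝 0) → ∀ F : ℕ → ℂ → ℝ,
  (∀ n z, 0 ≤ F n z) → (∀ n, ContinuousOn (F n) UH) →
  (∀ φ, TF UH φ → (∀ z, 0 ≤ φ z) → ∀ ε : ℝ, 0 < ε → ∃ R₀ r₀ : ℝ, 0 < R₀ ∧ 0 < r₀ ∧
    ∀ᶠ n in atTop, ∀ r : ℝ, R₀ * s n ≤ r → r ≤ r₀ → ∫ z, φ z * (mn r (F n) z - 1) ^ 2 ≤ ε) →
  ∀ φ, TF UH φ → (∀ z, 0 ≤ φ z) → ∀ ε : ℝ, 0 < ε → ∃ R₀ r₀ : ℝ, 0 < R₀ ∧ 0 < r₀ ∧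
    ∀ᶠ n in atTop, ∀ r : ℝ, R₀ * s n ≤ r → r ≤ r₀ →
      ∫ z, φ z * (mn (r * z.im) (F n) z - 1) ^ 2 ≤ ε

end

end Pool.Agent.Helper93K9.PE
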