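import Pool.Agent.Helper93K9.PE.Stm

/-!
Project PE, part 2 (helper93): equidistribution in phase space at the Planck scale.  Statements of the
leaves DER, TEL, MIC with proofs in the doc comments.
-/

set_option autoImplicit false
open MeasureTheory Filter Topology Complex
open scoped ContDiff

namespace Pool.Agent.Helper93K9.PE

open Pool.Agent.W745.RW Pool.Agent.TH294.RS Pool.Agent.Y265.HY
open Pool.Agent.TH294.RG (dm)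

noncomputable section

/-- mean of `F n` over the disc with centre `z` and radius `R h y` -/
def AA (h : ℕ → ℝ) (F : ℕ → ℂ → ℂ) (R : ℝ) (n : ℕ) (z : ℂ) : ℂ :=
  ∫ v, F n (z + ((R * h n * z.im : ℝ) : ℂ) * v) ∂dm

/-- [DER] `L²` bounds for disc means, and the gain `1 / R` for disc means of derivatives.
First bound: Jensen, Fubini, SH (as in Star.lean, lemma `StarL.shift`).
Second bound: `sP F = h y' dd F = h dd (y' F) + I h F` (because `dd y = -I`).  With `G = y' F`,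
`ρ = R h y`: `∫ (∂x G) (z + ρ v) dm(v) = (1/π) ∫_{-1}^{1} ∫_{-√(1-s²)}^{√(1-s²)} ∂x G (z + ρ (a + i s)) da ds
= 1/(π ρ) ∫_{-1}^{1} (G (z + ρ (√(1-s²) + i s)) - G (z + ρ (-√(1-s²) + i s))) ds` (Fubini and the
fundamental theorem of calculus in `a`), the same for `∂y`; `h / ρ = 1 / (R y)` and
`|G| ≤ 2 y |F|` on the disc.  So `|AA (sP F)| ≤ 2/(π R) ∑ (four terms) ∫_{-1}^{1} |F (z + ρ q_i(s))| ds +
h AA |F|` with `|q_i(s)| ≤ 1`; square (Cauchy-Schwarz), integrate against `φ`, Fubini, and SH for each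
`s`. -/
def S_DER : Prop := ∀ (B : Set ℂ), IsOpen B → B ⊆ UH → ∀ φ, TF B φ → (∀ z, 0 ≤ φ z) →
  ∃ φ', TF B φ' ∧ (∀ z, 0 ≤ φ' z) ∧ ∃ s0 C : ℝ, 0 < s0 ∧ s0 < 1 ∧ 0 ≤ C ∧
    (∀ z ∈ tsupport φ, ∀ v : ℂ, ‖v‖ ≤ s0 → z + (z.im : ℂ) * v ∈ B) ∧
    ∀ (h : ℕ → ℝ) (n : ℕ), 0 < h n → ∀ F : ℕ → ℂ → ℂ, ContDiffOn ℝ ∞ (F n) B →
      ∀ R : ℝ, 0 < R → R * h n ≤ s0 →
        (∫ z, φ z * ‖AA h F R n z‖ ^ 2 ≤ C * ∫ z, φ' z * ‖F n z‖ ^ 2) ∧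
        (∫ z, φ z * ‖AA h (sP Complex.im h F) R n z‖ ^ 2 ≤
          C * (1 / R ^ 2 + h n ^ 2) * ∫ z, φ' z * ‖F n z‖ ^ 2)

/-- [TEL] From DER with `F = w a * w b`: `sP F = w (a+1) w b + w a w (b+1) + h (e1 w b + w a e2)`
(`SY.up`). `∫ φ' ‖w a w b‖²` is bounded (Cauchy-Schwarz, `J4L.wbd` in J4.lean, `Bd4`), and
`h² ∫ φ' ‖e1 w b‖² → 0`: `sup_rp` (SB7) for `w b` (`RP.W`) gives `h ‖w b‖² ≤ 1` on the support of `φ'`, and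
`h ∫ φ' ‖e1‖² → 0` since `e1` is `M2C` (`M2C.lb`). -/
def S_TEL : Prop := ∀ (B : Set ℂ) (h : ℕ → ℝ) (w : ℤ → ℕ → ℂ → ℂ), SY B Complex.im h w →
  B ⊆ UH → EX B h w (w 0) → Bd4 B (w 0) → ∀ φ, TF B φ → (∀ z, 0 ≤ φ z) → ∀ a b : ℤ,
    ∃ C : ℝ, 0 ≤ C ∧ ∀ R : ℝ, 0 < R → ∀ ε : ℝ, 0 < ε → ∀ᶠ n in atTop,
      ∫ z, φ z * ‖AA h (fun n z => w (a + 1) n z * w b n z + w a n z * w (b + 1) n z) R n z‖ ^ 2 ≤
        C / R ^ 2 + ε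

/-- [MIC] Let the fourth moments be asymptotically Gaussian. For `k ≠ 0` and `J ≥ 1`,
`w 0 w k = (1/J) ∑_{j<J} (-1)^j w (-j) w (k+j) + (1/J) ∑_{j<J} ∑_{i<j} (-1)^i (w (-i) w (k+i) + w (-i-1) w (k+i+1))`,
and the last terms are as in TEL with `a = -i-1`, `b = k+i`; `AA` is linear. So by TEL and the first bound of
DER, `∫ φ ‖AA (w 0 w k)‖² ≤ 2 C ∫ φ' ‖(1/J) ∑_j (-1)^j w (-j) w (k+j)‖² + C' J² / R² + ε`.
The square: `J^{-2} ∑_{i,j} ± ∫ φ' w (-i) w (k+i) w j w (-k-j)` (`SY.cj`), which tends to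
`J^{-2} ∑_{i,j} ± GG (-i) (k+i) j (-k-j) ∫ φ'` by `excess` (SB10; the right side there tends to `0`), and
`GG (-i) (k+i) j (-k-j)` has absolute value at most `2` and is zero unless `i = j` or `i + j = -k`
(for `k ≠ 0`); so the limit is at most `4 / J ∫ φ'`. Choose `J` large, then `R` large.
(`Bd4` follows from the hypothesis.) -/
def S_MIC : Prop := ∀ (B : Set ℂ) (h : ℕ → ℝ) (w : ℤ → ℕ → ℂ → ℂ), SY B Complex.im h w →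
  B ⊆ UH → EX B h w (w 0) → Bd4 B (w 0) →
  (∀ φ, TF B φ → Tendsto (fun n => (∫ z, (φ z : ℂ) * F4 w 0 0 0 0 n z) - 3 * ((∫ z, φ z : ℝ) : ℂ))
    atTop (𝓝 0)) → ∀ φ, TF B φ → (∀ z, 0 ≤ φ z) → ∀ k : ℤ, k ≠ 0 → ∀ ε : ℝ, 0 < ε →
    ∃ R₀ : ℝ, 0 < R₀ ∧ ∀ R : ℝ, R₀ ≤ R → ∀ᶠ n in atTop,
      ∫ z, φ z * ‖AA h (fun n z => w 0 n z * w k n z) R n z‖ ^ 2 ≤ ε

end

end Pool.Agent.Helper93K9.PE
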