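import Pool.Agent.Helper93K9.PE.Stm

/-!
Project PE, part 3 (helper93): maximal equidistribution. Statements of two leaves.
-/

set_option autoImplicit false
open MeasureTheory Filter Topology Complex
open scoped ContDiff ENNReal

namespace Pool.Agent.Helper93K9.PE

open Pool.Agent.W745.RW Pool.Agent.TH294.RS Pool.Agent.Y265.HY

noncomputable section

/-- the centred maximal function on the plane -/
def HM (g : ℂ → ℝ≥0∞) (z : ℂ) : ℝ≥0∞ :=
  ⨆ (ρ : ℝ) (_ : 0 < ρ), (∫⁻ w in Metric.ball z ρ, g w) / ENNReal.ofReal (Real.pi * ρ ^ 2)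

/-- [HL] The theorem of Hardy and Littlewood in `L²` of the plane. `HM g` is lower semicontinuous
(for fixed `ρ` the integral over `ball z ρ` is lower semicontinuous in `z`), hence measurable.
Weak type: `vol {HM g > s} ≤ (C / s) ∫_{g > s/2} g` (Vitali covering, for instance
`Vitali.exists_disjoint_subfamily_covering_enlargement_closedBall`, on compact subsets of the open
superlevel set; `volume` on `ℂ`: `Complex.volume_ball`), then the layer cake formula. Compare
`Pool/Agent/Y7/Hl.lean` (discrete radii, `ℝ³`, strong type): dyadic radii suffice up to a factor `4`. -/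
def S_HL : Prop := ∃ C : ℝ, 0 ≤ C ∧ ∀ g : ℂ → ℝ≥0∞, Measurable g →
  ∫⁻ z, HM g z ^ 2 ≤ ENNReal.ofReal C * ∫⁻ z, g z ^ 2

/-- [SWL] Means over larger discs are controlled by the means over small discs. Let `y = Im z`,
`M w = mn (s * Im w) F w`, `G = |M - 1|`. For `w` with `|w - u| < s Im w`, where `|u - z| < r y`:
`Im w ≤ 2 y` (`r ≤ 1/4`, `s ≤ 1/16`), so `|w - z| < (r + 2s) y`. The number
`κ u = ∫_{|w - u| < s Im w} dw / (π (s Im w)²)` is between `((1-s)/(1+s))²` and `((1+s)/(1-s))²`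
(the domain contains the disc with centre `u` and radius `s Im u / (1+s)`, is contained in the one
with radius `s Im u / (1-s)`, and `Im u / (1+s) ≤ Im w ≤ Im u / (1-s)` on it). Fubini for the
nonnegative function `F u / (π (s Im w)²)` on `|w - u| < s Im w`:
`∫_{D(z, (r+2s) y)} M ≥ ((1-s)/(1+s))² ∫_{D(z, r y)} F`,
`∫_{D(z, (r-2s) y)} M ≤ ((1+s)/(1-s))² ∫_{D(z, r y)} F`.
Hence `mn (r y) F z ≤ ((1+s)/(1-s))² ((r+2s)/r)² (1 + mn ((r+2s) y) G z)` and
`mn (r y) F z ≥ ((1-s)/(1+s))² ((r-2s)/r)² (1 - mn ((r-2s) y) G z)`, and the means of `G ≥ 0` over the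
discs of radii `(r ± 2s) y` are at most `6` times its mean over the disc of radius `2 r y`.
(The true constants are `12` and `11`.) -/
def S_SWL : Prop := ∀ F : ℂ → ℝ, ContinuousOn F UH → (∀ z, 0 ≤ F z) → ∀ δ s r : ℝ,
  0 < δ → δ ≤ 1 / 16 → 0 < s → s ≤ δ → s ≤ δ * r → r ≤ 1 / 4 → ∀ z ∈ UH,
    |mn (r * z.im) F z - 1| ≤ 100 * δ +
      100 * mn (2 * r * z.im) (fun w => |mn (s * w.im) F w - 1|) z

end

end Pool.Agent.Helper93K9.PE
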