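import Pool.Agent.Helper93K9.PE.Stm3

/-!
PE, leaf [SWL] (helper55 for helper93): means over larger discs are controlled by the means over small discs.
-/

set_option autoImplicit false

open MeasureTheory Set Metric
open scoped ENNReal

namespace Pool.Agent.Helper93K9.PE

open Pool.Agent.Y265.HY (UH)

namespace SwlL

/-- the kernel -/
noncomputable def kk (s : ℝ) (w u : ℂ) : ℝ≥0∞ :=
  ({p : ℂ × ℂ | dist p.2 p.1 < s * p.1.im}.indicator
    (fun p => (ENNReal.ofReal (Real.pi * (s * p.1.im) ^ 2))⁻¹)) (w, u)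

/-- the means over the small discs -/
noncomputable def LL (s : ℝ) (F' : ℂ → ℝ≥0∞) (w : ℂ) : ℝ≥0∞ := ∫⁻ u, kk s w u * F' u

lemma meas_kk (s : ℝ) : Measurable fun p : ℂ × ℂ => kk s p.1 p.2 := by
  unfold kk
  refine Measurable.indicator ?_ ?_
  · refine Measurable.inv ?_
    refine ENNReal.measurable_ofReal.comp ?_
    exact ((((Complex.measurable_im.comp measurable_fst).const_mul s).pow_const 2).const_mul _)
  · exact measurableSet_lt (measurable_snd.dist measurable_fst)
      ((Complex.measurable_im.comp measurable_fst).const_mul s)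

lemma meas_LL (s : ℝ) {F' : ℂ → ℝ≥0∞} (hF : Measurable F') : Measurable (LL s F') := by
  unfold LL
  exact Measurable.lintegral_prod_right' (f := fun p : ℂ × ℂ => kk s p.1 p.2 * F' p.2)
    ((meas_kk s).mul (hF.comp measurable_snd))

lemma kk_of {s : ℝ} {w u : ℂ} (h : dist u w < s * w.im) :
    kk s w u = (ENNReal.ofReal (Real.pi * (s * w.im) ^ 2))⁻¹ := by
  unfold kk
  rw [indicator_of_mem]
  exact h

lemma kk_of_not {s : ℝ} {w u : ℂ} (h : ¬ dist u w < s * w.im) : kk s w u = 0 := by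
  unfold kk
  rw [indicator_of_notMem]
  exact h

lemma swap (s : ℝ) {F' : ℂ → ℝ≥0∞} (hF : Measurable F') (A : Set ℂ) :
    ∫⁻ w in A, LL s F' w = ∫⁻ u, (∫⁻ w in A, kk s w u) * F' u := by
  unfold LL
  rw [lintegral_lintegral_swap]
  · refine lintegral_congr fun u => ?_
    rw [lintegral_mul_const]
    exact (meas_kk s).comp (measurable_id.prodMk measurable_const)
  · exact ((meas_kk s).mul (hF.comp measurable_snd)).aemeasurable

lemma im_close {w u : ℂ} {ρ : ℝ} (h : dist u w < ρ) : |u.im - w.im| < ρ := by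
  refine lt_of_le_of_lt ?_ h
  rw [dist_eq_norm, ← Complex.sub_im]
  exact Complex.abs_im_le_norm _

lemma vol_ball (x : ℂ) {ρ : ℝ} (hρ : 0 ≤ ρ) : volume (ball x ρ) = ENNReal.ofReal (Real.pi * ρ ^ 2) := by
  rw [Complex.volume_ball, ENNReal.ofReal_mul Real.pi_pos.le, ENNReal.ofReal_pow hρ, mul_comm]
  congr 1
  rw [← NNReal.coe_real_pi, ENNReal.ofReal_coe_nnreal]

/-- lower bound for the kernel -/
lemma kap_lower {s : ℝ} (hs : 0 < s) (hs1 : s < 1) {u : ℂ} (hu : 0 < u.im) {A : Set ℂ}
    (hA : ball u (s * u.im / (1 + s)) ⊆ A) :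
    ENNReal.ofReal (((1 - s) / (1 + s)) ^ 2) ≤ ∫⁻ w in A, kk s w u := by
  have h1s : 0 < 1 + s := by linarith
  have h1m : 0 < 1 - s := by linarith
  have hρ : 0 < s * u.im / (1 + s) := by positivity
  calc ENNReal.ofReal (((1 - s) / (1 + s)) ^ 2)
      = ENNReal.ofReal ((1 - s) ^ 2 / (Real.pi * (s * u.im) ^ 2)) * volume (ball u (s * u.im / (1 + s))) := by
        rw [vol_ball u hρ.le, ← ENNReal.ofReal_mul (by positivity)]
        congr 1
        have := Real.pi_pos
        field_simp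
    _ = ∫⁻ w in ball u (s * u.im / (1 + s)), ENNReal.ofReal ((1 - s) ^ 2 / (Real.pi * (s * u.im) ^ 2)) := by
        rw [setLIntegral_const]
    _ ≤ ∫⁻ w in ball u (s * u.im / (1 + s)), kk s w u := by
        refine setLIntegral_mono' measurableSet_ball ?_
        intro w hw
        rw [mem_ball] at hw
        have h1 := abs_lt.1 (im_close hw)
        have h2 : s * u.im / (1 + s) ≤ s * w.im := by
          have h3 : u.im / (1 + s) ≤ w.im := by
            have : u.im / (1 + s) = u.im - s * u.im / (1 + s) := by field_simp; ring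
            rw [this]; linarith [h1.1]
          calc s * u.im / (1 + s) = s * (u.im / (1 + s)) := by ring
            _ ≤ s * w.im := by gcongr
        have h4 : dist u w < s * w.im := by
          rw [dist_comm]; linarith
        rw [kk_of h4]
        have hw0 : 0 < w.im := by
          have : 0 < s * w.im := lt_of_lt_of_le hρ h2
          exact (pos_iff_pos_of_mul_pos this).1 hs
        rw [← ENNReal.ofReal_inv_of_pos (by have := Real.pi_pos; positivity)]
        apply ENNReal.ofReal_le_ofReal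
        have h5 := abs_lt.1 (im_close h4)
        have h6 : (1 - s) * w.im ≤ u.im := by linarith [h5.1]
        have hpi := Real.pi_pos
        rw [div_le_iff₀ (by positivity), inv_mul_eq_div, le_div_iff₀ (by positivity)]
        have h7 : ((1 - s) * w.im) ^ 2 ≤ u.im ^ 2 := pow_le_pow_left₀ (by positivity) h6 2
        have h8 : (1 - s) ^ 2 * (Real.pi * (s * w.im) ^ 2) = Real.pi * s ^ 2 * ((1 - s) * w.im) ^ 2 := by ring
        rw [h8]
        calc Real.pi * s ^ 2 * ((1 - s) * w.im) ^ 2 ≤ Real.pi * s ^ 2 * u.im ^ 2 := by gcongr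
          _ = Real.pi * (s * u.im) ^ 2 := by ring
    _ ≤ ∫⁻ w in A, kk s w u := lintegral_mono_set hA

/-- upper bound for the kernel -/
lemma kap_upper {s : ℝ} (hs : 0 < s) (hs1 : s < 1) {u : ℂ} (hu : 0 < u.im) (A : Set ℂ) :
    ∫⁻ w in A, kk s w u ≤ ENNReal.ofReal (((1 + s) / (1 - s)) ^ 2) := by
  have h1s : 0 < 1 + s := by linarith
  have h1m : 0 < 1 - s := by linarith
  have hρ : 0 < s * u.im / (1 - s) := by positivity
  have hpi := Real.pi_pos
  calc ∫⁻ w in A, kk s w u ≤ ∫⁻ w, kk s w u := by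
        exact lintegral_mono' Measure.restrict_le_self le_rfl
    _ ≤ ∫⁻ w, (ball u (s * u.im / (1 - s))).indicator
          (fun _ => ENNReal.ofReal ((1 + s) ^ 2 / (Real.pi * (s * u.im) ^ 2))) w := by
        refine lintegral_mono fun w => ?_
        by_cases hw : dist u w < s * w.im
        · have h5 := abs_lt.1 (im_close hw)
          have hw0 : 0 < w.im := by
            have : 0 < s * w.im := lt_of_le_of_lt dist_nonneg hw
            exact (pos_iff_pos_of_mul_pos this).1 hs
          have h6 : (1 - s) * w.im < u.im := by linarith [h5.1]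
          have h7 : u.im < (1 + s) * w.im := by linarith [h5.2]
          have h8 : w ∈ ball u (s * u.im / (1 - s)) := by
            rw [mem_ball, dist_comm]
            refine hw.trans_le ?_
            rw [le_div_iff₀ h1m]
            nlinarith
          rw [indicator_of_mem h8, kk_of hw, ← ENNReal.ofReal_inv_of_pos (by positivity)]
          apply ENNReal.ofReal_le_ofReal
          rw [le_div_iff₀ (by positivity), inv_mul_eq_div, div_le_iff₀ (by positivity)]
          have h9 : u.im ^ 2 ≤ ((1 + s) * w.im) ^ 2 := pow_le_pow_left₀ hu.le h7.le 2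
          calc Real.pi * (s * u.im) ^ 2 = Real.pi * s ^ 2 * u.im ^ 2 := by ring
            _ ≤ Real.pi * s ^ 2 * ((1 + s) * w.im) ^ 2 := by gcongr
            _ = (1 + s) ^ 2 * (Real.pi * (s * w.im) ^ 2) := by ring
        · rw [kk_of_not hw]
          exact zero_le
    _ = ENNReal.ofReal (((1 + s) / (1 - s)) ^ 2) := by
        rw [lintegral_indicator measurableSet_ball, setLIntegral_const, vol_ball u hρ.le,
          ← ENNReal.ofReal_mul (by positivity)]
        congr 1
        field_simp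

/-- the mean over a small disc -/
lemma LL_eq {s : ℝ} {F' : ℂ → ℝ≥0∞} (w : ℂ) :
    LL s F' w = (ENNReal.ofReal (Real.pi * (s * w.im) ^ 2))⁻¹ * ∫⁻ u in ball w (s * w.im), F' u := by
  unfold LL
  by_cases h0 : ENNReal.ofReal (Real.pi * (s * w.im) ^ 2) = 0
  · have h1 : s * w.im = 0 := by
      rw [ENNReal.ofReal_eq_zero] at h0
      have hpi := Real.pi_pos
      have h2 : (s * w.im) ^ 2 ≤ 0 := by
        by_contra h
        push Not at h
        have := mul_pos hpi h
        linarith
      exact pow_eq_zero_iff (two_ne_zero) |>.1 (le_antisymm h2 (sq_nonneg _))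
    have h3 : ∀ u, kk s w u = 0 := by
      intro u
      refine kk_of_not ?_
      rw [h1]
      exact not_lt.2 dist_nonneg
    simp [h3, h1]
  · rw [← lintegral_const_mul' _ _ (ENNReal.inv_ne_top.2 h0), ← lintegral_indicator measurableSet_ball]
    refine lintegral_congr fun u => ?_
    by_cases hu : dist u w < s * w.im
    · rw [kk_of hu, indicator_of_mem (mem_ball.2 hu)]
    · rw [kk_of_not hu, indicator_of_notMem (fun h => hu (mem_ball.1 h)), zero_mul]

end SwlL

open SwlL in
theorem swl : S_SWL := by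
  intro F hFc hF0 δ s r hδ hδ1 hs hsδ hsr hr4 z hz
  have hy : 0 < z.im := hz
  set y := z.im with hyd
  have hr : 0 < r := by
    by_contra h
    push Not at h
    have : δ * r ≤ 0 := mul_nonpos_of_nonneg_of_nonpos hδ.le h
    linarith
  have hs1 : s < 1 := by linarith
  have hpi := Real.pi_pos
  have hUH : MeasurableSet UH := by
    have : IsOpen UH := isOpen_lt continuous_const Complex.continuous_im
    exact this.measurableSet
  -- the measurable version of `F`
  set F' : ℂ → ℝ≥0∞ := UH.indicator (fun w => ENNReal.ofReal (F w)) with hF'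
  have hF'm : Measurable F' := by
    classical
    rw [hF', ← piecewise_eq_indicator]
    refine ContinuousOn.measurable_piecewise ?_ continuousOn_const hUH
    exact ENNReal.continuous_ofReal.comp_continuousOn hFc
  have hF'eq : ∀ w ∈ UH, F' w = ENNReal.ofReal (F w) := fun w hw => indicator_of_mem hw _
  -- points of discs
  have him : ∀ {w : ℂ} {ρ : ℝ}, w ∈ ball z (ρ * y) → (1 - ρ) * y < w.im ∧ w.im < (1 + ρ) * y := by
    intro w ρ hw
    have := abs_lt.1 (im_close (mem_ball.1 hw))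
    constructor
    · linarith [this.1]
    · linarith [this.2]
  -- a bound for `F`
  obtain ⟨B, hB⟩ : ∃ B : ℝ, ∀ w ∈ closedBall z (3 / 4 * y), F w ≤ B := by
    have hc : IsCompact (closedBall z (3 / 4 * y)) := isCompact_closedBall _ _
    have hsub : closedBall z (3 / 4 * y) ⊆ UH := by
      intro w hw
      have h1 : w ∈ ball z (7 / 8 * y) := closedBall_subset_ball (by linarith) hw
      have h2 := (him h1).1
      show 0 < w.im
      linarith
    obtain ⟨B, hB⟩ := hc.bddAbove_image (hFc.mono hsub)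
    exact ⟨B, fun w hw => hB ⟨w, hw, rfl⟩⟩
  have hballF : ∀ {w : ℂ} {ρ : ℝ}, ball w ρ ⊆ closedBall z (3 / 4 * y) →
      ∫⁻ u in ball w ρ, F' u ≤ ENNReal.ofReal B * volume (ball w ρ) := by
    intro w ρ hsub
    rw [← setLIntegral_const]
    refine setLIntegral_mono' measurableSet_ball fun u hu => ?_
    rw [hF']
    by_cases h : u ∈ UH
    · rw [indicator_of_mem h]
      exact ENNReal.ofReal_le_ofReal (hB u (hsub hu))
    · rw [indicator_of_notMem h]
      exact zero_le
  have hsmall : ∀ w ∈ ball z (1 / 2 * y), ball w (s * w.im) ⊆ closedBall z (3 / 4 * y) ∧ 0 < w.im := by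
    intro w hw
    obtain ⟨h1, h2⟩ := him hw
    refine ⟨?_, by linarith⟩
    intro u hu
    rw [mem_closedBall]
    have h3 : s * w.im ≤ 1 / 16 * (3 / 2 * y) := by
      have : s ≤ 1 / 16 := by linarith
      have h5 : w.im ≤ 3 / 2 * y := by linarith
      exact mul_le_mul this h5 (by linarith) (by norm_num)
    calc dist u z ≤ dist u w + dist w z := dist_triangle _ _ _
      _ ≤ s * w.im + 1 / 2 * y := by
          have := mem_ball.1 hu
          have := mem_ball.1 hw
          linarith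
      _ ≤ 3 / 4 * y := by linarith
  have hLfin : ∀ w ∈ ball z (1 / 2 * y), LL s F' w ≤ ENNReal.ofReal B := by
    intro w hw
    obtain ⟨h1, h2⟩ := hsmall w hw
    rw [LL_eq]
    have h3 := hballF h1
    rw [vol_ball w (by positivity)] at h3
    have h4 : ENNReal.ofReal (Real.pi * (s * w.im) ^ 2) ≠ 0 := by
      rw [Ne, ENNReal.ofReal_eq_zero, not_le]; positivity
    calc (ENNReal.ofReal (Real.pi * (s * w.im) ^ 2))⁻¹ * ∫⁻ u in ball w (s * w.im), F' u
        ≤ (ENNReal.ofReal (Real.pi * (s * w.im) ^ 2))⁻¹ *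
            (ENNReal.ofReal B * ENNReal.ofReal (Real.pi * (s * w.im) ^ 2)) := by gcongr
      _ = ENNReal.ofReal B := by
          rw [mul_comm, mul_assoc, ENNReal.mul_inv_cancel h4 ENNReal.ofReal_ne_top, mul_one]
  -- integrals of `F`
  have hintF : ∀ {w : ℂ} {ρ : ℝ}, ball w ρ ⊆ UH →
      ∫ u in ball w ρ, F u = (∫⁻ u in ball w ρ, F' u).toReal := by
    intro w ρ hsub
    rw [integral_eq_lintegral_of_nonneg_ae (Filter.Eventually.of_forall fun u => hF0 u)
      ((hFc.mono hsub).aestronglyMeasurable measurableSet_ball)]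
    congr 1
    refine setLIntegral_congr_fun measurableSet_ball ?_
    intro u hu
    exact (hF'eq u (hsub hu)).symm
  have hcl : closedBall z (3 / 4 * y) ⊆ UH := by
    intro w hw
    have h1 : w ∈ ball z (7 / 8 * y) := closedBall_subset_ball (by linarith) hw
    have h2 := (him h1).1
    show 0 < w.im
    linarith
  have hM : ∀ w ∈ ball z (1 / 2 * y), mn (s * w.im) F w = (LL s F' w).toReal := by
    intro w hw
    obtain ⟨h1, h2⟩ := hsmall w hw
    unfold mn
    rw [hintF (h1.trans hcl), LL_eq, ENNReal.toReal_mul, ENNReal.toReal_inv,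
      ENNReal.toReal_ofReal (by positivity)]
    rw [one_div]
  -- the function `G`
  set G : ℂ → ℝ := fun w => |mn (s * w.im) F w - 1| with hG
  have hGeq : ∀ w ∈ ball z (1 / 2 * y), G w = |(LL s F' w).toReal - 1| := by
    intro w hw
    simp only [hG]
    rw [hM w hw]
  have hLm := meas_LL s hF'm
  -- integrability
  have hsubs : ∀ {ρ : ℝ}, ρ ≤ 1 / 2 → ball z (ρ * y) ⊆ ball z (1 / 2 * y) := by
    intro ρ hρ
    refine ball_subset_ball ?_
    gcongr
  have hvolfin : ∀ ρ : ℝ, volume (ball z ρ) < ⊤ := fun ρ => measure_ball_lt_top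
  have hLint : ∀ {ρ : ℝ}, ρ ≤ 1 / 2 → ∫⁻ w in ball z (ρ * y), LL s F' w ≠ ⊤ := by
    intro ρ hρ
    refine ne_top_of_le_ne_top (b := ENNReal.ofReal B * volume (ball z (ρ * y))) ?_ ?_
    · exact ENNReal.mul_ne_top ENNReal.ofReal_ne_top (hvolfin _).ne
    · rw [← setLIntegral_const]
      exact setLIntegral_mono' measurableSet_ball fun w hw => hLfin w (hsubs hρ hw)
  have hLI : ∀ {ρ : ℝ}, ρ ≤ 1 / 2 →
      IntegrableOn (fun w => (LL s F' w).toReal) (ball z (ρ * y)) := by
    intro ρ hρ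
    exact integrable_toReal_of_lintegral_ne_top hLm.aemeasurable (hLint hρ)
  have hGI0 : ∀ {ρ : ℝ}, ρ ≤ 1 / 2 →
      IntegrableOn (fun w => |(LL s F' w).toReal - 1|) (ball z (ρ * y)) := by
    intro ρ hρ
    have h1 : IntegrableOn (fun _ : ℂ => (1 : ℝ)) (ball z (ρ * y)) := by
      rw [integrableOn_const_iff]; right; exact hvolfin _
    exact ((hLI hρ).sub h1).abs
  have hGint : ∀ {ρ : ℝ}, ρ ≤ 1 / 2 →
      ∫ w in ball z (ρ * y), G w = ∫ w in ball z (ρ * y), |(LL s F' w).toReal - 1| := by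
    intro ρ hρ
    refine setIntegral_congr_fun measurableSet_ball ?_
    intro w hw
    exact hGeq w (hsubs hρ hw)
  set J : ℝ := ∫ w in ball z (2 * r * y), G w with hJ
  have h2r : 2 * r ≤ 1 / 2 := by linarith
  have hJ0 : 0 ≤ J := integral_nonneg fun w => abs_nonneg _
  have hJle : ∀ {ρ : ℝ}, ρ ≤ 2 * r → ∫ w in ball z (ρ * y), |(LL s F' w).toReal - 1| ≤ J := by
    intro ρ hρ
    rw [hJ, hGint h2r]
    refine setIntegral_mono_set (hGI0 h2r) (Filter.Eventually.of_forall fun w => abs_nonneg _) ?_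
    refine Filter.Eventually.of_forall ?_
    show ball z (ρ * y) ⊆ ball z (2 * r * y)
    refine ball_subset_ball ?_
    gcongr
  have hLtoReal : ∀ {ρ : ℝ}, ρ ≤ 1 / 2 →
      ∫ w in ball z (ρ * y), (LL s F' w).toReal = (∫⁻ w in ball z (ρ * y), LL s F' w).toReal := by
    intro ρ hρ
    refine integral_toReal hLm.aemeasurable ?_
    filter_upwards [ae_restrict_mem measurableSet_ball] with w hw
    exact (hLfin w (hsubs hρ hw)).trans_lt ENNReal.ofReal_lt_top
  have hconst : ∀ {ρ : ℝ}, 0 ≤ ρ → ∫ w in ball z (ρ * y), (1 : ℝ) = Real.pi * (ρ * y) ^ 2 := by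
    intro ρ hρ
    rw [setIntegral_const, smul_eq_mul, mul_one, Measure.real, vol_ball z (by positivity),
      ENNReal.toReal_ofReal (by positivity)]
  have hup : ∀ {ρ : ℝ}, 0 ≤ ρ → ρ ≤ 2 * r →
      (∫⁻ w in ball z (ρ * y), LL s F' w).toReal ≤ Real.pi * (ρ * y) ^ 2 + J := by
    intro ρ hρ0 hρ
    have hρ2 : ρ ≤ 1 / 2 := by linarith
    have h1 : IntegrableOn (fun _ : ℂ => (1 : ℝ)) (ball z (ρ * y)) := by
      rw [integrableOn_const_iff]; right; exact hvolfin _
    rw [← hLtoReal hρ2, ← hconst hρ0]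
    refine le_trans ?_ (add_le_add le_rfl (hJle hρ))
    rw [← integral_add h1 (hGI0 hρ2)]
    refine integral_mono (hLI hρ2) (h1.add (hGI0 hρ2)) ?_
    intro w
    show (LL s F' w).toReal ≤ 1 + |(LL s F' w).toReal - 1|
    linarith [le_abs_self ((LL s F' w).toReal - 1)]
  have hlow : ∀ {ρ : ℝ}, 0 ≤ ρ → ρ ≤ 2 * r →
      Real.pi * (ρ * y) ^ 2 ≤ (∫⁻ w in ball z (ρ * y), LL s F' w).toReal + J := by
    intro ρ hρ0 hρ
    have hρ2 : ρ ≤ 1 / 2 := by linarith
    have h1 : IntegrableOn (fun _ : ℂ => (1 : ℝ)) (ball z (ρ * y)) := by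
      rw [integrableOn_const_iff]; right; exact hvolfin _
    rw [← hLtoReal hρ2, ← hconst hρ0]
    refine le_trans ?_ (add_le_add le_rfl (hJle hρ))
    rw [← integral_add (hLI hρ2) (hGI0 hρ2)]
    refine integral_mono h1 ((hLI hρ2).add (hGI0 hρ2)) ?_
    intro w
    show (1 : ℝ) ≤ (LL s F' w).toReal + |(LL s F' w).toReal - 1|
    linarith [neg_abs_le ((LL s F' w).toReal - 1)]
  -- the two inequalities
  have hballr : ball z (r * y) ⊆ closedBall z (3 / 4 * y) :=
    (ball_subset_closedBall).trans (closedBall_subset_closedBall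
      (mul_le_mul_of_nonneg_right (by linarith) hy.le))
  set I' : ℝ≥0∞ := ∫⁻ u in ball z (r * y), F' u with hI'
  have hI'fin : I' ≠ ⊤ :=
    ne_top_of_le_ne_top (ENNReal.mul_ne_top ENNReal.ofReal_ne_top (hvolfin _).ne) (hballF hballr)
  have hlo : ENNReal.ofReal (((1 - s) / (1 + s)) ^ 2) * I' ≤ ∫⁻ w in ball z ((r + 2 * s) * y), LL s F' w := by
    rw [swap s hF'm, hI', ← lintegral_const_mul' _ _ ENNReal.ofReal_ne_top]
    refine le_trans ?_ (lintegral_mono' (Measure.restrict_le_self (s := ball z (r * y))) le_rfl)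
    refine setLIntegral_mono' measurableSet_ball fun u hu => ?_
    obtain ⟨h1, h2⟩ := him hu
    have hry : r * y ≤ 1 / 4 * y := mul_le_mul_of_nonneg_right hr4 hy.le
    have hu0 : 0 < u.im := by linarith
    refine mul_le_mul_left (kap_lower hs hs1 hu0 ?_) _
    intro w hw
    rw [mem_ball] at hw hu ⊢
    have h3 : s * u.im / (1 + s) ≤ 2 * s * y := by
      rw [div_le_iff₀ (by linarith)]
      have h4 : u.im ≤ 2 * y := by linarith
      have h5 : s * u.im ≤ s * (2 * y) := by gcongr
      have h6 : 0 ≤ 2 * s * y * s := by positivity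
      linarith
    calc dist w z ≤ dist w u + dist u z := dist_triangle _ _ _
      _ < s * u.im / (1 + s) + r * y := by linarith
      _ ≤ (r + 2 * s) * y := by linarith
  have hhi : ∫⁻ w in ball z ((r - 2 * s) * y), LL s F' w ≤ ENNReal.ofReal (((1 + s) / (1 - s)) ^ 2) * I' := by
    rw [swap s hF'm, hI', ← lintegral_const_mul' _ _ ENNReal.ofReal_ne_top,
      ← lintegral_indicator measurableSet_ball]
    refine lintegral_mono fun u => ?_
    by_cases hu : u ∈ ball z (r * y)
    · rw [indicator_of_mem hu]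
      obtain ⟨h1, h2⟩ := him hu
      have hry : r * y ≤ 1 / 4 * y := mul_le_mul_of_nonneg_right hr4 hy.le
      have hu0 : 0 < u.im := by linarith
      exact mul_le_mul_left (kap_upper hs hs1 hu0 _) _
    · have h0 : ∫⁻ w in ball z ((r - 2 * s) * y), kk s w u = 0 := by
        rw [← lintegral_zero]
        · refine setLIntegral_congr_fun measurableSet_ball ?_
          intro w hw
          refine kk_of_not ?_
          intro h
          apply hu
          obtain ⟨h1, h2⟩ := him hw
          rw [mem_ball] at hw ⊢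
          have h3 : s * w.im ≤ 2 * s * y := by
            have hry : (r - 2 * s) * y ≤ 1 / 4 * y := mul_le_mul_of_nonneg_right (by linarith) hy.le
            have h4 : w.im ≤ 2 * y := by linarith
            calc s * w.im ≤ s * (2 * y) := by gcongr
              _ = 2 * s * y := by ring
          calc dist u z ≤ dist u w + dist w z := dist_triangle _ _ _
            _ < s * w.im + (r - 2 * s) * y := by linarith
            _ ≤ r * y := by linarith
      rw [h0, zero_mul]
      exact zero_le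
  -- real form
  have hI : ∫ w in ball z (r * y), F w = I'.toReal := hintF (hballr.trans hcl)
  set m : ℝ := mn (r * y) F z with hm
  have hmI : I'.toReal = Real.pi * (r * y) ^ 2 * m := by
    rw [hm]
    unfold mn
    rw [hI]
    field_simp
  have hm0 : 0 ≤ m := by
    rw [hm]
    unfold mn
    exact mul_nonneg (by positivity) (integral_nonneg hF0)
  set g : ℝ := mn (2 * r * y) G z with hg
  have hgJ : J = Real.pi * (r * y) ^ 2 * (4 * g) := by
    rw [hg]
    unfold mn
    rw [← hJ]
    field_simp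
    ring
  have hT : 0 < Real.pi * (r * y) ^ 2 := by positivity
  have hg0 : 0 ≤ g := by
    by_contra h
    push Not at h
    have : J < 0 := by
      rw [hgJ]
      exact mul_neg_of_pos_of_neg hT (by linarith)
    linarith
  have hsr2 : 2 * s ≤ r := by
    have : δ * r ≤ 1 / 16 * r := mul_le_mul_of_nonneg_right hδ1 hr.le
    linarith
  have e1 : ((1 - s) / (1 + s)) ^ 2 * m ≤ (1 + 2 * δ) ^ 2 + 4 * g := by
    have h1 := ENNReal.toReal_mono (hLint (ρ := r + 2 * s) (by linarith)) hlo
    rw [ENNReal.toReal_mul, ENNReal.toReal_ofReal (by positivity)] at h1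
    have h2 := hup (ρ := r + 2 * s) (by positivity) (by linarith)
    rw [hmI] at h1
    rw [hgJ] at h2
    have h3 : Real.pi * ((r + 2 * s) * y) ^ 2 ≤ Real.pi * (r * y) ^ 2 * (1 + 2 * δ) ^ 2 := by
      have h4 : (r + 2 * s) * y ≤ r * y * (1 + 2 * δ) := by
        have : s * y ≤ δ * r * y := mul_le_mul_of_nonneg_right hsr hy.le
        linarith
      have h5 : ((r + 2 * s) * y) ^ 2 ≤ (r * y * (1 + 2 * δ)) ^ 2 := pow_le_pow_left₀ (by positivity) h4 2
      calc Real.pi * ((r + 2 * s) * y) ^ 2 ≤ Real.pi * (r * y * (1 + 2 * δ)) ^ 2 := by gcongr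
        _ = _ := by ring
    have h6 : Real.pi * (r * y) ^ 2 * (((1 - s) / (1 + s)) ^ 2 * m) ≤
        Real.pi * (r * y) ^ 2 * ((1 + 2 * δ) ^ 2 + 4 * g) := by
      calc Real.pi * (r * y) ^ 2 * (((1 - s) / (1 + s)) ^ 2 * m)
          = ((1 - s) / (1 + s)) ^ 2 * (Real.pi * (r * y) ^ 2 * m) := by ring
        _ ≤ Real.pi * ((r + 2 * s) * y) ^ 2 + Real.pi * (r * y) ^ 2 * (4 * g) := h1.trans h2
        _ ≤ Real.pi * (r * y) ^ 2 * (1 + 2 * δ) ^ 2 + Real.pi * (r * y) ^ 2 * (4 * g) := by linarith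
        _ = _ := by ring
    exact le_of_mul_le_mul_left h6 hT
  have e2 : (1 - 2 * δ) ^ 2 ≤ ((1 + s) / (1 - s)) ^ 2 * m + 4 * g := by
    have h1 := ENNReal.toReal_mono (ENNReal.mul_ne_top ENNReal.ofReal_ne_top hI'fin) hhi
    rw [ENNReal.toReal_mul, ENNReal.toReal_ofReal (by positivity)] at h1
    have h2 := hlow (ρ := r - 2 * s) (by linarith) (by linarith)
    rw [hmI] at h1
    rw [hgJ] at h2
    have h3 : Real.pi * (r * y) ^ 2 * (1 - 2 * δ) ^ 2 ≤ Real.pi * ((r - 2 * s) * y) ^ 2 := by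
      have h4 : r * y * (1 - 2 * δ) ≤ (r - 2 * s) * y := by
        have : s * y ≤ δ * r * y := mul_le_mul_of_nonneg_right hsr hy.le
        linarith
      have h7 : 0 ≤ r * y * (1 - 2 * δ) := by
        have : 0 ≤ 1 - 2 * δ := by linarith
        positivity
      have h5 : (r * y * (1 - 2 * δ)) ^ 2 ≤ ((r - 2 * s) * y) ^ 2 := pow_le_pow_left₀ h7 h4 2
      calc Real.pi * (r * y) ^ 2 * (1 - 2 * δ) ^ 2 = Real.pi * (r * y * (1 - 2 * δ)) ^ 2 := by ring
        _ ≤ _ := by gcongr
    have h6 : Real.pi * (r * y) ^ 2 * (1 - 2 * δ) ^ 2 ≤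
        Real.pi * (r * y) ^ 2 * (((1 + s) / (1 - s)) ^ 2 * m + 4 * g) := by
      calc Real.pi * (r * y) ^ 2 * (1 - 2 * δ) ^ 2 ≤ Real.pi * ((r - 2 * s) * y) ^ 2 := h3
        _ ≤ ((1 + s) / (1 - s)) ^ 2 * (Real.pi * (r * y) ^ 2 * m) + Real.pi * (r * y) ^ 2 * (4 * g) := by
            linarith
        _ = _ := by ring
    exact le_of_mul_le_mul_left h6 hT
  have e3 : (1 - 2 * δ) ^ 2 ≤ ((1 - s) / (1 + s)) ^ 2 := by
    refine pow_le_pow_left₀ (by linarith) ?_ 2
    rw [le_div_iff₀ (by linarith)]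
    have h1 : (1 - 2 * δ) * (1 + s) ≤ (1 - 2 * s) * (1 + s) :=
      mul_le_mul_of_nonneg_right (by linarith) (by linarith)
    linarith [mul_pos hs hs]
  have e4 : ((1 + s) / (1 - s)) ^ 2 ≤ (1 + 3 * δ) ^ 2 := by
    refine pow_le_pow_left₀ (by positivity) ?_ 2
    rw [div_le_iff₀ (by linarith)]
    have h1 : (1 + 3 * s) * (1 - s) ≤ (1 + 3 * δ) * (1 - s) :=
      mul_le_mul_of_nonneg_right (by linarith) (by linarith)
    have h2 : s * s ≤ 1 / 16 * s := mul_le_mul_of_nonneg_right (by linarith) hs.le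
    linarith
  have e5 : (1 - 2 * δ) ^ 2 * m ≤ (1 + 2 * δ) ^ 2 + 4 * g := (mul_le_mul_of_nonneg_right e3 hm0).trans e1
  have e6 : (1 - 2 * δ) ^ 2 ≤ (1 + 3 * δ) ^ 2 * m + 4 * g :=
    e2.trans (by linarith [mul_le_mul_of_nonneg_right e4 hm0])
  rw [abs_le]
  constructor
  · -- lower bound
    by_contra h
    push Not at h
    have h1 : m < 1 - 100 * δ - 100 * g := by linarith
    have h2 : (1 + 3 * δ) ^ 2 * m ≤ (1 + 3 * δ) ^ 2 * (1 - 100 * δ - 100 * g) := by
      gcongr
    have h3 : (1 + 3 * δ) ^ 2 * (1 - 100 * δ - 100 * g) ≤ (1 + 3 * δ) ^ 2 - 100 * δ - 100 * g := by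
      have h4 : 1 ≤ (1 + 3 * δ) ^ 2 := one_le_pow₀ (by linarith)
      have h5 : 0 ≤ 100 * δ + 100 * g := by positivity
      have h6 : 1 * (100 * δ + 100 * g) ≤ (1 + 3 * δ) ^ 2 * (100 * δ + 100 * g) :=
        mul_le_mul_of_nonneg_right h4 h5
      linarith
    have h7 : (1 + 3 * δ) ^ 2 - (1 - 2 * δ) ^ 2 = 10 * δ + 5 * (δ * δ) := by ring
    have h8 : δ * δ ≤ 1 / 16 * δ := mul_le_mul_of_nonneg_right hδ1 hδ.le
    linarith
  · -- upper bound
    by_contra h
    push Not at h
    have h1 : 1 + 100 * δ + 100 * g < m := by linarith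
    have h4 : 3 / 4 ≤ (1 - 2 * δ) ^ 2 := by
      have : (7 / 8 : ℝ) ^ 2 ≤ (1 - 2 * δ) ^ 2 := pow_le_pow_left₀ (by norm_num) (by linarith) 2
      linarith [(by norm_num : (3 / 4 : ℝ) ≤ (7 / 8 : ℝ) ^ 2)]
    have h2 : (1 - 2 * δ) ^ 2 * (1 + 100 * δ + 100 * g) ≤ (1 - 2 * δ) ^ 2 * m := by
      gcongr
    have h3 : (1 - 2 * δ) ^ 2 + 3 / 4 * (100 * δ + 100 * g) ≤ (1 - 2 * δ) ^ 2 * (1 + 100 * δ + 100 * g) := by
      have h5 : 0 ≤ 100 * δ + 100 * g := by positivity
      have h6 : 3 / 4 * (100 * δ + 100 * g) ≤ (1 - 2 * δ) ^ 2 * (100 * δ + 100 * g) :=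
        mul_le_mul_of_nonneg_right h4 h5
      linarith
    have h7 : (1 + 2 * δ) ^ 2 - (1 - 2 * δ) ^ 2 = 8 * δ := by ring
    linarith

end Pool.Agent.Helper93K9.PE
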