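import Pool.Agent.Helper93K9.PE.Swl

/-!
PE (helper55 for helper93): integrals over sets and integrals of the means over small discs.
-/

set_option autoImplicit false

open MeasureTheory Set Metric
open scoped ENNReal

namespace Pool.Agent.Helper93K9.PE

open Pool.Agent.Y265.HY (UH)

namespace SwlL

/-- the measurable version of `F` on the upper half plane -/
noncomputable def F1 (F : ℂ → ℝ) : ℂ → ℝ≥0∞ := UH.indicator (fun w => ENNReal.ofReal (F w))

lemma meas_UH : MeasurableSet UH := by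
  have : IsOpen UH := isOpen_lt continuous_const Complex.continuous_im
  exact this.measurableSet

lemma meas_F1 {F : ℂ → ℝ} (hFc : ContinuousOn F UH) : Measurable (F1 F) := by
  classical
  unfold F1
  rw [← piecewise_eq_indicator]
  exact ContinuousOn.measurable_piecewise (ENNReal.continuous_ofReal.comp_continuousOn hFc)
    continuousOn_const meas_UH

lemma F1_eq {F : ℂ → ℝ} {w : ℂ} (hw : w ∈ UH) : F1 F w = ENNReal.ofReal (F w) := indicator_of_mem hw _

lemma int_F1 {F : ℂ → ℝ} (hFc : ContinuousOn F UH) (hF0 : ∀ z, 0 ≤ F z) {E : Set ℂ} (hE : MeasurableSet E)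
    (hEU : E ⊆ UH) : ∫ u in E, F u = (∫⁻ u in E, F1 F u).toReal := by
  rw [integral_eq_lintegral_of_nonneg_ae (Filter.Eventually.of_forall fun u => hF0 u)
    ((hFc.mono hEU).aestronglyMeasurable hE)]
  congr 1
  refine setLIntegral_congr_fun hE ?_
  intro u hu
  exact (F1_eq (hEU hu)).symm

lemma small_UH {s : ℝ} (hs1 : s < 1) {w u : ℂ} (hw : 0 < w.im) (h : dist u w < s * w.im) :
    (1 - s) * w.im < u.im ∧ 0 < u.im := by
  have h5 := abs_lt.1 (im_close h)
  have h6 : (1 - s) * w.im < u.im := by linarith [h5.1]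
  have : 0 < (1 - s) * w.im := mul_pos (by linarith) hw
  exact ⟨h6, by linarith⟩

lemma mn_eq {F : ℂ → ℝ} (hFc : ContinuousOn F UH) (hF0 : ∀ z, 0 ≤ F z) {s : ℝ} (hs : 0 < s) (hs1 : s < 1)
    {w : ℂ} (hw : 0 < w.im) : mn (s * w.im) F w = (LL s (F1 F) w).toReal := by
  have hpi := Real.pi_pos
  have hsub : ball w (s * w.im) ⊆ UH := fun u hu => (small_UH hs1 hw (mem_ball.1 hu)).2
  unfold mn
  rw [int_F1 hFc hF0 measurableSet_ball hsub, LL_eq, ENNReal.toReal_mul, ENNReal.toReal_inv,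
    ENNReal.toReal_ofReal (by positivity), one_div]

/-- a compact set is contained in a box, and the discs also -/
lemma LL_bdd {F : ℂ → ℝ} (hFc : ContinuousOn F UH) {s : ℝ} (hs : 0 < s) (hs1 : s < 1) {K : Set ℂ}
    (hK : IsCompact K) (hKU : K ⊆ UH) : ∃ B : ℝ, ∀ w ∈ K, LL s (F1 F) w ≤ ENNReal.ofReal B := by
  have hpi := Real.pi_pos
  rcases K.eq_empty_or_nonempty with hKe | hKn
  · exact ⟨0, fun w hw => by simp [hKe] at hw⟩
  obtain ⟨w0, hw0, hmin⟩ := hK.exists_isMinOn hKn Complex.continuous_im.continuousOn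
  obtain ⟨w1, hw1, hmax⟩ := hK.exists_isMaxOn hKn Complex.continuous_im.continuousOn
  obtain ⟨R, hR⟩ := hK.isBounded.subset_closedBall 0
  set K' : Set ℂ := {u | (1 - s) * w0.im ≤ u.im} ∩ closedBall 0 (R + s * w1.im) with hK'
  have hK'c : IsCompact K' :=
    (isCompact_closedBall _ _).inter_left (isClosed_le continuous_const Complex.continuous_im)
  have ha : 0 < w0.im := hKU hw0
  have hK'U : K' ⊆ UH := by
    intro u hu
    have h1 : (1 - s) * w0.im ≤ u.im := hu.1
    have h2 : 0 < (1 - s) * w0.im := mul_pos (by linarith) ha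
    show 0 < u.im
    linarith
  obtain ⟨B, hB⟩ := hK'c.bddAbove_image (hFc.mono hK'U)
  refine ⟨B, fun w hw => ?_⟩
  have hw0' : 0 < w.im := hKU hw
  have h1 : w0.im ≤ w.im := hmin hw
  have h2 : w.im ≤ w1.im := hmax hw
  have h3 : ∀ u ∈ ball w (s * w.im), F1 F u ≤ ENNReal.ofReal B := by
    intro u hu
    have h4 := small_UH hs1 hw0' (mem_ball.1 hu)
    rw [F1_eq (F := F) (show u ∈ UH from h4.2)]
    apply ENNReal.ofReal_le_ofReal
    refine hB ⟨u, ⟨?_, ?_⟩, rfl⟩
    · show (1 - s) * w0.im ≤ u.im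
      have : (1 - s) * w0.im ≤ (1 - s) * w.im := mul_le_mul_of_nonneg_left h1 (by linarith)
      linarith [h4.1]
    · rw [mem_closedBall]
      have h5 := mem_closedBall.1 (hR hw)
      have h6 := mem_ball.1 hu
      have h7 : s * w.im ≤ s * w1.im := mul_le_mul_of_nonneg_left h2 hs.le
      calc dist u 0 ≤ dist u w + dist w 0 := dist_triangle _ _ _
        _ ≤ R + s * w1.im := by linarith
  rw [LL_eq]
  have h4 : ENNReal.ofReal (Real.pi * (s * w.im) ^ 2) ≠ 0 := by
    rw [Ne, ENNReal.ofReal_eq_zero, not_le]; positivity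
  calc (ENNReal.ofReal (Real.pi * (s * w.im) ^ 2))⁻¹ * ∫⁻ u in ball w (s * w.im), F1 F u
      ≤ (ENNReal.ofReal (Real.pi * (s * w.im) ^ 2))⁻¹ *
          (ENNReal.ofReal B * ENNReal.ofReal (Real.pi * (s * w.im) ^ 2)) := by
        gcongr
        rw [← vol_ball w (by positivity), ← setLIntegral_const]
        exact setLIntegral_mono' measurableSet_ball h3
    _ = ENNReal.ofReal B := by
        rw [mul_comm, mul_assoc, ENNReal.mul_inv_cancel h4 ENNReal.ofReal_ne_top, mul_one]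

lemma F1_bdd {F : ℂ → ℝ} (hFc : ContinuousOn F UH) {K : Set ℂ}
    (hK : IsCompact K) (hKU : K ⊆ UH) : ∃ B : ℝ, ∀ w ∈ K, F1 F w ≤ ENNReal.ofReal B := by
  obtain ⟨B, hB⟩ := hK.bddAbove_image (hFc.mono hKU)
  refine ⟨B, fun w hw => ?_⟩
  rw [F1_eq (F := F) (hKU hw)]
  exact ENNReal.ofReal_le_ofReal (hB ⟨w, hw, rfl⟩)

lemma lint_fin {K E : Set ℂ} (hK : IsCompact K) (hE : MeasurableSet E) (hEK : E ⊆ K) {f : ℂ → ℝ≥0∞} {B : ℝ}
    (hB : ∀ w ∈ K, f w ≤ ENNReal.ofReal B) : ∫⁻ w in E, f w ≠ ⊤ := by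
  refine ne_top_of_le_ne_top (b := ENNReal.ofReal B * volume E) ?_ ?_
  · exact ENNReal.mul_ne_top ENNReal.ofReal_ne_top ((measure_mono hEK).trans_lt hK.measure_lt_top).ne
  · rw [← setLIntegral_const]
    exact setLIntegral_mono' hE fun w hw => hB w (hEK hw)

lemma int_mn {F : ℂ → ℝ} (hFc : ContinuousOn F UH) (hF0 : ∀ z, 0 ≤ F z) {s : ℝ} (hs : 0 < s) (hs1 : s < 1)
    {K E : Set ℂ} (hK : IsCompact K) (hKU : K ⊆ UH) (hE : MeasurableSet E) (hEK : E ⊆ K) :
    ∫ w in E, mn (s * w.im) F w = (∫⁻ w in E, LL s (F1 F) w).toReal := by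
  obtain ⟨B, hB⟩ := LL_bdd hFc hs hs1 hK hKU
  rw [← integral_toReal (meas_LL s (meas_F1 hFc)).aemeasurable]
  · refine setIntegral_congr_fun hE ?_
    intro w hw
    exact mn_eq hFc hF0 hs hs1 (hKU (hEK hw))
  · filter_upwards [ae_restrict_mem hE] with w hw
    exact (hB w (hEK hw)).trans_lt ENNReal.ofReal_lt_top

/-- the means are continuous enough: they are integrable on sets in compact sets -/
lemma mn_integrableOn {F : ℂ → ℝ} (hFc : ContinuousOn F UH) (hF0 : ∀ z, 0 ≤ F z) {s : ℝ} (hs : 0 < s)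
    (hs1 : s < 1) {K E : Set ℂ} (hK : IsCompact K) (hKU : K ⊆ UH) (hE : MeasurableSet E) (hEK : E ⊆ K) :
    IntegrableOn (fun w => mn (s * w.im) F w) E := by
  obtain ⟨B, hB⟩ := LL_bdd hFc hs hs1 hK hKU
  have h1 : IntegrableOn (fun w => (LL s (F1 F) w).toReal) E :=
    integrable_toReal_of_lintegral_ne_top (meas_LL s (meas_F1 hFc)).aemeasurable (lint_fin hK hE hEK hB)
  refine h1.congr_fun ?_ hE
  intro w hw
  exact (mn_eq hFc hF0 hs hs1 (hKU (hEK hw))).symm

/-- a point of the smaller disc -/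
lemma small_sub {s : ℝ} (hs : 0 < s) {u w : ℂ} (hw : w ∈ ball u (s * u.im / (1 + s))) :
    dist u w < s * w.im := by
  rw [mem_ball] at hw
  have h1s : 0 < 1 + s := by linarith
  have h1 := abs_lt.1 (im_close hw)
  have h2 : s * u.im / (1 + s) ≤ s * w.im := by
    have h3 : u.im / (1 + s) ≤ w.im := by
      have : u.im / (1 + s) = u.im - s * u.im / (1 + s) := by field_simp; ring
      rw [this]; linarith [h1.1]
    calc s * u.im / (1 + s) = s * (u.im / (1 + s)) := by ring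
      _ ≤ s * w.im := by gcongr
  rw [dist_comm]; linarith

end SwlL

open SwlL

/-- The integral over a set is at most the integral of the means over a larger set. -/
theorem up {F : ℂ → ℝ} (hFc : ContinuousOn F UH) (hF0 : ∀ z, 0 ≤ F z) {s : ℝ} (hs : 0 < s)
    (hs1 : s ≤ 1 / 16) {K E E' : Set ℂ} (hK : IsCompact K) (hKU : K ⊆ UH) (hE : MeasurableSet E)
    (hE' : MeasurableSet E') (hEK : E ⊆ K) (hEK' : E' ⊆ K)
    (h : ∀ u ∈ E, ∀ w : ℂ, ‖w - u‖ < s * w.im → w ∈ E') :
    ∫ u in E, F u ≤ ((1 + s) / (1 - s)) ^ 2 * ∫ w in E', mn (s * w.im) F w := by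
  have hs2 : s < 1 := by linarith
  have h1s : 0 < 1 + s := by linarith
  have h1m : 0 < 1 - s := by linarith
  have hFm := meas_F1 hFc
  rw [int_F1 hFc hF0 hE (hEK.trans hKU), int_mn hFc hF0 hs hs2 hK hKU hE' hEK']
  obtain ⟨B, hB⟩ := LL_bdd hFc hs hs2 hK hKU
  have hlo : ENNReal.ofReal (((1 - s) / (1 + s)) ^ 2) * ∫⁻ u in E, F1 F u ≤ ∫⁻ w in E', LL s (F1 F) w := by
    rw [swap s hFm, ← lintegral_const_mul' _ _ ENNReal.ofReal_ne_top]
    refine le_trans ?_ (lintegral_mono' (Measure.restrict_le_self (s := E)) le_rfl)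
    refine setLIntegral_mono' hE fun u hu => ?_
    have hu0 : 0 < u.im := hKU (hEK hu)
    refine mul_le_mul_left (kap_lower hs hs2 hu0 ?_) _
    intro w hw
    refine h u hu w ?_
    rw [← dist_eq_norm, dist_comm]
    exact small_sub hs hw
  have h1 := ENNReal.toReal_mono (lint_fin hK hE' hEK' hB) hlo
  rw [ENNReal.toReal_mul, ENNReal.toReal_ofReal (by positivity)] at h1
  have h2 : ((1 + s) / (1 - s)) ^ 2 * ((1 - s) / (1 + s)) ^ 2 = 1 := by
    field_simp
  calc (∫⁻ u in E, F1 F u).toReal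
      = ((1 + s) / (1 - s)) ^ 2 * (((1 - s) / (1 + s)) ^ 2 * (∫⁻ u in E, F1 F u).toReal) := by
        rw [← mul_assoc, h2, one_mul]
    _ ≤ _ := by gcongr

/-- The integral of the means over a set is at most the integral over a larger set. -/
theorem lo {F : ℂ → ℝ} (hFc : ContinuousOn F UH) (hF0 : ∀ z, 0 ≤ F z) {s : ℝ} (hs : 0 < s)
    (hs1 : s ≤ 1 / 16) {K E E' : Set ℂ} (hK : IsCompact K) (hKU : K ⊆ UH) (hE : MeasurableSet E)
    (hE' : MeasurableSet E') (hEK : E ⊆ K) (hEK' : E' ⊆ K)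
    (h : ∀ w ∈ E', ∀ u : ℂ, ‖w - u‖ < s * w.im → u ∈ E) :
    ∫ w in E', mn (s * w.im) F w ≤ ((1 + s) / (1 - s)) ^ 2 * ∫ u in E, F u := by
  have hs2 : s < 1 := by linarith
  have h1s : 0 < 1 + s := by linarith
  have h1m : 0 < 1 - s := by linarith
  have hFm := meas_F1 hFc
  rw [int_F1 hFc hF0 hE (hEK.trans hKU), int_mn hFc hF0 hs hs2 hK hKU hE' hEK']
  obtain ⟨B, hB⟩ := F1_bdd hFc hK hKU
  have hhi : ∫⁻ w in E', LL s (F1 F) w ≤ ENNReal.ofReal (((1 + s) / (1 - s)) ^ 2) * ∫⁻ u in E, F1 F u := by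
    rw [swap s hFm, ← lintegral_const_mul' _ _ ENNReal.ofReal_ne_top, ← lintegral_indicator hE]
    refine lintegral_mono fun u => ?_
    by_cases hu : u ∈ E
    · rw [indicator_of_mem hu]
      have hu0 : 0 < u.im := hKU (hEK hu)
      exact mul_le_mul_left (kap_upper hs hs2 hu0 _) _
    · have h0 : ∫⁻ w in E', kk s w u = 0 := by
        rw [← lintegral_zero]
        · refine setLIntegral_congr_fun hE' ?_
          intro w hw
          refine kk_of_not ?_
          intro hd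
          apply hu
          refine h w hw u ?_
          rwa [← dist_eq_norm, dist_comm]
      rw [h0, zero_mul]
      exact zero_le
  have h1 := ENNReal.toReal_mono
    (ENNReal.mul_ne_top ENNReal.ofReal_ne_top (lint_fin hK hE hEK hB)) hhi
  rwa [ENNReal.toReal_mul, ENNReal.toReal_ofReal (by positivity)] at h1

end Pool.Agent.Helper93K9.PE
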