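import Pool.Agent.Helper93K9.PE.Swl

/-! Project PE (helper93): means over sets which are star-shaped with respect to a disc. -/

set_option autoImplicit false
open MeasureTheory Set Metric
open scoped ENNReal

namespace Pool.Agent.Helper93K9.PE

open Pool.Agent.Y265.HY (UH)

noncomputable section

namespace SwsL

open SwlL

/-- measurable subsets of the disc with centre `c` and radius `ρ` which are star-shaped with respect to
all points of the disc with centre `c` and radius `κ ρ` -/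
def Shp (κ : ℝ) (c : ℂ) (ρ : ℝ) (E : Set ℂ) : Prop :=
  MeasurableSet E ∧ E ⊆ ball c ρ ∧ ∀ v ∈ ball c (κ * ρ), ∀ u ∈ E, segment ℝ v u ⊆ E

/-- dilated set -/
def dl (c : ℂ) (t : ℝ) (E : Set ℂ) : Set ℂ := {w | c + t⁻¹ • (w - c) ∈ E}

lemma dl_meas (c : ℂ) (t : ℝ) {E : Set ℂ} (hE : MeasurableSet E) : MeasurableSet (dl c t E) := by
  have h1 : Measurable (fun w : ℂ => c + t⁻¹ • (w - c)) := by fun_prop
  exact h1 hE

lemma dl_vol (c : ℂ) {t : ℝ} (ht : 0 < t) (E : Set ℂ) :
    volume (dl c t E) = ENNReal.ofReal (t ^ 2) * volume E := by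
  have h1 : dl c t E = AffineMap.homothety c t '' E := by
    ext w
    constructor
    · intro hw
      refine ⟨_, hw, ?_⟩
      rw [AffineMap.homothety_apply]
      simp only [vsub_eq_sub, vadd_eq_add, add_sub_cancel_left, smul_smul, mul_inv_cancel₀ ht.ne',
        one_smul, sub_add_cancel]
    · rintro ⟨e, he, rfl⟩
      show c + t⁻¹ • (AffineMap.homothety c t e - c) ∈ E
      rw [AffineMap.homothety_apply]
      simp only [vsub_eq_sub, vadd_eq_add, add_sub_cancel_right, smul_smul, inv_mul_cancel₀ ht.ne',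
        one_smul, add_sub_cancel]
      exact he
  rw [h1, Measure.addHaar_image_homothety, Complex.finrank_real_complex, abs_of_nonneg (by positivity)]

/-- points near `E` belong to the dilated set -/
lemma near_up {κ ρ τ : ℝ} (hτ : 0 < τ) {c : ℂ} {E : Set ℂ} (hE : Shp κ c ρ E) {u w : ℂ} (hu : u ∈ E)
    (hw : dist w u < τ * (κ * ρ)) : w ∈ dl c (1 + τ) E := by
  have h1 : (0 : ℝ) < 1 + τ := by linarith
  have hv : c + τ⁻¹ • (w - u) ∈ ball c (κ * ρ) := by
    rw [mem_ball, dist_eq_norm, add_sub_cancel_left, norm_smul, Real.norm_of_nonneg (by positivity),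
      ← dist_eq_norm, inv_mul_lt_iff₀ hτ]
    exact hw
  refine hE.2.2 _ hv u hu ?_
  refine ⟨τ / (1 + τ), 1 / (1 + τ), by positivity, by positivity, by field_simp; ring, ?_⟩
  have e1 : (τ / (1 + τ)) • (c + τ⁻¹ • (w - u)) = (τ / (1 + τ)) • c + (1 / (1 + τ)) • (w - u) := by
    rw [smul_add, smul_smul]
    congr 2
    field_simp
  rw [e1]
  apply Complex.ext
  · simp only [Complex.add_re, Complex.smul_re, Complex.sub_re, smul_eq_mul]
    field_simp
    ring
  · simp only [Complex.add_im, Complex.smul_im, Complex.sub_im, smul_eq_mul]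
    field_simp
    ring

/-- points near the contracted set belong to `E` -/
lemma near_lo {κ ρ τ : ℝ} (hτ : 0 < τ) (hτ1 : τ < 1) {c : ℂ} {E : Set ℂ} (hE : Shp κ c ρ E) {u w : ℂ}
    (hw : w ∈ dl c (1 - τ) E) (hu : dist u w < τ * (κ * ρ)) : u ∈ E := by
  have h1 : (0 : ℝ) < 1 - τ := by linarith
  have hv : c + τ⁻¹ • (u - w) ∈ ball c (κ * ρ) := by
    rw [mem_ball, dist_eq_norm, add_sub_cancel_left, norm_smul, Real.norm_of_nonneg (by positivity),
      ← dist_eq_norm, inv_mul_lt_iff₀ hτ]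
    exact hu
  refine hE.2.2 _ hv _ hw ?_
  refine ⟨τ, 1 - τ, hτ.le, h1.le, by ring, ?_⟩
  apply Complex.ext
  · simp only [Complex.add_re, Complex.smul_re, Complex.sub_re, smul_eq_mul]
    field_simp
    ring
  · simp only [Complex.add_im, Complex.smul_im, Complex.sub_im, smul_eq_mul]
    field_simp
    ring

lemma up {s : ℝ} (hs : 0 < s) (hs1 : s < 1) {F' : ℂ → ℝ≥0∞} (hF : Measurable F') {E E' : Set ℂ}
    (hE : MeasurableSet E) (hEU : E ⊆ UH) (h : ∀ u ∈ E, ball u (s * u.im / (1 + s)) ⊆ E') :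
    ENNReal.ofReal (((1 - s) / (1 + s)) ^ 2) * ∫⁻ u in E, F' u ≤ ∫⁻ w in E', LL s F' w := by
  rw [swap s hF E', ← lintegral_const_mul' _ _ ENNReal.ofReal_ne_top]
  calc ∫⁻ u in E, ENNReal.ofReal (((1 - s) / (1 + s)) ^ 2) * F' u
      ≤ ∫⁻ u in E, (∫⁻ w in E', kk s w u) * F' u := by
        refine setLIntegral_mono' hE fun u hu => ?_
        exact mul_le_mul_left (kap_lower hs hs1 (hEU hu) (h u hu)) _
    _ ≤ _ := setLIntegral_le_lintegral _ _

lemma lo {s : ℝ} (hs : 0 < s) (hs1 : s < 1) {F' : ℂ → ℝ≥0∞} (hF : Measurable F') {E E' : Set ℂ}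
    (hE : MeasurableSet E) (hE' : MeasurableSet E') (hEU : E ⊆ UH)
    (h : ∀ w ∈ E', ∀ u, dist u w < s * w.im → u ∈ E) :
    ∫⁻ w in E', LL s F' w ≤ ENNReal.ofReal (((1 + s) / (1 - s)) ^ 2) * ∫⁻ u in E, F' u := by
  rw [swap s hF E', ← lintegral_const_mul' _ _ ENNReal.ofReal_ne_top, ← lintegral_indicator hE]
  refine lintegral_mono fun u => ?_
  by_cases hu : u ∈ E
  · rw [indicator_of_mem hu]
    exact mul_le_mul_left (kap_upper hs hs1 (hEU hu) E') _
  · rw [indicator_of_notMem hu]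
    have h1 : ∫⁻ w in E', kk s w u = ∫⁻ w in E', 0 := by
      refine setLIntegral_congr_fun hE' fun w hw => ?_
      exact kk_of_not fun h2 => hu (h w hw u h2)
    rw [h1]
    simp

/-- **the sandwich for star-shaped sets** -/
theorem sws {F : ℂ → ℝ} (hFc : ContinuousOn F UH) (hF0 : ∀ z, 0 ≤ F z) {δ s r κ : ℝ}
    (hδ : 0 < δ) (hδ1 : δ ≤ 1 / 16) (hs : 0 < s) (hsδ : s ≤ δ) (hκ : 0 < κ) (hκ1 : κ ≤ 1)
    (hr : 0 < r) (hr4 : r ≤ 1 / 4) (hsr : s ≤ δ * κ * r) {c : ℂ} (hc : c ∈ UH) {E : Set ℂ}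
    (hE : Shp κ c (r * c.im) E) (hne : E.Nonempty) :
    ENNReal.ofReal |(volume E).toReal⁻¹ * (∫ w in E, F w) - 1| ≤ ENNReal.ofReal (12 * δ) +
      2 * (volume E)⁻¹ *
        ∫⁻ w in ball c (2 * (r * c.im)), ENNReal.ofReal |mn (s * w.im) F w - 1| := by
  have hy : 0 < c.im := hc
  set y := c.im with hyd
  set ρ : ℝ := r * y with hρ
  have hρ0 : 0 < ρ := by positivity
  have hρy : ρ ≤ 1 / 4 * y := by rw [hρ]; gcongr
  have hs1 : s < 1 := by linarith
  have hpi := Real.pi_pos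
  set τ : ℝ := 2 * δ with hτ
  have hτ0 : 0 < τ := by positivity
  have hτ1 : τ ≤ 1 / 8 := by linarith
  have hUH : MeasurableSet UH := by
    have : IsOpen UH := isOpen_lt continuous_const Complex.continuous_im
    exact this.measurableSet
  -- points of discs
  have him : ∀ {w : ℂ} {q : ℝ}, w ∈ ball c (q * y) → (1 - q) * y < w.im ∧ w.im < (1 + q) * y := by
    intro w q hw
    have := abs_lt.1 (im_close (mem_ball.1 hw))
    constructor
    · linarith [this.1]
    · linarith [this.2]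
  have hcl : closedBall c (3 / 4 * y) ⊆ UH := by
    intro w hw
    have h1 : w ∈ ball c (7 / 8 * y) := closedBall_subset_ball (by linarith) hw
    have h2 := (him h1).1
    show 0 < w.im
    linarith
  have hEb : E ⊆ ball c ρ := hE.2.1
  have hb34 : ball c (2 * ρ) ⊆ closedBall c (3 / 4 * y) :=
    (ball_subset_ball (by linarith)).trans ball_subset_closedBall
  have hEU : E ⊆ UH := (hEb.trans (ball_subset_ball (by linarith))).trans (hb34.trans hcl)
  have hκE : ball c (κ * ρ) ⊆ E := by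
    intro v hv
    obtain ⟨u, hu⟩ := hne
    exact hE.2.2 v hv u hu (left_mem_segment ℝ v u)
  have hvtop : volume E ≠ ⊤ := (lt_of_le_of_lt (measure_mono hEb) measure_ball_lt_top).ne
  have hv0 : volume E ≠ 0 := by
    have : 0 < volume (ball c (κ * ρ)) := measure_ball_pos _ _ (by positivity)
    exact (this.trans_le (measure_mono hκE)).ne'
  -- the measurable version of `F`
  set F' : ℂ → ℝ≥0∞ := UH.indicator (fun w => ENNReal.ofReal (F w)) with hF'
  have hF'm : Measurable F' := by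
    classical
    rw [hF', ← piecewise_eq_indicator]
    refine ContinuousOn.measurable_piecewise ?_ continuousOn_const hUH
    exact ENNReal.continuous_ofReal.comp_continuousOn hFc
  have hF'eq : ∀ w ∈ UH, F' w = ENNReal.ofReal (F w) := fun w hw => indicator_of_mem hw _
  -- a bound for `F`
  obtain ⟨B, hB⟩ : ∃ B : ℝ, ∀ w ∈ closedBall c (3 / 4 * y), F w ≤ B := by
    have hcc : IsCompact (closedBall c (3 / 4 * y)) := isCompact_closedBall _ _
    obtain ⟨B, hB⟩ := hcc.bddAbove_image (hFc.mono hcl)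
    exact ⟨B, fun w hw => hB ⟨w, hw, rfl⟩⟩
  have hsetF : ∀ {A : Set ℂ}, MeasurableSet A → A ⊆ closedBall c (3 / 4 * y) →
      ∫⁻ u in A, F' u ≤ ENNReal.ofReal B * volume A := by
    intro A hA hsub
    rw [← setLIntegral_const]
    refine setLIntegral_mono' hA fun u hu => ?_
    rw [hF'eq u (hcl (hsub hu))]
    exact ENNReal.ofReal_le_ofReal (hB u (hsub hu))
  have hsmall : ∀ w ∈ ball c (2 * ρ), ball w (s * w.im) ⊆ closedBall c (3 / 4 * y) ∧ 0 < w.im := by
    intro w hw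
    have hw2 : w ∈ ball c (1 / 2 * y) := ball_subset_ball (by linarith) hw
    obtain ⟨h1, h2⟩ := him hw2
    refine ⟨?_, by linarith⟩
    intro u hu
    rw [mem_closedBall]
    have h3 : s * w.im ≤ 1 / 16 * (3 / 2 * y) := by
      have : s ≤ 1 / 16 := by linarith
      have h5 : w.im ≤ 3 / 2 * y := by linarith
      exact mul_le_mul this h5 (by linarith) (by norm_num)
    calc dist u c ≤ dist u w + dist w c := dist_triangle _ _ _
      _ ≤ s * w.im + 1 / 2 * y := by
          have := mem_ball.1 hu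
          have := mem_ball.1 hw2
          linarith
      _ ≤ 3 / 4 * y := by linarith
  have hLM : ∀ w ∈ ball c (2 * ρ), LL s F' w = ENNReal.ofReal (mn (s * w.im) F w) := by
    intro w hw
    obtain ⟨h1, h2⟩ := hsmall w hw
    have h3 := hsetF measurableSet_ball h1
    have h4 : ∫⁻ u in ball w (s * w.im), F' u ≠ ⊤ :=
      (lt_of_le_of_lt h3 (ENNReal.mul_lt_top ENNReal.ofReal_lt_top measure_ball_lt_top)).ne
    have h5 : ∫ u in ball w (s * w.im), F u = (∫⁻ u in ball w (s * w.im), F' u).toReal := by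
      rw [integral_eq_lintegral_of_nonneg_ae (Filter.Eventually.of_forall fun u => hF0 u)
        ((hFc.mono (h1.trans hcl)).aestronglyMeasurable measurableSet_ball)]
      congr 1
      refine setLIntegral_congr_fun measurableSet_ball ?_
      intro u hu
      exact (hF'eq u (hcl (h1 hu))).symm
    have h6 : 0 < Real.pi * (s * w.im) ^ 2 := by positivity
    unfold mn
    rw [h5, LL_eq, one_div, ENNReal.ofReal_mul (p := (Real.pi * (s * w.im) ^ 2)⁻¹) (by positivity),
      ENNReal.ofReal_inv_of_pos h6, ENNReal.ofReal_toReal h4]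
  set G : ℂ → ℝ≥0∞ := fun w => ENNReal.ofReal |mn (s * w.im) F w - 1| with hG
  have hLm := meas_LL s hF'm
  have hL1 : ∀ w ∈ ball c (2 * ρ), LL s F' w ≤ 1 + G w := by
    intro w hw
    rw [hLM w hw, hG, ← ENNReal.ofReal_one, ← ENNReal.ofReal_add zero_le_one (abs_nonneg _)]
    apply ENNReal.ofReal_le_ofReal
    linarith [le_abs_self (mn (s * w.im) F w - 1)]
  have hL2 : ∀ w ∈ ball c (2 * ρ), 1 ≤ LL s F' w + G w := by
    intro w hw
    have h0 : 0 ≤ mn (s * w.im) F w := by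
      unfold mn
      exact mul_nonneg (by positivity) (integral_nonneg fun u => hF0 u)
    rw [hLM w hw, hG, ← ENNReal.ofReal_one, ← ENNReal.ofReal_add h0 (abs_nonneg _)]
    apply ENNReal.ofReal_le_ofReal
    linarith [neg_abs_le (mn (s * w.im) F w - 1)]
  -- geometry
  have hsτ : ∀ {w : ℂ}, w ∈ ball c ρ → s * w.im < τ * (κ * ρ) := by
    intro w hw
    have h1 := (him (hw : w ∈ ball c (r * y))).2
    have h2 : s * w.im ≤ (δ * κ * r) * w.im := by
      have := (him (hw : w ∈ ball c (r * y))).1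
      have h3 : 0 < w.im := by nlinarith
      gcongr
    have h3 : (δ * κ * r) * w.im < (δ * κ * r) * ((1 + r) * y) := by gcongr
    have h4 : (δ * κ * r) * ((1 + r) * y) ≤ (δ * κ * r) * (2 * y) := by
      gcongr
      linarith
    calc s * w.im < (δ * κ * r) * (2 * y) := by linarith
      _ = τ * (κ * ρ) := by rw [hτ, hρ]; ring
  set E1 := dl c (1 + τ) E with hE1
  set E2 := dl c (1 - τ) E with hE2
  have hE1b : E1 ⊆ ball c (2 * ρ) := by
    intro w hw
    have h1 := mem_ball.1 (hEb hw)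
    rw [dist_eq_norm, add_sub_cancel_left, norm_smul, Real.norm_of_nonneg (by positivity),
      inv_mul_lt_iff₀ (by positivity)] at h1
    rw [mem_ball, dist_eq_norm]
    have h2 : (1 + τ) * ρ ≤ 2 * ρ := by gcongr; linarith
    linarith
  have hE2b : E2 ⊆ ball c ρ := by
    intro w hw
    have h1 := mem_ball.1 (hEb hw)
    have h0 : (0 : ℝ) < 1 - τ := by linarith
    rw [dist_eq_norm, add_sub_cancel_left, norm_smul, Real.norm_of_nonneg (by positivity),
      inv_mul_lt_iff₀ h0] at h1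
    rw [mem_ball, dist_eq_norm]
    have h2 : (1 - τ) * ρ ≤ 1 * ρ := by gcongr; linarith
    linarith
  have hb12 : ball c ρ ⊆ ball c (2 * ρ) := ball_subset_ball (by linarith)
  have hE1m : MeasurableSet E1 := dl_meas c _ hE.1
  have hE2m : MeasurableSet E2 := dl_meas c _ hE.1
  have hE1v : volume E1 = ENNReal.ofReal ((1 + τ) ^ 2) * volume E := dl_vol c (by linarith) E
  have hE2v : volume E2 = ENNReal.ofReal ((1 - τ) ^ 2) * volume E := dl_vol c (by linarith) E
  set X : ℝ≥0∞ := ∫⁻ u in E, F' u with hX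
  set g : ℝ≥0∞ := ∫⁻ w in ball c (2 * ρ), G w with hg
  have hXtop : X ≠ ⊤ := by
    have h3 := hsetF hE.1 (hEb.trans (hb12.trans hb34))
    exact (lt_of_le_of_lt h3 (ENNReal.mul_lt_top ENNReal.ofReal_lt_top
      (lt_top_iff_ne_top.2 hvtop))).ne
  have hX' : ∫ u in E, F u = X.toReal := by
    rw [integral_eq_lintegral_of_nonneg_ae (Filter.Eventually.of_forall fun u => hF0 u)
      ((hFc.mono hEU).aestronglyMeasurable hE.1)]
    congr 1
    refine setLIntegral_congr_fun hE.1 ?_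
    intro u hu
    exact (hF'eq u (hEU hu)).symm
  have i1 : ENNReal.ofReal (((1 - s) / (1 + s)) ^ 2) * X ≤
      ENNReal.ofReal ((1 + τ) ^ 2) * volume E + g := by
    calc ENNReal.ofReal (((1 - s) / (1 + s)) ^ 2) * X ≤ ∫⁻ w in E1, LL s F' w := by
          refine up hs hs1 hF'm hE.1 hEU fun u hu w hw => ?_
          refine near_up hτ0 hE hu ?_
          have h1 := hsτ (hEb hu)
          have h2 : 0 < u.im := hEU hu
          have h3 : s * u.im / (1 + s) ≤ s * u.im := div_le_self (by positivity) (by linarith)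
          have h4 := mem_ball.1 hw
          exact lt_of_lt_of_le h4 (h3.trans h1.le)
      _ ≤ ∫⁻ w in E1, (1 + G w) := setLIntegral_mono' hE1m fun w hw => hL1 w (hE1b hw)
      _ = volume E1 + ∫⁻ w in E1, G w := by
          rw [lintegral_add_left measurable_const, setLIntegral_one]
      _ ≤ _ := by
          rw [hE1v]
          exact add_le_add le_rfl (lintegral_mono_set hE1b)
  have i2 : ENNReal.ofReal ((1 - τ) ^ 2) * volume E ≤
      ENNReal.ofReal (((1 + s) / (1 - s)) ^ 2) * X + g := by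
    calc ENNReal.ofReal ((1 - τ) ^ 2) * volume E = ∫⁻ w in E2, 1 := by
          rw [setLIntegral_one, hE2v]
      _ ≤ ∫⁻ w in E2, (LL s F' w + G w) :=
          setLIntegral_mono' hE2m fun w hw => hL2 w (hb12 (hE2b hw))
      _ = (∫⁻ w in E2, LL s F' w) + ∫⁻ w in E2, G w := lintegral_add_left hLm _
      _ ≤ _ := by
          refine add_le_add ?_ (lintegral_mono_set (hE2b.trans hb12))
          refine lo hs hs1 hF'm hE.1 hE2m hEU fun w hw u hu => ?_
          exact near_lo hτ0 (by linarith) hE hw (hu.trans (hsτ (hE2b hw)))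
  by_cases hgt : g = ⊤
  · rw [hgt, ENNReal.mul_top]
    · simp
    · refine mul_ne_zero two_ne_zero ?_
      rw [Ne, ENNReal.inv_eq_zero]
      exact hvtop
  -- real numbers
  set v' : ℝ := (volume E).toReal with hv'
  set x : ℝ := X.toReal with hx
  set g' : ℝ := g.toReal with hg'
  have hv'0 : 0 < v' := ENNReal.toReal_pos hv0 hvtop
  have hg0 : 0 ≤ g' := ENNReal.toReal_nonneg
  have hx0 : 0 ≤ x := ENNReal.toReal_nonneg
  have j1 : ((1 - s) / (1 + s)) ^ 2 * x ≤ (1 + τ) ^ 2 * v' + g' := by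
    have h1 := ENNReal.toReal_mono (ENNReal.add_ne_top.2
      ⟨ENNReal.mul_ne_top ENNReal.ofReal_ne_top hvtop, hgt⟩) i1
    rw [ENNReal.toReal_mul, ENNReal.toReal_add (ENNReal.mul_ne_top ENNReal.ofReal_ne_top hvtop) hgt,
      ENNReal.toReal_mul, ENNReal.toReal_ofReal (sq_nonneg _), ENNReal.toReal_ofReal (sq_nonneg _)]
      at h1
    exact h1
  have j2 : (1 - τ) ^ 2 * v' ≤ ((1 + s) / (1 - s)) ^ 2 * x + g' := by
    have h1 := ENNReal.toReal_mono (ENNReal.add_ne_top.2
      ⟨ENNReal.mul_ne_top ENNReal.ofReal_ne_top hXtop, hgt⟩) i2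
    rw [ENNReal.toReal_mul, ENNReal.toReal_add (ENNReal.mul_ne_top ENNReal.ofReal_ne_top hXtop) hgt,
      ENNReal.toReal_mul, ENNReal.toReal_ofReal (sq_nonneg _), ENNReal.toReal_ofReal (sq_nonneg _)]
      at h1
    exact h1
  have ha : ((1 - δ) / (1 + δ)) ^ 2 ≤ ((1 - s) / (1 + s)) ^ 2 := by
    have h1 : 0 ≤ (1 - δ) / (1 + δ) := div_nonneg (by linarith) (by linarith)
    have h2 : (1 - δ) / (1 + δ) ≤ (1 - s) / (1 + s) := by
      rw [div_le_div_iff₀ (by linarith) (by linarith)]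
      nlinarith
    exact pow_le_pow_left₀ h1 h2 2
  have hb : ((1 + s) / (1 - s)) ^ 2 ≤ ((1 + δ) / (1 - δ)) ^ 2 := by
    have h1 : 0 ≤ (1 + s) / (1 - s) := div_nonneg (by linarith) (by linarith)
    have h2 : (1 + s) / (1 - s) ≤ (1 + δ) / (1 - δ) := by
      rw [div_le_div_iff₀ (by linarith) (by linarith)]
      nlinarith
    exact pow_le_pow_left₀ h1 h2 2
  have hd1 : (0 : ℝ) < 1 - δ := by linarith
  have hd2 : (0 : ℝ) < 1 + δ := by linarith
  have k1 : (1 - δ) ^ 2 * x ≤ (1 + δ) ^ 2 * ((1 + τ) ^ 2 * v' + g') := by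
    have h1 := (mul_le_mul_of_nonneg_right ha hx0).trans j1
    rw [div_pow, div_mul_eq_mul_div, div_le_iff₀ (by positivity)] at h1
    linarith
  have k2 : (1 - τ) ^ 2 * v' - g' ≤ (1 + δ) ^ 2 / (1 - δ) ^ 2 * x := by
    have h1 := mul_le_mul_of_nonneg_right hb hx0
    rw [div_pow (1 + δ)] at h1
    linarith
  have k2' : (1 - δ) ^ 2 * ((1 - τ) ^ 2 * v' - g') ≤ (1 + δ) ^ 2 * x := by
    rw [div_mul_eq_mul_div, le_div_iff₀ (by positivity)] at k2
    linarith
  have p1 : (1 + δ) ^ 2 * (1 + τ) ^ 2 ≤ (1 + 12 * δ) * (1 - δ) ^ 2 := by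
    rw [hτ]
    nlinarith [pow_pos hδ 2, pow_pos hδ 3, pow_pos hδ 4, mul_nonneg hδ.le (sub_nonneg.2 hδ1),
      mul_nonneg (pow_pos hδ 3).le (sub_nonneg.2 hδ1), mul_nonneg (pow_pos hδ 2).le (sub_nonneg.2 hδ1)]
  have p2 : (1 - 12 * δ) * (1 + δ) ^ 2 ≤ (1 - δ) ^ 2 * (1 - τ) ^ 2 := by
    rw [hτ]
    nlinarith [pow_pos hδ 2, pow_pos hδ 3, pow_pos hδ 4]
  have p3 : (1 + δ) ^ 2 ≤ 2 * (1 - δ) ^ 2 := by nlinarith
  have q1 : x ≤ (1 + 12 * δ) * v' + 2 * g' := by
    have h1 : (1 - δ) ^ 2 * x ≤ (1 - δ) ^ 2 * ((1 + 12 * δ) * v' + 2 * g') := by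
      calc (1 - δ) ^ 2 * x ≤ (1 + δ) ^ 2 * ((1 + τ) ^ 2 * v' + g') := k1
        _ = ((1 + δ) ^ 2 * (1 + τ) ^ 2) * v' + (1 + δ) ^ 2 * g' := by ring
        _ ≤ ((1 + 12 * δ) * (1 - δ) ^ 2) * v' + (2 * (1 - δ) ^ 2) * g' := by gcongr
        _ = _ := by ring
    exact le_of_mul_le_mul_left h1 (by positivity)
  have q2 : (1 - 12 * δ) * v' - 2 * g' ≤ x := by
    have h1 : (1 + δ) ^ 2 * ((1 - 12 * δ) * v' - 2 * g') ≤ (1 + δ) ^ 2 * x := by
      calc (1 + δ) ^ 2 * ((1 - 12 * δ) * v' - 2 * g')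
          = ((1 - 12 * δ) * (1 + δ) ^ 2) * v' - 2 * (1 + δ) ^ 2 * g' := by ring
        _ ≤ ((1 - δ) ^ 2 * (1 - τ) ^ 2) * v' - (1 - δ) ^ 2 * g' := by
            have h2 := mul_le_mul_of_nonneg_right p2 hv'0.le
            have h3 : (1 - δ) ^ 2 * g' ≤ 2 * (1 + δ) ^ 2 * g' := by
              apply mul_le_mul_of_nonneg_right _ hg0
              nlinarith
            linarith
        _ = (1 - δ) ^ 2 * ((1 - τ) ^ 2 * v' - g') := by ring
        _ ≤ _ := k2'
    exact le_of_mul_le_mul_left h1 (by positivity)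
  have fin : |v'⁻¹ * x - 1| ≤ 12 * δ + 2 * v'⁻¹ * g' := by
    have e1 : v'⁻¹ * x - 1 = v'⁻¹ * (x - v') := by field_simp
    have e2 : 12 * δ + 2 * v'⁻¹ * g' = v'⁻¹ * (12 * δ * v' + 2 * g') := by field_simp
    rw [e1, e2, abs_mul, abs_of_nonneg (by positivity)]
    apply mul_le_mul_of_nonneg_left _ (by positivity)
    rw [abs_le]
    constructor
    · linarith
    · linarith
  rw [hX']
  refine (ENNReal.ofReal_le_ofReal fin).trans ?_
  rw [ENNReal.ofReal_add (by positivity) (by positivity)]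
  refine add_le_add le_rfl (le_of_eq ?_)
  rw [ENNReal.ofReal_mul (by positivity), ENNReal.ofReal_mul (by norm_num), ENNReal.ofReal_toReal hgt,
    ENNReal.ofReal_inv_of_pos hv'0, ENNReal.ofReal_toReal hvtop, ENNReal.ofReal_ofNat]

end SwsL

end

end Pool.Agent.Helper93K9.PE
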