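import Pool.Agent.Helper93K9.PE.Core
import Pool.Agent.Helper93K9.PE.Ell

/-! Project PE (helper93): the local mass at the Planck scale without bounds for the fourth moments. -/

set_option autoImplicit false
open MeasureTheory Filter Topology Complex
open scoped ContDiff

namespace Pool.Agent.Helper93K9.PE

open Pool.Agent.W745.RW Pool.Agent.TH294.RS Pool.Agent.Y265.HY

open EllL ShL in
theorem ellB {B : Set ℂ} (hBo : IsOpen B) (hBU : B ⊆ UH) : ∀ K : Set ℂ, IsCompact K → K ⊆ B →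
  ∃ ψ, TF B ψ ∧ (∀ z, 0 ≤ ψ z) ∧
  ∀ (lam : ℕ → ℝ), (∀ n, 0 < lam n) → Tendsto lam atTop atTop → ∀ f : ℕ → ℂ → ℝ,
  (∀ n, ContDiffOn ℝ ∞ (f n) UH) →
  (∀ n, ∀ z ∈ UH, z.im ^ 2 * lap (f n) z + lam n * f n z = 0) → ∀ R : ℝ, 0 < R →
    ∃ C : ℝ, ∀ᶠ n in atTop, ∫ z in K, f n z ^ 4 ≤ C * ∫ z, ψ z * AR R (lam n) (f n) z ^ 2 := by
  intro K hK hKB
  obtain ⟨δ, hδ, hδB⟩ := hK.exists_cthickening_subset_open hBo hKB
  set K' := Metric.cthickening δ K with hK'
  have hK'c : IsCompact K' := hK.cthickening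
  obtain ⟨ψ, hψB, hψ1, hψ0, -⟩ := exists_cut hBo hK'c hδB
  have hδU : K' ⊆ UH := hδB.trans hBU
  have hψ : TF UH ψ := ⟨hψB.1, hψB.2.1, hψB.2.2.trans hBU⟩
  refine ⟨ψ, hψB, hψ0, ?_⟩
  intro lam hlam hlim f hf hfe R hR
  obtain ⟨a, ha0, ha⟩ := hK'c.exists_forall_le' Complex.continuous_im.continuousOn
    (a := (0:ℝ)) (fun z hz => hδU hz)
  obtain ⟨b0, hb0⟩ := hK'c.exists_bound_of_continuousOn (f := fun z : ℂ => z.im)
    Complex.continuous_im.continuousOn
  set b : ℝ := max b0 a + 1 with hb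
  have hb1 : 0 < b := by
    have := le_max_right b0 a
    linarith
  have hbK : ∀ z ∈ K', z.im < b := fun z hz => by
    have h1 := (le_abs_self _).trans (hb0 z hz)
    have h2 := le_max_left b0 a
    linarith
  set a' : ℝ := a / 2 with ha'
  have ha'0 : 0 < a' := by positivity
  set U : Set ℂ := {z | a' < z.im ∧ z.im < b} with hU
  have hUU : U ⊆ UH := fun z hz => ha'0.trans hz.1
  have hK'U : K' ⊆ U := fun z hz => ⟨by have := ha z hz; linarith, hbK z hz⟩
  obtain ⟨C, hC0, hC⟩ := EllL.locA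
  set κ : ℝ := (R / 5) ^ 4 with hκ
  have hκ0 : 0 ≤ κ := by positivity
  set D : ℝ := C * (1 + κ) * (625 * Real.pi * b ^ 4 / (9 * a' ^ 4)) with hD
  have hpi := Real.pi_pos
  have hD0 : 0 ≤ D := by positivity
  refine ⟨9 * D, ?_⟩
  -- the scale
  have hh : Tendsto (fun n => 1 / √(lam n)) atTop (𝓝 0) := by
    have h1 : Tendsto (fun n => √(lam n)) atTop atTop := Real.tendsto_sqrt_atTop.comp hlim
    refine h1.inv_tendsto_atTop.congr fun n => ?_
    rw [Pi.inv_apply, one_div]
  have hev1 : ∀ᶠ n in atTop, R * (1 / √(lam n)) < 1 := by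
    have h1 := hh.const_mul R
    rw [mul_zero] at h1
    exact h1.eventually_lt_const (by norm_num)
  have hev2 : ∀ᶠ n in atTop, R * a' * (1 / √(lam n)) < δ := by
    have h1 := hh.const_mul (R * a')
    rw [mul_zero] at h1
    exact h1.eventually_lt_const hδ
  filter_upwards [hev1, hev2] with n hn1 hn2
  set h : ℝ := 1 / √(lam n) with hhd
  have hsq0 : 0 < √(lam n) := Real.sqrt_pos.2 (hlam n)
  have hh0 : 0 < h := by positivity
  have hhl : h ^ 2 * lam n = 1 := by
    rw [hhd, div_pow, one_pow, Real.sq_sqrt (hlam n).le]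
    exact one_div_mul_cancel (hlam n).ne'
  have hRs : R / √(lam n) = R * h := by rw [hhd]; ring
  set r : ℝ := R * a' / 5 * h with hr
  have hr0 : 0 < r := by positivity
  have hr5 : 5 * r = R * a' * h := by rw [hr]; ring
  have hfc : ContinuousOn (f n) UH := (hf n).continuousOn
  have hARc : ContinuousOn (AR R (lam n) (f n)) UH :=
    EllL.AR_cont (by rw [hRs]; positivity) (by rw [hRs]; exact hn1) hfc
  have hAR0 : ∀ z, 0 ≤ AR R (lam n) (f n) z := fun z => integral_nonneg fun v => sq_nonneg _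
  have hth : Metric.cthickening (5 * r) K ⊆ K' := by
    apply Metric.cthickening_mono
    rw [hr5]; exact hn2.le
  have key : ∀ c, Metric.ball c (4 * r) ⊆ U →
      ∫ z in Metric.ball c r, f n z ^ 4 ≤
        D * ∫ z in Metric.ball c (3 * r), AR R (lam n) (f n) z ^ 2 := by
    intro c hc
    have hloc := hC r (f n) c κ hr0 hκ0 ((hf n).mono (hc.trans hUU)) (by
      intro z hz
      have hzU := hc hz
      have hz0 : 0 < z.im := ha'0.trans hzU.1
      have he := hfe n z (hUU hzU)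
      have h1 : lap (f n) z = - (lam n * f n z) / z.im ^ 2 := by
        rw [eq_div_iff (by positivity)]
        linarith
      have h2 : r ^ 2 * lap (f n) z = - ((R / 5) ^ 2 * (a' / z.im) ^ 2 * f n z) := by
        rw [h1, hr]
        have : (R * a' / 5 * h) ^ 2 * (-(lam n * f n z) / z.im ^ 2) =
          - ((R / 5) ^ 2 * (a' / z.im) ^ 2 * f n z) * (h ^ 2 * lam n) := by ring
        rw [this, hhl, mul_one]
      rw [h2, neg_sq, mul_pow, mul_pow, ← pow_mul, ← pow_mul]
      apply mul_le_mul_of_nonneg_right _ (sq_nonneg _)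
      have h3 : a' / z.im ≤ 1 := by rw [div_le_one hz0]; exact hzU.1.le
      have h4 : (a' / z.im) ^ (2 * 2) ≤ 1 := pow_le_one₀ (by positivity) h3
      calc (R / 5) ^ (2 * 2) * (a' / z.im) ^ (2 * 2) ≤ (R / 5) ^ (2 * 2) * 1 :=
            mul_le_mul_of_nonneg_left h4 (by positivity)
        _ = κ := by rw [mul_one, hκ])
    set S := ∫ z in Metric.ball c (2 * r), f n z ^ 2 with hS
    have hS0 : 0 ≤ S := integral_nonneg fun z => sq_nonneg _
    -- comparison with the local mass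
    have hcmp : ∀ z ∈ Metric.ball c (3 * r), S ^ 2 ≤
        (Real.pi * (R * h * b) ^ 2) ^ 2 * AR R (lam n) (f n) z ^ 2 := by
      intro z hz
      have hzU : z ∈ U := hc (Metric.ball_subset_ball (by linarith) hz)
      have hz0 : 0 < z.im := ha'0.trans hzU.1
      have hρ : 0 < R * h * z.im := by positivity
      have e1 : AR R (lam n) (f n) z =
          1 / (Real.pi * (R * h * z.im) ^ 2) * ∫ w in Metric.ball z (R * h * z.im), f n w ^ 2 := by
        unfold AR
        rw [hRs]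
        exact EllL.mean_eq (fun w => f n w ^ 2) z hρ
      have hcl : Metric.closedBall z (R * h * z.im) ⊆ UH := by
        intro w hw
        rw [Metric.mem_closedBall, dist_eq_norm] at hw
        have h1 := (abs_le.1 ((Complex.abs_im_le_norm (w - z)).trans hw)).1
        rw [sub_im] at h1
        show 0 < w.im
        nlinarith
      have hint : IntegrableOn (fun w => f n w ^ 2) (Metric.ball z (R * h * z.im)) :=
        ((hfc.mono hcl).pow 2).integrableOn_compact (isCompact_closedBall _ _) |>.mono_set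
          Metric.ball_subset_closedBall
      have hsub : Metric.ball c (2 * r) ⊆ Metric.ball z (R * h * z.im) := by
        apply Metric.ball_subset_ball'
        rw [Metric.mem_ball, dist_comm] at hz
        have : 5 * r ≤ R * h * z.im := by
          rw [hr5]
          have := hzU.1
          have h2 : 0 < R * h := by positivity
          nlinarith
        linarith
      have h1 : S ≤ ∫ w in Metric.ball z (R * h * z.im), f n w ^ 2 :=
        setIntegral_mono_set hint (ae_of_all _ fun w => sq_nonneg _) hsub.eventuallyLE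
      have h2 : ∫ w in Metric.ball z (R * h * z.im), f n w ^ 2 =
          Real.pi * (R * h * z.im) ^ 2 * AR R (lam n) (f n) z := by
        rw [e1]
        field_simp
      have h3 : S ≤ Real.pi * (R * h * b) ^ 2 * AR R (lam n) (f n) z := by
        rw [h2] at h1
        refine h1.trans ?_
        apply mul_le_mul_of_nonneg_right _ (hAR0 z)
        apply mul_le_mul_of_nonneg_left _ hpi.le
        apply pow_le_pow_left₀ hρ.le
        exact mul_le_mul_of_nonneg_left hzU.2.le (by positivity)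
      calc S ^ 2 ≤ (Real.pi * (R * h * b) ^ 2 * AR R (lam n) (f n) z) ^ 2 :=
            pow_le_pow_left₀ hS0 h3 2
        _ = _ := by ring
    have hc3 : Metric.closedBall c (3 * r) ⊆ UH :=
      (Metric.closedBall_subset_ball (by linarith)).trans (hc.trans hUU)
    have hintA : IntegrableOn (fun z => AR R (lam n) (f n) z ^ 2) (Metric.ball c (3 * r)) :=
      ((hARc.mono hc3).pow 2).integrableOn_compact (isCompact_closedBall _ _) |>.mono_set
        Metric.ball_subset_closedBall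
    have havg : (Real.pi * (3 * r) ^ 2) * S ^ 2 ≤ (Real.pi * (R * h * b) ^ 2) ^ 2 *
        ∫ z in Metric.ball c (3 * r), AR R (lam n) (f n) z ^ 2 := by
      have h1 : ∫ z in Metric.ball c (3 * r), S ^ 2 ≤
          ∫ z in Metric.ball c (3 * r), (Real.pi * (R * h * b) ^ 2) ^ 2 *
            AR R (lam n) (f n) z ^ 2 := by
        apply setIntegral_mono_on _ (hintA.const_mul _) measurableSet_ball hcmp
        exact integrableOn_const measure_ball_lt_top.ne
      rw [integral_const_mul, setIntegral_const, smul_eq_mul] at h1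
      have h2 : (volume : Measure ℂ).real (Metric.ball c (3 * r)) = Real.pi * (3 * r) ^ 2 := by
        rw [Measure.real, Complex.volume_ball]
        rw [ENNReal.toReal_mul, ENNReal.toReal_pow, ENNReal.toReal_ofReal (by positivity)]
        simp
        ring
      rw [h2] at h1
      exact h1
    set Q := ∫ z in Metric.ball c (3 * r), AR R (lam n) (f n) z ^ 2 with hQ
    have hQ0 : 0 ≤ Q := integral_nonneg fun z => sq_nonneg _
    set P := ∫ z in Metric.ball c r, f n z ^ 4 with hP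
    have hCκ : 0 ≤ C * (1 + κ) := by positivity
    -- combine
    have e1 : (Real.pi * (3 * r) ^ 2) * (r ^ 2 * P) ≤
        C * (1 + κ) * ((Real.pi * (R * h * b) ^ 2) ^ 2 * Q) := by
      calc (Real.pi * (3 * r) ^ 2) * (r ^ 2 * P)
          ≤ (Real.pi * (3 * r) ^ 2) * (C * (1 + κ) * S ^ 2) :=
            mul_le_mul_of_nonneg_left hloc (by positivity)
        _ = C * (1 + κ) * ((Real.pi * (3 * r) ^ 2) * S ^ 2) := by ring
        _ ≤ _ := mul_le_mul_of_nonneg_left havg hCκ
    have e2 : D * Q = (Real.pi * (3 * r) ^ 2 * r ^ 2)⁻¹ *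
        (C * (1 + κ) * ((Real.pi * (R * h * b) ^ 2) ^ 2 * Q)) := by
      rw [hD, hr]
      field_simp
      ring
    have hpos : 0 < Real.pi * (3 * r) ^ 2 * r ^ 2 := by positivity
    rw [e2, inv_mul_eq_div, le_div_iff₀ hpos]
    calc P * (Real.pi * (3 * r) ^ 2 * r ^ 2) = (Real.pi * (3 * r) ^ 2) * (r ^ 2 * P) := by ring
      _ ≤ _ := e1
  have hcov := cover (G := fun z => f n z ^ 4) (H := fun z => AR R (lam n) (f n) z ^ 2)
    hK hK'c hK'U hr0 hth hD0 ((hfc.mono hUU).pow 4) ((hARc.mono hUU).pow 2)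
    (fun z => by positivity) (fun z => sq_nonneg _) key
  refine hcov.trans ?_
  apply mul_le_mul_of_nonneg_left _ (by positivity)
  have hψc : Continuous (fun z => ψ z * AR R (lam n) (f n) z ^ 2) :=
    ShL.cont_mul (isOpen_lt continuous_const Complex.continuous_im) hψ.1.continuous hψ.2.2 (hARc.pow 2)
  have hψi : Integrable (fun z => ψ z * AR R (lam n) (f n) z ^ 2) :=
    hψc.integrable_of_hasCompactSupport hψ.2.1.mul_right
  calc ∫ z in K', AR R (lam n) (f n) z ^ 2
      = ∫ z in K', ψ z * AR R (lam n) (f n) z ^ 2 := by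
        refine setIntegral_congr_fun hK'c.measurableSet fun z hz => ?_
        show _ = ψ z * AR R (lam n) (f n) z ^ 2
        rw [hψ1 z hz, one_mul]
    _ ≤ _ := setIntegral_le_integral hψi (ae_of_all _ fun z => mul_nonneg (hψ0 z) (sq_nonneg _))

noncomputable section

namespace VarL

open FinL

variable {lam : ℕ → ℝ} {f : ℕ → ℂ → ℝ}

lemma seq_sub (S : Seq lam f) {σ : ℕ → ℕ} (hσ : StrictMono σ) :
    Seq (fun n => lam (σ n)) (fun n => f (σ n)) :=
  ⟨fun n => S.pos _, S.lim.comp hσ.tendsto_atTop, fun n => S.sm _, fun n => S.eq _,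
    fun φ hφ k => (S.qe φ hφ k).comp hσ.tendsto_atTop⟩

lemma tfB {B : Set ℂ} (hBU : B ⊆ UH) {φ : ℂ → ℝ} (hφ : TF B φ) : TF UH φ :=
  ⟨hφ.1, hφ.2.1, hφ.2.2.trans hBU⟩

lemma sysB {B : Set ℂ} (hB : IsOpen B) (hBU : B ⊆ UH) (S : Seq lam f) :
    SY B Complex.im (hh lam) (WL lam f) ∧ EX B (hh lam) (WL lam f) (WL lam f 0) :=
  hyp_sys hB (fun _ hz => hBU hz) S.pos S.lim (fun n => (S.sm n).mono hBU)
    (fun n z hz => S.eq n z (hBU hz)) (fun φ hφ k => S.qe φ (tfB hBU hφ) k)

/-- local boundedness of the fourth moments on `B` -/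
def BdB (B : Set ℂ) (f : ℕ → ℂ → ℝ) : Prop :=
  ∀ K : Set ℂ, IsCompact K → K ⊆ B → ∃ C : ℝ, ∀ᶠ n in atTop, ∫ z in K, f n z ^ 4 ≤ C

lemma BdB.b4 {B : Set ℂ} (H : BdB B f) : Bd4 B (WL lam f 0) := by
  intro K hK hKU
  obtain ⟨C, hC⟩ := H K hK hKU
  refine ⟨C, hC.mono fun n hn => ?_⟩
  refine le_trans (le_of_eq ?_) hn
  congr 1; funext z
  rw [WL0, Complex.norm_real, Real.norm_eq_abs]
  exact (show Even 4 by decide).pow_abs _

/-- the identity at a fixed scale on `B` -/
lemma idB (hID : S_ID) (S : Seq lam f) {B : Set ℂ} (hB : IsOpen B) (hBU : B ⊆ UH)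
    (H : BdB B f) {φ : ℂ → ℝ} (hφ : TF B φ) {R : ℝ} (hR : 0 < R) :
    Tendsto (fun n => (∫ z, φ z * AR R (lam n) (f n) z ^ 2) -
      eR R * ((∫ z, φ z * f n z ^ 4) - 3 * ∫ z, φ z)) atTop (𝓝 (gR R * ∫ z, φ z)) := by
  obtain ⟨S1, S2⟩ := sysB hB hBU S
  have key := hID B (hh lam) (WL lam f) S1 hBU S2 H.b4 φ hφ R hR
  refine toR ?_
  rw [ofReal_mul]
  refine key.congr fun n => ?_
  have e1 : ∫ z, (φ z : ℂ) * (AV (hh lam) (WL lam f 0) R n z * AV (hh lam) (WL lam f 0) R n z) =
      ((∫ z, φ z * AR R (lam n) (f n) z ^ 2 : ℝ) : ℂ) := by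
    rw [← integral_complex_ofReal]
    congr 1; funext z
    rw [AV_AR]
    push_cast; ring
  rw [e1, F4_r]
  push_cast; ring

/-- the lower bound when the fourth moments are bounded on `B` -/
lemma lowB (hID : S_ID) (S : Seq lam f) {B : Set ℂ} (hB : IsOpen B) (hBU : B ⊆ UH)
    (H : BdB B f) {χ : ℂ → ℝ} (hχ : TF B χ) (hχ0 : ∀ z, 0 ≤ χ z) {R : ℝ} (hR : 0 < R) {ε : ℝ}
    (hε : 0 < ε) :
    ∀ᶠ n in atTop, gR R * (∫ z, χ z) - ε ≤ ∫ z, χ z * AR R (lam n) (f n) z ^ 2 := by
  have he := eR_pos R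
  have he0 : 0 < eR R := by linarith
  have h1 := (idB hID S hB hBU H hχ hR).eventually (lt_mem_nhds (show gR R * (∫ z, χ z) - ε / 2 <
    gR R * ∫ z, χ z by linarith))
  have h2 := low S (tfB hBU hχ) hχ0 (ε := ε / (2 * eR R)) (by positivity)
  filter_upwards [h1, h2] with n a b
  have h3 : eR R * (-(ε / (2 * eR R))) ≤ eR R * ((∫ z, χ z * f n z ^ 4) - 3 * ∫ z, χ z) :=
    mul_le_mul_of_nonneg_left (by linarith) he0.le
  have h4 : eR R * (-(ε / (2 * eR R))) = -(ε / 2) := by
    field_simp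
  linarith

/-- bounded mean squares of the local mass where `φ > 0` bound the fourth moments there -/
lemma bdB (S : Seq lam f) {φ : ℂ → ℝ} (hφ : TF UH φ) (hφ0 : ∀ z, 0 ≤ φ z) {R : ℝ} (hR : 0 < R)
    {M : ℝ} (hM : ∀ᶠ n in atTop, ∫ z, φ z * AR R (lam n) (f n) z ^ 2 ≤ M) :
    BdB {z | 0 < φ z} f := by
  have hφc := hφ.1.continuous
  have hB : IsOpen {z | 0 < φ z} := isOpen_lt continuous_const hφc
  have hBU : {z | 0 < φ z} ⊆ UH := fun z hz => by
    by_contra h
    have h1 : 0 < φ z := hz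
    rw [TF.zero hφ h] at h1
    exact lt_irrefl _ h1
  intro K hK hKB
  obtain ⟨ψ, hψ, hψ0, hell⟩ := ellB hB hBU K hK hKB
  obtain ⟨C, hC⟩ := hell lam S.pos S.lim f S.sm S.eq R hR
  -- comparison of the test functions
  obtain ⟨m, hm0, hm⟩ := hψ.2.1.isCompact.exists_forall_le' hφc.continuousOn (a := (0 : ℝ))
    (fun z hz => hψ.2.2 hz)
  obtain ⟨A, hA⟩ := hψ.2.1.isCompact.exists_bound_of_continuousOn hψ.1.continuous.continuousOn
  set c : ℝ := |A| / m with hc
  have hc0 : 0 ≤ c := by positivity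
  have hcmp : ∀ z, ψ z ≤ c * φ z := by
    intro z
    by_cases hz : z ∈ tsupport ψ
    · have h1 := (le_abs_self _).trans (hA z hz)
      have h2 := le_abs_self A
      have h3 := hm z hz
      calc ψ z ≤ |A| := h1.trans h2
        _ = c * m := by rw [hc]; field_simp
        _ ≤ c * φ z := mul_le_mul_of_nonneg_left h3 hc0
    · rw [image_eq_zero_of_notMem_tsupport hz]
      exact mul_nonneg hc0 (hφ0 z)
  refine ⟨|C| * (c * |M|), ?_⟩
  filter_upwards [hC, hM, AR_cont S hR] with n h1 h2 h3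
  have i1 : Integrable (fun z => ψ z * AR R (lam n) (f n) z ^ 2) := int_tf (tfB hBU hψ) (h3.pow 2)
  have i2 : Integrable (fun z => φ z * AR R (lam n) (f n) z ^ 2) := int_tf hφ (h3.pow 2)
  have h4 : ∫ z, ψ z * AR R (lam n) (f n) z ^ 2 ≤ c * ∫ z, φ z * AR R (lam n) (f n) z ^ 2 := by
    rw [← integral_const_mul]
    refine integral_mono i1 (i2.const_mul c) fun z => ?_
    have := mul_le_mul_of_nonneg_right (hcmp z) (sq_nonneg (AR R (lam n) (f n) z))
    simp only
    linarith
  have h5 : 0 ≤ ∫ z, ψ z * AR R (lam n) (f n) z ^ 2 :=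
    integral_nonneg fun z => mul_nonneg (hψ0 z) (sq_nonneg _)
  calc ∫ z in K, f n z ^ 4 ≤ C * ∫ z, ψ z * AR R (lam n) (f n) z ^ 2 := h1
    _ ≤ |C| * ∫ z, ψ z * AR R (lam n) (f n) z ^ 2 :=
        mul_le_mul_of_nonneg_right (le_abs_self C) h5
    _ ≤ |C| * (c * |M|) := by
        apply mul_le_mul_of_nonneg_left _ (abs_nonneg _)
        refine h4.trans (mul_le_mul_of_nonneg_left (h2.trans (le_abs_self M)) hc0)

/-- cutting off the small values -/
lemma trunc {φ : ℂ → ℝ} (hφ : TF UH φ) (hφ0 : ∀ z, 0 ≤ φ z) {ε : ℝ} (hε : 0 < ε) :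
    ∃ χ, TF {z | 0 < φ z} χ ∧ (∀ z, 0 ≤ χ z) ∧ (∀ z, χ z ≤ φ z) ∧ (∫ z, φ z) - ε ≤ ∫ z, χ z := by
  have hφc := hφ.1.continuous
  have hKc : IsCompact (tsupport φ) := hφ.2.1.isCompact
  set V : ℝ := (volume (tsupport φ)).toReal with hV
  have hV0 : 0 ≤ V := ENNReal.toReal_nonneg
  set η : ℝ := ε / (2 * (V + 1)) with hη
  have hη0 : 0 < η := by positivity
  set χ : ℂ → ℝ := fun z => φ z * Real.smoothTransition (φ z / η - 1) with hχ
  have hs0 : ∀ x, 0 ≤ Real.smoothTransition x := Real.smoothTransition.nonneg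
  have hs1 : ∀ x, Real.smoothTransition x ≤ 1 := Real.smoothTransition.le_one
  have hsupp : Function.support χ ⊆ {z | η ≤ φ z} := by
    intro z hz
    by_contra h
    rw [Set.mem_ofPred_eq, not_le] at h
    apply hz
    have h1 : φ z / η - 1 ≤ 0 := by
      rw [sub_nonpos, div_le_one hη0]
      exact h.le
    simp only [hχ, Real.smoothTransition.zero_of_nonpos h1, mul_zero]
  have hts : tsupport χ ⊆ {z | η ≤ φ z} :=
    closure_minimal hsupp (isClosed_le continuous_const hφc)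
  have hχs : ContDiff ℝ ∞ χ :=
    hφ.1.mul (Real.smoothTransition.contDiff.comp ((hφ.1.div_const _).sub contDiff_const))
  have hχT : TF {z | 0 < φ z} χ :=
    ⟨hχs, hφ.2.1.mul_right, hts.trans fun z (hz : η ≤ φ z) => hη0.trans_le hz⟩
  have hχ0 : ∀ z, 0 ≤ χ z := fun z => mul_nonneg (hφ0 z) (hs0 _)
  have hχ1 : ∀ z, χ z ≤ φ z := fun z => mul_le_of_le_one_right (hφ0 z) (hs1 _)
  refine ⟨χ, hχT, hχ0, hχ1, ?_⟩
  have i1 : Integrable φ := hφc.integrable_of_hasCompactSupport hφ.2.1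
  have i2 : Integrable χ := hχs.continuous.integrable_of_hasCompactSupport hχT.2.1
  have hVf : volume (tsupport φ) ≠ ⊤ := hKc.measure_lt_top.ne
  have i3 : Integrable ((tsupport φ).indicator fun _ : ℂ => 2 * η) :=
    (integrable_indicator_iff hKc.measurableSet).2 (integrableOn_const hVf)
  have h1 : (∫ z, φ z) - ∫ z, χ z ≤ ∫ z, (tsupport φ).indicator (fun _ : ℂ => 2 * η) z := by
    rw [← integral_sub i1 i2]
    refine integral_mono (i1.sub i2) i3 fun z => ?_
    by_cases hz : z ∈ tsupport φ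
    · rw [Set.indicator_of_mem hz]
      simp only [hχ]
      by_cases h2 : 2 * η ≤ φ z
      · have h3 : 1 ≤ φ z / η - 1 := by
          rw [le_sub_iff_add_le, le_div_iff₀ hη0]
          linarith
        rw [Real.smoothTransition.one_of_one_le h3]
        linarith
      · have := hχ0 z
        simp only [hχ] at this
        linarith [not_le.1 h2]
    · rw [Set.indicator_of_notMem hz]
      simp only [hχ]
      rw [image_eq_zero_of_notMem_tsupport hz]
      simp
  have h2 : ∫ z, (tsupport φ).indicator (fun _ : ℂ => 2 * η) z = V * (2 * η) := by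
    rw [integral_indicator hKc.measurableSet, setIntegral_const, smul_eq_mul]
    rfl
  have h3 : V * (2 * η) ≤ ε := by
    rw [hη]
    have : V * (2 * (ε / (2 * (V + 1)))) = (V / (V + 1)) * ε := by field_simp
    rw [this]
    apply mul_le_of_le_one_left hε.le
    rw [div_le_one (by positivity)]
    linarith
  rw [h2] at h1
  linarith

/-- **the unconditional lower bound** -/
theorem var_low (hID : S_ID) (hGR : S_GR) (S : Seq lam f) {φ : ℂ → ℝ} (hφ : TF UH φ)
    (hφ0 : ∀ z, 0 ≤ φ z) {R : ℝ} (hR : 0 < R) {ε : ℝ} (hε : 0 < ε) :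
    ∀ᶠ n in atTop, gR R * (∫ z, φ z) - ε ≤ ∫ z, φ z * AR R (lam n) (f n) z ^ 2 := by
  by_contra hcon
  rw [not_eventually] at hcon
  obtain ⟨σ, hσ, hn⟩ := extraction_of_frequently_atTop hcon
  have S' := seq_sub S hσ
  have hg : 1 ≤ gR R := hGR.2 R
  have hφc := hφ.1.continuous
  have hB : IsOpen {z | 0 < φ z} := isOpen_lt continuous_const hφc
  have hBU : {z | 0 < φ z} ⊆ UH := fun z hz => by
    by_contra h
    have h1 : 0 < φ z := hz
    rw [TF.zero hφ h] at h1
    exact lt_irrefl _ h1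
  have hb : BdB {z | 0 < φ z} (fun n => f (σ n)) := bdB S' hφ hφ0 hR
    (M := gR R * (∫ z, φ z) - ε) (Eventually.of_forall fun n => (not_le.1 (hn n)).le)
  obtain ⟨χ, hχ, hχ0, hχ1, hχi⟩ := trunc hφ hφ0 (ε := ε / (4 * gR R)) (by positivity)
  have h1 := lowB hID S' hB hBU hb hχ hχ0 hR (ε := ε / 4) (by positivity)
  obtain ⟨n, h2, h3⟩ := (h1.and (AR_cont S' hR)).exists
  have h4 := not_le.1 (hn n)
  have i1 : Integrable (fun z => χ z * AR R (lam (σ n)) (f (σ n)) z ^ 2) :=
    int_tf (tfB hBU hχ) (h3.pow 2)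
  have i2 : Integrable (fun z => φ z * AR R (lam (σ n)) (f (σ n)) z ^ 2) := int_tf hφ (h3.pow 2)
  have h5 : ∫ z, χ z * AR R (lam (σ n)) (f (σ n)) z ^ 2 ≤
      ∫ z, φ z * AR R (lam (σ n)) (f (σ n)) z ^ 2 := by
    refine integral_mono i1 i2 fun z => ?_
    exact mul_le_mul_of_nonneg_right (hχ1 z) (sq_nonneg _)
  have h6 : gR R * ((∫ z, φ z) - ε / (4 * gR R)) ≤ gR R * ∫ z, χ z :=
    mul_le_mul_of_nonneg_left hχi (by linarith)
  have h7 : gR R * ((∫ z, φ z) - ε / (4 * gR R)) = gR R * (∫ z, φ z) - ε / 4 := by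
    have : gR R ≠ 0 := by linarith
    field_simp
  linarith

end VarL

end

end Pool.Agent.Helper93K9.PE
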