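import Pool.Agent.Helper93K9.PE.Var
import Pool.Agent.Helper93K9.PE.Gr

/-! Project PE (helper93): the extremal case of the lower bound for the local mass. -/

set_option autoImplicit false
open MeasureTheory Filter Topology Complex
open scoped ContDiff

namespace Pool.Agent.Helper93K9.PE

open Pool.Agent.W745.RW Pool.Agent.TH294.RS Pool.Agent.Y265.HY

noncomputable section

namespace VarL

open FinL

variable {lam : ℕ → ℝ} {f : ℕ → ℂ → ℝ}

lemma tf_int {B : Set ℂ} {φ : ℂ → ℝ} (hφ : TF B φ) : Integrable φ :=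
  hφ.1.continuous.integrable_of_hasCompactSupport hφ.2.1

lemma tf_lin {B : Set ℂ} {φ ζ : ℂ → ℝ} (hζ : TF B ζ) (hφ : TF B φ) (c : ℝ) :
    TF B (fun z => c * ζ z - φ z) := by
  have t1 : TF B (fun z => c * ζ z) := by
    refine ⟨contDiff_const.mul hζ.1, hζ.2.1.mul_left, ?_⟩
    exact (tsupport_mul_subset_right).trans hζ.2.2
  refine ⟨t1.1.sub hφ.1, t1.2.1.sub hφ.2.1, ?_⟩
  exact (tsupport_sub _ _).trans (Set.union_subset t1.2.2 hφ.2.2)

/-- comparison with a function which is positive on the support -/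
lemma cmp {φ ψ : ℂ → ℝ} (hφc : Continuous φ) (hφ0 : ∀ z, 0 ≤ φ z) (hψ : TF {z | 0 < φ z} ψ) :
    ∃ c : ℝ, 0 ≤ c ∧ ∀ z, |ψ z| ≤ c * φ z := by
  obtain ⟨m, hm0, hm⟩ := hψ.2.1.isCompact.exists_forall_le' hφc.continuousOn (a := (0 : ℝ))
    (fun z hz => hψ.2.2 hz)
  obtain ⟨A, hA⟩ := hψ.2.1.isCompact.exists_bound_of_continuousOn hψ.1.continuous.continuousOn
  refine ⟨|A| / m, by positivity, fun z => ?_⟩
  by_cases hz : z ∈ tsupport ψ
  · have h1 : |ψ z| ≤ A := hA z hz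
    have h2 := le_abs_self A
    have h3 := hm z hz
    calc |ψ z| ≤ |A| := h1.trans h2
      _ = |A| / m * m := by field_simp
      _ ≤ |A| / m * φ z := mul_le_mul_of_nonneg_left h3 (by positivity)
  · rw [image_eq_zero_of_notMem_tsupport hz, abs_zero]
    exact mul_nonneg (by positivity) (hφ0 z)

/-- from nonnegative test functions to all -/
lemma all_of_nonneg {B : Set ℂ} (hB : IsOpen B) (hBU : B ⊆ UH) (S : Seq lam f)
    (H : ∀ φ, TF B φ → (∀ z, 0 ≤ φ z) →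
      Tendsto (fun n => ∫ z, φ z * f n z ^ 4) atTop (𝓝 (3 * ∫ z, φ z))) :
    ∀ φ, TF B φ → Tendsto (fun n => ∫ z, φ z * f n z ^ 4) atTop (𝓝 (3 * ∫ z, φ z)) := by
  intro φ hφ
  obtain ⟨ζ, hζ, hζ0, -, hζ1⟩ := Pool.Agent.Y265.RW.cutoff hB hφ.2.1 hφ.2.2
  obtain ⟨M', hM'⟩ := hφ.2.1.isCompact.exists_bound_of_continuousOn hφ.1.continuous.continuousOn
  set M := max M' 0 with hM
  have hM0 : 0 ≤ M := le_max_right _ _
  have hb : ∀ z, |φ z| ≤ M * ζ z := by
    intro z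
    by_cases hz : z ∈ tsupport φ
    · rw [hζ1 z hz, mul_one]
      exact (hM' z hz).trans (le_max_left _ _)
    · rw [image_eq_zero_of_notMem_tsupport hz, abs_zero]
      exact mul_nonneg hM0 (hζ0 z)
  have t1 : TF B (fun z => M * ζ z) := by
    refine ⟨contDiff_const.mul hζ.1, hζ.2.1.mul_left, ?_⟩
    exact (tsupport_mul_subset_right).trans hζ.2.2
  have t2 := tf_lin hζ hφ M
  have h1 := H _ t1 fun z => mul_nonneg hM0 (hζ0 z)
  have h2 := H _ t2 fun z => by have := (abs_le.1 (hb z)).2; linarith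
  have h3 := h1.sub h2
  have e1 : 3 * (∫ z, M * ζ z) - 3 * (∫ z, (M * ζ z - φ z)) = 3 * ∫ z, φ z := by
    rw [integral_sub (tf_int t1) (tf_int hφ)]; ring
  rw [e1] at h3
  refine h3.congr fun n => ?_
  rw [← integral_sub (int_f4 S (tfB hBU t1) n) (int_f4 S (tfB hBU t2) n)]
  congr 1; funext z; ring

lemma posU {φ : ℂ → ℝ} (hφ : TF UH φ) : {z | 0 < φ z} ⊆ UH := fun z hz => by
  by_contra h
  have h1 : 0 < φ z := hz
  rw [TF.zero hφ h] at h1
  exact lt_irrefl _ h1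

/-- **the extremal case** -/
theorem rig (hID : S_ID) (hGR : S_GR) (S : Seq lam f) {φ : ℂ → ℝ} (hφ : TF UH φ)
    (hφ0 : ∀ z, 0 ≤ φ z) {R : ℝ} (hR : 0 < R)
    (H : ∀ ε : ℝ, 0 < ε → ∀ᶠ n in atTop, ∫ z, φ z * AR R (lam n) (f n) z ^ 2 ≤
      gR R * (∫ z, φ z) + ε) :
    ∀ χ, TF {z | 0 < φ z} χ →
      Tendsto (fun n => ∫ z, χ z * f n z ^ 4) atTop (𝓝 (3 * ∫ z, χ z)) := by
  have hφc := hφ.1.continuous
  have hB : IsOpen {z | 0 < φ z} := isOpen_lt continuous_const hφc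
  have hBU := posU hφ
  have hb : BdB {z | 0 < φ z} f := bdB S hφ hφ0 hR (H 1 one_pos)
  refine all_of_nonneg hB hBU S fun χ hχ hχ0 => ?_
  obtain ⟨c, hc0, hc⟩ := cmp hφc hφ0 hχ
  have hχU := tfB hBU hχ
  have t2 : TF UH (fun z => c * φ z - χ z) := tf_lin hφ hχU c
  have t20 : ∀ z, 0 ≤ c * φ z - χ z := fun z => by
    have := (le_abs_self _).trans (hc z)
    linarith
  have key : Tendsto (fun n => ∫ z, χ z * AR R (lam n) (f n) z ^ 2) atTop
      (𝓝 (gR R * ∫ z, χ z)) := by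
    rw [Metric.tendsto_atTop']
    intro ε hε
    have hδ : 0 < ε / (2 * (c + 1)) := by positivity
    have a1 := H _ hδ
    have a2 := var_low hID hGR S t2 t20 hR (ε := ε / 4) (by positivity)
    have a3 := var_low hID hGR S hχU hχ0 hR (ε := ε / 4) (by positivity)
    have a4 := AR_cont S hR
    obtain ⟨N, hN⟩ := eventually_atTop.1 ((a1.and a2).and (a3.and a4))
    refine ⟨N, fun n hn => ?_⟩
    obtain ⟨⟨b1, b2⟩, b3, b4⟩ := hN n hn.le
    have i1 : Integrable (fun z => φ z * AR R (lam n) (f n) z ^ 2) := int_tf hφ (b4.pow 2)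
    have i2 : Integrable (fun z => χ z * AR R (lam n) (f n) z ^ 2) := int_tf hχU (b4.pow 2)
    have e1 : ∫ z, (c * φ z - χ z) * AR R (lam n) (f n) z ^ 2 =
        c * (∫ z, φ z * AR R (lam n) (f n) z ^ 2) - ∫ z, χ z * AR R (lam n) (f n) z ^ 2 := by
      rw [← integral_const_mul, ← integral_sub (i1.const_mul c) i2]
      congr 1; funext z; ring
    have e2 : ∫ z, (c * φ z - χ z) = c * (∫ z, φ z) - ∫ z, χ z := by
      rw [integral_sub ((tf_int hφ).const_mul c) (tf_int hχ), integral_const_mul]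
    rw [e1, e2] at b2
    have h5 : c * (∫ z, φ z * AR R (lam n) (f n) z ^ 2) ≤
        c * (gR R * (∫ z, φ z) + ε / (2 * (c + 1))) := mul_le_mul_of_nonneg_left b1 hc0
    have h6 : c * (ε / (2 * (c + 1))) ≤ ε / 2 := by
      have : c * (ε / (2 * (c + 1))) = (c / (c + 1)) * (ε / 2) := by field_simp
      rw [this]
      apply mul_le_of_le_one_left (by positivity)
      rw [div_le_one (by positivity)]
      linarith
    rw [Real.dist_eq, abs_lt]
    constructor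
    · linarith
    · have : c * (gR R * (∫ z, φ z) + ε / (2 * (c + 1))) =
          gR R * (c * ∫ z, φ z) + c * (ε / (2 * (c + 1))) := by ring
      have h7 : gR R * (c * (∫ z, φ z) - ∫ z, χ z) =
          gR R * (c * ∫ z, φ z) - gR R * ∫ z, χ z := by ring
      linarith
  have h1 := key.sub (idB hID S hB hBU hb hχ hR)
  rw [sub_self] at h1
  have h3 := (h1.div_const (eR R)).add_const (3 * ∫ z, χ z)
  rw [zero_div, zero_add] at h3
  have e0 : eR R ≠ 0 := by have := eR_pos R; linarith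
  refine h3.congr fun n => ?_
  field_simp
  ring

/-- the three properties on an open set -/
def M4B (B : Set ℂ) (f : ℕ → ℂ → ℝ) : Prop :=
  ∀ φ, TF B φ → Tendsto (fun n => ∫ z, φ z * f n z ^ 4) atTop (𝓝 (3 * ∫ z, φ z))

def VRB (B : Set ℂ) (lam : ℕ → ℝ) (f : ℕ → ℂ → ℝ) (R : ℝ) : Prop :=
  ∀ φ, TF B φ → Tendsto (fun n => ∫ z, φ z * (AR R (lam n) (f n) z - 1) ^ 2) atTop
    (𝓝 ((gR R - 1) * ∫ z, φ z))

def VUB (B : Set ℂ) (lam : ℕ → ℝ) (f : ℕ → ℂ → ℝ) (R : ℝ) : Prop :=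
  ∀ φ, TF B φ → (∀ z, 0 ≤ φ z) → ∀ ε : ℝ, 0 < ε → ∀ᶠ n in atTop,
    ∫ z, φ z * (AR R (lam n) (f n) z - 1) ^ 2 ≤ (gR R - 1) * (∫ z, φ z) + ε

/-- second moment and variance -/
lemma var_eq (hFM : S_FM) (S : Seq lam f) {φ : ℂ → ℝ} (hφ : TF UH φ) {R : ℝ} (hR : 0 < R) :
    Tendsto (fun n => (∫ z, φ z * (AR R (lam n) (f n) z - 1) ^ 2) -
      ((∫ z, φ z * AR R (lam n) (f n) z ^ 2) - ∫ z, φ z)) atTop (𝓝 0) := by
  have h1 := fmr hFM S hφ hR
  have h2 : Tendsto (fun n => -2 * (∫ z, φ z * AR R (lam n) (f n) z) + 2 * ∫ z, φ z) atTop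
      (𝓝 (-2 * (∫ z, φ z) + 2 * ∫ z, φ z)) := (h1.const_mul (-2)).add_const _
  rw [show -2 * (∫ z, φ z) + 2 * (∫ z, φ z) = 0 by ring] at h2
  refine h2.congr' ?_
  filter_upwards [dev S hφ hR] with n hn
  rw [hn]; ring

theorem var_ge (hID : S_ID) (hGR : S_GR) (hFM : S_FM) (S : Seq lam f) {φ : ℂ → ℝ} (hφ : TF UH φ)
    (hφ0 : ∀ z, 0 ≤ φ z) {R : ℝ} (hR : 0 < R) {ε : ℝ} (hε : 0 < ε) :
    ∀ᶠ n in atTop, (gR R - 1) * (∫ z, φ z) - ε ≤
      ∫ z, φ z * (AR R (lam n) (f n) z - 1) ^ 2 := by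
  filter_upwards [var_low hID hGR S hφ hφ0 hR (half_pos hε),
    (var_eq hFM S hφ hR).eventually (lt_mem_nhds (show -(ε / 2) < 0 by linarith))] with n a b
  linarith

theorem rig2 (hID : S_ID) (hGR : S_GR) (hFM : S_FM) (S : Seq lam f) {φ : ℂ → ℝ} (hφ : TF UH φ)
    (hφ0 : ∀ z, 0 ≤ φ z) {R : ℝ} (hR : 0 < R)
    (H : ∀ ε : ℝ, 0 < ε → ∀ᶠ n in atTop, ∫ z, φ z * (AR R (lam n) (f n) z - 1) ^ 2 ≤
      (gR R - 1) * (∫ z, φ z) + ε) : M4B {z | 0 < φ z} f := by
  refine rig hID hGR S hφ hφ0 hR fun ε hε => ?_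
  filter_upwards [H _ (half_pos hε),
    (var_eq hFM S hφ hR).eventually (lt_mem_nhds (show -(ε / 2) < 0 by linarith))] with n a b
  linarith

/-- bounded fourth moments from their convergence -/
lemma M4B.bd {B : Set ℂ} (hB : IsOpen B) (hBU : B ⊆ UH) (S : Seq lam f) (H : M4B B f) :
    BdB B f := by
  intro K hK hKU
  obtain ⟨ζ, hζ, hζ0, -, hζ1⟩ := Pool.Agent.Y265.RW.cutoff hB hK hKU
  refine ⟨3 * (∫ z, ζ z) + 1, ?_⟩
  filter_upwards [(H ζ hζ).eventually (ge_mem_nhds (lt_add_one _))] with n hn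
  calc ∫ z in K, f n z ^ 4 = ∫ z in K, ζ z * f n z ^ 4 := by
        refine setIntegral_congr_fun hK.measurableSet fun z hz => ?_
        simp only [hζ1 z hz, one_mul]
    _ ≤ ∫ z, ζ z * f n z ^ 4 := setIntegral_le_integral (int_f4 S (tfB hBU hζ) n)
        (Eventually.of_forall fun z => by
          have := hζ0 z
          simp only [Pi.zero_apply]; positivity)
    _ ≤ _ := hn

/-- **Gaussian fourth moments are the extremal case** -/
theorem tfaeV (hID : S_ID) (hGR : S_GR) (hFM : S_FM) (S : Seq lam f) {B : Set ℂ} (hB : IsOpen B)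
    (hBU : B ⊆ UH) : List.TFAE [M4B B f, ∀ R : ℝ, 0 < R → VRB B lam f R,
      ∃ R : ℝ, 0 < R ∧ VUB B lam f R] := by
  tfae_have 1 → 2 := by
    intro H R hR φ hφ
    have h1 := idB hID S hB hBU (H.bd hB hBU S) hφ hR
    have h2 := ((H φ hφ).sub_const (3 * ∫ z, φ z)).const_mul (eR R)
    rw [sub_self, mul_zero] at h2
    have h3 := (h1.add h2).add (var_eq hFM S (tfB hBU hφ) hR)
    have h4 := h3.sub_const (∫ z, φ z)
    rw [show gR R * (∫ z, φ z) + 0 + 0 - (∫ z, φ z) = (gR R - 1) * ∫ z, φ z by ring] at h4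
    refine h4.congr fun n => ?_
    ring
  tfae_have 2 → 3 := by
    intro H
    refine ⟨1, one_pos, fun φ hφ _ ε hε => ?_⟩
    exact (H 1 one_pos φ hφ).eventually (ge_mem_nhds (lt_add_of_pos_right _ hε))
  tfae_have 3 → 1 := by
    rintro ⟨R, hR, H⟩ χ hχ
    obtain ⟨ζ, hζ, hζ0, -, hζ1⟩ := Pool.Agent.Y265.RW.cutoff hB hχ.2.1 hχ.2.2
    refine rig2 hID hGR hFM S (tfB hBU hζ) hζ0 hR (H ζ hζ hζ0) χ ⟨hχ.1, hχ.2.1, fun z hz => ?_⟩
    show 0 < ζ z
    rw [hζ1 z hz]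
    exact one_pos
  tfae_finish

/-- bounded mean squares -/
def BRB (B : Set ℂ) (lam : ℕ → ℝ) (f : ℕ → ℂ → ℝ) (R : ℝ) : Prop :=
  ∀ φ, TF B φ → (∀ z, 0 ≤ φ z) → ∃ C : ℝ, ∀ᶠ n in atTop,
    ∫ z, φ z * (AR R (lam n) (f n) z - 1) ^ 2 ≤ C

theorem tfaeB (hID : S_ID) (hFM : S_FM) (S : Seq lam f) {B : Set ℂ} (hB : IsOpen B)
    (hBU : B ⊆ UH) : List.TFAE [BdB B f, ∀ R : ℝ, 0 < R → BRB B lam f R,
      ∃ R : ℝ, 0 < R ∧ BRB B lam f R] := by
  tfae_have 1 → 2 := by
    intro H R hR φ hφ hφ0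
    have h1 := idB hID S hB hBU H hφ hR
    have h2 := var_eq hFM S (tfB hBU hφ) hR
    obtain ⟨C, hC⟩ := H _ hφ.2.1.isCompact hφ.2.2
    obtain ⟨A, hA⟩ := hφ.2.1.isCompact.exists_bound_of_continuousOn hφ.1.continuous.continuousOn
    have he := eR_pos R
    refine ⟨eR R * (|A| * C) + (eR R * (-(3 * ∫ z, φ z)) + gR R * (∫ z, φ z) + 1) - (∫ z, φ z) + 1,
      ?_⟩
    filter_upwards [hC, h1.eventually (ge_mem_nhds (lt_add_one _)),
      h2.eventually (ge_mem_nhds (show (0 : ℝ) < 1 by norm_num))] with n a b c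
    have h3 : ∫ z, φ z * f n z ^ 4 ≤ |A| * C := by
      calc ∫ z, φ z * f n z ^ 4 = ∫ z in tsupport φ, φ z * f n z ^ 4 := by
            refine (setIntegral_eq_integral_of_forall_compl_eq_zero fun z hz => ?_).symm
            rw [image_eq_zero_of_notMem_tsupport hz]; simp
        _ ≤ ∫ z in tsupport φ, |A| * f n z ^ 4 := by
            apply setIntegral_mono_on (int_f4 S (tfB hBU hφ) n).integrableOn
            · exact ((((S.sm n).continuousOn.mono (hφ.2.2.trans hBU)).pow 4).integrableOn_compact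
                hφ.2.1.isCompact).const_mul _
            · exact hφ.2.1.isCompact.measurableSet
            · intro z hz
              apply mul_le_mul_of_nonneg_right _ (by positivity)
              exact (le_abs_self _).trans ((hA z hz).trans (le_abs_self A))
        _ = |A| * ∫ z in tsupport φ, f n z ^ 4 := integral_const_mul _ _
        _ ≤ |A| * C := mul_le_mul_of_nonneg_left a (abs_nonneg _)
    have h4 : eR R * (∫ z, φ z * f n z ^ 4) ≤ eR R * (|A| * C) :=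
      mul_le_mul_of_nonneg_left h3 (by linarith)
    linarith
  tfae_have 2 → 3 := fun H => ⟨1, one_pos, H 1 one_pos⟩
  tfae_have 3 → 1 := by
    rintro ⟨R, hR, H⟩ K hK hKB
    obtain ⟨ζ, hζ, hζ0, -, hζ1⟩ := Pool.Agent.Y265.RW.cutoff hB hK hKB
    obtain ⟨C, hC⟩ := H ζ hζ hζ0
    have h2 := var_eq hFM S (tfB hBU hζ) hR
    refine bdB S (tfB hBU hζ) hζ0 hR (M := C + (∫ z, ζ z) + 1) ?_ K hK fun z hz => ?_
    · filter_upwards [hC, h2.eventually (lt_mem_nhds (show (-1 : ℝ) < 0 by norm_num))] with n a b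
      linarith
    · show 0 < ζ z
      rw [hζ1 z hz]
      exact one_pos
  tfae_finish

open Pool.Agent.TH294.RG in
lemma jj_half {y : ℝ} (hy : |y| ≤ 1) : 1 / 2 ≤ jj y := by
  unfold jj Pool.Agent.TH294.RG.JJ
  have h1 : ∫ _w : ℂ, (1 / 2 : ℝ) ∂dm = 1 / 2 := by simp
  rw [← h1]
  apply integral_mono_ae (integrable_const _)
  · refine Integrable.of_bound (C := 1) (by fun_prop) (ae_of_all _ fun w => ?_)
    rw [Real.norm_eq_abs]
    exact Real.abs_cos_le_one _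
  · filter_upwards [dm_ae] with w hw
    have h2 := Real.one_sub_sq_div_two_le_cos (x := y * w.re)
    have h3 : |w.re| ≤ 1 := (Complex.abs_re_le_norm w).trans hw.le
    have h4 : |y * w.re| ≤ 1 := by
      rw [abs_mul]
      exact mul_le_one₀ hy (abs_nonneg _) h3
    have h5 : (y * w.re) ^ 2 ≤ 1 := by
      rw [← sq_abs]
      exact pow_le_one₀ (abs_nonneg _) h4
    linarith

/-- the lower bound for the random wave is positive -/
theorem gR_low {R : ℝ} (hR : 0 < R) : min 1 (1 / R) / 13 ≤ gR R - 1 := by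
  set a : ℝ := min 1 (1 / R) with ha
  have ha0 : 0 < a := by positivity
  have ha1 : a ≤ 1 := min_le_left _ _
  have haR : R * a ≤ 1 := by
    have : a ≤ 1 / R := min_le_right _ _
    rwa [le_div_iff₀ hR, mul_comm] at this
  have hpi := Real.pi_gt_three
  have hpi2 := Real.pi_lt_d2
  have hc := GrL.cont_aux JJ_cont R
  set g : ℝ → ℝ := fun θ => jj (R * √(2 - 2 * Real.cos θ)) ^ 2 with hg
  have hgc : Continuous g := hc
  have h1 : ∫ θ in (0 : ℝ)..a, (1 / 4 : ℝ) ≤ ∫ θ in (0 : ℝ)..a, g θ := by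
    apply intervalIntegral.integral_mono_on ha0.le (by simp) (hgc.intervalIntegrable _ _)
    intro θ hθ
    have h2 : √(2 - 2 * Real.cos θ) ≤ θ := by
      rw [Real.sqrt_le_left hθ.1]
      have := Real.one_sub_sq_div_two_le_cos (x := θ)
      linarith
    have h3 : |R * √(2 - 2 * Real.cos θ)| ≤ 1 := by
      rw [abs_of_nonneg (by positivity)]
      calc R * √(2 - 2 * Real.cos θ) ≤ R * a := by
            apply mul_le_mul_of_nonneg_left (h2.trans hθ.2) hR.le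
        _ ≤ 1 := haR
    have h4 := jj_half h3
    simp only [hg]
    nlinarith
  have h2 : ∫ θ in (0 : ℝ)..a, g θ ≤ ∫ θ in (0 : ℝ)..(2 * Real.pi), g θ := by
    apply intervalIntegral.integral_mono_interval le_rfl ha0.le (by linarith)
    · exact ae_of_all _ fun θ => sq_nonneg _
    · exact hgc.intervalIntegrable _ _
  rw [intervalIntegral.integral_const, smul_eq_mul, sub_zero] at h1
  have h3 : gR R - 1 = 1 / Real.pi * ∫ θ in (0 : ℝ)..(2 * Real.pi), g θ := by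
    unfold gR
    ring
  rw [h3]
  have h4 : a * (1 / 4) ≤ ∫ θ in (0 : ℝ)..(2 * Real.pi), g θ := h1.trans h2
  calc a / 13 ≤ 1 / Real.pi * (a * (1 / 4)) := by
        rw [div_le_iff₀ (by norm_num)]
        rw [show 1 / Real.pi * (a * (1 / 4)) * 13 = a * (13 / (4 * Real.pi)) by field_simp]
        apply le_mul_of_one_le_right ha0.le
        rw [one_le_div (by positivity)]
        linarith
    _ ≤ _ := mul_le_mul_of_nonneg_left h4 (by positivity)

end VarL

end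

end Pool.Agent.Helper93K9.PE
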